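import Pool.Agent.Helper20.DN.S5

/-!
# Project DN, step 6: automorphisms with `φ z = z`, `φ LL = LL` are conjugations on `⟨e, a_0, …, a_{k-1}⟩`

`BrInner p` is the statement on the automorphisms of the braid group which is used, `Solv p` the equation in `W`.
-/

namespace Pool.Agent.Helper20.DN

open Pool.Agent.Helper38.BN

section
variable {p : ℕ}

/-- piece DN-H1: `DHs` is the centralizer of `z` in `D p` (`cent_ze`, `ze_comm`, `iD_zD`) -/
theorem DHs_iff {x : D p} : x ∈ DHs p ↔ x * zD p = zD p * x := by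
  constructor
  · intro hx
    have hx' : iD x ∈ HD p := hx
    have h1 : iD x * ze p = ze p * iD x := ze_comm hx'
    apply SemidirectProduct.inl_injective (φ := kAct p)
    have h2 : (iD x : Dh p) * ze p ^ 2 = ze p ^ 2 * iD x :=
      ((show Commute (iD x : Dh p) (ze p) from h1).pow_right 2)
    rw [← iD_zD] at h2
    rw [map_mul, map_mul]
    exact h2
  · intro h
    have h1 := congrArg (iD : D p → Dh p) h
    rw [map_mul, map_mul, iD_zD] at h1
    exact cent_ze (n := 2) (by decide) h1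

/-- piece DN-H1 (`iD_cj`, `iD_zD`, `ze_comm`) -/
theorem cj_z {γ : Dh p} (hγ : γ ∈ HD p) : cj p γ (zD p) = zD p := by
  apply SemidirectProduct.inl_injective (φ := kAct p)
  have h1 : γ * ze p ^ 2 = ze p ^ 2 * γ :=
    (show Commute γ (ze p) from ze_comm hγ).pow_right 2
  have h2 : (iD (cj p γ (zD p)) : Dh p) = iD (zD p) := by
    rw [iD_cj, iD_zD, h1, mul_inv_cancel_right]
  exact h2

/-- piece DN-H1 -/
theorem DHs_map {φ : MulAut (D p)} (hz : φ (zD p) = zD p) (x : D p) :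
    φ x ∈ DHs p ↔ x ∈ DHs p := by
  rw [DHs_iff, DHs_iff]
  constructor
  · intro h
    apply φ.injective
    rw [map_mul, map_mul, hz, h]
  · intro h
    have h1 := congrArg φ h
    rw [map_mul, map_mul, hz] at h1
    exact h1

/-- piece DN-H1: `φ z = z` implies that `φ` preserves the exponent sum (`len_aut`, `len_ze`) -/
theorem len_of_z {φ : MulAut (D p)} (hz : φ (zD p) = zD p) (x : D p) : lenD p (φ x) = lenD p x := by
  rcases len_aut φ with h | h
  · exact h x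
  · exfalso
    have h1 := h (zD p)
    rw [hz, ← lenH_iD, iD_zD, map_pow, len_ze, ← ofAdd_nsmul, ← ofAdd_neg] at h1
    have h2 := Multiplicative.ofAdd.injective h1
    have h3 : (0 : ℤ) < (((p + 3) * (p + 4) : ℕ) : ℤ) := by positivity
    rw [nsmul_eq_mul] at h2
    push_cast at h2 h3
    linarith

/-- piece DN-H2: `λ'(W^ev) ⊂ D` (`sgn_sW'`, `mem_D`; `iD` is injective, so the choice is a homomorphism) -/
theorem exists_evD (p : ℕ) : ∃ f : (parW (p + 3)).ker →* D p,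
    ∀ w, iD (f w) = lam' p (sW (p + 3) (w : W (p + 3))) := by
  have h : ∀ w : (parW (p + 3)).ker, ∃ d : D p, lam' p (sW (p + 3) (w : W (p + 3))) = iD d := by
    intro w
    apply mem_D
    rw [sgn_sW', MonoidHom.mem_ker.1 w.2]
    rfl
  choose f hf using h
  have hinj : Function.Injective (iD : D p →* Dh p) := SemidirectProduct.inl_injective
  refine ⟨MonoidHom.mk' f fun v w => hinj ?_, fun w => (hf w).symm⟩
  rw [map_mul, ← hf, ← hf, ← hf, ← map_mul, ← map_mul]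
  rfl

end

/-- the embedding of `W^ev` into `D p` -/
noncomputable def evD (p : ℕ) : (parW (p + 3)).ker →* D p := Classical.choose (exists_evD p)

/-- the element `R²` of `W^ev` -/
def R2 (k : ℕ) : (parW k).ker := ⟨RW k ^ 2, by
  rw [MonoidHom.mem_ker, map_pow]; exact Int.units_sq _⟩

/-- the element `q = λ'(R²)` of `D p` -/
noncomputable def qD (p : ℕ) : D p := evD p (R2 (p + 3))

section
variable {p : ℕ}

lemma iD_evD (w : (parW (p + 3)).ker) : iD (evD p w) = lam' p (sW (p + 3) (w : W (p + 3))) :=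
  Classical.choose_spec (exists_evD p) w

/-- piece DN-H2 (`iD`, `lam'`, `sW` are injective: `toW_sW`) -/
theorem evD_inj : Function.Injective (evD p) := by
  intro v w h
  have h1 : lam' p (sW (p + 3) (v : W (p + 3))) = lam' p (sW (p + 3) (w : W (p + 3))) := by
    rw [← iD_evD, ← iD_evD, h]
  exact Subtype.ext (sW_inj (lam'_inj h1))
/-- piece DN-H2: the image is `DHs ∩ LL` (`lam'_sW_mem`; conversely `lam'_HD` and the signs) -/
theorem evD_mem (w : (parW (p + 3)).ker) : evD p w ∈ DHs p ∧ evD p w ∈ LL p := by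
  constructor
  · show iD (evD p w) ∈ HD p
    rw [iD_evD]
    exact lam'_sW_mem _
  · exact ⟨_, (iD_evD w).symm⟩
/-- piece DN-H2 -/
theorem evD_surj {x : D p} (h1 : x ∈ DHs p) (h2 : x ∈ LL p) : ∃ w, evD p w = x := by
  obtain ⟨l, hl⟩ := h2
  have h3 : lam' p l ∈ HD p := by
    rw [hl]
    exact h1
  obtain ⟨w, rfl⟩ := lam'_HD h3
  have h4 : sgn p (iD x) = 1 := SemidirectProduct.rightHom_inl x
  rw [← hl, sgn_sW'] at h4
  have hw : w ∈ (parW (p + 3)).ker := MonoidHom.mem_ker.2 (congrArg Prod.fst h4)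
  have hinj : Function.Injective (iD : D p →* Dh p) := SemidirectProduct.inl_injective
  refine ⟨⟨w, hw⟩, hinj ?_⟩
  rw [iD_evD]
  exact hl

/-- piece DN-H3: `φ` induces an automorphism of `W^ev` (`DHs_map`, `evD_surj`, for `φ` and `φ⁻¹`) -/
theorem exists_evAut {φ : MulAut (D p)} (hz : φ (zD p) = zD p) (hL : PLL φ) :
    ∃ ψ : MulAut (parW (p + 3)).ker, ∀ w, φ (evD p w) = evD p (ψ w) := by
  have key : ∀ {θ : MulAut (D p)}, θ (zD p) = zD p → PLL θ →
      ∀ w : (parW (p + 3)).ker, ∃ w', evD p w' = θ (evD p w) := by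
    intro θ h1 h2 w
    exact evD_surj ((DHs_map h1 _).2 (evD_mem w).1) ((h2 _).2 (evD_mem w).2)
  have hz' : φ⁻¹ (zD p) = zD p := by
    have h := MulAut.inv_apply_self (D p) φ (zD p)
    rwa [hz] at h
  choose f hf using key hz hL
  choose g hg using key hz' hL.inv
  refine ⟨⟨⟨f, g, ?_, ?_⟩, ?_⟩, fun w => (hf w).symm⟩
  · intro w
    apply evD_inj
    rw [hg, hf, MulAut.inv_apply_self]
  · intro w
    apply evD_inj
    rw [hf, hg, MulAut.apply_inv_self]
  · intro a b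
    apply evD_inj
    show evD p (f (a * b)) = evD p (f a * f b)
    rw [hf, map_mul, map_mul, map_mul, hf, hf]

/-- piece DN-H4: automorphisms of `W^ev` and `R²`.
Proof. Let `ε = 1` if `parW R = 1` and `ε = 2` otherwise; `Rⁱ ∈ W^ev` iff `ε ∣ i`. `ψ(R^ε)` commutes with
`ψ(R²) = g Rⁿ g⁻¹`, `n ≠ 0` (`RW_pow`), so `ψ(R^ε) = g R^m g⁻¹` (`centW`), `ε ∣ m` (parity), and
`m (2/ε) = n` (`RW_pow`). Also `ψ⁻¹(g R^ε g⁻¹)` commutes with `R²`, so it is `R^(ε t)`; hence
`g R^ε g⁻¹ = ψ(R^ε)^t = g R^(m t) g⁻¹`, `m t = ε`, `m = ε s`, `s t = 1`, `m = ± ε`, `n = ± 2`. -/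
theorem ev_two {k : ℕ} (hk : 1 ≤ k) (ψ : MulAut (parW k).ker) {g : W k} {n : ℤ}
    (h : ((ψ (R2 k) : (parW k).ker) : W k) = g * RW k ^ n * g⁻¹) : n = 2 ∨ n = -2 := by
  have hR2 : ((R2 k : (parW k).ker) : W k) = RW k ^ (2 : ℤ) := (zpow_ofNat (RW k) 2).symm
  have pow_inj : ∀ a b : ℤ, RW k ^ a = RW k ^ b → a = b := by
    intro a b hab
    have h1 : RW k ^ (a - b) = 1 := by rw [zpow_sub, hab, mul_inv_cancel]
    have h2 := RW_pow hk h1
    omega
  have pg_inj : ∀ a b : ℤ, g * RW k ^ a * g⁻¹ = g * RW k ^ b * g⁻¹ → a = b := by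
    intro a b hab
    exact pow_inj a b (mul_left_cancel (mul_right_cancel hab))
  have hn : n ≠ 0 := by
    rintro rfl
    have h1 : ψ (R2 k) = 1 := Subtype.ext (by rw [h]; simp)
    have h2 : R2 k = 1 := (MulEquiv.map_eq_one_iff ψ).1 h1
    have h3 : RW k ^ (2 : ℤ) = RW k ^ (0 : ℤ) := by
      rw [← hR2, h2]
      simp
    have h4 := pow_inj 2 0 h3
    omega
  have hpar : ∀ m : ℤ, parW k (g * RW k ^ m * g⁻¹) = parW k (RW k) ^ m := by
    intro m
    rw [map_mul, map_mul, map_inv, map_zpow, mul_comm (parW k g), mul_assoc, mul_inv_cancel, mul_one]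
  have key : ∀ (e : ℤ) (x : (parW k).ker), (x : W k) = g * RW k ^ e * g⁻¹ →
      ∃ t : ℤ, ((ψ.symm x : (parW k).ker) : W k) = RW k ^ t := by
    intro e x hx
    have h1 : ψ.symm x * R2 k = R2 k * ψ.symm x := by
      apply ψ.injective
      rw [map_mul, map_mul, MulEquiv.apply_symm_apply]
      apply Subtype.ext
      rw [Subgroup.coe_mul, Subgroup.coe_mul, h, hx]
      have h2 : RW k ^ e * RW k ^ n = RW k ^ n * RW k ^ e := by
        rw [← zpow_add, ← zpow_add, add_comm e n]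
      calc g * RW k ^ e * g⁻¹ * (g * RW k ^ n * g⁻¹) = g * (RW k ^ e * RW k ^ n) * g⁻¹ := by group
        _ = g * RW k ^ n * g⁻¹ * (g * RW k ^ e * g⁻¹) := by rw [h2]; group
    have h2 : ((ψ.symm x : (parW k).ker) : W k) * RW k ^ (2 : ℤ) =
        RW k ^ (2 : ℤ) * ((ψ.symm x : (parW k).ker) : W k) := by
      have h3 := congrArg Subtype.val h1
      rw [Subgroup.coe_mul, Subgroup.coe_mul, hR2] at h3
      exact h3
    obtain ⟨t, ht⟩ := centW hk two_ne_zero h2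
    exact ⟨t, ht.symm⟩
  rcases Int.units_eq_one_or (parW k (RW k)) with hp | hp
  · let R1 : (parW k).ker := ⟨RW k, hp⟩
    have hR1 : R1 * R1 = R2 k := Subtype.ext (pow_two (RW k)).symm
    have h1 : ((ψ R1 : (parW k).ker) : W k) * ((ψ R1 : (parW k).ker) : W k) =
        g * RW k ^ n * g⁻¹ := by
      rw [← h, ← hR1, map_mul]
      rfl
    have h2 : (g⁻¹ * ((ψ R1 : (parW k).ker) : W k) * g) * RW k ^ n =
        RW k ^ n * (g⁻¹ * ((ψ R1 : (parW k).ker) : W k) * g) := by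
      have h3 : RW k ^ n = g⁻¹ * (((ψ R1 : (parW k).ker) : W k) * ((ψ R1 : (parW k).ker) : W k)) *
          g := by
        rw [h1]; group
      rw [h3]; group
    obtain ⟨m, hm⟩ := centW hk hn h2
    have hm' : ((ψ R1 : (parW k).ker) : W k) = g * RW k ^ m * g⁻¹ := by
      have h3 : RW k ^ m = g⁻¹ * ((ψ R1 : (parW k).ker) : W k) * g := hm
      rw [h3]; group
    have h4 : m + m = n := by
      apply pg_inj
      rw [← h1, hm', zpow_add]
      group
    obtain ⟨t, ht⟩ := key 1 ⟨g * RW k ^ (1 : ℤ) * g⁻¹, by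
      rw [MonoidHom.mem_ker, hpar, hp, one_zpow]⟩ rfl
    have h5 : ψ.symm ⟨g * RW k ^ (1 : ℤ) * g⁻¹, by
        rw [MonoidHom.mem_ker, hpar, hp, one_zpow]⟩ = R1 ^ t := by
      apply Subtype.ext
      rw [ht]
      rfl
    have h6 := congrArg ψ h5
    rw [MulEquiv.apply_symm_apply, map_zpow] at h6
    have h7 := congrArg Subtype.val h6
    rw [Subgroup.coe_zpow, hm', conj_zpow, ← zpow_mul] at h7
    have h8 := pg_inj _ _ h7
    rcases Int.eq_one_or_neg_one_of_mul_eq_one h8.symm with h9 | h9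
    · left; omega
    · right; omega
  · have hev : ∀ m : ℤ, parW k (RW k) ^ m = 1 → Even m := by
      intro m hm
      rcases Int.even_or_odd m with h1 | h1
      · exact h1
      · rw [hp, Odd.neg_one_zpow h1] at hm
        exact absurd hm (by decide)
    obtain ⟨n', hn'⟩ : Even n := hev n (by
      rw [← hpar, ← h]
      exact (ψ (R2 k)).2)
    obtain ⟨s, hs⟩ := key 2 ⟨g * RW k ^ (2 : ℤ) * g⁻¹, by
      rw [MonoidHom.mem_ker, hpar, hp]; decide⟩ rfl
    obtain ⟨t, ht⟩ : Even s := hev s (by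
      rw [← map_zpow, ← hs]
      exact (ψ.symm _).2)
    have h5 : ψ.symm ⟨g * RW k ^ (2 : ℤ) * g⁻¹, by
        rw [MonoidHom.mem_ker, hpar, hp]; decide⟩ = R2 k ^ t := by
      apply Subtype.ext
      rw [hs, Subgroup.coe_zpow, hR2, ← zpow_mul, ht, two_mul]
    have h6 := congrArg ψ h5
    rw [MulEquiv.apply_symm_apply, map_zpow] at h6
    have h7 := congrArg Subtype.val h6
    rw [Subgroup.coe_zpow, h, conj_zpow, ← zpow_mul] at h7
    have h8 := pg_inj _ _ h7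
    have h9 : n' * t = 1 := by
      rw [hn'] at h8
      linarith
    rcases Int.eq_one_or_neg_one_of_mul_eq_one h9 with h10 | h10
    · left; omega
    · right; omega

/-- elements of the braid group commute with `λ'(R²)` -/
private lemma dnh5_comm {b : Dh p} (hb : b ∈ BrD p) :
    b * lam' p (sW (p + 3) (RW (p + 3) ^ 2)) = lam' p (sW (p + 3) (RW (p + 3) ^ 2)) * b := by
  have h : BrD p ≤ Subgroup.centralizer {lam' p (sW (p + 3) (RW (p + 3) ^ 2))} := by
    unfold BrD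
    rw [Subgroup.closure_le]
    rintro _ ⟨j, hj, rfl⟩
    have hj' : j < p + 3 := hj
    rw [SetLike.mem_coe, Subgroup.mem_centralizer_singleton_iff]
    have h1 := lam'_a hj' (sW (p + 3) (RW (p + 3) ^ 2))
    have h2 : wA (p + 2 - j) (RW (p + 3) ^ 2) = RW (p + 3) ^ 2 := by
      rw [map_pow, wA_R (by omega)]
    rw [aL_sW (by omega), h2, mul_inv_eq_iff_eq_mul] at h1
    exact h1
  exact Subgroup.mem_centralizer_singleton_iff.1 (h hb)

private lemma dnh5_sgn (x : D p) : sgn p (iD x) = 1 := SemidirectProduct.rightHom_inl x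

/-- the conjugate of `q` with an element of `DHs` -/
private lemma dnh5_conj {x : D p} (hx : x ∈ DHs p) : ∃ w : (parW (p + 3)).ker,
    x * evD p (R2 (p + 3)) * x⁻¹ = evD p (w * R2 (p + 3) * w⁻¹) := by
  obtain ⟨w, b, hb, hxw⟩ := HD_decomp (h := iD x) hx
  have hw : w ∈ (parW (p + 3)).ker := by
    have h1 := dnh5_sgn x
    rw [hxw, map_mul, sgn_sW', sgn_BrD hb, mul_one] at h1
    exact congrArg Prod.fst h1
  refine ⟨⟨w, hw⟩, ?_⟩
  have hR : ((R2 (p + 3) : (parW (p + 3)).ker) : W (p + 3)) = RW (p + 3) ^ 2 := rfl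
  apply SemidirectProduct.inl_injective (φ := kAct p)
  change iD (x * evD p (R2 (p + 3)) * x⁻¹) = iD (evD p (⟨w, hw⟩ * R2 (p + 3) * (⟨w, hw⟩)⁻¹))
  have h2 : (((⟨w, hw⟩ * R2 (p + 3) * (⟨w, hw⟩)⁻¹ : (parW (p + 3)).ker)) : W (p + 3)) =
      w * RW (p + 3) ^ 2 * w⁻¹ := rfl
  rw [iD_evD, h2, map_mul, map_mul, map_inv, iD_evD, hR, hxw, map_mul, map_mul, map_mul, map_mul,
    map_inv, map_inv, mul_inv_rev, mul_assoc (lam' p (sW (p + 3) w)) b, dnh5_comm hb]
  group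

/-- piece DN-H5: the class of `ψ(R²)` is invariant under the braid group.
Proof. Let `v = ψ(R²)`, `j < k`, `b = aD (k-1-j)`: `iD b * λ'(v) * (iD b)⁻¹ = λ'(α_j v)` (`lam'_a`, `aL_sW`).
`b' = φ⁻¹ b ∈ DHs` (`DHs_map`, `a_j ∈ HD`), `iD b' = λ'(w₁) b₁` (`HD_decomp`); `b₁` commutes with `λ'(R)` (closure
induction: `lam'_a`, `aL_sW`, `wA_R`) and `w₁ ∈ W^ev` (`sgn_BrD`, `sgn_sW'`), so `b' q b'⁻¹ = evD(w₁ R² w₁⁻¹)`;
apply `φ`: `b evD(v) b⁻¹ = evD(ψ w₁ * v * (ψ w₁)⁻¹)`. -/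
theorem class_R2 {φ : MulAut (D p)} (hz : φ (zD p) = zD p) (hL : PLL φ)
    {ψ : MulAut (parW (p + 3)).ker} (hψ : ∀ w, φ (evD p w) = evD p (ψ w)) {j : ℕ} (hj : j < p + 3) :
    ∃ g : W (p + 3), g * ((ψ (R2 (p + 3)) : (parW (p + 3)).ker) : W (p + 3)) * g⁻¹ =
      wA j ((ψ (R2 (p + 3)) : (parW (p + 3)).ker) : W (p + 3)) := by
  have hj' : p + 2 - j < p + 3 := by omega
  have hb : φ⁻¹ (aD (p + 2 - j)) ∈ DHs p := by
    rw [← DHs_map hz, MulAut.apply_inv_self]
    exact BrD_le_HD (Subgroup.subset_closure ⟨p + 2 - j, hj', rfl⟩)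
  obtain ⟨w, hw⟩ := dnh5_conj hb
  have h1 := congrArg φ hw
  rw [map_mul, map_mul, map_inv, MulAut.apply_inv_self, hψ, hψ] at h1
  have h2 := congrArg (iD : D p → Dh p) h1
  rw [map_mul, map_mul, map_inv, iD_evD, iD_evD, lam'_a hj', aL_sW (by omega),
    show p + 2 - (p + 2 - j) = j by omega] at h2
  have h3 := sW_inj (lam'_inj h2)
  refine ⟨((ψ w : (parW (p + 3)).ker) : W (p + 3)), ?_⟩
  rw [h3, map_mul, map_mul, map_inv]
  rfl

/-- piece DN-H6: after a conjugation with an element of `λ'(W)` the element `q` is mapped to `q` or `q⁻¹`.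
Proof. `exists_evAut`, `class_R2`, `wcl`: `ψ(R²) = g Rⁿ g⁻¹`, `ev_two`: `n = ± 2`; take `γ = λ'(sW g⁻¹)` (`iD_cj`,
`iD_evD`). -/
theorem six_R {φ : MulAut (D p)} (hz : φ (zD p) = zD p) (hL : PLL φ) :
    ∃ γ ∈ HD p, cj p γ (φ (qD p)) = qD p ∨ cj p γ (φ (qD p)) = (qD p)⁻¹ := by
  obtain ⟨ψ, hψ⟩ := exists_evAut hz hL
  obtain ⟨g, n, hgn⟩ := wcl (k := p + 3) (by omega) (fun j hj => class_R2 hz hL hψ hj)
  have hn := ev_two (k := p + 3) (by omega) ψ hgn
  have hq : (iD (qD p) : Dh p) = lam' p (sW (p + 3) (RW (p + 3) ^ (2 : ℤ))) := by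
    have e : RW (p + 3) ^ (2 : ℤ) = RW (p + 3) ^ 2 := by norm_cast
    unfold qD
    rw [iD_evD, e]
    rfl
  have key : (iD (cj p (lam' p (sW (p + 3) g⁻¹)) (φ (qD p))) : Dh p) =
      lam' p (sW (p + 3) (RW (p + 3) ^ n)) := by
    have h1 : φ (qD p) = evD p (ψ (R2 (p + 3))) := hψ _
    rw [iD_cj, h1, iD_evD, hgn, ← map_mul, ← map_inv, ← map_mul, ← map_mul, ← map_inv, ← map_mul]
    congr 2
    group
  refine ⟨lam' p (sW (p + 3) g⁻¹), lam'_sW_mem _, ?_⟩
  rcases hn with rfl | rfl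
  · left
    apply SemidirectProduct.inl_injective (φ := kAct p)
    exact key.trans hq.symm
  · right
    apply SemidirectProduct.inl_injective (φ := kAct p)
    refine key.trans ?_
    rw [map_inv]
    change _ = (iD (qD p) : Dh p)⁻¹
    rw [hq, ← map_inv, ← map_inv, ← zpow_neg]

/-- piece DN-H7: `λ'(R) = Ω ζ⁻¹` and `q = Ω² ζ⁻²` (`ze_eq`; `Ω ∈ BrD ≤ HD` commutes with `ζ`) -/
theorem lam'_R : lam' p (RL (p + 3)) = OmD p * (ze p)⁻¹ := by
  rw [ze_eq]
  group
/-- piece DN-H7 -/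
theorem iD_qD : (iD (qD p) : Dh p) = OmD p ^ 2 * (ze p ^ 2)⁻¹ := by
  have hc : Commute (OmD p) (ze p)⁻¹ :=
    Commute.inv_right (ze_comm (BrD_le_HD OmD_mem))
  unfold qD
  rw [iD_evD]
  have e : ((R2 (p + 3) : (parW (p + 3)).ker) : W (p + 3)) = RW (p + 3) ^ 2 := rfl
  rw [e, map_pow, map_pow]
  change (lam' p (RL (p + 3))) ^ 2 = _
  rw [lam'_R, hc.mul_pow, inv_pow]

/-- piece DN-H7: the centralizer of `q` in `DHs`.
Proof. `iD x = λ'(w) b` (`HD_decomp`), `b` commutes with `λ'(R²)` (as in `class_R2`), so `w` commutes with `R²`,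
`w = Rⁱ` (`centW`) and `λ'(R)ⁱ = Ωⁱ ζ⁻ⁱ` (`lam'_R`, `ze_comm`). -/
theorem cent_qD {x : D p} (hx : x ∈ DHs p) (h : x * qD p = qD p * x) :
    ∃ b ∈ BrD p, ∃ n : ℤ, iD x = b * ze p ^ n := by
  obtain ⟨w, b, hb, hxb⟩ := HD_decomp (show iD x ∈ HD p from hx)
  have hbz : b * ze p = ze p * b := ze_comm (BrD_le_HD hb)
  have hbO : b * OmD p = OmD p * b := OmD_comm hb
  have hbq : Commute b (iD (qD p)) := by
    rw [iD_qD]
    exact (Commute.pow_right (show Commute b (OmD p) from hbO) 2).mul_right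
      ((Commute.pow_right (show Commute b (ze p) from hbz) 2).inv_right)
  have hxq : Commute (iD x) (iD (qD p) : Dh p) := by
    change iD x * iD (qD p) = iD (qD p) * iD x
    rw [← map_mul, ← map_mul, h]
  have hwq : Commute (lam' p (sW (p + 3) w)) (iD (qD p)) := by
    have e : lam' p (sW (p + 3) w) = iD x * b⁻¹ := by rw [hxb, mul_inv_cancel_right]
    rw [e]
    exact hxq.mul_left hbq.inv_left
  have e : (iD (qD p) : Dh p) = lam' p (sW (p + 3) (RW (p + 3) ^ 2)) := by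
    unfold qD
    rw [iD_evD]
    rfl
  have hw : w * RW (p + 3) ^ (2 : ℤ) = RW (p + 3) ^ (2 : ℤ) * w := by
    apply sW_inj
    apply lam'_inj
    have h2 : lam' p (sW (p + 3) w) * iD (qD p) = iD (qD p) * lam' p (sW (p + 3) w) := hwq
    rw [e] at h2
    rw [map_mul, map_mul, map_mul, map_mul]
    exact_mod_cast h2
  obtain ⟨i, hi⟩ := centW (by omega) (by norm_num) hw
  have hi' : RW (p + 3) ^ i = w := hi
  have hc : Commute (OmD p) (ze p)⁻¹ :=
    Commute.inv_right (ze_comm (BrD_le_HD OmD_mem))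
  refine ⟨OmD p ^ i * b, Subgroup.mul_mem _ (Subgroup.zpow_mem _ OmD_mem i) hb, -i, ?_⟩
  have h3 : lam' p (sW (p + 3) w) = OmD p ^ i * ze p ^ (-i) := by
    rw [← hi', map_zpow, map_zpow]
    change (lam' p (RL (p + 3))) ^ i = _
    rw [lam'_R, hc.mul_zpow, inv_zpow, zpow_neg]
  have h4 : Commute b (ze p ^ (-i)) := Commute.zpow_right (show Commute b (ze p) from hbz) _
  rw [hxb, h3, mul_assoc, mul_assoc]
  congr 1
  exact h4.symm

private theorem exists_jB_mem (b : BrH (p + 3)) :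
    jH p (b : HB (p + 3)) ∈ (iD : D p →* Dh p).range := by
  have h1 : jH p (b : HB (p + 3)) ∈ BrD p := by
    rw [BrD_eq]
    exact ⟨b, b.2, rfl⟩
  have h2 : BrD p ≤ (iD : D p →* Dh p).range := by
    unfold BrD
    rw [Subgroup.closure_le]
    rintro _ ⟨j, _, rfl⟩
    exact ⟨aD j, rfl⟩
  exact h2 h1

/-- piece DN-H8: `jH` maps `BrH` into `D` (`jH_a`; `iD` is injective) -/
theorem exists_jB (p : ℕ) : ∃ f : BrH (p + 3) →* D p, ∀ b, iD (f b) = jH p (b : HB (p + 3)) := by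
  have hi : Function.Injective (iD : D p →* Dh p) := SemidirectProduct.inl_injective
  refine ⟨(MonoidHom.ofInjective hi).symm.toMonoidHom.comp
    (((jH p).comp (BrH (p + 3)).subtype).codRestrict (iD : D p →* Dh p).range
      exists_jB_mem), fun b => ?_⟩
  exact MonoidHom.apply_ofInjective_symm hi _

end

/-- the embedding of the braid group into `D p` -/
noncomputable def jB (p : ℕ) : BrH (p + 3) →* D p := Classical.choose (exists_jB p)

/-- the generator `a_j` of the braid group `BrH k` -/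
def aB {k : ℕ} (j : ℕ) (hj : j < k) : BrH k := ⟨aH j, Subgroup.subset_closure ⟨j, hj, rfl⟩⟩

/-- the statement on the braid group which is used -/
def BrInner (p : ℕ) : Prop := ∀ β : MulAut (BrH (p + 3)),
  (∀ b, lenD p (jB p (β b)) = lenD p (jB p b)) →
  (∃ s : Equiv.Perm ℕ, ∀ b, piH (p + 3) (β b : HB (p + 3)) = s * piH (p + 3) (b : HB (p + 3)) * s⁻¹) →
  ∃ s : BrH (p + 3), ∀ b, β b = s * b * s⁻¹

/-- the equation in `W` which is used -/
def Solv (p : ℕ) : Prop := ∀ w : W (p + 3),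
  w ∈ Subgroup.closure {RW (p + 3), xW (p + 3) * xW (p + 2)} →
  w * wA (p + 2) (wA (p + 1) w) = wA (p + 1) w →
  w = 1 ∨ ∃ i : ℤ, w = RW (p + 3) ^ i * (xW (p + 3) * xW (p + 2)) * (RW (p + 3) ^ i)⁻¹

/-- the condition on the permutations -/
def PiC {p : ℕ} (φ : MulAut (D p)) : Prop := ∃ s : Equiv.Perm ℕ, ∀ x : D p,
  piH (p + 3) (foldG p (iD (φ x))) = s * piH (p + 3) (foldG p (iD x)) * s⁻¹

section
variable {p : ℕ}

lemma iD_jB (b : BrH (p + 3)) : iD (jB p b) = jH p (b : HB (p + 3)) :=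
  Classical.choose_spec (exists_jB p) b

/-- piece DN-H8 -/
theorem jB_a {j : ℕ} (hj : j < p + 3) : jB p (aB j hj) = aD j := by
  have hi : Function.Injective (iD : D p →* Dh p) := SemidirectProduct.inl_injective
  apply hi
  rw [iD_jB]
  exact jH_a hj
/-- piece DN-H8 (`fold_jH`) -/
theorem jB_inj : Function.Injective (jB p) := by
  intro b b' h
  have h1 : jH p (b : HB (p + 3)) = jH p (b' : HB (p + 3)) := by
    rw [← iD_jB, ← iD_jB, h]
  have h2 := congrArg (foldG p) h1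
  rw [fold_jH b.2, fold_jH b'.2] at h2
  exact Subtype.ext h2
/-- piece DN-H8 (`BrD_eq`) -/
theorem jB_surj {x : D p} (h : iD x ∈ BrD p) : ∃ b, jB p b = x := by
  have hi : Function.Injective (iD : D p →* Dh p) := SemidirectProduct.inl_injective
  rw [BrD_eq] at h
  obtain ⟨b, hb, h1⟩ := h
  refine ⟨⟨b, hb⟩, hi ?_⟩
  rw [iD_jB]
  exact h1

/-- piece DN-H8: `p ≥ 1` (`wsolve` with `k = p + 3`) -/
theorem solv (hp : 1 ≤ p) : Solv p := by
  intro w hw h
  exact wsolve (k := p + 3) (by omega) hw h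

/-- piece DN-H9: the conjugations preserve the condition (`iD_cj`; the new permutation is
`piH (foldG γ) * s`) -/
theorem PiC.cj {φ : MulAut (D p)} (h : PiC φ) (γ : Dh p) : PiC (cj p γ * φ) := by
  obtain ⟨s, hs⟩ := h
  refine ⟨piH (p + 3) (foldG p γ) * s, fun x => ?_⟩
  rw [MulAut.mul_apply, iD_cj, map_mul, map_mul, map_mul, map_mul, map_inv, map_inv, hs]
  group

/-- the permutation `i ↦ k - i` (piece DN-H9) -/
private def H9w (k : ℕ) : Equiv.Perm ℕ :=
  Function.Involutive.toPerm (fun i => if i ≤ k then k - i else i) (fun i => by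
    dsimp only
    split_ifs <;> omega)

private theorem H9w_apply {k i : ℕ} (h : i ≤ k) : H9w k i = k - i := if_pos h

private theorem H9w_swap {k i j : ℕ} (hi : i ≤ k) (hj : j ≤ k) :
    H9w k * Equiv.swap i j * (H9w k)⁻¹ = Equiv.swap (k - j) (k - i) := by
  rw [Equiv.mul_swap_eq_swap_mul, mul_inv_cancel_right, H9w_apply hi, H9w_apply hj,
    Equiv.swap_comm]

private theorem H9_aH {k j : ℕ} (hj : j < k) : piH k (aH j) = Equiv.swap j (j + 1) :=
  liftH_a _ hj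

private theorem H9_sg (x : D p) : piH (p + 3) (foldG p (iD (sg p x))) =
    H9w (p + 3) * piH (p + 3) (foldG p (iD x)) * (H9w (p + 3))⁻¹ := by
  have h : ((piH (p + 3)).comp ((foldG p).comp iD)).comp (sg p).toMonoidHom =
      (MulAut.conj (H9w (p + 3))).toMonoidHom.comp ((piH (p + 3)).comp ((foldG p).comp iD)) := by
    apply homD_ext
    · intro j hj
      change piH (p + 3) (foldG p (iD (sg p (aD j)))) =
        H9w (p + 3) * piH (p + 3) (foldG p (iD (aD j))) * (H9w (p + 3))⁻¹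
      rw [sg_a hj, foldG_a (by omega), foldG_a hj, H9_aH (by omega), H9_aH hj,
        H9w_swap (by omega) (by omega)]
      congr 1 <;> omega
    · change piH (p + 3) (foldG p (iD (sg p bD))) =
        H9w (p + 3) * piH (p + 3) (foldG p (iD bD)) * (H9w (p + 3))⁻¹
      rw [sg_b, foldG_e, foldG_b, H9_aH (by omega), H9_aH (by omega),
        H9w_swap (by omega) (by omega)]
      congr 1
      · omega
      · omega
    · change piH (p + 3) (foldG p (iD (sg p eD))) =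
        H9w (p + 3) * piH (p + 3) (foldG p (iD eD)) * (H9w (p + 3))⁻¹
      rw [sg_e, foldG_e, foldG_b, H9_aH (by omega), H9_aH (by omega),
        H9w_swap (by omega) (by omega)]
      rfl
  exact DFunLike.congr_fun h x
/-- piece DN-H9: `piH (foldG (iD (sg x))) = w * piH (foldG (iD x)) * w⁻¹` for the permutation `w` with
`w i = k - i`, `i ≤ k`, `w i = i`, `i > k` (`homD_ext`: `a_j ↦ a_{k-1-j}`, `b ↦ a_0`, `e ↦ a_{k-1}` under
`foldG ∘ iD ∘ sg`) -/
theorem PiC.mirror {φ : MulAut (D p)} (h : PiC φ) : PiC (mir φ) := by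
  obtain ⟨s, hs⟩ := h
  refine ⟨H9w (p + 3) * s * H9w (p + 3), fun x => ?_⟩
  rw [mir_apply, H9_sg, hs, H9_sg]
  group

/-- piece DN-H10: `(b, n) ↦ b ζⁿ` is an injective homomorphism `BrH × ℤ → Γ`.
Proof. `MonoidHom.noncommCoprod` of `(jH p).comp (BrH (p+3)).subtype` and `zpowersHom _ (ze p)`; they commute by
`ze_comm`. Injective: `jH b ζⁿ = 1` gives `λ(r⁻ⁿ) = ζ⁻ⁿ ∈ BrD`, so `r⁻ⁿ = 1` (`lam_Br`), `n = 0` (`rL_pow`),
`jH b = 1`, `b = 1` (`fold_jH`). -/
theorem exists_F (p : ℕ) : ∃ F : BrH (p + 3) × Multiplicative ℤ →* Dh p, Function.Injective F ∧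
    ∀ b n, F (b, Multiplicative.ofAdd n) = jH p (b : HB (p + 3)) * ze p ^ n := by
  have hH : ∀ b : BrH (p + 3), jH p (b : HB (p + 3)) ∈ BrD p := by
    intro b
    rw [BrD_eq]
    exact ⟨b.1, b.2, rfl⟩
  have hc : ∀ (b : BrH (p + 3)) (n : Multiplicative ℤ),
      Commute (((jH p).comp (BrH (p + 3)).subtype) b) (zpowersHom (Dh p) (ze p) n) := by
    intro b n
    have h1 : Commute (jH p (b : HB (p + 3))) (ze p) := ze_comm (BrD_le_HD (hH b))
    rw [zpowersHom_apply]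
    exact h1.zpow_right _
  refine ⟨MonoidHom.noncommCoprod ((jH p).comp (BrH (p + 3)).subtype) (zpowersHom (Dh p) (ze p)) hc,
    ?_, fun b n => ?_⟩
  · rw [injective_iff_map_eq_one]
    rintro ⟨b, n⟩ h
    rw [MonoidHom.noncommCoprod_apply] at h
    change jH p (b : HB (p + 3)) * zpowersHom (Dh p) (ze p) n = 1 at h
    rw [zpowersHom_apply] at h
    have h1 : ze p ^ (Multiplicative.toAdd n) ∈ BrD p := by
      rw [← inv_eq_of_mul_eq_one_right h]
      exact Subgroup.inv_mem _ (hH b)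
    rw [← lam_r, ← map_zpow] at h1
    have h2 := rL_pow (by omega) (lam_Br h1)
    rw [h2, zpow_zero, mul_one] at h
    have h3 : b = 1 := by
      apply Subtype.ext
      have h4 := fold_jH b.2
      rw [h, map_one] at h4
      exact h4.symm
    rw [h3]
    exact Prod.ext rfl (Multiplicative.toAdd.injective h2)
  · rw [MonoidHom.noncommCoprod_apply]
    change jH p (b : HB (p + 3)) * zpowersHom (Dh p) (ze p) (Multiplicative.ofAdd n) = _
    rw [zpowersHom_apply]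
    rfl

/-- piece DN-H10: homomorphisms of the braid group to the integers: all `a_j` have the same image
(`a_j a_{j+1} a_j = a_{j+1} a_j a_{j+1}`), the exponent sum of `a_j` is `1` -/
theorem hom_Br (g : BrH (p + 3) →* Multiplicative ℤ) :
    ∃ c : ℤ, ∀ b, g b = (lenD p (jB p b)) ^ c := by
  have hstep : ∀ j (hj : j + 1 < p + 3),
      g (aB (j + 1) hj) = g (aB j (by omega)) := by
    intro j hj
    have h1 : (aB j (by omega) : BrH (p + 3)) * aB (j + 1) hj * aB j (by omega) =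
        aB (j + 1) hj * aB j (by omega) * aB (j + 1) hj :=
      Subtype.ext ((relH (p + 3)).braid j hj)
    have h2 := congrArg g h1
    simp only [map_mul] at h2
    rw [mul_comm (g (aB (j + 1) hj)) (g (aB j _))] at h2
    exact (mul_left_cancel h2).symm
  have hall : ∀ j (hj : j < p + 3), g (aB j hj) = g (aB 0 (by omega)) := by
    intro j
    induction j with
    | zero => intro _; rfl
    | succ j ih =>
      intro hj
      rw [hstep j hj, ih (by omega)]
  refine ⟨Multiplicative.toAdd (g (aB 0 (by omega))), ?_⟩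
  have key : ∀ (x : HB (p + 3)) (hx : x ∈ BrH (p + 3)), g ⟨x, hx⟩ =
      (lenD p (jB p ⟨x, hx⟩)) ^ (Multiplicative.toAdd (g (aB 0 (by omega)))) := by
    intro x hx
    induction hx using Subgroup.closure_induction with
    | mem x hx =>
      obtain ⟨j, hj, rfl⟩ := hx
      have h1 := hall j hj
      have h2 : jB p ⟨aH j, Subgroup.subset_closure ⟨j, hj, rfl⟩⟩ = aD j := jB_a hj
      have h3 : lenD p (aD j) = Multiplicative.ofAdd 1 := by
        rw [lenD, liftD_a _ hj]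
      rw [h2, h3]
      refine h1.trans ?_
      rw [← ofAdd_zsmul, smul_eq_mul, mul_one]
      rfl
    | one =>
      have h1 : (⟨1, Subgroup.one_mem _⟩ : BrH (p + 3)) = 1 := rfl
      rw [h1, map_one, map_one, map_one, one_zpow]
    | mul x y hx hy ihx ihy =>
      have h1 : (⟨x * y, Subgroup.mul_mem _ hx hy⟩ : BrH (p + 3)) = ⟨x, hx⟩ * ⟨y, hy⟩ := rfl
      rw [h1, map_mul, map_mul, map_mul, mul_zpow, ihx, ihy]
    | inv x hx ihx =>
      have h1 : (⟨x⁻¹, Subgroup.inv_mem _ hx⟩ : BrH (p + 3)) = (⟨x, hx⟩)⁻¹ := rfl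
      rw [h1, map_inv, map_inv, map_inv, inv_zpow, ihx]
  exact fun b => key b.1 b.2

/-- piece DN-H11: `φ` maps the braid group to itself.
Proof. For `b ∈ BrH` the element `φ(jB b)` is in `DHs` (`DHs_map`, `BrD_le_HD`) and commutes with `φ q = q^{±1}`,
as `jB b` commutes with `q` (`iD_qD`; `OmD_comm`, `ze_comm`), so `iD (φ (jB b)) = b' ζⁿ` (`cent_qD`) is in the range
of `F` (`exists_F`, `BrD_eq`). As `F` is injective there is a homomorphism `f` with `F (f b) = iD (φ (jB b))`; by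
`hom_Br` the second component is `lenD(jB b)^c`. For `b = Ω²`, `Ω = Om k aH`: `iD (jB Ω²) = iD q * ζ²`, so
`φ(jB Ω²) = q^{±1} z`; for the sign `+`: `= F(Ω², 0)`, for the sign `-`: `= F(Ω⁻², 4)`. The second component is
`2 k (k+1) c` (`len_OmD`), `k ≥ 3`, so `c = 0`. -/
theorem Br_map {φ : MulAut (D p)} (hz : φ (zD p) = zD p)
    (hq : φ (qD p) = qD p ∨ φ (qD p) = (qD p)⁻¹) (b : BrH (p + 3)) :
    ∃ b' : BrH (p + 3), φ (jB p b) = jB p b' := by
  have hi : Function.Injective (iD : D p →* Dh p) := SemidirectProduct.inl_injective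
  have hmem : ∀ b : BrH (p + 3), iD (jB p b) ∈ BrD p := by
    intro b
    rw [iD_jB, BrD_eq]
    exact ⟨b, b.2, rfl⟩
  have hOz : Commute (OmD p) (ze p) := ze_comm (BrD_le_HD OmD_mem)
  -- the elements of the braid group commute with `q`
  have hcq : ∀ b : BrH (p + 3), Commute (jB p b) (qD p) := by
    intro b
    have h1 : Commute (iD (jB p b)) (OmD p) := OmD_comm (hmem b)
    have h2 : Commute (iD (jB p b)) (ze p) := ze_comm (BrD_le_HD (hmem b))
    have h3 : Commute (iD (jB p b)) (iD (qD p)) := by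
      rw [iD_qD]
      exact (h1.pow_right 2).mul_right (h2.pow_right 2).inv_right
    apply hi
    rw [map_mul, map_mul]
    exact h3
  have hcq' : ∀ b : BrH (p + 3), φ (jB p b) * qD p = qD p * φ (jB p b) := by
    intro b
    have h1 : Commute (φ (jB p b)) (φ (qD p)) := (hcq b).map φ
    rcases hq with h | h
    · rw [h] at h1
      exact h1
    · rw [h] at h1
      exact (Commute.inv_right_iff.mp h1)
  obtain ⟨F, hF, hFv⟩ := exists_F p
  have hG : ∀ b : BrH (p + 3),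
      ((iD : D p →* Dh p).comp (φ.toMonoidHom.comp (jB p))) b ∈ F.range := by
    intro b
    have h1 : φ (jB p b) ∈ DHs p := by
      rw [DHs_map hz]
      exact BrD_le_HD (hmem b)
    obtain ⟨c, hc, n, h2⟩ := cent_qD h1 (hcq' b)
    rw [BrD_eq] at hc
    obtain ⟨c', hc', rfl⟩ := hc
    refine ⟨(⟨c', hc'⟩, Multiplicative.ofAdd n), ?_⟩
    rw [hFv]
    exact h2.symm
  have hfv : ∀ b, F (((MonoidHom.ofInjective hF).symm.toMonoidHom.comp
      (((iD : D p →* Dh p).comp (φ.toMonoidHom.comp (jB p))).codRestrict F.range hG)) b) =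
        iD (φ (jB p b)) := fun b => MonoidHom.apply_ofInjective_symm hF _
  generalize (MonoidHom.ofInjective hF).symm.toMonoidHom.comp
      (((iD : D p →* Dh p).comp (φ.toMonoidHom.comp (jB p))).codRestrict F.range hG) = f at hfv
  obtain ⟨c, hc⟩ := hom_Br ((MonoidHom.snd (BrH (p + 3)) (Multiplicative ℤ)).comp f)
  have hc' : ∀ b, (f b).2 = (lenD p (jB p b)) ^ c := hc
  -- the central element
  have hO : OmD p ∈ (BrH (p + 3)).map (jH p) := by
    rw [← BrD_eq]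
    exact OmD_mem
  obtain ⟨w, hw, hwO⟩ := hO
  have hW : iD (jB p (⟨w, hw⟩ ^ 2)) = OmD p ^ 2 := by
    rw [map_pow, map_pow, iD_jB]
    show jH p w ^ 2 = _
    rw [hwO]
  have hWq : jB p (⟨w, hw⟩ ^ 2) = qD p * zD p := by
    apply hi
    rw [hW, map_mul, iD_qD, iD_zD, inv_mul_cancel_right]
  have hlen : lenD p (jB p (⟨w, hw⟩ ^ 2)) =
      (Multiplicative.ofAdd (((p + 3) * (p + 4) : ℕ) : ℤ)) ^ 2 := by
    rw [← lenH_iD, hW, map_pow, len_OmD]
  have hK : (12 : ℤ) ≤ (((p + 3) * (p + 4) : ℕ) : ℤ) := by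
    push_cast
    nlinarith [(Nat.cast_nonneg p : (0 : ℤ) ≤ (p : ℤ))]
  have hsec := hc' (⟨w, hw⟩ ^ 2)
  rw [hlen] at hsec
  generalize (((p + 3) * (p + 4) : ℕ) : ℤ) = K at hK hsec
  have hc0 : c = 0 := by
    rcases hq with h | h
    · have h1 : F (f (⟨w, hw⟩ ^ 2)) = F (⟨w, hw⟩ ^ 2, Multiplicative.ofAdd 0) := by
        rw [hfv, hWq, map_mul, h, hz, ← hWq, iD_jB, hFv, zpow_zero, mul_one]
      rw [hF h1] at hsec
      have h2 := congrArg Multiplicative.toAdd hsec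
      rw [toAdd_zpow, toAdd_pow, toAdd_ofAdd, toAdd_ofAdd, smul_eq_mul, nsmul_eq_mul] at h2
      push_cast at h2
      have h3 : c * (2 * K) = 0 := h2.symm
      rcases mul_eq_zero.mp h3 with h4 | h4
      · exact h4
      · omega
    · exfalso
      have h1 : F (f (⟨w, hw⟩ ^ 2)) = F ((⟨w, hw⟩ ^ 2)⁻¹, Multiplicative.ofAdd 4) := by
        rw [hfv, hWq, map_mul, h, hz, hFv, map_mul, map_inv, iD_qD, iD_zD]
        show _ = jH p ((w ^ 2)⁻¹) * _
        rw [map_inv, map_pow, hwO]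
        have h5 : Commute (OmD p ^ 2) (ze p ^ 2) := (hOz.pow_right 2).pow_left 2
        have h6 : ze p ^ (4 : ℤ) = ze p ^ 2 * ze p ^ 2 := by
          rw [← pow_add]
          rfl
        rw [h6, mul_inv_rev, inv_inv, (h5.inv_left).eq.symm, mul_assoc]
      rw [hF h1] at hsec
      have h2 := congrArg Multiplicative.toAdd hsec
      rw [toAdd_zpow, toAdd_pow, toAdd_ofAdd, toAdd_ofAdd, smul_eq_mul, nsmul_eq_mul] at h2
      push_cast at h2
      have h3 : c * K = 2 := by linarith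
      rcases le_or_gt c 0 with h4 | h4
      · nlinarith
      · nlinarith
  refine ⟨(f b).1, hi ?_⟩
  have h2 : (f b).2 = Multiplicative.ofAdd 0 := by
    rw [hc' b, hc0, zpow_zero]
    rfl
  have h3 : f b = ((f b).1, Multiplicative.ofAdd 0) := Prod.ext rfl h2
  rw [← hfv b, h3, hFv, zpow_zero, mul_one, iD_jB]

/-- piece DN-H12: the induced automorphism (`Br_map` for `φ` and `φ⁻¹`, `jB_inj`) -/
theorem exists_beta {φ : MulAut (D p)} (hz : φ (zD p) = zD p)
    (hq : φ (qD p) = qD p ∨ φ (qD p) = (qD p)⁻¹) :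
    ∃ β : MulAut (BrH (p + 3)), ∀ b, φ (jB p b) = jB p (β b) := by
  have hz' : φ⁻¹ (zD p) = zD p := by
    have := congrArg (φ⁻¹ : MulAut (D p)) hz
    rw [MulAut.inv_apply_self] at this
    exact this.symm
  have hq' : φ⁻¹ (qD p) = qD p ∨ φ⁻¹ (qD p) = (qD p)⁻¹ := by
    rcases hq with h | h
    · left
      have := congrArg (φ⁻¹ : MulAut (D p)) h
      rw [MulAut.inv_apply_self] at this
      exact this.symm
    · right
      have := congrArg (φ⁻¹ : MulAut (D p)) h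
      rw [MulAut.inv_apply_self, map_inv] at this
      exact (inv_eq_iff_eq_inv.2 this).symm
  choose f hf using Br_map hz hq
  choose g hg using Br_map hz' hq'
  refine ⟨{ toFun := f, invFun := g, left_inv := fun b => jB_inj ?_,
            right_inv := fun b => jB_inj ?_, map_mul' := fun a b => jB_inj ?_ }, hf⟩
  · rw [← hg, ← hf, MulAut.inv_apply_self]
  · rw [← hf, ← hg, MulAut.apply_inv_self]
  · rw [map_mul, ← hf, ← hf, ← hf, map_mul, map_mul]

/-- piece DN-H13: `φ` is a conjugation on the braid group.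
Proof. `six_R`: `φ₁ = cj γ₁ * φ`, `φ₁ z = z` (`cj_z`). `exists_beta` for `φ₁`: `β`; `BrInner` applies: `len_of_z`, and
`piH (β b) = piH (foldG (iD (jB (β b)))) = piH (foldG (iD (φ₁ (jB b))))` (`iD_jB`, `fold_jH`) with `PiC.cj`. So
`β b = s b s⁻¹`; `γ = γ₁⁻¹ (jH s)`, `jB_a`. -/
theorem six_Br (hB : BrInner p) {φ : MulAut (D p)} (hz : φ (zD p) = zD p) (hL : PLL φ) (hπ : PiC φ) :
    ∃ γ ∈ HD p, ∀ j, j < p + 3 → φ (aD j) = cj p γ (aD j) := by
  obtain ⟨γ₁, hγ₁, hq⟩ := six_R hz hL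
  have hz₁ : (cj p γ₁ * φ) (zD p) = zD p := by
    rw [MulAut.mul_apply, hz, cj_z hγ₁]
  obtain ⟨β, hβ⟩ := exists_beta hz₁ hq
  have hlen : ∀ b, lenD p (jB p (β b)) = lenD p (jB p b) := fun b => by
    rw [← hβ, len_of_z hz₁]
  obtain ⟨s₀, hs₀⟩ := hπ.cj γ₁
  have hpi : ∃ s : Equiv.Perm ℕ, ∀ b,
      piH (p + 3) (β b : HB (p + 3)) = s * piH (p + 3) (b : HB (p + 3)) * s⁻¹ := by
    refine ⟨s₀, fun b => ?_⟩
    have h := hs₀ (jB p b)
    rw [hβ, iD_jB, iD_jB, fold_jH (β b).2, fold_jH b.2] at h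
    exact h
  obtain ⟨s, hs⟩ := hB β hlen hpi
  refine ⟨γ₁⁻¹ * jH p (s : HB (p + 3)), mul_mem (inv_mem hγ₁) ⟨_, rfl⟩, fun j hj => ?_⟩
  have h1 : (cj p γ₁ * φ) (aD j) = cj p (jH p (s : HB (p + 3))) (aD j) := by
    apply SemidirectProduct.inl_injective (φ := kAct p)
    change (iD ((cj p γ₁ * φ) (aD j)) : Dh p) = iD (cj p (jH p (s : HB (p + 3))) (aD j))
    rw [iD_cj, ← jB_a hj, hβ, hs, iD_jB, iD_jB, Subgroup.coe_mul, Subgroup.coe_mul,
      Subgroup.coe_inv, map_mul, map_mul, map_inv]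
  have h2 : φ (aD j) = (cj p γ₁)⁻¹ ((cj p γ₁ * φ) (aD j)) := by
    rw [MulAut.mul_apply, MulAut.inv_apply_self]
  rw [h2, h1, map_mul, map_inv, MulAut.mul_apply]

private lemma h14_par : (xW (p + 3) * xW (p + 2) : W (p + 3)) ∈ (parW (p + 3)).ker := by
  rw [MonoidHom.mem_ker, map_mul, parW, liftW_x _ _ le_rfl, liftW_x _ _ (by omega)]
  decide

private lemma h14_ev : evD p ⟨xW (p + 3) * xW (p + 2), h14_par⟩ = eD * (aD 0)⁻¹ := by
  have h : Function.Injective (iD : D p →* Dh p) := SemidirectProduct.inl_injective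
  apply h
  rw [iD_evD, ← lam'_u0, map_mul, sW_x le_rfl, sW_x (by omega)]

private lemma h14_step {j : ℕ} (hj : j < p + 3) (X : W (p + 3)) :
    iD (aD j) * lam' p (sW (p + 3) X) * (iD (aD j))⁻¹ =
      lam' p (sW (p + 3) (wA (p + 2 - j) X)) := by
  rw [lam'_a hj, aL_sW (by omega)]

private lemma h14_fix {X : W (p + 3)} {U : D p} (hU : iD U = lam' p (sW (p + 3) X)) {j : ℕ}
    (hj : j < p + 3) (h : aD j * U = U * aD j) : wA (p + 2 - j) X = X := by
  apply sW_inj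
  apply lam'_inj
  rw [← h14_step hj, ← hU, ← map_mul, h, map_mul, mul_inv_cancel_right]

private lemma h14_eq {K : Type*} [Group K] {a b e : K} (h1 : a * b * a = b * a * b)
    (h2 : e * b * e = b * e * b) :
    (e * a⁻¹) * (a * (b * (e * a⁻¹) * b⁻¹) * a⁻¹) = b * (e * a⁻¹) * b⁻¹ := by
  have h3 : a⁻¹ * b⁻¹ * a⁻¹ = b⁻¹ * a⁻¹ * b⁻¹ := by
    have := congrArg (fun x => x⁻¹) h1
    simpa [mul_assoc] using this
  calc (e * a⁻¹) * (a * (b * (e * a⁻¹) * b⁻¹) * a⁻¹) = (e * b * e) * (a⁻¹ * b⁻¹ * a⁻¹) := by group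
    _ = (b * e * b) * (b⁻¹ * a⁻¹ * b⁻¹) := by rw [h2, h3]
    _ = b * (e * a⁻¹) * b⁻¹ := by group

/-- piece DN-H14: the image of `u_0`.
Proof. `u_0 = e a_0⁻¹`, `iD u_0 = λ'(x_k x_{k-1})` (`lam'_u0`), so `u_0 = evD(x_k x_{k-1})`; `φ u_0 = evD X`
(`exists_evAut`). `u_0` commutes with `a_0` and with `a_j`, `2 ≤ j < k`, so `evD X` does and `α_i X = X` for
`i = k - 1` and `i ≤ k - 3` (`lam'_a`, `aL_sW`); `wfix2`. From `e a_1 e = a_1 e a_1`, `e = u_0 a_0`,
`a_0 a_1 a_0 = a_1 a_0 a_1`: `u_0 (a_0 a_1 u_0 a_1⁻¹ a_0⁻¹) = a_1 u_0 a_1⁻¹`, so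
`X α_{k-1}(α_{k-2} X) = α_{k-2} X`. `Solv`: `X = 1` is impossible (`x_k x_{k-1} ≠ 1`: `xkk_pow`), so
`X = Rⁱ x_k x_{k-1} R⁻ⁱ`. -/
theorem six_u (hS : Solv p) {φ : MulAut (D p)} (ha : ∀ j, j < p + 3 → φ (aD j) = aD j)
    (hz : φ (zD p) = zD p) (hL : PLL φ) :
    ∃ i : ℤ, iD (φ (eD * (aD 0)⁻¹)) = lam' p (RL (p + 3)) ^ i *
      lam' p (xL (p + 3) * xL (p + 2)) * (lam' p (RL (p + 3)) ^ i)⁻¹ := by
  obtain ⟨ψ, hψ⟩ := exists_evAut hz hL
  obtain ⟨X, hX⟩ : ∃ X : W (p + 3), X =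
      ((ψ ⟨xW (p + 3) * xW (p + 2), h14_par⟩ : (parW (p + 3)).ker) : W (p + 3)) := ⟨_, rfl⟩
  have hU : iD (φ (eD * (aD 0)⁻¹)) = lam' p (sW (p + 3) X) := by
    rw [← h14_ev, hψ, iD_evD, hX]
  have hR := relD p
  -- the elements which commute with `u_0`
  have hc : ∀ j, j < p + 3 → (aD j : D p) * (eD * (aD 0)⁻¹) = eD * (aD 0)⁻¹ * aD j →
      wA (p + 2 - j) X = X := by
    intro j hj h
    have h1 := congrArg φ h
    rw [map_mul, map_mul φ (eD * (aD 0)⁻¹) (aD j), ha j hj] at h1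
    exact h14_fix hU hj h1
  have hfix : ∀ i, i < p + 3 → i + 2 ≠ p + 3 → wA i X = X := by
    intro i hi hne
    rcases Nat.lt_or_ge i (p + 1) with h1 | h1
    · have h2 := hc (p + 2 - i) (by omega) (by
        have e1 := hR.ec (p + 2 - i) (by omega) (by omega)
        have e2 := hR.comm 0 (p + 2 - i) (by omega) (by omega)
        have e3 : (aD (p + 2 - i) : D p) * (aD 0)⁻¹ = (aD 0)⁻¹ * aD (p + 2 - i) := by
          have : Commute (aD 0 : D p) (aD (p + 2 - i)) := e2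
          exact this.symm.inv_right.eq
        rw [← mul_assoc, ← e1, mul_assoc, e3, mul_assoc])
      rwa [show p + 2 - (p + 2 - i) = i by omega] at h2
    · have h2 := hc 0 (by omega) (by
        have : Commute (eD : D p) (aD 0) := hR.ea
        rw [← mul_assoc, ← this.eq, mul_assoc, mul_assoc, mul_inv_cancel, inv_mul_cancel])
      rwa [show p + 2 - 0 = i by omega] at h2
  have hcl := wfix2 (by omega) hfix
  have hsol : X * wA (p + 2) (wA (p + 1) X) = wA (p + 1) X := by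
    apply sW_inj
    apply lam'_inj
    have h1 := congrArg (fun x => iD (φ x)) (h14_eq (K := D p) (hR.braid 0 (by omega)) hR.eb)
    simp only [zero_add] at h1
    rw [map_mul φ (eD * (aD 0)⁻¹), map_mul φ (_ * _) (aD 0)⁻¹, map_mul φ (aD 0),
      map_mul φ (_ * _) (aD 1)⁻¹, map_mul φ (aD 1), map_inv, map_inv, ha 0 (by omega),
      ha 1 (by omega)] at h1
    rw [map_mul iD (φ (eD * (aD 0)⁻¹)), map_mul iD (_ * _) (aD 0)⁻¹, map_mul iD (aD 0),
      map_mul iD (_ * _) (aD 1)⁻¹, map_mul iD (aD 1), map_inv, map_inv, hU] at h1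
    have e1 := h14_step (p := p) (j := 1) (by omega) X
    rw [show p + 2 - 1 = p + 1 by omega] at e1
    rw [e1] at h1
    have e2 := h14_step (p := p) (j := 0) (by omega) (wA (p + 1) X)
    rw [show p + 2 - 0 = p + 2 by omega] at e2
    rw [e2] at h1
    rw [map_mul, map_mul]
    exact h1
  rcases hS X hcl hsol with h1 | ⟨i, hi⟩
  · exfalso
    have h2 : ψ ⟨xW (p + 3) * xW (p + 2), h14_par⟩ = 1 := Subtype.ext (hX.symm.trans h1)
    have h3 : (⟨xW (p + 3) * xW (p + 2), h14_par⟩ : (parW (p + 3)).ker) = 1 := by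
      apply ψ.injective
      rw [h2, map_one]
    have h4 : (xW (p + 3) * xW (p + 2) : W (p + 3)) = 1 := congrArg Subtype.val h3
    have h5 := xkk_pow (k := p + 3) (by omega) (i := 1) (by
      rw [zpow_one, show p + 3 - 1 = p + 2 by omega]; exact h4)
    omega
  · refine ⟨i, ?_⟩
    rw [hU, hi, map_mul, map_mul, map_mul, map_mul, map_inv, map_inv, map_zpow, map_zpow, map_mul,
      sW_x le_rfl, sW_x (by omega)]
    rfl

/-- piece DN-H15: the image of `e`.
Proof. `six_u`; `λ'(R)ⁱ = Ωⁱ ζ⁻ⁱ` (`lam'_R`), `ζ` commutes with `iD u_0 ∈ HD`; so `φ u_0 = cj (Ωⁱ) u_0`;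
`e = u_0 a_0` and `Ω` commutes with `a_0`. -/
theorem six_e (hS : Solv p) {φ : MulAut (D p)} (ha : ∀ j, j < p + 3 → φ (aD j) = aD j)
    (hz : φ (zD p) = zD p) (hL : PLL φ) : ∃ i : ℤ, φ eD = cj p (OmD p ^ i) eD := by
  obtain ⟨i, hi⟩ := six_u hS ha hz hL
  refine ⟨i, ?_⟩
  have hV : lam' p (xL (p + 3) * xL (p + 2)) ∈ HD p := by
    have h := lam'_sW_mem (p := p) (xW (p + 3) * xW (p + 2))
    rwa [map_mul, sW_x le_rfl, sW_x (by omega)] at h
  have hVz : Commute (lam' p (xL (p + 3) * xL (p + 2))) (ze p) := ze_comm hV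
  have hOz : Commute (OmD p) (ze p) := ze_comm (BrD_le_HD OmD_mem)
  have hOa : Commute (iD (aD 0) : Dh p) (OmD p) :=
    OmD_comm (Subgroup.subset_closure ⟨0, by show (0 : ℕ) < p + 3; omega, rfl⟩)
  have hR : lam' p (RL (p + 3)) ^ i = OmD p ^ i * ((ze p)⁻¹) ^ i := by
    rw [lam'_R]
    exact (hOz.inv_right).mul_zpow i
  have hu : iD (φ (eD * (aD 0)⁻¹)) = OmD p ^ i * iD (eD * (aD 0)⁻¹) * (OmD p ^ i)⁻¹ := by
    rw [hi, hR, lam'_u0]
    rw [lam'_u0] at hVz
    have h1 : Commute (((ze p)⁻¹) ^ i) (iD (eD * (aD 0)⁻¹) : Dh p) :=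
      (hVz.inv_right.zpow_right i).symm
    calc OmD p ^ i * ((ze p)⁻¹) ^ i * iD (eD * (aD 0)⁻¹) * (OmD p ^ i * ((ze p)⁻¹) ^ i)⁻¹
        = OmD p ^ i * (((ze p)⁻¹) ^ i * iD (eD * (aD 0)⁻¹)) * (((ze p)⁻¹) ^ i)⁻¹ *
          (OmD p ^ i)⁻¹ := by
            rw [mul_inv_rev]
            simp only [mul_assoc]
      _ = OmD p ^ i * iD (eD * (aD 0)⁻¹) * (OmD p ^ i)⁻¹ := by
          rw [h1.eq]
          simp only [mul_assoc, mul_inv_cancel_left]
  have hinj : Function.Injective (iD : D p →* Dh p) := SemidirectProduct.inl_injective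
  apply hinj
  rw [iD_cj]
  have he : (eD : D p) = eD * (aD 0)⁻¹ * aD 0 := by rw [inv_mul_cancel_right]
  have h2 : (iD (φ eD) : Dh p) = iD (φ (eD * (aD 0)⁻¹)) * iD (aD 0) := by
    conv_lhs => rw [he]
    rw [map_mul φ, ha 0 (by omega), map_mul iD]
  have h3 : Commute ((OmD p ^ i)⁻¹) (iD (aD 0) : Dh p) := ((hOa.zpow_right i).inv_right).symm
  rw [h2, hu]
  calc OmD p ^ i * iD (eD * (aD 0)⁻¹) * (OmD p ^ i)⁻¹ * iD (aD 0)
      = OmD p ^ i * iD (eD * (aD 0)⁻¹) * ((OmD p ^ i)⁻¹ * iD (aD 0)) := by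
        simp only [mul_assoc]
    _ = OmD p ^ i * (iD (eD * (aD 0)⁻¹) * iD (aD 0)) * (OmD p ^ i)⁻¹ := by
        rw [h3.eq]
        simp only [mul_assoc]
    _ = OmD p ^ i * iD eD * (OmD p ^ i)⁻¹ := by rw [← map_mul iD, ← he]

/-- piece DN-H16, STEP 6.
Proof. `six_Br`: `γ₁`; `φ₂ = cj γ₁⁻¹ * φ` fixes the `a_j`, `φ₂ z = z` (`cj_z`), `PLL.cj`; `six_e`; take
`γ = γ₁ Ωⁱ` (`OmD_mem`, `BrD_le_HD`, `OmD_comm`). -/
theorem six (hB : BrInner p) (hS : Solv p) {φ : MulAut (D p)} (hz : φ (zD p) = zD p) (hL : PLL φ)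
    (hπ : PiC φ) : ∃ γ ∈ HD p, (∀ j, j < p + 3 → φ (aD j) = cj p γ (aD j)) ∧ φ eD = cj p γ eD := by
  obtain ⟨γ₁, hγ₁, h₁⟩ := six_Br hB hz hL hπ
  have hcj : ∀ x, cj p γ₁⁻¹ (cj p γ₁ x) = x := fun x => by
    rw [map_inv, MulAut.inv_apply_self]
  have hcj' : ∀ x, cj p γ₁ (cj p γ₁⁻¹ x) = x := fun x => by
    rw [map_inv, MulAut.apply_inv_self]
  have ha : ∀ j, j < p + 3 → (cj p γ₁⁻¹ * φ) (aD j) = aD j := fun j hj => by
    rw [MulAut.mul_apply, h₁ j hj, hcj]
  have hz₂ : (cj p γ₁⁻¹ * φ) (zD p) = zD p := by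
    rw [MulAut.mul_apply, hz, cj_z (inv_mem hγ₁)]
  obtain ⟨i, hi⟩ := six_e hS ha hz₂ (hL.cj γ₁⁻¹)
  rw [MulAut.mul_apply] at hi
  refine ⟨γ₁ * OmD p ^ i, mul_mem hγ₁ (zpow_mem (BrD_le_HD OmD_mem) i), fun j hj => ?_, ?_⟩
  · rw [h₁ j hj, map_mul, MulAut.mul_apply]
    have hc : Commute (OmD p) (iD (aD j) : Dh p) :=
      (OmD_comm (Subgroup.subset_closure ⟨j, hj, rfl⟩)).symm
    have h2 : (iD (cj p (OmD p ^ i) (aD j)) : Dh p) = iD (aD j) := by
      rw [iD_cj, (hc.zpow_left i).eq, mul_inv_cancel_right]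
    rw [SemidirectProduct.inl_injective h2]
  · rw [map_mul, MulAut.mul_apply, ← hi, hcj']

end

end Pool.Agent.Helper20.DN
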