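import Pool.Agent.Helper20.DN.GrA

/-!
# Project DN: the form of the hand-in
-/

namespace Pool.Agent.Helper20.DN

open Pool.Agent.Helper7.AG (Artin)

/-- the homomorphisms from the group of graph automorphisms to the automorphism group of the Artin
group -/
abbrev GrHom {S : Type*} (M : CoxeterMatrix S) : Type _ := GraphAut M →* MulAut (Artin M)

/-- the automorphism `f` permutes the standard generators as `g` does -/
def ActsAs {S : Type*} (M : CoxeterMatrix S) (f : MulAut (Artin M)) (g : Equiv.Perm S) : Prop :=
  ∀ s : S, f (PresentedGroup.of s) = PresentedGroup.of (g s)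

/-- every `γ g` permutes the standard generators as `g` does -/
def ActsByGraph {S : Type*} (M : CoxeterMatrix S) (γ : GrHom M) : Prop :=
  ∀ g : GraphAut M, ActsAs M (γ g) g.1

/-- the structure of `Aut G` and `Out G`: `ε` is an involution which commutes with the `γ g`; every
automorphism is in exactly one way `conj x * γ g` or `conj x * γ g * ε`; `Out G` is isomorphic to
`E × {1, -1}` by the classes of the `γ g` and `ε`; the extension splits -/
def AutForm (G : Type*) [Group G] {E : Type*} [Group E] (ε : MulAut G) (γ : E →* MulAut G) : Prop :=
  ε * ε = 1 ∧ (∀ g, ε * γ g = γ g * ε) ∧ UniqueFormG G ε γ ∧ OutProd G ε γ ∧ Splits G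

/-- the group is isomorphic to the dihedral group of order eight -/
def IsD4 (E : Type*) [Group E] : Prop := Nonempty (E ≃* DihedralGroup 4)

/-- the description of `Aut` and `Out` of the Artin group of `M` by the graph automorphisms -/
def Described {S : Type*} (M : CoxeterMatrix S) : Prop :=
  ∃ (ε : MulAut (Artin M)) (γ : GrHom M), InvertsGens M ε ∧ ActsByGraph M γ ∧ AutForm (Artin M) ε γ

theorem described_of {n : ℕ} {M : CoxeterMatrix (Fin (n + 1))} (h : Stmt M) : Described M := h

end Pool.Agent.Helper20.DN
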