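import Pool.Agent.Helper38.DN.S1
import Pool.Agent.Helper22.BNS.Excl
import Pool.Agent.Helper22.BNS.SixM

/-!
# Project DN, step 1 for `n = 6`: the exceptional homomorphism does not come from an automorphism
-/

namespace Pool.Agent.Helper20.DN

open Equiv Pool.Agent.Helper38.BN Pool.Agent.Helper38.DN
open Pool.Agent.Helper22.BNS (Wr inr_inl Cst conj_left Cst_act FIp Six invariant_const sw_sq)

section
variable {p : ℕ}

/-- the pure elements are in the normal closure of `a_0²`, `u_0`, `v_0` -/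
theorem pure_gen {x : D p} (hx : piFD p x = 1) : x ∈ Subgroup.normalClosure
    ({aD 0 * aD 0, eD * (aD 0)⁻¹, bD * (aD (p + 2))⁻¹} : Set (D p)) := by
  obtain ⟨N, hN⟩ : ∃ N : Subgroup (D p), N = Subgroup.normalClosure
    ({aD 0 * aD 0, eD * (aD 0)⁻¹, bD * (aD (p + 2))⁻¹} : Set (D p)) := ⟨_, rfl⟩
  rw [← hN]
  have : N.Normal := by rw [hN]; infer_instance
  have m1 : aD 0 * aD 0 ∈ N := by
    rw [hN]; exact Subgroup.subset_normalClosure (by simp)
  have m2 : eD * (aD 0)⁻¹ ∈ N := by
    rw [hN]; exact Subgroup.subset_normalClosure (by simp)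
  have m3 : bD * (aD (p + 2))⁻¹ ∈ N := by
    rw [hN]; exact Subgroup.subset_normalClosure (by simp)
  let q : D p →* D p ⧸ N := QuotientGroup.mk' N
  have qk : ∀ y : D p, q y = 1 ↔ y ∈ N := fun y => QuotientGroup.eq_one_iff y
  let f : A (p + 1) →* D p ⧸ N := resA q
  have hP : P (p + 1) ≤ f.ker := by
    rw [P_gen]
    apply Subgroup.normalClosure_le_normal
    rintro y (rfl | rfl | rfl)
    · show f (aA 0 * aA 0) = 1
      rw [map_mul, resA_a q (by omega), ← map_mul]
      exact (qk _).2 m1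
    · show f dA = 1
      exact liftA_d _
    · show f uA = 1
      unfold uA
      rw [map_mul, map_inv, resA_b, resA_a q (by omega), ← map_inv, ← map_mul]
      exact (qk _).2 m3
  have hS : ∀ y : D p, ∃ z : A (p + 1), f z = q y ∧ piF (p + 1) z = piFD p y := by
    let S : Subgroup (D p) :=
      { carrier := {y | ∃ z : A (p + 1), f z = q y ∧ piF (p + 1) z = piFD p y}
        one_mem' := ⟨1, by simp, by simp⟩
        mul_mem' := by
          rintro a b ⟨z, h1, h2⟩ ⟨w, h3, h4⟩
          exact ⟨z * w, by rw [map_mul, map_mul, h1, h3], by rw [map_mul, map_mul, h2, h4]⟩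
        inv_mem' := by
          rintro a ⟨z, h1, h2⟩
          exact ⟨z⁻¹, by rw [map_inv, map_inv, h1], by rw [map_inv, map_inv, h2]⟩ }
    have hle : (⊤ : Subgroup (D p)) ≤ S := by
      rw [← closure_D, Subgroup.closure_le]
      rintro s (hs | ⟨j, hj, rfl⟩)
      · rcases hs with rfl | hs
        · exact ⟨bA, resA_b q, by rw [piF_b, piFD_b]⟩
        · rw [Set.mem_singleton_iff] at hs
          subst hs
          refine ⟨aA 0, ?_, by rw [piF_a (by omega), piFD_e]⟩
          rw [resA_a q (by omega)]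
          have h1 := (qk _).2 m2
          rw [map_mul, map_inv, mul_inv_eq_one] at h1
          exact h1.symm
      · have hj' : j < p + 3 := hj
        exact ⟨aA j, resA_a q hj', by rw [piF_a (by omega), piFD_a hj']⟩
    exact fun y => hle (Subgroup.mem_top y)
  obtain ⟨z, h1, h2⟩ := hS x
  rw [hx] at h2
  have h3 : z ∈ P (p + 1) := by rw [mem_P_iff]; exact h2
  have h4 : f z = 1 := hP h3
  rw [h4] at h1
  exact (qk _).1 h1.symm

end

/-- the vector of a generator -/
def vj (j : ℕ) : Fin 6 → Multiplicative ℤ := fun i =>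
  if i.val = j ∨ i.val = j + 1 then Multiplicative.ofAdd 1 else 1

/-- the image of a generator -/
def wj (j : ℕ) : Wr := SemidirectProduct.inl (vj j) * SemidirectProduct.inr (swF 3 j)

lemma swF_val {j : ℕ} (hj : j < 5) (i : Fin 6) : (swF 3 j i).val =
    if i.val = j then j + 1 else if i.val = j + 1 then j else i.val := by
  unfold swF
  rw [dif_pos (by omega), Equiv.swap_apply_def]
  split_ifs with h1 h2 h3 h4 <;> simp_all [Fin.ext_iff]

lemma swF_inv (j : ℕ) : (swF 3 j)⁻¹ = swF 3 j := inv_eq_of_mul_eq_one_left (sw_sq j)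

lemma act_apply {j : ℕ} (v : Fin 6 → Multiplicative ℤ) (i : Fin 6) :
    mulAutArrow (swF 3 j) v i = v (swF 3 j i) := by
  change v ((swF 3 j)⁻¹ i) = _
  rw [swF_inv]

lemma wj_left (j : ℕ) : (wj j).left = vj j := by simp [wj]
lemma wj_right (j : ℕ) : (wj j).right = swF 3 j := by simp [wj]

lemma wj_rel : RelBr 5 wj where
  comm i j h h' := by
    apply SemidirectProduct.ext
    · rw [SemidirectProduct.mul_left, SemidirectProduct.mul_left, wj_left, wj_left, wj_right,
        wj_right]
      funext t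
      rw [Pi.mul_apply, Pi.mul_apply, act_apply, act_apply]
      unfold vj
      rw [swF_val (by omega), swF_val h']
      have := t.isLt
      split_ifs <;> first | rfl | omega
    · rw [SemidirectProduct.mul_right, SemidirectProduct.mul_right, wj_right, wj_right,
        (swF_relA 3).comm i j h h']
  braid i h := by
    apply SemidirectProduct.ext
    · simp only [SemidirectProduct.mul_left, SemidirectProduct.mul_right, wj_left, wj_right]
      funext t
      simp only [Pi.mul_apply, map_mul, MulAut.mul_apply, act_apply]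
      unfold vj
      simp only [swF_val (show i < 5 by omega), swF_val h]
      have := t.isLt
      split_ifs <;> first | rfl | omega
    · simp only [SemidirectProduct.mul_right, wj_right]
      rw [(swF_relA 3).braid i h]

lemma wj_relD : RelD 2 wj (wj 4) (wj 0) where
  comm := wj_rel.comm
  braid := wj_rel.braid
  ba := rfl
  bb := (wj_rel.braid 3 (by omega)).symm
  bc i h := (wj_rel.comm i 4 (by omega) (by omega)).symm
  ea := rfl
  eb := wj_rel.braid 0 (by omega)
  ec i h1 h2 := wj_rel.comm 0 i (by omega) h2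
  be := (wj_rel.comm 0 4 (by omega) (by omega)).symm

/-- the homomorphism to the wreath product -/
def ThD : D 2 →* Wr := liftD wj_relD

lemma ThD_a {j : ℕ} (hj : j < 5) : ThD (aD j) = wj j := liftD_a _ hj

lemma ThD_right (x : D 2) : (ThD x).right = piFD 2 x := by
  have : (SemidirectProduct.rightHom : Wr →* Perm (Fin 6)).comp ThD = piFD 2 := by
    apply homD_ext
    · intro j hj
      rw [MonoidHom.comp_apply, ThD_a hj, piFD_a hj]
      exact wj_right j
    · rw [MonoidHom.comp_apply]
      unfold ThD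
      rw [liftD_b, piFD_b]
      exact wj_right 4
    · rw [MonoidHom.comp_apply]
      unfold ThD
      rw [liftD_e, piFD_e]
      exact wj_right 0
  exact DFunLike.congr_fun this x

section
variable (φ : MulAut (D 2))

/-- the permutations of the images -/
def ffD : D 2 →* Perm (Fin 6) := (piFD 2).comp φ.toMonoidHom

lemma ffD_apply (x : D 2) : ffD φ x = piFD 2 (φ x) := rfl

lemma ffD_surj : Function.Surjective (ffD φ) := by
  intro σ
  obtain ⟨y, hy⟩ := piFD_surj (p := 2) σ
  exact ⟨φ.symm y, by rw [ffD_apply, MulEquiv.apply_symm_apply, hy]⟩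

/-- the vector of `φ x` -/
def ccD (x : D 2) : Fin 6 → Multiplicative ℤ := (ThD (φ x)).left

lemma ccD_conj (h x : D 2) (hx : ffD φ x = 1) :
    ccD φ (h * x * h⁻¹) = mulAutArrow (ffD φ h) (ccD φ x) := by
  unfold ccD
  rw [map_mul, map_mul, map_inv, map_mul, map_mul, map_inv, conj_left, ThD_right]
  · rfl
  · rw [ThD_right]; exact hx

lemma ccD_mul (x y : D 2) (hx : ffD φ x = 1) : ccD φ (x * y) = ccD φ x * ccD φ y := by
  unfold ccD
  rw [map_mul, map_mul, SemidirectProduct.mul_left, ThD_right]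
  rw [ffD_apply] at hx
  rw [hx, map_one]
  rfl

lemma ccD_one : ccD φ 1 = 1 := by
  unfold ccD
  rw [map_one, map_one]; rfl

lemma ccD_inv (x : D 2) (hx : ffD φ x = 1) : ccD φ x⁻¹ = (ccD φ x)⁻¹ := by
  have h1 := ccD_mul φ x x⁻¹ hx
  rw [mul_inv_cancel, ccD_one] at h1
  exact eq_inv_of_mul_eq_one_right h1.symm

/-- the subgroup of the elements with constant vector -/
def NC : Subgroup (D 2) where
  carrier := {x | ffD φ x = 1 ∧ Cst (ccD φ x)}
  one_mem' := by
    refine ⟨map_one _, ?_⟩
    rw [ccD_one]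
    intro p q; rfl
  mul_mem' := by
    rintro x y ⟨hx, hx'⟩ ⟨hy, hy'⟩
    refine ⟨by rw [map_mul, hx, hy, mul_one], ?_⟩
    rw [ccD_mul φ x y hx]
    intro p q
    change ccD φ x p * ccD φ y p = ccD φ x q * ccD φ y q
    rw [hx' p q, hy' p q]
  inv_mem' := by
    rintro x ⟨hx, hx'⟩
    refine ⟨by rw [map_inv, hx, inv_one], ?_⟩
    rw [ccD_inv φ x hx]
    intro p q
    change (ccD φ x p)⁻¹ = (ccD φ x q)⁻¹
    rw [hx' p q]

instance : (NC φ).Normal := by
  constructor
  rintro x ⟨hx, hx'⟩ h
  refine ⟨by rw [map_mul, map_mul, map_inv, hx, mul_one, mul_inv_cancel], ?_⟩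
  rw [ccD_conj φ h x hx, Cst_act hx']
  exact hx'

/-- exclusion of the exceptional homomorphism -/
theorem six_exclD (h1 : ffD φ (aD 0) * ffD φ (aD 0) = 1) (h2 : ∀ x, ffD φ (aD 0) x ≠ x)
    (h3 : ffD φ (aD 0) ≠ ffD φ (aD 1)) : False := by
  have hr := relD 2
  have hS : Six (fun i => ffD φ (aD i)) (ffD φ bD) 1 := by
    refine ⟨fun i j h h' => ?_, fun i h => ?_, fun i h h' => by simp, ?_, ?_, fun i h => ?_, ?_, h3⟩
    · simp only [← map_mul]; rw [hr.comm i j h h']
    · simp only [← map_mul]; rw [hr.braid i h]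
    · simp only [← map_mul]; rw [hr.ba]
    · simp only [← map_mul]; rw [hr.bb]
    · simp only [← map_mul]; rw [hr.bc i h]
    · refine ⟨h2, fun i => ?_⟩
      have := DFunLike.congr_fun h1 i
      exact this
  have hb : ffD φ bD = ffD φ (aD 4) := hS.b_eq
  have hS' : Six (fun i => ffD φ (aD (4 - i))) (ffD φ eD) 1 := by
    refine ⟨fun i j h h' => ?_, fun i h => ?_, fun i h h' => by simp, ?_, ?_, fun i h => ?_,
      hS.fi_all 4 (by omega), fun e => hS.ne_succ 3 (by omega) e.symm⟩
    · simp only [← map_mul]; rw [← hr.comm (4 - j) (4 - i) (by omega) (by omega)]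
    · simp only [← map_mul]
      have h4 := hr.braid (4 - (i + 1)) (by omega)
      have h5 : 4 - (i + 1) + 1 = 4 - i := by omega
      rw [h5] at h4
      rw [← h4]
    · simp only [← map_mul]; rw [show 4 - 4 = 0 from rfl, hr.ea]
    · simp only [← map_mul]; rw [show 4 - 3 = 1 from rfl, hr.eb]
    · simp only [← map_mul]; rw [hr.ec (4 - i) (by omega) (by omega)]
  have he : ffD φ eD = ffD φ (aD 0) := hS'.b_eq
  have hu : ffD φ (eD * (aD 0)⁻¹) = 1 := by rw [map_mul, map_inv, he, mul_inv_cancel]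
  have hv : ffD φ (bD * (aD 4)⁻¹) = 1 := by rw [map_mul, map_inv, hb, mul_inv_cancel]
  have hsq0 : ffD φ (aD 0 * aD 0) = 1 := by rw [map_mul, h1]
  -- constant vectors
  have key : ∀ (x : D 2) (i : ℕ), i + 1 < 5 → ffD φ x = 1 → Commute (aD i) x →
      Commute (aD (i + 1)) x → Cst (ccD φ x) := by
    intro x i hi hx c1 c2
    have e1 : mulAutArrow (ffD φ (aD i)) (ccD φ x) = ccD φ x := by
      rw [← ccD_conj φ _ x hx, c1.eq, mul_inv_cancel_right]
    have e2 : mulAutArrow (ffD φ (aD (i + 1))) (ccD φ x) = ccD φ x := by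
      rw [← ccD_conj φ _ x hx, c2.eq, mul_inv_cancel_right]
    have fi1 : FIp (ffD φ (aD i)) := hS.fi_all i (by omega)
    have fi2 : FIp (ffD φ (aD (i + 1))) := hS.fi_all (i + 1) hi
    have i1 : (ffD φ (aD i))⁻¹ = ffD φ (aD i) := by
      rw [inv_eq_iff_mul_eq_one]
      exact Equiv.ext fi1.2
    have i2 : (ffD φ (aD (i + 1)))⁻¹ = ffD φ (aD (i + 1)) := by
      rw [inv_eq_iff_mul_eq_one]
      exact Equiv.ext fi2.2
    intro p q
    refine (invariant_const fi1 fi2 (hS.braid i hi) (hS.ne_succ i hi) (ccD φ x) (fun j => ?_)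
      (fun j => ?_) q p)
    · have := congrFun e1 j
      change ccD φ x ((ffD φ (aD i))⁻¹ j) = ccD φ x j at this
      rwa [i1] at this
    · have := congrFun e2 j
      change ccD φ x ((ffD φ (aD (i + 1)))⁻¹ j) = ccD φ x j at this
      rwa [i2] at this
  have c02 : Commute (aD 2 : D 2) (aD 0) := (hr.comm 0 2 (by omega) (by omega)).symm
  have c03 : Commute (aD 3 : D 2) (aD 0) := (hr.comm 0 3 (by omega) (by omega)).symm
  have c04 : Commute (aD 0 : D 2) (aD 4) := hr.comm 0 4 (by omega) (by omega)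
  have c14 : Commute (aD 1 : D 2) (aD 4) := hr.comm 1 4 (by omega) (by omega)
  have ce2 : Commute (aD 2 : D 2) eD := (hr.ec 2 (by omega) (by omega)).symm
  have ce3 : Commute (aD 3 : D 2) eD := (hr.ec 3 (by omega) (by omega)).symm
  have cb0 : Commute (aD 0 : D 2) bD := (hr.bc 0 (by omega)).symm
  have cb1 : Commute (aD 1 : D 2) bD := (hr.bc 1 (by omega)).symm
  have ka : Cst (ccD φ (aD 0 * aD 0)) :=
    key _ 2 (by omega) hsq0 (c02.mul_right c02) (c03.mul_right c03)
  have ku : Cst (ccD φ (eD * (aD 0)⁻¹)) :=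
    key _ 2 (by omega) hu (ce2.mul_right c02.inv_right) (ce3.mul_right c03.inv_right)
  have kv : Cst (ccD φ (bD * (aD 4)⁻¹)) :=
    key _ 0 (by omega) hv (cb0.mul_right c04.inv_right) (cb1.mul_right c14.inv_right)
  have hP : ∀ x : D 2, piFD 2 x = 1 → x ∈ NC φ := by
    intro x hx
    have h4 := pure_gen hx
    refine Subgroup.normalClosure_le_normal ?_ h4
    rintro y (rfl | rfl | rfl)
    · exact ⟨hsq0, ka⟩
    · exact ⟨hu, ku⟩
    · exact ⟨hv, kv⟩
  -- the kernel of `ffD` is the pure subgroup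
  have hker : ∀ x : D 2, ffD φ x = 1 → piFD 2 x = 1 := by
    have hlift : ∀ σ : Perm (Fin 6), ∃ y : D 2, piFD 2 y = σ := fun σ => piFD_surj (p := 2) σ
    choose l hl using hlift
    have h5 : ∀ x : D 2, ffD φ (l (piFD 2 x)) = ffD φ x := by
      intro x
      have h6 : piFD 2 (l (piFD 2 x) * x⁻¹) = 1 := by
        rw [map_mul, hl, map_inv, mul_inv_cancel]
      have h7 := (hP _ h6).1
      rw [map_mul, map_inv, mul_inv_eq_one] at h7
      exact h7
    have hsur : Function.Surjective (fun σ : Perm (Fin 6) => ffD φ (l σ)) := by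
      intro σ
      obtain ⟨x, hx⟩ := ffD_surj φ σ
      exact ⟨piFD 2 x, by rw [← hx]; exact h5 x⟩
    have hinj := Finite.injective_iff_surjective.mpr hsur
    intro x hx
    apply hinj
    change ffD φ (l (piFD 2 x)) = ffD φ (l 1)
    have h8 := h5 1
    rw [map_one, map_one] at h8
    rw [h5, hx, h8]
  -- contradiction
  obtain ⟨x, hx⟩ : ∃ x : D 2, φ x = aD 0 * aD 0 := ⟨φ.symm _, MulEquiv.apply_symm_apply _ _⟩
  have hfx : ffD φ x = 1 := by
    rw [ffD_apply, hx, map_mul, piFD_a (by omega)]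
    exact sw_sq 0
  have hc := (hP x (hker x hfx)).2 0 2
  unfold ccD at hc
  rw [hx, map_mul, ThD_a (by omega), SemidirectProduct.mul_left, wj_left, wj_right,
    Pi.mul_apply, Pi.mul_apply, act_apply, act_apply] at hc
  unfold vj at hc
  rw [swF_val (by omega), swF_val (by omega)] at hc
  revert hc
  decide

end

/-- step 1 for `n = 6` -/
theorem pi_char_six (φ : MulAut (D 2)) : ∃ s : D 2, ∀ x, piD 2 (φ x) = piD 2 (s * x * s⁻¹) := by
  have hnc := noncomm_autD φ
  have hne : ffD φ (aD 0) ≠ ffD φ (aD 1) := ne_of_noncommD (ffD φ) hnc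
  have hr : RelBr 5 (fun i => ffD φ (aD i)) := (relD 2).toRelBr.map (ffD φ)
  have hs : (ffD φ (aD 0)).IsSwap := by
    rcases l5 (by simp) hr hne with h | h
    · exact isSwap_of_card h
    · exact (six_exclD φ h.1 h.2 hne).elim
  obtain ⟨g, hg⟩ := std_coreD (by omega) (ffD φ) hnc hs
  exact pi_of_piFD hg

end Pool.Agent.Helper20.DN
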