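import Pool.Agent.Helper20.DN.Final
import Pool.Agent.Helper20.DN.Desc
import Pool.Agent.Helper16.DN.BrInner
import Pool.Agent.Helper20.DN.Six

/-!
# Project DN: the theorem for all `n ≥ 5`
-/

namespace Pool.Agent.Helper20.DN

open Pool.Agent.Helper7.AG (Artin)

/-- step 1 for all `p ≥ 1` -/
theorem step1 {p : ℕ} (hp : 1 ≤ p) (φ : MulAut (D p)) : ∃ s : D p, ∀ x,
    Pool.Agent.Helper38.DN.piD p (φ x) = Pool.Agent.Helper38.DN.piD p (s * x * s⁻¹) := by
  by_cases h2 : p = 2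
  · subst h2
    exact pi_char_six φ
  · exact Pool.Agent.Helper38.DN.pi_char_general hp h2 φ

/-- the theorem for all `n ≥ 5` -/
theorem main (n : ℕ) (hn : 5 ≤ n) : Described (Dt n) ∧ IsD4 (GraphAut (Dt n)) := by
  obtain ⟨p, rfl⟩ : ∃ p, n = p + 4 := ⟨n - 4, by omega⟩
  have hp : 1 ≤ p := by omega
  exact ⟨described_of (final_of hp (Pool.Agent.Helper16.DN.brInner hp) (step1 hp)), graphAut_D4 hp⟩

end Pool.Agent.Helper20.DN
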