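import Pool.Agent.Helper38.BN.Pres

/-!
# Project DN (MP_2ec7a7_al): the Artin groups of type `D̃_n`, definitions

`Dt n` is the Coxeter matrix of the affine type `D̃_n` (`n ≥ 4`) on the nodes `0, 1, …, n`: the
leaves `0` and `1` are joined to `2`, the path is `2 - 3 - ⋯ - (n-2)`, and the leaves `n-1` and `n`
are joined to `n-2`.

In the development `n = p + 4`, `k = p + 3`, the *strands* are `0, 1, …, k`.  The generators of
`D p = Artin (Dt (p+4))` are `aD j` (`j < k`; it exchanges the strands `j` and `j + 1`), `bD` (the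
twin of `aD (k-1)`) and `eD` (the twin of `aD 0`).  In the notation of project BN `m = p + 1`.
-/

namespace Pool.Agent.Helper20.DN

open Pool.Agent.Helper7.AG (alt rels Artin)
open Pool.Agent.Helper38.BN

/-- the entries of the Coxeter matrix of type `D̃_n` -/
def dtE (n i j : ℕ) : ℕ :=
  if i = j then 1
  else if (i = 0 ∧ j = 2) ∨ (j = 0 ∧ i = 2) then 3
  else if (i + 2 = n ∧ j = n) ∨ (j + 2 = n ∧ i = n) then 3
  else if (i ≠ 0 ∧ j = i + 1 ∧ j ≠ n) ∨ (j ≠ 0 ∧ i = j + 1 ∧ i ≠ n) then 3
  else 2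

lemma dtE_symm (n i j : ℕ) : dtE n i j = dtE n j i := by
  unfold dtE
  split_ifs <;> first | rfl | omega

lemma dtE_self (n i : ℕ) : dtE n i i = 1 := by simp [dtE]

lemma dtE_off (n i j : ℕ) (h : i ≠ j) : dtE n i j ≠ 1 := by
  unfold dtE
  split_ifs <;> omega

/-- the Coxeter matrix of the affine type `D̃_n` -/
def Dt (n : ℕ) : CoxeterMatrix (Fin (n + 1)) where
  M := Matrix.of fun i j => dtE n i j
  isSymm := by ext i j; simp [dtE_symm n i j]
  diagonal := by intro i; simp [dtE_self]
  off_diagonal := by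
    intro i j h
    simpa using dtE_off n i j (fun e => h (Fin.ext e))

/-- the Artin group of type `D̃_{p+4}` -/
abbrev D (p : ℕ) : Type := Artin (Dt (p + 4))

/-- the generators `a_j` of `D p`, `j ≤ p + 2` (for larger `j`: the element `1`) -/
def aD {p : ℕ} (j : ℕ) : D p :=
  if j < p + 3 then PresentedGroup.of (⟨p + 3 - j, by omega⟩ : Fin (p + 4 + 1)) else 1
/-- the generator `b` of `D p` -/
def bD {p : ℕ} : D p := PresentedGroup.of (⟨0, by omega⟩ : Fin (p + 4 + 1))
/-- the generator `e` of `D p` -/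
def eD {p : ℕ} : D p := PresentedGroup.of (⟨p + 4, by omega⟩ : Fin (p + 4 + 1))

section
variable {K : Type*} [Group K]

/-- the relations of the Artin group of type `D̃_{p+4}`: `b` is the twin of `a (p+2)` and `e` is the
twin of `a 0` -/
structure RelD (p : ℕ) (a : ℕ → K) (b e : K) : Prop extends RelBr (p + 3) a where
  ba : b * a (p + 2) = a (p + 2) * b
  bb : b * a (p + 1) * b = a (p + 1) * b * a (p + 1)
  bc : ∀ i, i < p + 1 → b * a i = a i * b
  ea : e * a 0 = a 0 * e
  eb : e * a 1 * e = a 1 * e * a 1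
  ec : ∀ i, 1 < i → i < p + 3 → e * a i = a i * e
  be : b * e = e * b

end

end Pool.Agent.Helper20.DN
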