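import Pool.Agent.Helper20.DN.LL

/-!
# Project DN: the retractions of `K k`

The kernel of `pG : G k → W k` is the free group on the elements `g y g⁻¹`, `g ∈ W k`:
`ψ : FreeGroup (W k) → G k`, `of g ↦ g y g⁻¹`; every `x ∈ G k` is `ψ (lf x) * sG (pG x)`.
`M v g = lf (Fr v (g y g⁻¹))` is the *frame* of the list `v` (read from right to left).
-/

namespace Pool.Agent.Helper20.DN

open Pool.Agent.Helper38.BN

variable {k : ℕ}

/-- the homomorphism `of g ↦ g y g⁻¹` -/
def psi (k : ℕ) : FreeGroup (W k) →* G k := FreeGroup.lift (fun g => sG k g * yG * (sG k g)⁻¹)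

/-- the homomorphism `of g ↦ muL g` to `L k` -/
def kap' (k : ℕ) : FreeGroup (W k) →* L k := (mkL k).comp (psi k)

/-- left multiplication of the indices -/
def shW (k : ℕ) : W k →* MulAut (FreeGroup (W k)) where
  toFun w := FreeGroup.freeGroupCongr (Equiv.mulLeft w)
  map_one' := by
    ext x
    simp
  map_mul' v w := by
    have h : (FreeGroup.freeGroupCongr (Equiv.mulLeft (v * w))).toMonoidHom =
        (FreeGroup.freeGroupCongr (Equiv.mulLeft v)).toMonoidHom.comp
          (FreeGroup.freeGroupCongr (Equiv.mulLeft w)).toMonoidHom := by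
      apply FreeGroup.ext_hom
      intro g
      simp [mul_assoc]
    exact MulEquiv.ext fun x => DFunLike.congr_fun h x

lemma shW_of (w g : W k) : shW k w (FreeGroup.of g) = FreeGroup.of (w * g) := by
  simp [shW]

/-- piece DN-R1: `w ψ(x) w⁻¹ = ψ (w x)` -/
theorem psi_sh (w : W k) (x : FreeGroup (W k)) :
    sG k w * psi k x * (sG k w)⁻¹ = psi k (shW k w x) := by
  have h : (MulAut.conj (sG k w)).toMonoidHom.comp (psi k) =
      (psi k).comp (shW k w).toMonoidHom := by
    apply FreeGroup.ext_hom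
    intro g
    change sG k w * psi k (FreeGroup.of g) * (sG k w)⁻¹ = psi k (shW k w (FreeGroup.of g))
    rw [shW_of]
    unfold psi
    rw [FreeGroup.lift_apply_of, FreeGroup.lift_apply_of, map_mul]
    group
  exact DFunLike.congr_fun h x

/-- piece DN-R1 -/
theorem pG_psi (x : FreeGroup (W k)) : pG k (psi k x) = 1 := by
  have h : (pG k).comp (psi k) = 1 := by
    apply FreeGroup.ext_hom
    intro g
    change pG k (psi k (FreeGroup.of g)) = 1
    unfold psi
    rw [FreeGroup.lift_apply_of, map_mul, map_mul, map_inv, pG_y, pG_sG, mul_one,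
      mul_inv_cancel]
  exact DFunLike.congr_fun h x

/-- piece DN-R1: the left part.
Proof. `G k → FreeGroup (W k) ⋊[shW k] W k`, `y ↦ inl (of 1)`, `x_i ↦ inr (xW i)` (`liftG`); it maps
`sG w` to `inr w`, `ψ x` to `inl x`; `lf` is the left component. `g = ψ (lf g) * sG (pG g)`: the map
`(x, w) ↦ ψ x * sG w` is a homomorphism (`psi_sh`, `SemidirectProduct.lift`) and a left inverse
(`homG_ext`). -/
theorem exists_lf (k : ℕ) : ∃ lf : G k → FreeGroup (W k), (∀ x, lf (psi k x) = x) ∧
    (∀ g, g = psi k (lf g) * sG k (pG k g)) ∧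
    (∀ g h, lf (g * h) = lf g * shW k (pG k g) (lf h)) := by
  let Φ : G k →* FreeGroup (W k) ⋊[shW k] W k :=
    liftG (fun i => SemidirectProduct.inr (xW i))
      (fun i _ => by rw [← map_mul, xW_sq, map_one]) (SemidirectProduct.inl (FreeGroup.of 1))
  let Ψ : FreeGroup (W k) ⋊[shW k] W k →* G k :=
    SemidirectProduct.lift (psi k) (sG k) (fun w => by
      refine MonoidHom.ext fun x => ?_
      exact (psi_sh w x).symm)
  have hx : ∀ i, i ≤ k → Φ (xG i) = SemidirectProduct.inr (xW i) := fun i hi => liftG_x _ _ _ hi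
  have hy : Φ yG = SemidirectProduct.inl (FreeGroup.of 1) := liftG_y _ _ _
  have hs : Φ.comp (sG k) = SemidirectProduct.inr := by
    refine homW_ext fun i hi => ?_
    rw [MonoidHom.comp_apply, sG_x hi, hx i hi]
  have hs' : ∀ w, Φ (sG k w) = SemidirectProduct.inr w := fun w => DFunLike.congr_fun hs w
  have hp : Φ.comp (psi k) = SemidirectProduct.inl := by
    apply FreeGroup.ext_hom
    intro g
    rw [MonoidHom.comp_apply]
    unfold psi
    rw [FreeGroup.lift_apply_of, map_mul, map_mul, map_inv, hs', hy, ← map_inv,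
      ← SemidirectProduct.inl_aut, shW_of, mul_one]
  have hp' : ∀ x, Φ (psi k x) = SemidirectProduct.inl x := fun x => DFunLike.congr_fun hp x
  have hr : (SemidirectProduct.rightHom : FreeGroup (W k) ⋊[shW k] W k →* W k).comp Φ = pG k := by
    refine homG_ext (fun i hi => ?_) ?_
    · rw [MonoidHom.comp_apply, hx i hi, pG_x hi]
      rfl
    · rw [MonoidHom.comp_apply, hy, pG_y]
      rfl
  have hr' : ∀ g, (Φ g).right = pG k g := fun g => DFunLike.congr_fun hr g
  have hid : Ψ.comp Φ = MonoidHom.id (G k) := by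
    refine homG_ext (fun i hi => ?_) ?_
    · rw [MonoidHom.comp_apply, hx i hi]
      change Ψ (SemidirectProduct.inr (xW i)) = xG i
      rw [SemidirectProduct.lift_inr, sG_x hi]
    · rw [MonoidHom.comp_apply, hy]
      change Ψ (SemidirectProduct.inl (FreeGroup.of 1)) = yG
      rw [SemidirectProduct.lift_inl]
      unfold psi
      rw [FreeGroup.lift_apply_of, map_one, one_mul, inv_one, mul_one]
  refine ⟨fun g => (Φ g).left, fun x => ?_, fun g => ?_, fun g h => ?_⟩
  · change (Φ (psi k x)).left = x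
    rw [hp']
    rfl
  · have h1 : Ψ (Φ g) = g := DFunLike.congr_fun hid g
    rw [← hr' g]
    exact h1.symm
  · change (Φ (g * h)).left = (Φ g).left * shW k (pG k g) (Φ h).left
    rw [map_mul, ← hr' g]
    rfl

/-- the left part -/
noncomputable def lf {k : ℕ} : G k → FreeGroup (W k) := Classical.choose (exists_lf k)

lemma lf_psi (x : FreeGroup (W k)) : lf (psi k x) = x := (Classical.choose_spec (exists_lf k)).1 x
lemma psi_lf (g : G k) : g = psi k (lf g) * sG k (pG k g) := (Classical.choose_spec (exists_lf k)).2.1 g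
lemma lf_mul (g h : G k) : lf (g * h) = lf g * shW k (pG k g) (lf h) :=
  (Classical.choose_spec (exists_lf k)).2.2 g h

lemma psi_inj : Function.Injective (psi k) := fun x y h => by rw [← lf_psi x, ← lf_psi y, h]

lemma psi_lf' {g : G k} (h : pG k g = 1) : psi k (lf g) = g := by
  have h1 := psi_lf g
  rw [h, map_one, mul_one] at h1
  exact h1.symm

/-- the frame -/
noncomputable def Mf (v : List ℕ) (g : W k) : FreeGroup (W k) := lf (Fr v (psi k (FreeGroup.of g)))

lemma psi_Mf (v : List ℕ) (g : W k) : psi k (Mf v g) = Fr v (psi k (FreeGroup.of g)) :=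
  psi_lf' (by rw [pG_Fr, pG_psi])

/-- the factor of the recursion -/
noncomputable def Lm (v : List ℕ) (j : ℕ) (g : W k) : FreeGroup (W k) :=
  lf (Fr v (T j (sG k g) * (sG k g)⁻¹))

/-- piece DN-R2 -/
theorem psi_Lm (v : List ℕ) (j : ℕ) (g : W k) : psi k (Lm v j g) = Fr v (T j (sG k g) * (sG k g)⁻¹) := by
  refine psi_lf' ?_
  rw [pG_Fr, map_mul, map_inv, pG_T, pG_sG, mul_inv_cancel]

/-- piece DN-R2: `M [] g = of g` -/
theorem Mf_nil (g : W k) : Mf [] g = FreeGroup.of g := by
  change lf (psi k (FreeGroup.of g)) = _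
  exact lf_psi _

/-- piece DN-R2: the recursion: `Fr (j :: v) (g y g⁻¹) = Fr v (T_j g · x_j y x_j · (T_j g)⁻¹)` -/
theorem Mf_cons (v : List ℕ) {j : ℕ} (hj : j ≤ k) (g : W k) :
    Mf (j :: v) g = Lm v j g * Mf v (g * xW j) * (Lm v j g)⁻¹ := by
  have hs : ∀ h : W k, psi k (FreeGroup.of h) = sG k h * yG * (sG k h)⁻¹ := fun h =>
    FreeGroup.lift_apply_of
  apply psi_inj
  rw [psi_Mf, map_mul, map_mul, map_inv, psi_Lm, psi_Mf]
  change Fr v (T j (psi k (FreeGroup.of g))) = _
  rw [← map_mul (Fr v), ← map_inv (Fr v), ← map_mul (Fr v)]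
  congr 1
  rw [hs, hs, map_mul, map_mul, map_inv, T_y, map_mul, sG_x hj]
  have hx : (xG j : G k)⁻¹ = xG j := inv_eq_of_mul_eq_one_left (xG_sq j)
  unfold yT
  simp only [mul_inv_rev, inv_inv, hx, mul_assoc, inv_mul_cancel_left]

/-- piece DN-R2 -/
theorem Lm_one (v : List ℕ) (j : ℕ) : Lm v j (1 : W k) = 1 := by
  unfold Lm
  rw [map_one, map_one, inv_one, mul_one, map_one, ← map_one (psi k), lf_psi]

/-- piece DN-R2: `Lm v j (g x_a)`, `a > j`: `T_j x_a = x_a` -/
theorem Lm_gt (v : List ℕ) {j a : ℕ} (ha : a ≤ k) (h : j < a) (g : W k) :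
    Lm v j (g * xW a) = Lm v j g := by
  unfold Lm
  have h1 : T j (sG k (g * xW a)) * (sG k (g * xW a))⁻¹ = T j (sG k g) * (sG k g)⁻¹ := by
    have h2 : (xT j a : G k) = xG a := by
      unfold xT; rw [if_neg (by omega), if_neg (by omega)]
    rw [map_mul, sG_x ha, map_mul, T_x j ha, h2]
    group
  rw [h1]

private lemma dnr2_psi_of (g : W k) :
    psi k (FreeGroup.of g) = sG k g * yG * (sG k g)⁻¹ := by
  unfold psi
  rw [FreeGroup.lift_apply_of]

/-- piece DN-R2: `Lm v j (g x_j)`: `T_j x_j · x_j = y x_j y⁻¹ x_j = E_j`, and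
`g E_j g⁻¹ = (g y g⁻¹) (g x_j y x_j g⁻¹)⁻¹` -/
theorem Lm_eq (v : List ℕ) {j : ℕ} (hj : j ≤ k) (g : W k) :
    Lm v j (g * xW j) = Lm v j g * (Mf v g * (Mf v (g * xW j))⁻¹) := by
  apply psi_inj
  have h2 : (xT j j : G k) = yG * xG j * yG⁻¹ := by
    unfold xT; rw [if_neg (by omega), if_pos rfl]
  simp only [map_mul, map_inv, psi_Lm, psi_Mf, dnr2_psi_of, sG_x hj, T_x j hj, h2]
  group

/-- piece DN-R2: `Lm v j (g x_a)`, `a < j`: `T_j x_a · x_a = E_j (x_a E_j⁻¹ x_a)` -/
theorem Lm_lt (v : List ℕ) {j a : ℕ} (hj : j ≤ k) (h : a < j) (g : W k) :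
    Lm v j (g * xW a) = Lm v j g * (Mf v g * (Mf v (g * xW j))⁻¹) *
      (Mf v (g * xW a) * (Mf v (g * xW a * xW j))⁻¹)⁻¹ := by
  apply psi_inj
  have ha : a ≤ k := by omega
  have h2 : (xT j a : G k) = eT j * xG a * (eT j)⁻¹ := by
    unfold xT; rw [if_pos h]
  have hs : (xG j : G k) * xG j = 1 := xG_sq j
  have hi : (xG j : G k)⁻¹ = xG j := inv_eq_of_mul_eq_one_left hs
  have h3 : (eT j : G k) = yG * xG j * yG⁻¹ * (xG j)⁻¹ := by
    unfold eT yT
    simp only [mul_inv_rev, hi]
    group
  simp only [map_mul, map_inv, psi_Lm, psi_Mf, dnr2_psi_of, sG_x hj, sG_x ha, T_x j ha, h2, h3]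
  group

/-- piece DN-R3: `M v g` is conjugate to `of (g v_1 v_2 ⋯)`: induction on `v`, `Mf_cons` -/
theorem Mf_conj {v : List ℕ} (hv : ∀ i ∈ v, i ≤ k) (g : W k) :
    ∃ c, Mf v g = c * FreeGroup.of (g * wv v) * c⁻¹ := by
  induction v generalizing g with
  | nil => exact ⟨1, by rw [Mf_nil, wv_nil, mul_one, one_mul, inv_one, mul_one]⟩
  | cons j v ih =>
    obtain ⟨c, hc⟩ := ih (fun i hi => hv i (List.mem_cons_of_mem _ hi)) (g * xW j)
    refine ⟨Lm v j g * c, ?_⟩
    rw [Mf_cons v (hv j List.mem_cons_self) g, hc, wv_cons]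
    simp only [mul_assoc, mul_inv_rev]

/-- piece DN-R3: `Lm v j g` is a product of frames `M v h^±1` with `lenW h ≤ lenW g`, or
`h = g x_j`, `lenW h = lenW g + 1`.
Proof. Induction on `lenW g` (`lenW_succ`): `g = g' x_a`, `Lm_gt`, `Lm_eq`, `Lm_lt`; the elements
`g'`, `g' x_j`, `g' x_a = g`, `g x_j` have length at most `lenW g`, or it is `g x_j`. -/
theorem Lm_mem (v : List ℕ) {j : ℕ} (hj : j ≤ k) (g : W k) :
    Lm v j g ∈ Subgroup.closure (Mf v '' ({h | lenW h ≤ lenW g} ∪ {g * xW j})) := by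
  have hlen : ∀ h : W k, lenW (h * xW j) ≤ lenW h + 1 := by
    intro h
    rcases lenW_mul_x h hj with h1 | h1
    · exact h1.1.le
    · omega
  obtain ⟨n, hn⟩ : ∃ n, lenW g = n := ⟨_, rfl⟩
  induction n generalizing g with
  | zero =>
    rw [lenW_eq_zero hn, Lm_one]
    exact Subgroup.one_mem _
  | succ n ih =>
    obtain ⟨g', a, ha, rfl, hg'⟩ := lenW_succ hn
    have h1 : Lm v j g' ∈ Subgroup.closure
        (Mf v '' ({h | lenW h ≤ lenW (g' * xW a)} ∪ {g' * xW a * xW j})) := by
      refine Subgroup.closure_mono (Set.image_mono ?_) (ih g' hg')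
      rintro h (hh | hh)
      · left
        rw [Set.mem_ofPred_eq] at hh ⊢
        omega
      · left
        rw [Set.mem_singleton_iff] at hh
        rw [Set.mem_ofPred_eq, hh, hn, ← hg']
        exact hlen g'
    have hm : ∀ h : W k, lenW h ≤ n + 1 → Mf v h ∈ Subgroup.closure
        (Mf v '' ({h | lenW h ≤ lenW (g' * xW a)} ∪ {g' * xW a * xW j})) := by
      intro h hh
      refine Subgroup.subset_closure ⟨h, Or.inl ?_, rfl⟩
      rw [Set.mem_ofPred_eq, hn]
      exact hh
    have hm' : Mf v (g' * xW a * xW j) ∈ Subgroup.closure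
        (Mf v '' ({h | lenW h ≤ lenW (g' * xW a)} ∪ {g' * xW a * xW j})) :=
      Subgroup.subset_closure ⟨_, Or.inr rfl, rfl⟩
    have h2 := hm g' (by omega)
    have h3 := hm (g' * xW j) (by have := hlen g'; omega)
    have h4 := hm (g' * xW a) (by omega)
    rcases lt_trichotomy j a with h | h | h
    · rw [Lm_gt v ha h]
      exact h1
    · subst h
      rw [Lm_eq v hj]
      exact Subgroup.mul_mem _ h1 (Subgroup.mul_mem _ h2 (Subgroup.inv_mem _ h3))
    · rw [Lm_lt v hj h]
      exact Subgroup.mul_mem _ (Subgroup.mul_mem _ h1 (Subgroup.mul_mem _ h2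
        (Subgroup.inv_mem _ h3))) (Subgroup.inv_mem _ (Subgroup.mul_mem _ h4
        (Subgroup.inv_mem _ hm')))

/-- piece DN-R4: frames and lengths: induction on `v`, `Mf_cons`, `Lm_mem` (`lenW (g x_j) ≤ lenW g + 1`) -/
theorem Mf_mem {v : List ℕ} (hv : ∀ i ∈ v, i ≤ k) (g : W k) :
    Mf v g ∈ Subgroup.closure (FreeGroup.of '' {h : W k | lenW h ≤ lenW g + v.length}) := by
  induction v generalizing g with
  | nil =>
    rw [Mf_nil]
    exact Subgroup.subset_closure ⟨g, by simp, rfl⟩
  | cons j v ih =>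
    have hj : j ≤ k := hv j List.mem_cons_self
    have ih' := ih fun i hi => hv i (List.mem_cons_of_mem _ hi)
    have hx : lenW (g * xW j) ≤ lenW g + 1 := by
      rcases lenW_mul_x g hj with h | h
      · exact h.1.le
      · omega
    have hle : ∀ h : W k, lenW h ≤ lenW g + 1 → Mf v h ∈ Subgroup.closure
        (FreeGroup.of '' {h : W k | lenW h ≤ lenW g + (j :: v).length}) := by
      intro h hh
      refine Subgroup.closure_mono (Set.image_mono fun w hw => ?_) (ih' h)
      simp only [Set.mem_setOf_eq, List.length_cons] at hw ⊢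
      omega
    have hL : Lm v j g ∈ Subgroup.closure
        (FreeGroup.of '' {h : W k | lenW h ≤ lenW g + (j :: v).length}) := by
      refine (Subgroup.closure_le _).2 ?_ (Lm_mem v hj g)
      rintro _ ⟨h, hh, rfl⟩
      rcases hh with hh | hh
      · exact hle h (Nat.le_succ_of_le hh)
      · rw [Set.mem_singleton_iff.mp hh]
        exact hle _ hx
    rw [Mf_cons v hj]
    exact Subgroup.mul_mem _ (Subgroup.mul_mem _ hL (hle _ hx)) (Subgroup.inv_mem _ hL)

/-- piece DN-R4: the leading letter: if `g v` is reduced, then `M v g` is in the subgroup generated by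
the `of h` with `lenW h < lenW g + v.length` and by `of (g v)`.
Proof. Induction on `v`. `v = []`: `Mf_nil`. `j :: v`: `Mf_cons`; `lenW (g x_j) = lenW g + 1` and
`lenW (g x_j v) = lenW (g x_j) + v.length` (from `lenW (g x_j v) = lenW g + 1 + v.length` and the
triangle inequalities), so the induction hypothesis applies to `M v (g x_j)`; in `Lm_mem` the frames
`M v h`, `lenW h ≤ lenW g`, are in the subgroup generated by the `of h'`,
`lenW h' ≤ lenW g + v.length < lenW g + (v.length + 1)` (`Mf_mem`). -/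
theorem Mf_lead {v : List ℕ} (hv : ∀ i ∈ v, i ≤ k) {g : W k}
    (h : lenW (g * wv v) = lenW g + v.length) :
    Mf v g ∈ Subgroup.closure
      (FreeGroup.of '' ({h : W k | lenW h < lenW g + v.length} ∪ {g * wv v})) := by
  induction v generalizing g with
  | nil =>
    rw [Mf_nil]
    exact Subgroup.subset_closure ⟨g, by simp, rfl⟩
  | cons j v ih =>
    have hj : j ≤ k := hv j List.mem_cons_self
    have hv' : ∀ i ∈ v, i ≤ k := fun i hi => hv i (List.mem_cons_of_mem _ hi)
    have hx : lenW (g * xW j) ≤ lenW g + 1 := by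
      rcases lenW_mul_x g hj with h | h
      · exact h.1.le
      · omega
    have he : g * wv (j :: v) = g * xW j * wv v := by rw [wv_cons, mul_assoc]
    rw [he, List.length_cons] at h
    have h1 := lenW_mul_le (g * xW j) (wv v)
    have h2 : lenW (wv v : W k) ≤ v.length := lenW_wv_le hv'
    have h3 : lenW (g * xW j) = lenW g + 1 := by omega
    have h4 := ih hv' (g := g * xW j) (by omega)
    have h5 : lenW (g * xW j) + v.length = lenW g + (j :: v).length := by
      rw [List.length_cons, h3]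
      omega
    rw [h5, ← he] at h4
    have hL : Lm v j g ∈ Subgroup.closure (FreeGroup.of ''
        ({h : W k | lenW h < lenW g + (j :: v).length} ∪ {g * wv (j :: v)})) := by
      refine (Subgroup.closure_le _).2 ?_ (Lm_mem v hj g)
      rintro _ ⟨w, hw, rfl⟩
      rcases hw with hw | hw
      · refine Subgroup.closure_mono (Set.image_mono fun u hu => Or.inl ?_) (Mf_mem hv' w)
        simp only [Set.mem_setOf_eq, List.length_cons] at hu hw ⊢
        omega
      · rw [Set.mem_singleton_iff.mp hw]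
        exact h4
    rw [Mf_cons v hj]
    exact Subgroup.mul_mem _ (Subgroup.mul_mem _ hL h4) (Subgroup.inv_mem _ hL)

/-- the relators of `K k` -/
def relK (k : ℕ) : Set (FreeGroup (W k)) :=
  {x | ∃ (v : List ℕ) (j : ℕ) (g : W k), RedW k (j :: v) ∧ lenW (g * xW j) = lenW g + 1 ∧
    x = Mf v g * Mf v (g * xW j) * (Mf v g)⁻¹ * (Mf v (g * xW j))⁻¹}

/-- the commutator of two frames -/
private noncomputable def dnr5_c (v : List ℕ) (j : ℕ) (g : W k) : FreeGroup (W k) :=
  Mf v g * Mf v (g * xW j) * (Mf v g)⁻¹ * (Mf v (g * xW j))⁻¹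

private lemma dnr5_psi (v : List ℕ) {j : ℕ} (hj : j ≤ k) (g : W k) :
    psi k (dnr5_c v j g) = Fr v (sG k g) * Fr v (cG j) * (Fr v (sG k g))⁻¹ := by
  unfold dnr5_c
  rw [map_mul, map_mul, map_mul, map_inv, map_inv, psi_Mf, psi_Mf]
  have hxi : (xG j : G k)⁻¹ = xG j := inv_eq_of_mul_eq_one_left (xG_sq j)
  have h1 : psi k (FreeGroup.of g) = sG k g * yG * (sG k g)⁻¹ := by
    unfold psi
    rw [FreeGroup.lift_apply_of]
  have h2 : psi k (FreeGroup.of (g * xW j)) = sG k g * yT j * (sG k g)⁻¹ := by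
    unfold psi yT
    rw [FreeGroup.lift_apply_of, map_mul, sG_x hj, mul_inv_rev, hxi]
    simp only [mul_assoc]
  rw [h1, h2]
  unfold cG
  generalize sG k g = S
  simp only [← map_mul, ← map_inv]
  congr 1
  group

private lemma dnr5_mem {v : List ℕ} {j : ℕ} (h : RedW k (j :: v)) (g : W k) :
    dnr5_c v j g ∈ Subgroup.normalClosure (relK k) := by
  have hj : j ≤ k := h.1 j List.mem_cons_self
  rcases lenW_mul_x g hj with h1 | h1
  · exact Subgroup.subset_normalClosure ⟨v, j, g, h, h1.1, rfl⟩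
  · have h2 : dnr5_c v j (g * xW j) ∈ Subgroup.normalClosure (relK k) := by
      refine Subgroup.subset_normalClosure ⟨v, j, g * xW j, h, ?_, rfl⟩
      rw [mul_assoc, xW_sq, mul_one]
      exact h1.symm
    have h3 : dnr5_c v j g = (dnr5_c v j (g * xW j))⁻¹ := by
      unfold dnr5_c
      rw [mul_assoc g, xW_sq, mul_one]
      group
    rw [h3]
    exact Subgroup.inv_mem _ h2

private lemma dnr5_conj {v : List ℕ} {j : ℕ} (hj : j ≤ k) (w g : W k) :
    ∃ μ, shW k w (dnr5_c v j g) = μ * dnr5_c v j (w * g) * μ⁻¹ := by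
  have e : ∀ g : W k, Fr v (sG k g) = psi k (lf (Fr v (sG k g))) * sG k g := by
    intro g
    have h1 := psi_lf (Fr v (sG k g))
    rwa [pG_Fr, pG_sG] at h1
  obtain ⟨a, ha⟩ : ∃ a, a = lf (Fr v (sG k g)) := ⟨_, rfl⟩
  obtain ⟨b, hb⟩ : ∃ b, b = lf (Fr v (sG k (w * g))) := ⟨_, rfl⟩
  have e1 := e g
  have e2 := e (w * g)
  rw [← ha] at e1
  rw [← hb] at e2
  refine ⟨shW k w a * b⁻¹, psi_inj ?_⟩
  rw [← psi_sh, map_mul, map_mul, map_mul, map_inv, map_inv, map_mul, map_inv, dnr5_psi v hj,
    dnr5_psi v hj, ← psi_sh, e1, e2, map_mul]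
  group

private lemma dnr5_sh (w : W k) {n : FreeGroup (W k)} (hn : n ∈ Subgroup.normalClosure (relK k)) :
    shW k w n ∈ Subgroup.normalClosure (relK k) := by
  have h1 : Subgroup.normalClosure (relK k) ≤
      (Subgroup.normalClosure (relK k)).comap (shW k w).toMonoidHom := by
    apply Subgroup.normalClosure_le_normal
    rintro _ ⟨v, j, g, h, _, rfl⟩
    obtain ⟨μ, hμ⟩ := dnr5_conj (v := v) (j := j) (h.1 j List.mem_cons_self) w g
    change shW k w (dnr5_c v j g) ∈ Subgroup.normalClosure (relK k)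
    rw [hμ]
    exact Subgroup.Normal.conj_mem inferInstance _ (dnr5_mem h (w * g)) _
  exact h1 hn

/-- piece DN-R5: the kernel of `FreeGroup (W k) → L k`.
Proof. `N` := the normal closure of `relK k`. Conjugates of the reduced relator `Fr v (cG j)` (`ML_eq`):
`Fr v (sG g) · Fr v (cG j) · Fr v (sG g)⁻¹ = ψ [M v g, M v (g x_j)]` for all `g` (`psi_Mf`), in `ψ N` (if
`lenW (g x_j) = lenW g + 1` it is a relator, otherwise `g' = g x_j`, `g' x_j = g` and it is the inverse of
a relator; `lenW_mul_x`). `Fr v (sG g) = ψ(λ) sG g`. So `ψ N` is invariant under conjugation with `ψ(..)`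
and with `sG w`: it is a normal subgroup of `G k` and contains `redL k`; so `ML k ≤ ψ N`
(`Subgroup.map`). If `ψ x ∈ ML k`, then `ψ x = ψ n`, `x = n ∈ N` (`psi_inj`). -/
theorem ker_kap {x : FreeGroup (W k)} (h : kap' k x = 1) :
    x ∈ Subgroup.normalClosure (relK k) := by
  have hP : (((Subgroup.normalClosure (relK k)).map (psi k))).Normal := by
    refine ⟨?_⟩
    rintro _ ⟨n, hn, rfl⟩ g
    refine ⟨lf g * shW k (pG k g) n * (lf g)⁻¹,
      Subgroup.Normal.conj_mem inferInstance _ (dnr5_sh (pG k g) hn) _, ?_⟩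
    have h1 := psi_lf g
    rw [map_mul, map_mul, map_inv, ← psi_sh]
    conv_rhs => rw [h1]
    group
  have hle : ML k ≤ (Subgroup.normalClosure (relK k)).map (psi k) := by
    rw [ML_eq]
    apply Subgroup.normalClosure_le_normal
    rintro _ ⟨v, j, h1, h2, rfl⟩
    refine ⟨dnr5_c v j 1, dnr5_mem ⟨h1, h2⟩ 1, ?_⟩
    rw [dnr5_psi v (h1 j List.mem_cons_self), map_one, map_one, one_mul, inv_one, mul_one]
  have h1 : psi k x ∈ ML k := mkL_eq_one.1 h
  obtain ⟨n, hn, hn'⟩ := hle h1
  rw [← psi_inj hn']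
  exact hn

private lemma r6_of (g : W k) : kap' k (FreeGroup.of g) = muL g := by
  unfold kap' psi muL
  rw [MonoidHom.comp_apply, FreeGroup.lift_apply_of, map_mul, map_mul, map_inv]
  rfl

private lemma r6_mem (x : FreeGroup (W k)) : kap' k x ∈ K k := by
  rw [mem_K]
  unfold kap'
  rw [MonoidHom.comp_apply, toW_mk, pG_psi]

private lemma r6_surj : Function.Surjective ((kap' k).codRestrict (K k) r6_mem) := by
  intro x
  have h1 : K k ≤ (kap' k).range := by
    rw [K_gen, Subgroup.closure_le]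
    rintro _ ⟨g, rfl⟩
    exact ⟨FreeGroup.of g, r6_of g⟩
  obtain ⟨y, hy⟩ := h1 x.2
  exact ⟨y, Subtype.ext hy⟩

/-- piece DN-R6: the universal property of `K k`.
Proof. `kap'` has the range `K k` (`K_gen`); `ker_kap`. -/
theorem exists_liftK {H : Type*} [Group H] (f : W k → H)
    (h : ∀ x ∈ relK k, FreeGroup.lift f x = 1) : ∃ φ : K k →* H, ∀ g, φ (muK g) = f g := by
  have hker : ((kap' k).codRestrict (K k) r6_mem).ker ≤ (FreeGroup.lift f : FreeGroup (W k) →* H).ker := by
    intro x hx
    have h1 : kap' k x = 1 := congrArg Subtype.val (MonoidHom.mem_ker.1 hx)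
    have h2 : Subgroup.normalClosure (relK k) ≤ (FreeGroup.lift f : FreeGroup (W k) →* H).ker :=
      Subgroup.normalClosure_le_normal fun y hy => MonoidHom.mem_ker.2 (h y hy)
    exact h2 (ker_kap h1)
  refine ⟨MonoidHom.liftOfSurjective _ r6_surj ⟨FreeGroup.lift f, hker⟩, fun g => ?_⟩
  have e : muK g = (kap' k).codRestrict (K k) r6_mem (FreeGroup.of g) := Subtype.ext (r6_of g).symm
  rw [e]
  refine (MonoidHom.liftOfRightInverse_comp_apply _ _ _ _ _).trans ?_
  exact FreeGroup.lift_apply_of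

/-- a set between two balls -/
def Btw (k m : ℕ) (X : Set (W k)) : Prop := (∀ w, lenW w < m → w ∈ X) ∧ ∀ w ∈ X, lenW w ≤ m

/-- piece DN-R7: the word `(g x_j) v` is reduced, if `g x_j` and `j :: v` are.
Proof. `g x_j = wv (l ++ [j])` with `l = nfW g` (`lenW_mul_x`); `l ++ [j] ++ v` is reduced. -/
theorem len_gjv {v : List ℕ} {j : ℕ} {g : W k} (h : RedW k (j :: v))
    (hg : lenW (g * xW j) = lenW g + 1) : lenW (g * xW j * wv v) = lenW g + 1 + v.length := by
  have hj : j ≤ k := h.1 j List.mem_cons_self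
  rcases lenW_mul_x g hj with h1 | h1
  · have h2 := h1.2 (nfW g) (nfW_red g) (wv_nfW g)
    have h3 : RedW k (nfW g ++ (j :: v)) := by
      refine ⟨fun i hi => ?_, ?_⟩
      · rcases List.mem_append.1 hi with hi | hi
        · exact (nfW_red g).1 i hi
        · exact h.1 i hi
      · rw [List.isChain_append]
        refine ⟨(nfW_red g).2, h.2, ?_⟩
        intro x hx y hy
        refine (List.isChain_append.1 h2.2).2.2 x hx y ?_
        simpa using hy
    have h4 : (g * xW j * wv v : W k) = wv (nfW g ++ (j :: v)) := by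
      rw [wv_append, wv_cons, wv_nfW, mul_assoc]
    rw [h4, lenW_wv h3, List.length_append, List.length_cons]
    change (nfW g).length + (v.length + 1) = (nfW g).length + 1 + v.length
    omega
  · omega

private lemma rho_lift_congr {H : Type*} [Group H] {f f' : W k → H} {S : Set (W k)}
    (h : ∀ g ∈ S, f g = f' g) {x : FreeGroup (W k)}
    (hx : x ∈ Subgroup.closure (FreeGroup.of '' S)) : FreeGroup.lift f x = FreeGroup.lift f' x := by
  induction hx using Subgroup.closure_induction with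
  | mem x hx =>
    obtain ⟨g, hg, rfl⟩ := hx
    rw [FreeGroup.lift_apply_of, FreeGroup.lift_apply_of, h g hg]
  | one => rw [map_one, map_one]
  | mul x y _ _ hx hy => rw [map_mul, map_mul, hx, hy]
  | inv x _ hx => rw [map_inv, map_inv, hx]

private lemma rho_psi_rel (v : List ℕ) {j : ℕ} (hj : j ≤ k) (g : W k) :
    psi k (Mf v g * Mf v (g * xW j) * (Mf v g)⁻¹ * (Mf v (g * xW j))⁻¹) =
      Fr v (sG k g) * Fr v (cG j) * (Fr v (sG k g))⁻¹ := by
  have hx : (xG j : G k)⁻¹ = xG j := inv_eq_of_mul_eq_one_left (xG_sq j)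
  have h1 : ∀ w : W k, psi k (FreeGroup.of w) = sG k w * yG * (sG k w)⁻¹ := by
    intro w
    unfold psi
    rw [FreeGroup.lift_apply_of]
  rw [map_mul, map_mul, map_mul, map_inv, map_inv, psi_Mf, psi_Mf, h1, h1, map_mul (sG k), sG_x hj]
  have h2 : (sG k g * yG * (sG k g)⁻¹) * (sG k g * xG j * yG * (sG k g * xG j)⁻¹) *
      (sG k g * yG * (sG k g)⁻¹)⁻¹ * (sG k g * xG j * yG * (sG k g * xG j)⁻¹)⁻¹ =
      sG k g * cG j * (sG k g)⁻¹ := by
    unfold cG yT
    simp only [mul_inv_rev, hx, inv_inv, mul_assoc, inv_mul_cancel_left]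
  calc _ = Fr v ((sG k g * yG * (sG k g)⁻¹) * (sG k g * xG j * yG * (sG k g * xG j)⁻¹) *
      (sG k g * yG * (sG k g)⁻¹)⁻¹ * (sG k g * xG j * yG * (sG k g * xG j)⁻¹)⁻¹) := by
        simp only [map_mul, map_inv]
    _ = _ := by
        rw [h2]
        simp only [map_mul, map_inv]

private lemma rho_val (x : FreeGroup (W k)) :
    ((FreeGroup.lift (fun g : W k => (muK g : K k)) x : K k) : L k) = kap' k x := by
  have h : (K k).subtype.comp (FreeGroup.lift (fun g : W k => (muK g : K k))) = kap' k := by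
    apply FreeGroup.ext_hom
    intro g
    rw [MonoidHom.comp_apply, FreeGroup.lift_apply_of]
    unfold kap' psi
    rw [MonoidHom.comp_apply, FreeGroup.lift_apply_of, map_mul, map_mul, map_inv]
    rfl
  exact DFunLike.congr_fun h x

private lemma rho_rel_one {x : FreeGroup (W k)} (hx : x ∈ relK k) :
    FreeGroup.lift (fun g : W k => (muK g : K k)) x = 1 := by
  apply Subtype.ext
  rw [rho_val]
  obtain ⟨v, j, g, hr, -, rfl⟩ := hx
  unfold kap'
  rw [MonoidHom.comp_apply, rho_psi_rel v (hr.1 j List.mem_cons_self)]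
  have h : mkL k (Fr v (cG j)) = 1 := mkL_eq_one.2 (rel_mem hr.1)
  rw [map_mul, map_mul, map_inv, h, mul_one, mul_inv_cancel]
  rfl

/-- piece DN-R8: THE RETRACTIONS: for a set `X` between two balls the deletion of the letters not in
`X` is an endomorphism of `K k`.
Proof. `exists_liftK` with `f g = muK g` for `g ∈ X` and `f g = 1` otherwise. Let `(v, j, g)` be a
relator and `N = lenW g + 1 + v.length = lenW (g x_j v)` (`len_gjv`). If `g x_j v ∉ X`: `f (M v (g x_j)) = 1`
by `Mf_conj`, so the relator goes to `1`. If `g x_j v ∈ X`, then `N ≤ m`, so all `h` with `lenW h < N` are in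
`X`, and `f` agrees with the homomorphism `of h ↦ muK h` on `M v g` (`Mf_mem`) and on `M v (g x_j)`
(`Mf_lead`, as `lenW (g x_j v) = lenW (g x_j) + v.length`); this homomorphism kills the relator: its
value in `L k` is `kap'`, and `ψ` of the relator is conjugate to `Fr v (cG j) ∈ ML k`. -/
theorem exists_rho {m : ℕ} {X : Set (W k)} (hX : Btw k m X) :
    ∃ φ : K k →* K k, (∀ g ∈ X, φ (muK g) = muK g) ∧ ∀ g, g ∉ X → φ (muK g) = 1 := by
  classical
  obtain ⟨φ, hφ⟩ := exists_liftK (fun g : W k => if g ∈ X then (muK g : K k) else 1) (by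
    intro x hx
    have hx1 := rho_rel_one hx
    obtain ⟨v, j, g, hr, hl, rfl⟩ := hx
    have hv : ∀ i ∈ v, i ≤ k := fun i hi => hr.1 i (List.mem_cons_of_mem _ hi)
    have hN := len_gjv hr hl
    by_cases hX1 : g * xW j * wv v ∈ X
    · have hm := hX.2 _ hX1
      rw [hN] at hm
      refine Eq.trans ?_ hx1
      have e1 : FreeGroup.lift (fun g : W k => if g ∈ X then (muK g : K k) else 1) (Mf v g) =
          FreeGroup.lift (fun g : W k => (muK g : K k)) (Mf v g) := by
        refine rho_lift_congr ?_ (Mf_mem hv g)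
        intro h hh
        have hh' : lenW h ≤ lenW g + v.length := hh
        exact if_pos (hX.1 h (by omega))
      have e2 : FreeGroup.lift (fun g : W k => if g ∈ X then (muK g : K k) else 1)
          (Mf v (g * xW j)) =
          FreeGroup.lift (fun g : W k => (muK g : K k)) (Mf v (g * xW j)) := by
        refine rho_lift_congr ?_ (Mf_lead hv (by rw [hN, hl]))
        intro h hh
        rcases hh with hh | hh
        · have hh' : lenW h < lenW (g * xW j) + v.length := hh
          exact if_pos (hX.1 h (by omega))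
        · rw [Set.mem_singleton_iff.1 hh]
          exact if_pos hX1
      rw [map_mul, map_mul, map_mul, map_inv, map_inv, e1, e2, map_mul, map_mul, map_mul, map_inv,
        map_inv]
    · obtain ⟨c, hc⟩ := Mf_conj hv (g * xW j)
      have e2 : FreeGroup.lift (fun g : W k => if g ∈ X then (muK g : K k) else 1)
          (Mf v (g * xW j)) = 1 := by
        rw [hc, map_mul, map_mul, map_inv, FreeGroup.lift_apply_of, if_neg hX1, mul_one,
          mul_inv_cancel]
      rw [map_mul, map_mul, map_mul, map_inv, map_inv, e2, mul_one, mul_inv_cancel, inv_one,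
        mul_one])
  refine ⟨φ, fun g hg => ?_, fun g hg => ?_⟩
  · rw [hφ, if_pos hg]
  · rw [hφ, if_neg hg]

/-- piece DN-R9: the powers of `R`: there is a homomorphism `K k → FreeGroup ℤ` which maps
`muK (R ^ i)` to `of i` and kills the other `muK g`.
Proof. `exists_liftK`. In a relator `(v, j, g)`: `M v g` is conjugate to `of (g v)`, `M v (g x_j)` is
conjugate to `of (g x_j v)` (`Mf_conj`), and not both `g v` and `g x_j v` are powers of `R`:
`(g v)⁻¹ (g x_j v) = v⁻¹ x_j v` is an involution, not `1`, but `R` has infinite order (`RW_pow`). So one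
of the two frames is mapped to `1`. (`i` is unique by `RW_pow`.) -/
theorem exists_freeR (hR : ∀ n : ℤ, RW k ^ n = 1 → n = 0) :
    ∃ φ : K k →* FreeGroup ℤ, (∀ i : ℤ, φ (muK (RW k ^ i)) = FreeGroup.of i) ∧
      ∀ g, g ∉ Subgroup.zpowers (RW k) → φ (muK g) = 1 := by
  classical
  obtain ⟨f, hf1, hf2⟩ : ∃ f : W k → FreeGroup ℤ, (∀ i : ℤ, f (RW k ^ i) = FreeGroup.of i) ∧
      ∀ g, g ∉ Subgroup.zpowers (RW k) → f g = 1 := by
    refine ⟨fun g => if h : ∃ i : ℤ, RW k ^ i = g then FreeGroup.of h.choose else 1, ?_, ?_⟩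
    · intro i
      have h : ∃ j : ℤ, RW k ^ j = RW k ^ i := ⟨i, rfl⟩
      have h1 : h.choose - i = 0 := by
        apply hR
        rw [zpow_sub, h.choose_spec, mul_inv_cancel]
      change (if h : ∃ j : ℤ, RW k ^ j = RW k ^ i then FreeGroup.of h.choose else 1) = _
      rw [dif_pos h, sub_eq_zero.1 h1]
    · intro g hg
      exact dif_neg fun h => hg (Subgroup.mem_zpowers_iff.2 h)
  obtain ⟨φ, hφ⟩ := exists_liftK f (by
    rintro x ⟨v, j, g, hred, hlen, rfl⟩
    have hv : ∀ i ∈ v, i ≤ k := fun i hi => hred.1 i (List.mem_cons_of_mem _ hi)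
    obtain ⟨c, hc⟩ := Mf_conj hv g
    obtain ⟨c', hc'⟩ := Mf_conj hv (g * xW j)
    have e1 : FreeGroup.lift f (Mf v g) =
        FreeGroup.lift f c * f (g * wv v) * (FreeGroup.lift f c)⁻¹ := by
      rw [hc, map_mul, map_mul, map_inv, FreeGroup.lift_apply_of]
    have e2 : FreeGroup.lift f (Mf v (g * xW j)) =
        FreeGroup.lift f c' * f (g * xW j * wv v) * (FreeGroup.lift f c')⁻¹ := by
      rw [hc', map_mul, map_mul, map_inv, FreeGroup.lift_apply_of]
    rw [map_mul, map_mul, map_mul, map_inv, map_inv]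
    by_cases h1 : g * wv v ∈ Subgroup.zpowers (RW k)
    · by_cases h2 : g * xW j * wv v ∈ Subgroup.zpowers (RW k)
      · exfalso
        have h3 := mul_mem (inv_mem h1) h2
        have h4 : (g * wv v)⁻¹ * (g * xW j * wv v) = (wv v)⁻¹ * xW j * wv v := by group
        rw [h4] at h3
        obtain ⟨n, hn⟩ := Subgroup.mem_zpowers_iff.1 h3
        have h5 : RW k ^ (n + n) = 1 := by
          rw [zpow_add, hn]
          have h6 : (wv v)⁻¹ * xW j * wv v * ((wv v)⁻¹ * xW j * wv v) =
              (wv v)⁻¹ * (xW j * xW j : W k) * wv v := by group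
          rw [h6, xW_sq]
          group
        have h7 := hR _ h5
        have h8 : n = 0 := by omega
        rw [h8, zpow_zero] at hn
        have h9 : (xW j : W k) = 1 := by
          have h10 : (xW j : W k) = wv v * ((wv v)⁻¹ * xW j * wv v) * (wv v)⁻¹ := by group
          rw [h10, ← hn]
          group
        rw [h9, mul_one] at hlen
        omega
      · rw [e2, hf2 _ h2]
        group
    · rw [e1, hf2 _ h1]
      group)
  exact ⟨φ, fun i => (hφ _).trans (hf1 i), fun g hg => (hφ g).trans (hf2 g hg)⟩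

/-- piece DN-R10: there is a homomorphism from `K k` to the free abelian group on `W k`.
Proof. `exists_liftK` (the target is commutative, so all relators go to `1`). -/
theorem exists_abK (k : ℕ) : ∃ φ : K k →* Multiplicative (W k →₀ ℤ),
    ∀ g, φ (muK g) = Multiplicative.ofAdd (Finsupp.single g 1) := by
  refine exists_liftK (fun g : W k => Multiplicative.ofAdd (Finsupp.single g (1 : ℤ))) ?_
  rintro x ⟨v, j, g, -, -, rfl⟩
  simp only [map_mul, map_inv]
  rw [mul_inv_cancel_comm, mul_inv_cancel]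

end Pool.Agent.Helper20.DN
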