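import Pool.Agent.Helper20.DN.W
import Pool.Agent.Helper38.BN.B6G
import Pool.Agent.Helper38.BN.B6S
import Pool.Agent.Helper38.BT.CentP
import Pool.Agent.Helper7.AG.Fv
import Pool.Agent.Helper7.AG.Ffix
import Pool.Agent.Helper7.AG.Fmal
import Pool.Agent.Helper18.BN4.FreeLem

/-!
# Project DN: facts on `W k`

`W k` is a free product with `k + 1` factors of order two, so the general theorems of block B6 of project
BN apply with `ι = Fin (k+1)`, `M = fun _ => ℤˣ`, `γ = fun _ => -1`, `e t = ⟨min t k, _⟩`, `ix o = o.val`,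
`m = k`, `T i = α_i²` (`Tw` with `q = 1`: `α_i²` is the conjugation with `x_i x_{i+1}` on the factors `i`,
`i + 1`, and the identity on the other ones), `gseg γ e 0 t = xwW t`.
-/

namespace Pool.Agent.Helper20.DN

open Pool.Agent.Helper38.BN
open Monoid

section
variable {k : ℕ}

private lemma dnf1_of {a b : Fin (k + 1)} (h : a = b) :
    (CoprodI.of (M := fun _ : Fin (k + 1) => ℤˣ) (i := a) (-1) : W k) =
      CoprodI.of (M := fun _ : Fin (k + 1) => ℤˣ) (i := b) (-1) := by
  subst h; rfl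

private lemma dnf1_gs {t : ℕ} (ht : t ≤ k) :
    gs (M := fun _ : Fin (k + 1) => ℤˣ) (fun _ => -1)
      (fun t => (⟨min t k, by omega⟩ : Fin (k + 1))) t = xW t := by
  rw [xW_of (by omega)]
  exact dnf1_of (Fin.ext (min_eq_left ht))

private lemma dnf1_x (o : Fin (k + 1)) :
    (CoprodI.of (M := fun _ : Fin (k + 1) => ℤˣ) (i := o) (-1) : W k) = xW o.val :=
  (xW_of o.isLt).symm

/-- piece DN-F1: `α_i²` is a twist (`Tw`, see B6G.lean) for the enumeration of the factors -/
theorem Tw_W {i : ℕ} (hi : i < k) :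
    Tw (M := fun _ : Fin (k + 1) => ℤˣ) (fun _ => -1) (fun t => (⟨min t k, by omega⟩ : Fin (k + 1)))
      (fun o => o.val) i ((wA i * wA i : MulAut (W k)).toMonoidHom) := by
  have hT : ∀ w : W k, (wA i * wA i : MulAut (W k)).toMonoidHom w = wA i (wA i w) := fun _ => rfl
  refine ⟨1, one_ne_zero, fun o ho x => ?_, fun o ho x => ?_⟩
  · rw [hT, dnf1_gs (by omega), dnf1_gs (by omega), zpow_one]
    rcases Int.units_eq_one_or x with rfl | rfl
    · simp only [map_one, mul_one, mul_inv_cancel]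
    · rw [dnf1_x]
      have h1 : wA i (xW i : W k) = xW i * xW (i + 1) * xW i := by
        rw [wA_x hi (by omega)]
        unfold wC
        rw [if_pos rfl]
      have h2 : wA i (xW (i + 1) : W k) = xW i := by
        rw [wA_x hi (by omega)]
        unfold wC
        rw [if_neg (by omega), if_pos rfl]
      have ho' : o.val = i ∨ o.val = i + 1 := ho
      rcases ho' with ho' | ho'
      · rw [ho', h1, map_mul, map_mul, h1, h2, mul_inv_rev, xW_inv, xW_inv]
        simp only [mul_assoc, xW_sq']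
      · rw [ho', h2, h1, mul_inv_rev, xW_inv, xW_inv]
        simp only [mul_assoc, xW_sq']
  · rw [hT]
    rcases Int.units_eq_one_or x with rfl | rfl
    · simp only [map_one]
    · rw [dnf1_x]
      have ho' : ¬ (o.val = i ∨ o.val = i + 1) := ho
      have h1 : wA i (xW o.val : W k) = xW o.val := by
        rw [wA_x hi (by omega)]
        unfold wC
        rw [if_neg (by omega), if_neg (by omega)]
      rw [h1, h1]

/-- piece DN-F1: the enumeration of the factors -/
theorem Enum_W (k : ℕ) : Enum k (fun t => (⟨min t k, by omega⟩ : Fin (k + 1))) (fun o => o.val) where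
  le o := by
    have := o.isLt
    show o.val ≤ k
    omega
  e_ix o := by
    apply Fin.ext
    have := o.isLt
    show min o.val k = o.val
    omega
  ix_e t ht := by
    show min t k = t
    omega

/-- piece DN-F1 -/
theorem gseg_W {t : ℕ} (ht : t ≤ k) :
    gseg (M := fun _ : Fin (k + 1) => ℤˣ) (fun _ => -1)
      (fun t => (⟨min t k, by omega⟩ : Fin (k + 1))) 0 t = xwW t := by
  induction t with
  | zero => exact dnf1_gs (Nat.zero_le k)
  | succ t ih =>
    have h1 := ih (by omega)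
    show gseg (M := fun _ : Fin (k + 1) => ℤˣ) (fun _ => -1)
      (fun t => (⟨min t k, by omega⟩ : Fin (k + 1))) 0 t *
        gs (M := fun _ : Fin (k + 1) => ℤˣ) (fun _ => -1)
          (fun t => (⟨min t k, by omega⟩ : Fin (k + 1))) (0 + t + 1) = xwW t * xW (t + 1)
    rw [h1, dnf1_gs (by omega), zero_add]

/-- the action of the letters on `ℤ` -/
private def RWX (i : ℕ) : Equiv.Perm ℤ :=
  if i = 0 then Equiv.neg ℤ else if i = 1 then Equiv.subLeft 1 else 1

private lemma RWX_sq (i : ℕ) : RWX i * RWX i = 1 := by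
  unfold RWX
  split_ifs
  · ext t; simp
  · ext t; simp
  · simp

private lemma RWX_xw (j : ℕ) : ∀ (_ : 1 ≤ j) (_ : j ≤ k),
    liftW (k := k) RWX (fun i _ => RWX_sq i) (xwW j) = Equiv.addRight (-1 : ℤ) := by
  induction j with
  | zero => intro h; omega
  | succ j ih =>
    intro _ hj
    show liftW (k := k) RWX (fun i _ => RWX_sq i) (xwW j * xW (j + 1)) = _
    rw [map_mul, liftW_x _ _ hj]
    rcases Nat.eq_zero_or_pos j with h0 | h0
    · subst h0
      show liftW (k := k) RWX (fun i _ => RWX_sq i) (xW 0) * _ = _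
      rw [liftW_x _ _ (Nat.zero_le k)]
      ext t
      simp [RWX]
      ring
    · rw [ih h0 (by omega)]
      have : RWX (j + 1) = 1 := by
        unfold RWX
        rw [if_neg (by omega), if_neg (by omega)]
      rw [this, mul_one]

/-- piece DN-F2: `R` has infinite order.
Proof. `pv`/`FreeProd` or: the reduced word of `R^n` is the `n`-fold repetition of `[0, …, k]`
(`lenW_wv`), `k ≥ 1`. Or: a homomorphism to the infinite dihedral group, e.g. to `Equiv.Perm ℤ`:
`x_0 ↦ (t ↦ -t)`, `x_1 ↦ (t ↦ 1 - t)`, `x_i ↦ 1` for `i ≥ 2`: `R ↦` a translation by `±1`. -/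
theorem RW_pow (hk : 1 ≤ k) {n : ℤ} (h : RW k ^ n = 1) : n = 0 := by
  rw [← pow_natAbs_eq_one] at h
  have h1 := congrArg (liftW (k := k) RWX (fun i _ => RWX_sq i)) h
  rw [map_pow, map_one] at h1
  unfold RW at h1
  rw [RWX_xw k hk le_rfl] at h1
  have h2 : ∀ m : ℕ, ((Equiv.addRight (-1 : ℤ)) ^ m : Equiv.Perm ℤ) 0 = -(m : ℤ) := by
    intro m
    induction m with
    | zero => simp
    | succ m ih =>
      rw [pow_succ', Equiv.Perm.mul_apply, ih, Equiv.coe_addRight]
      push_cast
      ring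
  have h3 := h2 n.natAbs
  rw [h1, Equiv.Perm.one_apply] at h3
  omega

/-- the homomorphism to the signs which is `-1` at `x_i` and `1` at the other generators -/
private def f3sgn (k i : ℕ) : W k →* ℤˣ :=
  liftW (fun j => if j = i then -1 else 1) (fun j _ => by split_ifs <;> simp)

private lemma f3sgn_x {i j : ℕ} (hj : j ≤ k) :
    f3sgn k i (xW j) = if j = i then -1 else 1 := liftW_x _ _ hj

private lemma f3sgn_xw {i : ℕ} : ∀ j, j ≤ k →
    f3sgn k i (xwW j) = if i ≤ j then -1 else 1 := by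
  intro j
  induction j with
  | zero =>
    intro hj
    change f3sgn k i (xW 0) = _
    rw [f3sgn_x hj]
    by_cases h : i = 0
    · subst h; simp
    · rw [if_neg (by omega), if_neg (by omega)]
  | succ j ih =>
    intro hj
    change f3sgn k i (xwW j * xW (j + 1)) = _
    rw [map_mul, ih (by omega), f3sgn_x hj]
    by_cases h : i ≤ j
    · rw [if_pos h, if_neg (by omega), if_pos (by omega), mul_one]
    · by_cases h2 : j + 1 = i
      · rw [if_neg h, if_pos h2, if_pos (by omega), one_mul]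
      · rw [if_neg h, if_neg h2, if_neg (by omega), one_mul]

private def f3a (k : ℕ) : AS (fun _ : Fin (k + 1) => ℤˣ) (fun o => o.val = 0) :=
  CoprodI.of (M := fun _ : {o : Fin (k + 1) // o.val = 0} => ℤˣ)
    (i := ⟨⟨0, Nat.succ_pos k⟩, rfl⟩) (-1)

private lemma f3a_eq (k : ℕ) :
    iS (fun _ : Fin (k + 1) => ℤˣ) (fun o => o.val = 0) (f3a k) = xW 0 := by
  rw [xW_of (Nat.succ_pos k)]
  exact iS_of (M := fun _ : Fin (k + 1) => ℤˣ) (fun o => o.val = 0)
    ⟨⟨0, Nat.succ_pos k⟩, rfl⟩ _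

private lemma f3b_ex (k : ℕ) : ∀ j, ∃ b : AS (fun _ : Fin (k + 1) => ℤˣ) (fun o => ¬ o.val = 0),
    xW 0 * iS (fun _ : Fin (k + 1) => ℤˣ) (fun o => ¬ o.val = 0) b = xwW j := by
  intro j
  induction j with
  | zero => exact ⟨1, by rw [map_one, mul_one]; rfl⟩
  | succ j ih =>
    obtain ⟨b, hb⟩ := ih
    obtain ⟨c, hc⟩ : ∃ c : AS (fun _ : Fin (k + 1) => ℤˣ) (fun o => ¬ o.val = 0),
        iS (fun _ : Fin (k + 1) => ℤˣ) (fun o => ¬ o.val = 0) c = xW (j + 1) := by
      by_cases h : j + 1 < k + 1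
      · refine ⟨CoprodI.of (M := fun _ : {o : Fin (k + 1) // ¬ o.val = 0} => ℤˣ)
          (i := ⟨⟨j + 1, h⟩, by simp⟩) (-1), ?_⟩
        rw [xW_of h]
        exact iS_of (M := fun _ : Fin (k + 1) => ℤˣ) (fun o => ¬ o.val = 0)
          ⟨⟨j + 1, h⟩, by simp⟩ _
      · exact ⟨1, by rw [map_one, xW_ge (by omega)]⟩
    exact ⟨b * c, by rw [map_mul, hc, ← mul_assoc, hb]; rfl⟩

/-- piece DN-F3: the centralizer of a power of `R`.
Proof. `Pool.Agent.Helper38.BT.cent_pow` for the splitting `split` (B6S.lean) with `S = {0}`: `R = a b`,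
`a = x_0`, `b = x_1 ⋯ x_k`, as in `cent_r` of IntC.lean; negative exponents by inversion. -/
theorem centW (hk : 1 ≤ k) {g : W k} {n : ℤ} (hn : n ≠ 0) (h : g * RW k ^ n = RW k ^ n * g) :
    g ∈ Subgroup.zpowers (RW k) := by
  obtain ⟨b, hb⟩ := f3b_ex k k
  have ha1 : f3a k ≠ 1 := by
    intro h1
    have h2 := f3a_eq k
    rw [h1, map_one] at h2
    have h3 := f3sgn_x (k := k) (i := 0) (j := 0) (Nat.zero_le k)
    rw [← h2, map_one, if_pos rfl] at h3
    exact absurd h3 (by decide)
  have hb1 : b ≠ 1 := by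
    rintro rfl
    rw [map_one, mul_one] at hb
    have h3 := f3sgn_xw (k := k) (i := 1) k le_rfl
    rw [← hb, f3sgn_x (Nat.zero_le k), if_neg (by omega), if_pos hk] at h3
    exact absurd h3 (by decide)
  have hr : RW k = iS (fun _ : Fin (k + 1) => ℤˣ) (fun o => o.val = 0) (f3a k) *
      iS (fun _ : Fin (k + 1) => ℤˣ) (fun o => ¬ o.val = 0) b := by
    rw [f3a_eq, hb]
    rfl
  have hc : g * RW k ^ n.natAbs = RW k ^ n.natAbs * g := by
    have h1 : Commute g (RW k ^ n) := h
    rcases Int.natAbs_eq n with h2 | h2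
    · rw [h2, zpow_natCast] at h1
      exact h1
    · rw [h2, zpow_neg, zpow_natCast] at h1
      have h3 := h1.inv_right
      rw [inv_inv] at h3
      exact h3
  rw [hr] at hc ⊢
  obtain ⟨m, hm⟩ := Pool.Agent.Helper38.BT.cent_pow
    (split (M := fun _ : Fin (k + 1) => ℤˣ) fun o => o.val = 0) ha1 hb1 (Int.natAbs_pos.2 hn) hc
  exact ⟨m, hm.symm⟩

/-- the images of the generators in the infinite dihedral group -/
private def f4c (a b j : ℕ) : Equiv.Perm ℤ :=
  if j = a then Equiv.neg ℤ else if j = b then Equiv.subLeft (1 : ℤ) else 1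

private lemma f4c_sq (a b j : ℕ) : f4c a b j * f4c a b j = 1 := by
  unfold f4c
  split_ifs
  · ext t; simp
  · ext t; simp
  · exact one_mul 1

/-- the homomorphism to the infinite dihedral group -/
private def f4d (k a b : ℕ) : W k →* Equiv.Perm ℤ := liftW (f4c a b) (fun j _ => f4c_sq a b j)

private lemma f4d_x {a b i : ℕ} (hi : i ≤ k) : f4d k a b (xW i) = f4c a b i := liftW_x _ _ hi

private lemma f4c_a (a b : ℕ) : f4c a b a = Equiv.neg ℤ := if_pos rfl

private lemma f4c_b {a b : ℕ} (h : a ≠ b) : f4c a b b = Equiv.subLeft (1 : ℤ) := by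
  unfold f4c
  rw [if_neg (Ne.symm h), if_pos rfl]

private lemma f4c_o {a b i : ℕ} (h : i ≠ a) (h' : i ≠ b) : f4c a b i = 1 := by
  unfold f4c
  rw [if_neg h, if_neg h']

private lemma f4_ba : Equiv.subLeft (1 : ℤ) * Equiv.neg ℤ = Equiv.addLeft 1 := by
  ext t
  simp

private lemma f4_ab : Equiv.neg ℤ * Equiv.subLeft (1 : ℤ) = Equiv.addLeft (-1) := by
  ext t
  simp
  ring

private lemma f4_pt (c : ℤ) (n : ℕ) (t : ℤ) :
    ((Equiv.addLeft c : Equiv.Perm ℤ) ^ n) t = n * c + t := by
  induction n generalizing t with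
  | zero => simp
  | succ n ih =>
    rw [pow_succ, Equiv.Perm.mul_apply, ih, Equiv.coe_addLeft]
    push_cast
    ring

private lemma f4_trn {c : ℤ} (hc : c ≠ 0) {n : ℕ}
    (h : (Equiv.addLeft c : Equiv.Perm ℤ) ^ n = 1) : n = 0 := by
  have h1 := f4_pt c n 0
  rw [h, Equiv.Perm.one_apply, add_zero] at h1
  rcases mul_eq_zero.1 h1.symm with h2 | h2
  · exact_mod_cast h2
  · exact absurd h2 hc

private lemma f4_tr {c i : ℤ} (hc : c ≠ 0) (h : (Equiv.addLeft c : Equiv.Perm ℤ) ^ i = 1) :
    i = 0 := by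
  obtain ⟨n, rfl | rfl⟩ := Int.eq_nat_or_neg i
  · rw [zpow_natCast] at h
    rw [f4_trn hc h, Nat.cast_zero]
  · rw [zpow_neg, inv_eq_one, zpow_natCast] at h
    rw [f4_trn hc h, Nat.cast_zero, neg_zero]

private lemma f4_pow {a b : ℕ} (ha : a ≤ k) (hb : b ≤ k) (hab : a ≠ b) {i : ℤ}
    (h : ((xW b * xW a : W k)) ^ i = 1) : i = 0 := by
  have h1 := congrArg (f4d k a b) h
  rw [map_zpow, map_mul, map_one, f4d_x ha, f4d_x hb, f4c_a, f4c_b hab, f4_ba] at h1
  exact f4_tr one_ne_zero h1

private lemma f4_xw : ∀ j, 3 ≤ j → j ≤ k →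
    f4d k 2 3 (xwW j) = Equiv.neg ℤ * Equiv.subLeft (1 : ℤ) := by
  intro j hj
  induction j, hj using Nat.le_induction with
  | base =>
    intro hk
    change f4d k 2 3 (xW 0 * xW 1 * xW 2 * xW 3) = _
    rw [map_mul, map_mul, map_mul, f4d_x (by omega), f4d_x (by omega), f4d_x (by omega),
      f4d_x hk, f4c_o (by omega) (by omega), f4c_o (by omega) (by omega), f4c_a,
      f4c_b (by omega), one_mul, one_mul]
  | succ j hj ih =>
    intro hk
    change f4d k 2 3 (xwW j * xW (j + 1)) = _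
    rw [map_mul, ih (by omega), f4d_x hk, f4c_o (by omega) (by omega), mul_one]

/-- piece DN-F4: powers of `x_1 x_0` are not conjugate to powers of `R`, `k ≥ 3`.
Proof. The homomorphism `W k → W k` which kills `x_0` and `x_1` and fixes the other `x_i`
maps `R ^ j` to `(x_2 ⋯ x_k) ^ j` and the left side to `1`; `x_2 ⋯ x_k` has infinite order (`k ≥ 3`,
map to the infinite dihedral group as in DN-F2), so `j = 0`, `(x_1 x_0) ^ i = 1` and `i = 0`. -/
theorem not_conjW (hk : 3 ≤ k) {g : W k} {i j : ℤ}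
    (h : g * (xW 1 * xW 0) ^ i * g⁻¹ = RW k ^ j) : i = 0 := by
  have h1 := congrArg (f4d k 2 3) h
  have h2 : f4d k 2 3 (RW k) = Equiv.addLeft (-1) := (f4_xw k hk le_rfl).trans f4_ab
  rw [map_mul, map_mul, map_inv, map_zpow, map_zpow, map_mul, f4d_x (by omega),
    f4d_x (by omega), f4c_o (by omega) (by omega), f4c_o (by omega) (by omega), one_mul,
    one_zpow, mul_one, mul_inv_cancel, h2] at h1
  have h3 : j = 0 := f4_tr (by omega) h1.symm
  rw [h3, zpow_zero, mul_inv_eq_one, mul_eq_left] at h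
  exact f4_pow (by omega) (by omega) (by omega) h

/-- piece DN-F4: `x_1 x_0` has infinite order -/
theorem x10_pow (hk : 1 ≤ k) {i : ℤ} (h : ((xW 1 * xW 0 : W k)) ^ i = 1) : i = 0 :=
  f4_pow (Nat.zero_le k) hk (by omega) h

/-- piece DN-F4: `x_k x_{k-1}` has infinite order -/
theorem xkk_pow (hk : 1 ≤ k) {i : ℤ} (h : ((xW k * xW (k - 1) : W k)) ^ i = 1) : i = 0 :=
  f4_pow (by omega) le_rfl (by omega) h

/-- piece DN-F5: the classes which are invariant under all `α_j`.
Proof. `class_gen` (B6G.lean): `v = g x_o^ε g⁻¹` or `v = g R^n g⁻¹`. In the first case with `ε = -1`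
(otherwise `v = 1 = R ^ 0`): let `χ_i : W k → ℤˣ` be `x_i ↦ -1`, `x_l ↦ 1` for `l ≠ i`. Then
`χ_o v = -1` and `χ_i v = 1` for `i ≠ o`. Let `j = o` (if `o < k`) or `j = o - 1`: `α_j` exchanges `χ_j` and
`χ_{j+1}`, so `χ_o (α_j v) = 1 ≠ χ_o (v)`, but `α_j v` is conjugate to `v`. -/
theorem wcl (hk : 2 ≤ k) {w : W k} (h : ∀ j, j < k → ∃ g, g * w * g⁻¹ = wA j w) :
    ∃ (g : W k) (n : ℤ), w = g * RW k ^ n * g⁻¹ := by
  have key : ∀ i, i < k → ∃ g, g * w * g⁻¹ = (wA i * wA i : MulAut (W k)).toMonoidHom w := by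
    intro i hi
    obtain ⟨g, hg⟩ := h i hi
    refine ⟨wA i g * g, ?_⟩
    have h1 : (wA i * wA i : MulAut (W k)).toMonoidHom w = wA i (wA i w) := rfl
    rw [h1, ← hg, map_mul, map_mul, map_inv, ← hg]
    group
  rcases class_gen (M := fun _ : Fin (k + 1) => ℤˣ) (γ := fun _ => -1) (Enum_W k) hk
    (fun _ => by decide) (T := fun i => (wA i * wA i : MulAut (W k)).toMonoidHom)
    (fun i hi => Tw_W hi) key with ⟨g, o, x, hw⟩ | ⟨g, n, hw⟩
  · rcases Int.units_eq_one_or x with rfl | rfl
    · refine ⟨1, 0, ?_⟩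
      rw [hw]
      simp
    · exfalso
      rw [dnf1_x] at hw
      have ho := o.isLt
      have e : ∀ a b : ℤˣ, a * b * a⁻¹ = b := fun a b => by
        rw [mul_comm a b, mul_inv_cancel_right]
      have h1 : ∀ j, j < k → f3sgn k o.val (wA j (xW o.val)) = -1 := by
        intro j hj
        obtain ⟨g', hg'⟩ := h j hj
        have h2 := congrArg (f3sgn k o.val) hg'
        rw [hw] at h2
        simp only [map_mul, map_inv] at h2
        rw [e, e, e, f3sgn_x (by omega), if_pos rfl] at h2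
        exact h2.symm
      rcases Nat.lt_or_ge o.val k with h3 | h3
      · have h4 := h1 o.val h3
        rw [wA_x h3 (by omega)] at h4
        unfold wC at h4
        rw [if_pos rfl, map_mul, map_mul, f3sgn_x (by omega), f3sgn_x (by omega), if_pos rfl,
          if_neg (by omega)] at h4
        exact absurd h4 (by decide)
      · have h4 := h1 (o.val - 1) (by omega)
        rw [wA_x (by omega) (by omega)] at h4
        unfold wC at h4
        rw [if_neg (by omega), if_pos (by omega), f3sgn_x (by omega), if_neg (by omega)] at h4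
        exact absurd h4 (by decide)
  · refine ⟨g, n, ?_⟩
    rw [gseg_W le_rfl] at hw
    exact hw

private lemma f6_kap (k : ℕ) {p : ℕ} (hp : p ≤ k) : ∀ j, j ≤ k →
    kap (wA : ℕ → MulAut (W k)) p (xW j) =
      if j < p then xW 0 * xW (j + 1) * xW 0 else if j = p then xW 0 else xW j := by
  induction p with
  | zero =>
    intro j _
    rw [if_neg (by omega)]
    change xW j = _
    by_cases h : j = 0
    · rw [if_pos h, h]
    · rw [if_neg h]
  | succ p ih =>
    intro j hj
    have ih' := ih (by omega)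
    change kap (wA : ℕ → MulAut (W k)) p (wA p (xW j)) = _
    rw [wA_x (by omega) hj]
    unfold wC
    by_cases h1 : j = p
    · rw [if_pos h1, if_pos (by omega), map_mul, map_mul, ih' p (by omega),
        ih' (p + 1) (by omega), if_neg (by omega), if_pos rfl, if_neg (by omega),
        if_neg (by omega), h1]
    · rw [if_neg h1]
      by_cases h2 : j = p + 1
      · rw [if_pos h2, ih' p (by omega), if_neg (by omega), if_pos rfl, if_neg (by omega),
          if_pos h2]
      · rw [if_neg h2, ih' j hj]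
        by_cases h3 : j < p
        · rw [if_pos h3, if_pos (by omega)]
        · rw [if_neg h3, if_neg h1, if_neg (by omega), if_neg h2]

/-- the product `x_0 ⋯ x_{i-1}` -/
private def f6P (k : ℕ) : ℕ → W k
  | 0 => 1
  | i + 1 => f6P k i * xW i

private lemma f6_P_xw (k i : ℕ) : f6P k (i + 1) = xwW i := by
  induction i with
  | zero => change (1 : W k) * xW 0 = xW 0; rw [one_mul]
  | succ i ih => change f6P k (i + 1) * xW (i + 1) = xwW i * xW (i + 1); rw [ih]

private lemma f6_x (k : ℕ) {j : ℕ} (hj : j < k) :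
    kap (wA : ℕ → MulAut (W k)) k (xW j) = xW 0 * xW (j + 1) * xW 0 := by
  rw [f6_kap k le_rfl j (by omega), if_pos hj]

private lemma f6_xk (k : ℕ) : kap (wA : ℕ → MulAut (W k)) k (xW k) = xW 0 := by
  rw [f6_kap k le_rfl k le_rfl, if_neg (by omega), if_pos rfl]

private lemma f6_P (k : ℕ) {i : ℕ} (hi : i ≤ k) :
    kap (wA : ℕ → MulAut (W k)) k (f6P k i) = f6P k (i + 1) * xW 0 := by
  induction i with
  | zero =>
    change kap (wA : ℕ → MulAut (W k)) k 1 = 1 * xW 0 * xW 0
    rw [map_one, one_mul, xW_sq]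
  | succ i ih =>
    change kap (wA : ℕ → MulAut (W k)) k (f6P k i * xW i) = f6P k (i + 1) * xW (i + 1) * xW 0
    rw [map_mul, ih (by omega), f6_x k (by omega)]
    simp only [mul_assoc, xW_sq']

private lemma f6_pow_x (k i : ℕ) : ∀ j, i + j ≤ k →
    (kap (wA : ℕ → MulAut (W k)) k ^ i) (xW j) = f6P k i * xW (i + j) * (f6P k i)⁻¹ := by
  induction i with
  | zero =>
    intro j _
    change xW j = 1 * xW (0 + j) * 1⁻¹
    rw [Nat.zero_add]; group
  | succ i ih =>
    intro j hj
    rw [pow_succ', MulAut.mul_apply, ih j (by omega), map_mul, map_mul, map_inv,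
      f6_P k (by omega), f6_x k (by omega), show i + 1 + j = i + j + 1 by omega, mul_inv_rev,
      xW_inv]
    simp only [mul_assoc, xW_sq']

private lemma f6_pow_P (k i : ℕ) : ∀ l, i + l ≤ k + 1 →
    (kap (wA : ℕ → MulAut (W k)) k ^ i) (f6P k l) = f6P k (i + l) * (f6P k i)⁻¹ := by
  induction i with
  | zero =>
    intro l _
    change f6P k l = f6P k (0 + l) * 1⁻¹
    rw [Nat.zero_add]; group
  | succ i ih =>
    intro l hl
    rw [pow_succ', MulAut.mul_apply, ih l (by omega), map_mul, map_inv,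
      f6_P k (by omega), f6_P k (by omega), show i + 1 + l = i + l + 1 by omega, mul_inv_rev,
      xW_inv]
    simp only [mul_assoc, xW_sq']

private lemma f6_full (k : ℕ) {j : ℕ} (hj : j ≤ k) :
    (kap (wA : ℕ → MulAut (W k)) k ^ (k + 1)) (xW j) = RW k * xW j * (RW k)⁻¹ := by
  have h1 : (kap (wA : ℕ → MulAut (W k)) k ^ (k + 1 - j)) (xW j) =
      f6P k (k + 1 - j) * xW 0 * (f6P k (k + 1 - j))⁻¹ := by
    have e : k + 1 - j = k - j + 1 := by omega
    rw [e, pow_succ', MulAut.mul_apply, f6_pow_x k (k - j) j (by omega), map_mul, map_mul,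
      map_inv, f6_P k (by omega), show k - j + j = k by omega, f6_xk, mul_inv_rev, xW_inv]
    simp only [mul_assoc, xW_sq']
  have e : k + 1 = j + (k + 1 - j) := by omega
  have h2 := f6_pow_P k j (k + 1 - j) (by omega)
  rw [← e, f6_P_xw] at h2
  have h3 : (kap (wA : ℕ → MulAut (W k)) k ^ j) (xW 0) = f6P k j * xW j * (f6P k j)⁻¹ :=
    f6_pow_x k j 0 (by omega)
  have hp : (kap (wA : ℕ → MulAut (W k)) k ^ (k + 1)) =
      kap (wA : ℕ → MulAut (W k)) k ^ j * kap (wA : ℕ → MulAut (W k)) k ^ (k + 1 - j) := by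
    rw [← pow_add, ← e]
  rw [hp, MulAut.mul_apply, h1, map_mul, map_mul, map_inv, h2, h3]
  change _ = xwW k * xW j * (xwW k)⁻¹
  group

/-- piece DN-F6: `Ω` acts on `W k` as the conjugation with `R`.
Proof. Let `κ = α_0 ⋯ α_{k-1}` (`kap wA k`): `κ x_j = x_0 x_{j+1} x_0` (`j < k`), `κ x_k = x_0`. Put
`P_i = x_0 ⋯ x_{i-1}` (`P_0 = 1`). `κ P_i = P_{i+1} x_0` for `i ≤ k`; by induction on `i`:
`κ^i x_j = P_i x_{i+j} P_i⁻¹` for `i + j ≤ k` and `κ^i P_l = P_{i+l} P_i⁻¹` for `i + l ≤ k + 1`. So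
`κ^{k+1-j} x_j = P_{k+1-j} x_0 P_{k+1-j}⁻¹` and `κ^j` of it is `P_{k+1} P_j⁻¹ · P_j x_j P_j⁻¹ · P_j P_{k+1}⁻¹
= R x_j R⁻¹`. -/
theorem Om_W (k : ℕ) : Om k (wA : ℕ → MulAut (W k)) = MulAut.conj (RW k) := by
  have h : (Om k (wA : ℕ → MulAut (W k))).toMonoidHom = (MulAut.conj (RW k)).toMonoidHom :=
    homW_ext fun i hi => f6_full k hi
  ext x
  exact DFunLike.congr_fun h x

/-- piece DN-F6: the elements which are fixed by all `α_j`: `Om_W`, `centW` with `n = 1` -/
theorem wfix (hk : 1 ≤ k) {w : W k} (h : ∀ j, j < k → wA j w = w) :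
    w ∈ Subgroup.zpowers (RW k) := by
  have h1 : ∀ p, p ≤ k → kap (wA : ℕ → MulAut (W k)) p w = w := by
    intro p
    induction p with
    | zero => intro _; rfl
    | succ p ih =>
      intro hp
      change kap (wA : ℕ → MulAut (W k)) p (wA p w) = w
      rw [h p (by omega), ih (by omega)]
  have h2 : ∀ n : ℕ, (kap (wA : ℕ → MulAut (W k)) k ^ n) w = w := by
    intro n
    induction n with
    | zero => rfl
    | succ n ih => rw [pow_succ', MulAut.mul_apply, ih, h1 k le_rfl]
  have h3 : Om k (wA : ℕ → MulAut (W k)) w = w := h2 (k + 1)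
  rw [Om_W, MulAut.conj_apply, mul_inv_eq_iff_eq_mul] at h3
  refine centW hk (n := 1) one_ne_zero ?_
  rw [zpow_one, h3]

/-- piece DN-F7: the elements which are fixed by all `α_j` with `j ≠ k - 2`.
Proof. `fix_gen` (B6G.lean) with `T i = α_i²`; `xwW (k - 2) = R (x_{k-1} x_k)⁻¹`. -/
theorem wfix2 (hk : 3 ≤ k) {w : W k} (h : ∀ j, j < k → j + 2 ≠ k → wA j w = w) :
    w ∈ Subgroup.closure {RW k, xW k * xW (k - 1)} := by
  have hm1 : (-1 : ℤˣ) ≠ 1 := by decide
  have hγ : ∀ o : Fin (k + 1), ((fun _ => -1 : ∀ _ : Fin (k + 1), ℤˣ) o) ≠ 1 := fun _ => hm1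
  have hf := fix_gen (Enum_W k) hk hγ
    (T := fun i => ((wA i * wA i : MulAut (W k)).toMonoidHom)) (fun i hi => Tw_W hi) (v := w)
    (by
      intro i hi h2
      show wA i (wA i w) = w
      rw [h i hi h2, h i hi h2])
  rw [gseg_W (by omega : k - 2 ≤ k)] at hf
  have hgs : ∀ t, t ≤ k → gs (M := fun _ : Fin (k + 1) => ℤˣ) (fun _ => -1)
      (fun t => (⟨min t k, by omega⟩ : Fin (k + 1))) t = xW t := by
    intro t ht
    have h5 : (⟨min t k, by omega⟩ : Fin (k + 1)) = ⟨t, by omega⟩ := Fin.ext (min_eq_left ht)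
    rw [xW_of (by omega)]
    show CoprodI.of (M := fun _ : Fin (k + 1) => ℤˣ) (i := (⟨min t k, by omega⟩ : Fin (k + 1))) (-1) = _
    rw [h5]
  have h1 := hgs (k - 1) (by omega)
  have h2 := hgs k le_rfl
  rw [h1, h2] at hf
  have h3 : (xwW (k - 2) : W k) = RW k * (xW k * xW (k - 1)) := by
    have e1 : RW k = xwW (k - 2) * xW (k - 1) * xW k := by
      obtain ⟨j, rfl⟩ : ∃ j, k = j + 2 := ⟨k - 2, by omega⟩
      rfl
    rw [e1]
    simp only [mul_assoc, xW_sq', xW_sq, mul_one]
  have h4 : (xW (k - 1) * xW k : W k) = (xW k * xW (k - 1))⁻¹ := by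
    rw [mul_inv_rev, xW_inv, xW_inv]
  rw [h3, h4] at hf
  refine (Subgroup.closure_le _).2 ?_ hf
  intro g hg
  have m1 : (RW k : W k) ∈ Subgroup.closure {RW k, xW k * xW (k - 1)} :=
    Subgroup.subset_closure (by simp)
  have m2 : (xW k * xW (k - 1) : W k) ∈ Subgroup.closure {RW k, xW k * xW (k - 1)} :=
    Subgroup.subset_closure (by simp)
  rcases hg with rfl | hg
  · exact mul_mem m1 m2
  · rw [Set.mem_singleton_iff] at hg
    subst hg
    exact inv_mem m2

/-- the action of `x_0` on `G 2 × Bool` (piece DN-F8) -/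
private def F8a (p : G 2 × Bool) : G 2 × Bool := (p.1, !p.2)

/-- the action of `x_1` (piece DN-F8) -/
private def F8b (p : G 2 × Bool) : G 2 × Bool :=
  if p.2 then (yG⁻¹ * p.1, false) else (yG * p.1, true)

/-- the action of `x_{k-2+i}` (piece DN-F8) -/
private def F8c (i : ℕ) (p : G 2 × Bool) : G 2 × Bool :=
  if p.2 then p else (xG i * p.1, false)

private theorem F8a_inv : Function.Involutive F8a := fun p => by
  rcases p with ⟨g, _ | _⟩ <;> rfl

private theorem F8b_inv : Function.Involutive F8b := fun p => by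
  rcases p with ⟨g, _ | _⟩ <;> simp [F8b]

private theorem F8c_inv (i : ℕ) : Function.Involutive (F8c i) := fun p => by
  rcases p with ⟨g, _ | _⟩
  · simp only [F8c, Bool.false_eq_true, if_false]
    rw [← mul_assoc, xG_sq, one_mul]
  · rfl

/-- the action of the generators of `W k` (piece DN-F8) -/
private def F8X (k i : ℕ) : Equiv.Perm (G 2 × Bool) :=
  if i = 0 then F8a_inv.toPerm
  else if i = 1 then F8b_inv.toPerm
  else if i + 2 < k then 1
  else (F8c_inv (i - (k - 2))).toPerm

private theorem F8X_sq (k i : ℕ) : F8X k i * F8X k i = 1 := by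
  have h : ∀ (f : G 2 × Bool → G 2 × Bool) (hf : Function.Involutive f),
      hf.toPerm * hf.toPerm = 1 := fun f hf => Equiv.ext fun p => hf p
  unfold F8X
  split_ifs
  · exact h _ _
  · exact h _ _
  · exact one_mul 1
  · exact h _ _

private theorem F8_xw (hk : 4 ≤ k) {j : ℕ} (hj : 1 ≤ j) (hj' : j + 2 < k) (h : G 2) :
    liftW (k := k) (F8X k) (fun i _ => F8X_sq k i) (xwW j) (h, false) = (yG * h, false) := by
  induction j with
  | zero => omega
  | succ j ih =>
    rcases Nat.eq_zero_or_pos j with rfl | hj0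
    · change liftW (k := k) (F8X k) (fun i _ => F8X_sq k i) (xW 0 * xW 1) (h, false) = _
      rw [map_mul, liftW_x _ _ (by omega), liftW_x _ _ (by omega)]
      rfl
    · change liftW (k := k) (F8X k) (fun i _ => F8X_sq k i) (xwW j * xW (j + 1)) (h, false) = _
      rw [map_mul, liftW_x _ _ (by omega)]
      have h1 : F8X k (j + 1) = 1 := by
        unfold F8X
        rw [if_neg (by omega), if_neg (by omega), if_pos (by omega)]
      rw [h1, mul_one]
      exact ih hj0 (by omega)

/-- piece DN-F8: `W k` contains the free product of an infinite cyclic group and of the free product of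
three groups of order two: the homomorphism `G 2 → W k`, `x_i ↦ x_{k-2+i}`, `y ↦ x_0 ⋯ x_{k-3}` is
injective, `k ≥ 4`.
Proof. Let `S = {o | o ≤ k - 3}`; `split` (B6S.lean): `W k = A * B`, `A = AS M S`. `G 2 = ⟨y⟩ * ⟨x_0, x_1, x_2⟩`
in the same way. A reduced word of `G 2` is mapped to a reduced word: `y^n ↦ (x_0 ⋯ x_{k-3})^n ≠ 1`
for `n ≠ 0`, `k - 3 ≥ 1`, and `⟨x_0, x_1, x_2⟩ → B` is injective (it is an isomorphism; or: a retraction
`W k → G 2` which kills `x_o`, `o ≤ k - 3`). -/
theorem exists_emb (hk : 4 ≤ k) : ∃ f : G 2 →* W k, Function.Injective f ∧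
    (∀ i, i ≤ 2 → f (xG i) = xW (k - 2 + i)) ∧ f yG = xwW (k - 3) := by
  obtain ⟨f, hf⟩ : ∃ f : G 2 →* W k,
      f = liftG (fun i => xW (k - 2 + i)) (fun i _ => xW_sq _) (xwW (k - 3)) := ⟨_, rfl⟩
  obtain ⟨ρ, hρ⟩ : ∃ ρ : W k →* Equiv.Perm (G 2 × Bool),
      ρ = liftW (k := k) (F8X k) (fun i _ => F8X_sq k i) := ⟨_, rfl⟩
  have hfx : ∀ i, i ≤ 2 → f (xG i) = xW (k - 2 + i) := fun i hi => by
    rw [hf]
    exact liftG_x _ _ _ hi
  have hfy : f yG = xwW (k - 3) := by
    rw [hf]
    exact liftG_y _ _ _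
  let S : Subgroup (G 2) :=
    { carrier := {g | ∀ h, ρ (f g) (h, false) = (g * h, false)}
      one_mem' := fun h => by
        rw [map_one, map_one, one_mul]
        rfl
      mul_mem' := fun {a b} ha hb h => by
        rw [map_mul, map_mul, Equiv.Perm.mul_apply, hb h, ha, mul_assoc]
      inv_mem' := fun {a} ha h => by
        rw [map_inv, map_inv, Equiv.Perm.inv_eq_iff_eq, ha, mul_inv_cancel_left] }
  have hx : ∀ i, xG i ∈ S := by
    intro i h
    rcases Nat.lt_or_ge 2 i with hi | hi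
    · have h1 : (xG i : G 2) = 1 := dif_neg (by omega)
      rw [h1, map_one, map_one, one_mul]
      rfl
    · rw [hfx i hi, hρ, liftW_x _ _ (by omega)]
      have h1 : F8X k (k - 2 + i) = (F8c_inv i).toPerm := by
        unfold F8X
        rw [if_neg (by omega), if_neg (by omega), if_neg (by omega)]
        have h2 : k - 2 + i - (k - 2) = i := by omega
        simp only [h2]
      rw [h1]
      rfl
  have hy : yG ∈ S := by
    intro h
    rw [hfy, hρ]
    exact F8_xw hk (by omega) (by omega) h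
  have hS : ∀ g, g ∈ S := by
    intro g
    have h1 : S.subtype.comp (liftG (fun i => (⟨xG i, hx i⟩ : S))
        (fun i _ => Subtype.ext (xG_sq i)) ⟨yG, hy⟩) = MonoidHom.id (G 2) := by
      apply homG_ext
      · intro i hi
        rw [MonoidHom.comp_apply, liftG_x _ _ _ hi]
        rfl
      · rw [MonoidHom.comp_apply, liftG_y]
        rfl
    have h2 := DFunLike.congr_fun h1 g
    rw [MonoidHom.id_apply, MonoidHom.comp_apply] at h2
    rw [← h2]
    exact Subtype.property _
  refine ⟨f, ?_, hfx, hfy⟩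
  rw [injective_iff_map_eq_one]
  intro g hg
  have h1 := hS g 1
  rw [hg, map_one, mul_one] at h1
  have h2 : ((1 : G 2), false) = (g, false) := h1
  exact (congrArg Prod.fst h2).symm

private lemma f9_dih {n : ℤ} (h : (DihedralGroup.r 1 : DihedralGroup 0) ^ n = 1) : n = 0 := by
  have h1 := orderOf_dvd_iff_zpow_eq_one.2 h
  rw [DihedralGroup.orderOf_r_one] at h1
  simpa using h1

/-- the homomorphism to the infinite dihedral group: `x_a ↦ sr 1`, `x_b ↦ sr 0` -/
private def f9hom (a b : ℕ) : G 2 →* DihedralGroup 0 :=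
  liftG (fun i => if i = a then DihedralGroup.sr 0 else if i = b then DihedralGroup.sr 1 else 1)
    (fun i _ => by
      split_ifs
      · rw [DihedralGroup.sr_mul_sr, sub_self]; rfl
      · rw [DihedralGroup.sr_mul_sr, sub_self]; rfl
      · rw [mul_one]) 1

private lemma f9hom_x {a b i : ℕ} (hi : i ≤ 2) : f9hom a b (xG i) =
    if i = a then DihedralGroup.sr 0 else if i = b then DihedralGroup.sr 1 else 1 :=
  liftG_x _ _ _ hi

private lemma f9_sr (i : ZMod 0) :
    (DihedralGroup.sr i : DihedralGroup 0) * DihedralGroup.sr i = 1 := by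
  rw [DihedralGroup.sr_mul_sr, sub_self]; rfl

private lemma f9_ab : (DihedralGroup.sr 0 : DihedralGroup 0) * DihedralGroup.sr 1 =
    DihedralGroup.r 1 := by
  rw [DihedralGroup.sr_mul_sr, sub_zero]

/-- powers of an involution -/
private lemma f9_inv {K : Type*} [Group K] {s : K} (hs : s * s = 1) (n : ℤ) :
    s ^ n = if Even n then 1 else s := by
  have h2 : s ^ (2 : ℤ) = 1 := by
    rw [zpow_two, hs]
  split_ifs with h
  · obtain ⟨m, rfl⟩ := h
    rw [← two_mul, zpow_mul, h2, one_zpow]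
  · obtain ⟨m, rfl⟩ := Int.not_even_iff_odd.1 h
    rw [zpow_add, zpow_mul, h2, one_zpow, one_mul, zpow_one]

private lemma f9_xx {a b : ℕ} (ha : a ≤ 2) (hb : b ≤ 2) (hab : a ≠ b) {n : ℤ}
    (h : (xG a * xG b : G 2) ^ n = 1) : n = 0 := by
  have h1 := congrArg (f9hom a b) h
  rw [map_zpow, map_mul, f9hom_x ha, f9hom_x hb, map_one, if_pos rfl, if_neg (Ne.symm hab),
    if_pos rfl, f9_ab] at h1
  exact f9_dih h1

private lemma f9_h12 {m n : ℤ} (h : (xG 2 * xG 1 : G 2) ^ m * (xG 1 * xG 0) ^ n = 1) :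
    m = 0 := by
  have h1 := congrArg (f9hom 2 1) h
  rw [map_mul, map_zpow, map_zpow, map_mul, map_mul, f9hom_x (by omega), f9hom_x (by omega),
    f9hom_x (by omega), map_one, if_pos rfl, if_neg (by omega), if_pos rfl, if_neg (by omega),
    if_neg (by omega), mul_one, f9_ab, f9_inv (f9_sr 1) n] at h1
  split_ifs at h1
  · rw [mul_one] at h1
    exact f9_dih h1
  · have h2 : (DihedralGroup.r 1 : DihedralGroup 0) ^ m = DihedralGroup.sr 1 := by
      rw [mul_eq_one_iff_eq_inv] at h1
      rw [h1]; rfl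
    have h3 : (DihedralGroup.r 1 : DihedralGroup 0) ^ (m + m) = 1 := by
      rw [zpow_add, h2, f9_sr]
    have := f9_dih h3
    omega

private lemma f9_one {n : ℤ} (hn : n ≠ 0)
    (h : (xG 2 * xG 0 : G 2) ^ n = (xG 2 * xG 1) ^ n * (xG 1 * xG 0) ^ n) : n = 1 := by
  have h1 := congrArg (f9hom 2 0) h
  rw [map_mul, map_zpow, map_zpow, map_zpow, map_mul, map_mul, map_mul, f9hom_x (by omega),
    f9hom_x (by omega), f9hom_x (by omega), if_pos rfl, if_neg (by omega), if_pos rfl,
    if_neg (by omega), if_neg (by omega), mul_one, one_mul, f9_ab, f9_inv (f9_sr 1) n,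
    f9_inv (f9_sr 0) n] at h1
  split_ifs at h1
  · rw [mul_one] at h1
    exact absurd (f9_dih h1) hn
  · rw [f9_ab] at h1
    have h3 : (DihedralGroup.r 1 : DihedralGroup 0) ^ (n - 1) = 1 := by
      rw [zpow_sub, h1, zpow_one, mul_inv_cancel]
    have := f9_dih h3
    omega

/-- the left factor replaced by an isomorphic group -/
private lemma f9_congr {A A' B Γ : Type*} [Group A] [Group A'] [Group B] [Group Γ]
    {i : A →* Γ} {j : B →* Γ} (h : Pool.Agent.Helper7.AG.FreeProd i j) (φ : A' ≃* A)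
    {i' : A' →* Γ} (hi : ∀ a, i' a = i (φ a)) : Pool.Agent.Helper7.AG.FreeProd i' j := by
  have hn : ∀ s : A' ⊕ B, Pool.Agent.Helper7.AG.nt (Sum.map φ id s : A ⊕ B) ↔
      Pool.Agent.Helper7.AG.nt s := by
    intro s
    cases s with
    | inl a =>
      exact not_congr (map_eq_one_iff φ φ.injective)
    | inr b => rfl
  have hl : ∀ s : A' ⊕ B, (Sum.map φ id s : A ⊕ B).isLeft = s.isLeft := by
    intro s; cases s <;> rfl
  have hr : ∀ l : List (A' ⊕ B), Pool.Agent.Helper7.AG.Red (l.map (Sum.map φ id) : List (A ⊕ B)) ↔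
      Pool.Agent.Helper7.AG.Red l := by
    intro l
    unfold Pool.Agent.Helper7.AG.Red
    rw [List.isChain_map]
    simp only [List.mem_map, forall_exists_index, and_imp, forall_apply_eq_imp_iff₂, hn, hl]
  have hv : ∀ l : List (A' ⊕ B), Pool.Agent.Helper7.AG.val i j (l.map (Sum.map φ id)) =
      Pool.Agent.Helper7.AG.val i' j l := by
    intro l
    induction l with
    | nil => rfl
    | cons s l ih =>
      rw [List.map_cons, Pool.Agent.Helper7.AG.val_cons, Pool.Agent.Helper7.AG.val_cons, ih]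
      congr 1
      cases s with
      | inl a => exact (hi a).symm
      | inr b => rfl
  refine ⟨fun x => ?_, fun l l' h1 h2 h3 => ?_⟩
  · obtain ⟨l, h1, h2⟩ := h.ex x
    have e : (l.map (Sum.map φ.symm id : A ⊕ B → A' ⊕ B)).map (Sum.map φ id) = l := by
      rw [List.map_map]
      conv_rhs => rw [← List.map_id l]
      apply List.map_congr_left
      intro s _
      cases s with
      | inl a => simp
      | inr b => rfl
    refine ⟨l.map (Sum.map φ.symm id), ?_, ?_⟩
    · rw [← hr, e]; exact h1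
    · rw [← hv, e]; exact h2
  · have h4 := h.uniq _ _ ((hr l).2 h1) ((hr l').2 h2) (by rw [hv, hv]; exact h3)
    have hinj : Function.Injective (Sum.map φ id : A' ⊕ B → A ⊕ B) :=
      Function.Injective.sumMap φ.injective Function.injective_id
    exact List.map_injective_iff.2 hinj h4

private def f9one (k : ℕ) : GK k none := (Multiplicative.ofAdd (1 : ℤ) : Multiplicative ℤ)

private def f9y (k : ℕ) : AS (GK k) (fun o => o = none) :=
  CoprodI.of (M := fun o : {o : Option (Fin (k + 1)) // o = none} => GK k o.1) (i := ⟨none, rfl⟩)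
    (f9one k)

private lemma f9y_eq (k : ℕ) : iS (GK k) (fun o => o = none) (f9y k) = yG :=
  iS_of (M := GK k) (fun o => o = none) ⟨none, rfl⟩ _

private lemma f9_yG_pow {n : ℤ} (h : (yG : G k) ^ n = 1) : n = 0 := by
  have h1 := congrArg (liftG (k := k) (fun _ => (1 : Multiplicative ℤ)) (fun _ _ => by simp)
    (Multiplicative.ofAdd (1 : ℤ))) h
  rw [map_zpow, liftG_y, MonoidHom.map_one] at h1
  have h2 := congrArg Multiplicative.toAdd h1
  simpa using h2

private lemma f9_unit (b : FreeGroup Unit) : ∃ n : ℤ, b = FreeGroup.of () ^ n :=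
  ⟨FreeGroup.freeGroupUnitEquivInt b, (FreeGroup.freeGroupUnitEquivInt.left_inv b).symm⟩

private def f9phi (k : ℕ) : FreeGroup Unit →* AS (GK k) (fun o => o = none) :=
  FreeGroup.lift (fun _ => f9y k)

private lemma f9phi_of (k : ℕ) : f9phi k (FreeGroup.of ()) = f9y k := FreeGroup.lift_apply_of ..

private lemma f9phi_bij (k : ℕ) : Function.Bijective (f9phi k) := by
  constructor
  · rw [injective_iff_map_eq_one]
    intro b hb
    obtain ⟨n, rfl⟩ := f9_unit b
    rw [map_zpow, f9phi_of] at hb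
    have h2 := congrArg (iS (GK k) (fun o => o = none)) hb
    rw [map_zpow, f9y_eq, map_one] at h2
    rw [f9_yG_pow h2, zpow_zero]
  · intro a
    induction a using CoprodI.induction_on with
    | one => exact ⟨1, map_one _⟩
    | of i x =>
      obtain ⟨i, rfl⟩ := i
      obtain ⟨m, hm⟩ : ∃ m : ℤ, x = f9one k ^ m := by
        have key : ∀ y : Multiplicative ℤ, ∃ m : ℤ, y = (Multiplicative.ofAdd (1 : ℤ)) ^ m :=
          fun y => ⟨Multiplicative.toAdd y, by rw [← ofAdd_zsmul]; simp⟩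
        exact key x
      refine ⟨FreeGroup.of () ^ m, ?_⟩
      rw [map_zpow, f9phi_of, hm]
      exact (map_zpow (CoprodI.of (M := fun o : {o : Option (Fin (k + 1)) // o = none} => GK k o.1)
        (i := ⟨none, rfl⟩)) (f9one k) m).symm
    | mul x y hx hy =>
      obtain ⟨a, ha⟩ := hx
      obtain ⟨b, hb⟩ := hy
      exact ⟨a * b, by rw [map_mul, ha, hb]⟩

/-- the endomorphism `y ↦ y z`, `x_i ↦ x_i` -/
private def f9e (z : G k) : G k →* G k := liftG xG (fun i _ => xG_sq i) (yG * z)

private lemma f9e_x (z : G k) (i : ℕ) : f9e z (xG i) = xG i := by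
  by_cases h : i ≤ k
  · exact liftG_x _ _ _ h
  · rw [xG_ge (by omega), map_one]

private lemma f9e_y (z : G k) : f9e z yG = yG * z := liftG_y _ _ _

private lemma f9e_xw (z : G k) (j : ℕ) : f9e z (xw j) = xw j := by
  induction j with
  | zero => exact f9e_x z 0
  | succ j ih =>
    show f9e z (xw j * xG (j + 1)) = xw j * xG (j + 1)
    rw [map_mul, ih, f9e_x]

private def f9E (k : ℕ) : G k ≃* G k :=
  MonoidHom.toMulEquiv (f9e (xw k)) (f9e (xw k)⁻¹)
    (by
      apply homG_ext
      · intro i _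
        rw [MonoidHom.comp_apply, f9e_x, f9e_x, MonoidHom.id_apply]
      · rw [MonoidHom.comp_apply, f9e_y, map_mul, f9e_y, f9e_xw, MonoidHom.id_apply,
          inv_mul_cancel_right])
    (by
      apply homG_ext
      · intro i _
        rw [MonoidHom.comp_apply, f9e_x, f9e_x, MonoidHom.id_apply]
      · rw [MonoidHom.comp_apply, f9e_y, map_mul, f9e_y, map_inv, f9e_xw, MonoidHom.id_apply,
          mul_inv_cancel_right])

private lemma f9E_apply (g : G k) : f9E k g = f9e (xw k) g := rfl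

private lemma f9_fp (k : ℕ) : Pool.Agent.Helper7.AG.FreeProd
    (FreeGroup.lift (fun _ : Unit => rG k)) (iS (GK k) (fun o => ¬ o = none)) := by
  have h := (split (M := GK k) (fun o => o = none)).equiv (f9E k)
  have h1 : (f9E k).toMonoidHom.comp (iS (GK k) (fun o => ¬ o = none)) =
      iS (GK k) (fun o => ¬ o = none) := by
    refine CoprodI.ext_hom _ _ fun o => ?_
    obtain ⟨o, ho⟩ := o
    cases o with
    | none => exact absurd rfl ho
    | some i =>
      have h2 : (((f9E k).toMonoidHom.comp (iS (GK k) (fun o => ¬ o = none))).comp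
          (CoprodI.of (M := fun o : {o // ¬ o = none} => GK k o.1) (i := ⟨some i, ho⟩)) :
            ℤˣ →* G k) =
          ((iS (GK k) (fun o => ¬ o = none)).comp
          (CoprodI.of (M := fun o : {o // ¬ o = none} => GK k o.1) (i := ⟨some i, ho⟩)) :
            ℤˣ →* G k) := by
        apply homC2_ext
        have h3 := iS_of (M := GK k) (fun o => ¬ o = none) ⟨some i, ho⟩
          (show GK k (some i) from (-1 : ℤˣ))
        have h4 := xG_of (k := k) i.isLt
        show f9E k (iS (GK k) (fun o => ¬ o = none) (CoprodI.of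
          (M := fun o : {o // ¬ o = none} => GK k o.1) (i := ⟨some i, ho⟩)
          (show GK k (some i) from (-1 : ℤˣ)))) = iS (GK k) (fun o => ¬ o = none) (CoprodI.of
          (M := fun o : {o // ¬ o = none} => GK k o.1) (i := ⟨some i, ho⟩)
          (show GK k (some i) from (-1 : ℤˣ)))
        rw [h3]
        show f9E k (CoprodI.of (M := GK k) (i := some i) (show GK k (some i) from (-1 : ℤˣ))) =
          CoprodI.of (M := GK k) (i := some i) (show GK k (some i) from (-1 : ℤˣ))
        rw [← h4, f9E_apply, f9e_x]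
      exact h2
  rw [h1] at h
  refine f9_congr h (MulEquiv.ofBijective (f9phi k) (f9phi_bij k)) ?_
  intro a
  have h2 : FreeGroup.lift (fun _ : Unit => rG k) =
      ((f9E k).toMonoidHom.comp (iS (GK k) (fun o => o = none))).comp (f9phi k) := by
    refine FreeGroup.ext_hom _ _ fun u => ?_
    rw [FreeGroup.lift_apply_of]
    show rG k = f9E k (iS (GK k) (fun o => o = none) (f9phi k (FreeGroup.of ())))
    rw [f9phi_of, f9y_eq, f9E_apply, f9e_y]
    rfl
  exact DFunLike.congr_fun h2 a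

private def f9x (i : ℕ) (hi : i < 3) : AS (GK 2) (fun o => ¬ o = none) :=
  CoprodI.of (M := fun o : {o : Option (Fin 3) // ¬ o = none} => GK 2 o.1)
    (i := ⟨some ⟨i, hi⟩, by simp⟩) (show GK 2 (some ⟨i, hi⟩) from (-1 : ℤˣ))

private lemma f9x_eq (i : ℕ) (hi : i < 3) : iS (GK 2) (fun o => ¬ o = none) (f9x i hi) = xG i := by
  rw [xG_of (k := 2) hi]
  exact iS_of (M := GK 2) (fun o => ¬ o = none) ⟨some ⟨i, hi⟩, by simp⟩ _

private def f9f (a b : ℕ) (ha : a < 3) (hb : b < 3) :
    FreeGroup Unit →* AS (GK 2) (fun o => ¬ o = none) :=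
  FreeGroup.lift (fun _ => f9x a ha * f9x b hb)

private lemma f9f_eq (a b : ℕ) (ha : a < 3) (hb : b < 3) (n : ℤ) :
    iS (GK 2) (fun o => ¬ o = none) (f9f a b ha hb (FreeGroup.of () ^ n)) = (xG a * xG b) ^ n := by
  unfold f9f
  rw [map_zpow, FreeGroup.lift_apply_of, map_zpow, map_mul, f9x_eq, f9x_eq]

private lemma f9f_inj (a b : ℕ) (ha : a < 3) (hb : b < 3) (hab : a ≠ b) :
    Function.Injective (f9f a b ha hb) := by
  rw [injective_iff_map_eq_one]
  intro x hx
  obtain ⟨n, rfl⟩ := f9_unit x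
  have h := f9f_eq a b ha hb n
  rw [hx, map_one] at h
  rw [f9_xx (by omega) (by omega) hab h.symm, zpow_zero]

private def f9t (v : G 2) : FreeGroup (Unit ⊕ Unit) →* G 2 :=
  FreeGroup.lift (Sum.elim (fun _ => rG 2) (fun _ => v))

private lemma f9t_inl (v : G 2) (a : FreeGroup Unit) :
    f9t v (FreeGroup.map Sum.inl a) = FreeGroup.lift (fun _ : Unit => rG 2) a := by
  have h : (f9t v).comp (FreeGroup.map Sum.inl) = FreeGroup.lift (fun _ : Unit => rG 2) := by
    refine FreeGroup.ext_hom _ _ fun u => ?_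
    rw [MonoidHom.comp_apply, FreeGroup.map.of, f9t, FreeGroup.lift_apply_of,
      FreeGroup.lift_apply_of, Sum.elim_inl]
  exact DFunLike.congr_fun h a

private lemma f9t_inr (a b : ℕ) (ha : a < 3) (hb : b < 3) (x : FreeGroup Unit) :
    f9t (xG a * xG b) (FreeGroup.map Sum.inr x) =
      iS (GK 2) (fun o => ¬ o = none) (f9f a b ha hb x) := by
  have h : (f9t (xG a * xG b)).comp (FreeGroup.map Sum.inr) =
      (iS (GK 2) (fun o => ¬ o = none)).comp (f9f a b ha hb) := by
    refine FreeGroup.ext_hom _ _ fun u => ?_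
    rw [MonoidHom.comp_apply, FreeGroup.map.of, f9t, FreeGroup.lift_apply_of, Sum.elim_inr,
      MonoidHom.comp_apply, f9f, FreeGroup.lift_apply_of, map_mul, f9x_eq, f9x_eq]
  exact DFunLike.congr_fun h x

private lemma f9_gA_r {j : ℕ} (hj : j < 2) : gA j (rG 2) = rG 2 := by
  show gA j (yG * (xG 0 * xG 1 * xG 2)) = yG * (xG 0 * xG 1 * xG 2)
  rw [map_mul, map_mul, map_mul, gA_y, gA_x hj (by omega), gA_x hj (by omega),
    gA_x hj (by omega)]
  have h : j = 0 ∨ j = 1 := by omega
  rcases h with rfl | rfl <;> simp [gC, mul_assoc]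

/-- piece DN-F9: the equation in `G 2` (`r = y x_0 x_1 x_2`, `u = x_2 x_1`):
Proof. `mult_word` of `Pool/Agent/Helper7/AG/Fv.lean` for the free product `⟨r⟩ * ⟨u⟩` (`i = ⟨r⟩`, `j = ⟨u⟩`;
`freeProd_sum Unit Unit`) and the free product `G 2 = ⟨r⟩ * ⟨x_0, x_1, x_2⟩` (`y ↦ r = y x_0 x_1 x_2`, `x_i ↦ x_i` is
an automorphism of `G 2`, `FreeProd.equiv` of `split`); `e₁ : u ↦ x_2 x_1`, `e₂ : u ↦ x_1 x_0`,
`e₀ : u ↦ x_2 x_0 = (x_2 x_1)(x_1 x_0)`, all three `r ↦ r`. `h12`: `(x_2 x_1)^i (x_1 x_0)^j ≠ 1` for `i, j ≠ 0`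
(kill `x_0`). Result: `X = 1` or `X = r^i u^n r^-i` with `(x_2 x_0)^n = (x_2 x_1)^n (x_1 x_0)^n`, so `n = 1`
(or `n = 0`): kill `x_1`: `(x_2 x_0)^n = x_2^n x_0^n`, so `n ≤ 1` and `n ≥ -1`; for `n = -1`:
`x_0 x_2 = x_1 x_2 x_0 x_1`, not true.
The hypothesis: `gA 1 (gA 0 X)` for `X` a word in `r`, `u`: `gA` fixes `r`, `gA 0 (x_2 x_1) = x_2 x_0`,
`gA 1 (x_2 x_0) = x_1 x_0`. -/
theorem gsolve {X : G 2} (hX : X ∈ Subgroup.closure {rG 2, (xG 2 * xG 1 : G 2)})
    (h : X * gA 1 (gA 0 X) = gA 0 X) :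
    X = 1 ∨ ∃ i : ℤ, X = rG 2 ^ i * (xG 2 * xG 1) * (rG 2 ^ i)⁻¹ := by
  obtain ⟨x, rfl⟩ : ∃ x, f9t (xG 2 * xG 1) x = X := by
    have h1 : (f9t (xG 2 * xG 1)).range = Subgroup.closure {rG 2, (xG 2 * xG 1 : G 2)} := by
      unfold f9t
      rw [FreeGroup.range_lift_eq_closure]
      congr 1
      ext y
      constructor
      · rintro ⟨u | u, rfl⟩
        · exact Or.inl rfl
        · exact Or.inr rfl
      · rintro (rfl | rfl)
        · exact ⟨Sum.inl (), rfl⟩
        · exact ⟨Sum.inr (), rfl⟩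
    rw [← h1] at hX
    exact hX
  have e0 : gA 0 (f9t (xG 2 * xG 1) x) = f9t (xG 2 * xG 0) x := by
    have h1 : (gA 0 : MulAut (G 2)).toMonoidHom.comp (f9t (xG 2 * xG 1)) =
        f9t (xG 2 * xG 0) := by
      refine FreeGroup.ext_hom _ _ fun u => ?_
      cases u with
      | inl u =>
        show gA 0 (f9t (xG 2 * xG 1) (FreeGroup.of (Sum.inl u))) = _
        unfold f9t
        rw [FreeGroup.lift_apply_of, FreeGroup.lift_apply_of, Sum.elim_inl, Sum.elim_inl,
          f9_gA_r (by omega)]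
      | inr u =>
        show gA 0 (f9t (xG 2 * xG 1) (FreeGroup.of (Sum.inr u))) = _
        unfold f9t
        rw [FreeGroup.lift_apply_of, FreeGroup.lift_apply_of, Sum.elim_inr, Sum.elim_inr,
          map_mul, gA_x (by omega) (by omega), gA_x (by omega) (by omega)]
        simp [gC]
    exact DFunLike.congr_fun h1 x
  have e2 : gA 1 (f9t (xG 2 * xG 0) x) = f9t (xG 1 * xG 0) x := by
    have h1 : (gA 1 : MulAut (G 2)).toMonoidHom.comp (f9t (xG 2 * xG 0)) =
        f9t (xG 1 * xG 0) := by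
      refine FreeGroup.ext_hom _ _ fun u => ?_
      cases u with
      | inl u =>
        show gA 1 (f9t (xG 2 * xG 0) (FreeGroup.of (Sum.inl u))) = _
        unfold f9t
        rw [FreeGroup.lift_apply_of, FreeGroup.lift_apply_of, Sum.elim_inl, Sum.elim_inl,
          f9_gA_r (by omega)]
      | inr u =>
        show gA 1 (f9t (xG 2 * xG 0) (FreeGroup.of (Sum.inr u))) = _
        unfold f9t
        rw [FreeGroup.lift_apply_of, FreeGroup.lift_apply_of, Sum.elim_inr, Sum.elim_inr,
          map_mul, gA_x (by omega) (by omega), gA_x (by omega) (by omega)]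
        simp [gC]
    exact DFunLike.congr_fun h1 x
  rw [e0, e2] at h
  rcases Pool.Agent.Helper7.AG.mult_word (Pool.Agent.Helper7.AG.freeProd_sum Unit Unit) (f9_fp 2)
    (f9t_inl _) (f9t_inl _) (f9t_inl _)
    (f9t_inr 2 0 (by omega) (by omega)) (f9t_inr 2 1 (by omega) (by omega))
    (f9t_inr 1 0 (by omega) (by omega))
    (f9f_inj 2 0 _ _ (by omega)) (f9f_inj 2 1 _ _ (by omega)) (f9f_inj 1 0 _ _ (by omega))
    (by
      intro b b' hb _ h1
      obtain ⟨m, rfl⟩ := f9_unit b
      obtain ⟨n, rfl⟩ := f9_unit b'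
      have h2 := congrArg (iS (GK 2) (fun o => ¬ o = none)) h1
      rw [map_mul, f9f_eq, f9f_eq, map_one] at h2
      apply hb
      rw [f9_h12 h2, zpow_zero]) h.symm with hx | ⟨a, b, hb, hx, hf⟩
  · left
    rw [hx, map_one]
  · right
    obtain ⟨i, rfl⟩ := f9_unit a
    obtain ⟨n, rfl⟩ := f9_unit b
    have h2 := congrArg (iS (GK 2) (fun o => ¬ o = none)) hf
    rw [map_mul, f9f_eq, f9f_eq, f9f_eq] at h2
    have hn : n = 1 := f9_one (by rintro rfl; exact hb (zpow_zero _)) h2
    refine ⟨i, ?_⟩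
    rw [hx, map_mul, map_mul, map_inv, f9t_inl, f9t_inr 2 1 (by omega) (by omega), f9f_eq, hn,
      zpow_one, map_zpow, FreeGroup.lift_apply_of]

private lemma f9_wA_xw {j : ℕ} (hj : j < k) : ∀ i, i < j → wA j (xwW i : W k) = xwW i := by
  intro i
  induction i with
  | zero =>
    intro h
    show wA j (xW 0) = xW 0
    rw [wA_x hj (by omega)]
    unfold wC
    rw [if_neg (by omega), if_neg (by omega)]
  | succ i ih =>
    intro h
    show wA j (xwW i * xW (i + 1)) = xwW i * xW (i + 1)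
    rw [map_mul, ih (by omega), wA_x hj (by omega)]
    unfold wC
    rw [if_neg (by omega), if_neg (by omega)]

/-- piece DN-F9: the equation in `W k`: by `exists_emb` (`f (rG 2) = R`, `f (x_2 x_1) = x_k x_{k-1}`,
`f (gA j g) = wA (k-2+j) (f g)` by `homG_ext`) and `gsolve` -/
theorem wsolve (hk : 4 ≤ k) {w : W k} (hw : w ∈ Subgroup.closure {RW k, xW k * xW (k - 1)})
    (h : w * wA (k - 1) (wA (k - 2) w) = wA (k - 2) w) :
    w = 1 ∨ ∃ i : ℤ, w = RW k ^ i * (xW k * xW (k - 1)) * (RW k ^ i)⁻¹ := by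
  obtain ⟨f, hf, hfx, hfy⟩ := exists_emb hk
  have hr : f (rG 2) = RW k := by
    show f (yG * (xG 0 * xG 1 * xG 2)) = xwW k
    rw [map_mul, map_mul, map_mul, hfy, hfx 0 (by omega), hfx 1 (by omega), hfx 2 (by omega)]
    obtain ⟨m, rfl⟩ : ∃ m, k = m + 3 := ⟨k - 3, by omega⟩
    show xwW m * (xW (m + 1) * xW (m + 2) * xW (m + 3)) =
      xwW m * xW (m + 1) * xW (m + 2) * xW (m + 3)
    simp only [mul_assoc]
  have hu : f (xG 2 * xG 1) = xW k * xW (k - 1) := by
    rw [map_mul, hfx 2 le_rfl, hfx 1 (by omega)]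
    congr 2 <;> omega
  have hA : ∀ j, j < 2 → ∀ g, f (gA j g) = wA (k - 2 + j) (f g) := by
    intro j hj g
    have h1 : f.comp (gA j : MulAut (G 2)).toMonoidHom =
        (wA (k - 2 + j) : MulAut (W k)).toMonoidHom.comp f := by
      apply homG_ext
      · intro i hi
        show f (gA j (xG i)) = wA (k - 2 + j) (f (xG i))
        rw [gA_x hj hi, hfx i hi, wA_x (by omega) (by omega)]
        unfold gC wC
        by_cases h1 : i = j
        · rw [if_pos h1, if_pos (by omega), map_mul, map_mul, hfx j (by omega),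
            hfx (j + 1) (by omega)]
          rfl
        · by_cases h2 : i = j + 1
          · rw [if_neg h1, if_pos h2, if_neg (by omega), if_pos (by omega), hfx j (by omega)]
          · rw [if_neg h1, if_neg h2, if_neg (by omega), if_neg (by omega), hfx i hi]
      · show f (gA j yG) = wA (k - 2 + j) (f yG)
        rw [gA_y, hfy, f9_wA_xw (by omega) _ (by omega)]
    exact DFunLike.congr_fun h1 g
  obtain ⟨X, hX, rfl⟩ : ∃ X ∈ Subgroup.closure {rG 2, (xG 2 * xG 1 : G 2)}, f X = w := by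
    have h1 : (Subgroup.closure {rG 2, (xG 2 * xG 1 : G 2)}).map f =
        Subgroup.closure {RW k, xW k * xW (k - 1)} := by
      rw [MonoidHom.map_closure, Set.image_pair, hr, hu]
    rw [← h1] at hw
    exact hw
  have h' : X * gA 1 (gA 0 X) = gA 0 X := by
    apply hf
    have e1 : f (gA 0 X) = wA (k - 2) (f X) := hA 0 (by omega) X
    have e2 : f (gA 1 (gA 0 X)) = wA (k - 1) (f (gA 0 X)) := by
      have e3 : k - 2 + 1 = k - 1 := by omega
      have e4 := hA 1 (by omega) (gA 0 X)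
      rw [e3] at e4
      exact e4
    rw [map_mul, e2, e1]
    exact h
  rcases gsolve hX h' with rfl | ⟨i, rfl⟩
  · left; exact map_one f
  · right
    refine ⟨i, ?_⟩
    rw [map_mul, map_mul, map_inv, map_zpow, hr, hu]

private lemma dnf10_ne {i : ℕ} (h : i < k + 1) : (xW i : W k) ≠ 1 := by
  rw [xW_of h]
  intro h1
  have h2 := congrArg (CoprodI.lift (fun _ : Fin (k + 1) => MonoidHom.id ℤˣ)) h1
  rw [CoprodI.lift_of, map_one] at h2
  exact absurd h2 (by decide)

private lemma dnf10_c {j : ℕ} (hj : j < k) :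
    wA j (xW j * xW (j + 1) : W k) = xW j * xW (j + 1) := by
  rw [map_mul, wA_x hj (by omega), wA_x hj (by omega)]
  unfold wC
  rw [if_pos rfl, if_neg (by omega), if_pos rfl]
  simp only [mul_assoc, xW_sq, mul_one]

private lemma dnf10_o {j : ℕ} (hj : j < k) {o : Fin (k + 1)}
    (ho : ¬ (o.val = j ∨ o.val = j + 1)) (x : ℤˣ) :
    wA j (CoprodI.of (M := fun _ : Fin (k + 1) => ℤˣ) (i := o) x : W k) =
      CoprodI.of (M := fun _ : Fin (k + 1) => ℤˣ) (i := o) x := by
  rcases Int.units_eq_one_or x with rfl | rfl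
  · simp only [map_one]
  · rw [← xW_of o.isLt, wA_x hj (by omega)]
    unfold wC
    rw [if_neg (by omega), if_neg (by omega)]

private lemma dnf10_s {j : ℕ} (hj : j < k) {o : Fin (k + 1)}
    (ho : o.val = j ∨ o.val = j + 1) (x : ℤˣ) :
    (wA j * wA j : MulAut (W k)) (CoprodI.of (M := fun _ : Fin (k + 1) => ℤˣ) (i := o) x : W k) =
      (xW j * xW (j + 1)) * CoprodI.of (M := fun _ : Fin (k + 1) => ℤˣ) (i := o) x *
        (xW j * xW (j + 1))⁻¹ := by
  rw [MulAut.mul_apply]
  rcases Int.units_eq_one_or x with rfl | rfl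
  · simp only [map_one, mul_one, mul_inv_cancel]
  · rw [← xW_of o.isLt]
    have h1 : wA j (xW j : W k) = xW j * xW (j + 1) * xW j := by
      rw [wA_x hj (by omega)]
      unfold wC
      rw [if_pos rfl]
    have h2 : wA j (xW (j + 1) : W k) = xW j := by
      rw [wA_x hj (by omega)]
      unfold wC
      rw [if_neg (by omega), if_pos rfl]
    rcases ho with ho | ho
    · rw [ho, h1, map_mul, map_mul, h1, h2, mul_inv_rev, xW_inv, xW_inv]
      simp only [mul_assoc, xW_sq']
    · rw [ho, h2, h1, mul_inv_rev, xW_inv, xW_inv]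
      simp only [mul_assoc, xW_sq']

private lemma dnf10_pow {T : MulAut (W k)} {c x : W k} (hc : T c = c) (hx : T x = c * x * c⁻¹)
    (N : ℕ) : (T ^ N : MulAut (W k)) x = c ^ N * x * (c ^ N)⁻¹ := by
  induction N with
  | zero => simp
  | succ N ih =>
    rw [pow_succ', MulAut.mul_apply, ih, map_mul, map_mul, map_inv, map_pow, hc, hx, pow_succ]
    group

private lemma dnf10_pow' {T : MulAut (W k)} {x : W k} (hx : T x = x)
    (N : ℕ) : (T ^ N : MulAut (W k)) x = x := by
  induction N with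
  | zero => simp
  | succ N ih => rw [pow_succ', MulAut.mul_apply, ih, hx]

private lemma dnf10_cent {j : ℕ} (hj : j < k) {N : ℕ} (hN : 0 < N) {v : W k}
    (h : v * (xW j * xW (j + 1)) ^ N = (xW j * xW (j + 1)) ^ N * v) :
    ∃ n : ℤ, v = (xW j * xW (j + 1)) ^ n := by
  have ea : iS (fun _ : Fin (k + 1) => ℤˣ) (fun o => o.val = j)
      (CoprodI.of (M := fun _ : {o : Fin (k + 1) // o.val = j} => ℤˣ)
        (i := ⟨⟨j, by omega⟩, rfl⟩) (-1)) = (xW j : W k) := by
    rw [xW_of (by omega)]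
    exact iS_of (M := fun _ : Fin (k + 1) => ℤˣ) (fun o => o.val = j) ⟨⟨j, by omega⟩, rfl⟩ _
  have hne : ¬ ((⟨j + 1, by omega⟩ : Fin (k + 1)).val = j) := by
    show ¬ (j + 1 = j)
    omega
  have eb : iS (fun _ : Fin (k + 1) => ℤˣ) (fun o => ¬ o.val = j)
      (CoprodI.of (M := fun _ : {o : Fin (k + 1) // ¬ o.val = j} => ℤˣ)
        (i := ⟨⟨j + 1, by omega⟩, hne⟩) (-1)) = (xW (j + 1) : W k) := by
    rw [xW_of (by omega)]
    exact iS_of (M := fun _ : Fin (k + 1) => ℤˣ) (fun o => ¬ o.val = j)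
      ⟨⟨j + 1, by omega⟩, hne⟩ _
  rw [← ea, ← eb] at h ⊢
  refine Pool.Agent.Helper38.BT.cent_pow
    (split (M := fun _ : Fin (k + 1) => ℤˣ) fun o => o.val = j) ?_ ?_ hN h
  · intro h1
    rw [h1, map_one] at ea
    exact dnf10_ne (by omega) ea.symm
  · intro h1
    rw [h1, map_one] at eb
    exact dnf10_ne (by omega) eb.symm

private lemma dnf10_ex {j : ℕ} (hj : j < k) :
    ∃ c : AS (fun _ : Fin (k + 1) => ℤˣ) (fun o => o.val = j ∨ o.val = j + 1),
      iS (fun _ : Fin (k + 1) => ℤˣ) (fun o => o.val = j ∨ o.val = j + 1) c =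
        (xW j * xW (j + 1) : W k) := by
  have h1 : (fun o : Fin (k + 1) => o.val = j ∨ o.val = j + 1) (⟨j, by omega⟩ : Fin (k + 1)) :=
    Or.inl rfl
  have h2 : (fun o : Fin (k + 1) => o.val = j ∨ o.val = j + 1) (⟨j + 1, by omega⟩ : Fin (k + 1)) :=
    Or.inr rfl
  refine ⟨CoprodI.of (M := fun _ : {o : Fin (k + 1) // o.val = j ∨ o.val = j + 1} => ℤˣ)
      (i := ⟨_, h1⟩) (-1) *
    CoprodI.of (M := fun _ : {o : Fin (k + 1) // o.val = j ∨ o.val = j + 1} => ℤˣ)
      (i := ⟨_, h2⟩) (-1), ?_⟩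
  rw [map_mul, xW_of (i := j) (by omega), xW_of (i := j + 1) (by omega)]
  exact congrArg₂ (fun a b : W k => a * b)
    (iS_of (M := fun _ : Fin (k + 1) => ℤˣ) (fun o => o.val = j ∨ o.val = j + 1) ⟨_, h1⟩ _)
    (iS_of (M := fun _ : Fin (k + 1) => ℤˣ) (fun o => o.val = j ∨ o.val = j + 1) ⟨_, h2⟩ _)

/-- piece DN-F10: if a power of `α_j` fixes `w`, then `α_j` fixes `w`.
Proof. `T = α_j^(2N)` fixes `w`; it is the conjugation with `c^N`, `c = x_j x_{j+1}`, on `A = ⟨x_j, x_{j+1}⟩`,
and the identity on the other factor `B`. `FreeProd.fix` (Ffix.lean; `i` = the inclusion of `B`,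
`j` = the inclusion of `A`, `f` = conjugation with `c^N`): `w` is in the subgroup generated by `B` and by the
elements of `A` commuting with `c^N`; these are powers of `c` (`cent_pow` in `A = ⟨x_j⟩ * ⟨x_{j+1}⟩`;
or in `W k` with `S = {j}`), and `α_j` fixes `c` and `B`. -/
theorem wA_pow_fix {j : ℕ} (hj : j < k) {w : W k} {N : ℕ} (hN : 0 < N)
    (h : (wA j ^ N : MulAut (W k)) w = w) : wA j w = w := by
  obtain ⟨c, hc⟩ := dnf10_ex (k := k) hj
  have hTc : (wA j * wA j : MulAut (W k)) (xW j * xW (j + 1)) = xW j * xW (j + 1) := by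
    rw [MulAut.mul_apply, dnf10_c hj, dnf10_c hj]
  have hw : ((wA j * wA j) ^ N : MulAut (W k)) w = w := by
    rw [(Commute.refl (wA j : MulAut (W k))).mul_pow, MulAut.mul_apply, h, h]
  have hfix := (split (M := fun _ : Fin (k + 1) => ℤˣ)
      (fun o => o.val = j ∨ o.val = j + 1)).symm.fix
    (e := ((wA j * wA j) ^ N : MulAut (W k)).toMonoidHom)
    (f := (MulAut.conj (c ^ N)).toMonoidHom)
    (fun a => T_iS' (M := fun _ : Fin (k + 1) => ℤˣ)
      (S := fun o => o.val = j ∨ o.val = j + 1)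
      (T := ((wA j * wA j) ^ N : MulAut (W k)).toMonoidHom)
      (fun o ho x => dnf10_pow' (by rw [MulAut.mul_apply, dnf10_o hj ho, dnf10_o hj ho]) N) a)
    (fun b => by
      rw [T_iS (M := fun _ : Fin (k + 1) => ℤˣ)
        (S := fun o => o.val = j ∨ o.val = j + 1)
        (T := ((wA j * wA j) ^ N : MulAut (W k)).toMonoidHom)
        (s := (xW j * xW (j + 1)) ^ N)
        (fun o ho x => dnf10_pow hTc (dnf10_s hj ho x) N) b, ← hc, ← map_pow, ← map_inv,
        ← map_mul, ← map_mul]
      rfl)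
    (MulAut.conj (c ^ N)).injective hw
  have hle : Subgroup.closure (Set.range (iS (fun _ : Fin (k + 1) => ℤˣ)
        (fun o => ¬ (o.val = j ∨ o.val = j + 1))) ∪
      iS (fun _ : Fin (k + 1) => ℤˣ) (fun o => o.val = j ∨ o.val = j + 1) ''
        {b | (MulAut.conj (c ^ N)).toMonoidHom b = b}) ≤
      (wA j : MulAut (W k)).toMonoidHom.eqLocus (MonoidHom.id _) := by
    rw [Subgroup.closure_le]
    rintro v (⟨a, rfl⟩ | ⟨b, hb, rfl⟩)
    · exact T_iS' (M := fun _ : Fin (k + 1) => ℤˣ)
        (S := fun o => o.val = j ∨ o.val = j + 1)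
        (T := (wA j : MulAut (W k)).toMonoidHom) (fun o ho x => dnf10_o hj ho x) a
    · have hb1 : c ^ N * b * (c ^ N)⁻¹ = b := hb
      have hb2 : b * c ^ N = c ^ N * b := by
        rw [mul_inv_eq_iff_eq_mul] at hb1
        exact hb1.symm
      have hb3 := congrArg (iS (fun _ : Fin (k + 1) => ℤˣ)
        (fun o => o.val = j ∨ o.val = j + 1)) hb2
      rw [map_mul, map_mul, map_pow, hc] at hb3
      obtain ⟨n, hn⟩ := dnf10_cent hj hN hb3
      rw [hn]
      show wA j ((xW j * xW (j + 1) : W k) ^ n) = (xW j * xW (j + 1)) ^ n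
      rw [map_zpow, dnf10_c hj]
  exact hle hfix

/-- piece DN-F11: finitely many elements which are not powers of `R` can be moved off a finite set by the
braid group.
Proof. B. H. Neumann: Mathlib.GroupTheory.CosetCover. Let `ρ = FreeGroup.lift wA`. If there is no such `b`,
then the free group is the union of the finitely many sets `{b | ρ b s = f}`, `s ∈ S`, `f ∈ F`; the
nonempty ones are left cosets of the stabilizer of `s`. So for some `s` the stabilizer has finite
index, hence contains a power `(of j)^N`, `N > 0`, for every `j` (`Subgroup.exists_pow_mem_of_index_ne_zero`).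
By `wA_pow_fix` all `α_j` fix `s`, and `wfix` gives a contradiction. -/
theorem exists_move (hk : 1 ≤ k) {S F : Set (W k)} (hS : S.Finite) (hF : F.Finite)
    (h : ∀ s ∈ S, s ∉ Subgroup.zpowers (RW k)) :
    ∃ b : FreeGroup ℕ, ∀ s ∈ S, (FreeGroup.lift (wA : ℕ → MulAut (W k)) b) s ∉ F := by
  classical
  by_contra hc
  push Not at hc
  let ρ : FreeGroup ℕ →* MulAut (W k) := FreeGroup.lift (wA : ℕ → MulAut (W k))
  let H : W k × W k → Subgroup (FreeGroup ℕ) :=
    fun p => (MulAction.stabilizer (MulAut (W k)) p.1).comap ρ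
  have hH : ∀ p b, b ∈ H p ↔ ρ b p.1 = p.1 := fun p b => Iff.rfl
  let g : W k × W k → FreeGroup ℕ :=
    fun p => if hp : ∃ b, ρ b p.1 = p.2 then hp.choose else 1
  let s₀ : Finset (W k × W k) :=
    (hS.toFinset ×ˢ hF.toFinset).filter (fun p => ∃ b, ρ b p.1 = p.2)
  have hcov : open Pointwise in ⋃ p ∈ s₀, (g p) • (H p : Set (FreeGroup ℕ)) = Set.univ := by
    open Pointwise in
    rw [Set.eq_univ_iff_forall]
    intro b
    obtain ⟨s, hs, hf⟩ := hc b
    have hp : ∃ b', ρ b' (s, ρ b s).1 = (s, ρ b s).2 := ⟨b, rfl⟩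
    have hg : ρ (g (s, ρ b s)) s = ρ b s := by
      simp only [g]
      rw [dif_pos hp]
      exact hp.choose_spec
    refine Set.mem_iUnion₂.2 ⟨(s, ρ b s), ?_, ?_⟩
    · rw [Finset.mem_filter, Finset.mem_product, Set.Finite.mem_toFinset,
        Set.Finite.mem_toFinset]
      exact ⟨⟨hs, hf⟩, hp⟩
    · rw [Set.mem_smul_set_iff_inv_smul_mem, smul_eq_mul]
      show (g (s, ρ b s))⁻¹ * b ∈ H (s, ρ b s)
      rw [hH]
      show ρ ((g (s, ρ b s))⁻¹ * b) s = s
      generalize g (s, ρ b s) = y at hg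
      rw [map_mul, map_inv, MulAut.mul_apply, ← hg, MulAut.inv_apply_self]
  obtain ⟨p, hp, hfi⟩ := Subgroup.exists_finiteIndex_of_leftCoset_cover hcov
  have hpS : p.1 ∈ S := by
    have := (Finset.mem_filter.1 hp).1
    rw [Finset.mem_product, Set.Finite.mem_toFinset] at this
    exact this.1
  refine h p.1 hpS (wfix hk fun j hj => ?_)
  obtain ⟨N, hN, -, hmem⟩ := Subgroup.exists_pow_mem_of_index_ne_zero hfi.index_ne_zero
    (FreeGroup.of j)
  rw [hH, map_pow] at hmem
  have h1 : ρ (FreeGroup.of j) = wA j := FreeGroup.lift_apply_of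
  rw [h1] at hmem
  exact wA_pow_fix hj hN hmem

/-- piece DN-F12: the parity -/
def parW (k : ℕ) : W k →* ℤˣ := liftW (fun _ => -1) (fun _ _ => by simp)

/-- the automorphism of the free group which inverts the generators -/
private noncomputable def exists_free_tau (n : ℕ) : MulAut (FreeGroup (Fin n)) :=
  MulEquiv.ofBijective (FreeGroup.lift fun i => (FreeGroup.of i)⁻¹)
    (Function.Involutive.bijective (by
      intro x
      have h : ((FreeGroup.lift fun i : Fin n => (FreeGroup.of i)⁻¹).comp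
          (FreeGroup.lift fun i : Fin n => (FreeGroup.of i)⁻¹)) = MonoidHom.id _ := by
        apply FreeGroup.ext_hom
        intro i
        simp
      exact DFunLike.congr_fun h x))

private lemma exists_free_tau_of (n : ℕ) (i : Fin n) :
    exists_free_tau n (FreeGroup.of i) = (FreeGroup.of i)⁻¹ := by
  show (FreeGroup.lift fun i => (FreeGroup.of i)⁻¹) (FreeGroup.of i) = _
  simp

private lemma exists_free_tau_sq (n : ℕ) : exists_free_tau n * exists_free_tau n = 1 := by
  ext x
  have h : ((exists_free_tau n).toMonoidHom.comp (exists_free_tau n).toMonoidHom) =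
      MonoidHom.id _ := by
    apply FreeGroup.ext_hom
    intro i
    show exists_free_tau n (exists_free_tau n (FreeGroup.of i)) = FreeGroup.of i
    rw [exists_free_tau_of, map_inv, exists_free_tau_of, inv_inv]
  exact DFunLike.congr_fun h x

/-- piece DN-F12: the even subgroup of `W k` is a subgroup of a free group.
Proof. Let `F = FreeGroup (Fin (k+1))` with the automorphism `τ` of order two which inverts the generators
`f_i`; `W k → F ⋊ ⟨τ⟩`, `x_i ↦ f_i τ` is well defined. The reduced word `x_{i_1} x_{i_2} x_{i_3} ⋯` goes to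
`f_{i_1} f_{i_2}⁻¹ f_{i_3} ⋯`, a reduced word, so the homomorphism is injective; on the even
subgroup the second component is trivial. -/
theorem exists_free (k : ℕ) : ∃ f : (parW k).ker →* FreeGroup (Fin (k + 1)),
    Function.Injective f := by
  let φ : ℤˣ →* MulAut (FreeGroup (Fin (k + 1))) :=
    c2hom (exists_free_tau (k + 1)) (exists_free_tau_sq (k + 1))
  have hφ : φ (-1) = exists_free_tau (k + 1) := c2hom_neg _ _
  let X : ℕ → FreeGroup (Fin (k + 1)) ⋊[φ] ℤˣ := fun i =>
    if h : i < k + 1 then ⟨FreeGroup.of ⟨i, h⟩, -1⟩ else 1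
  have hX : ∀ i, i ≤ k → X i * X i = 1 := by
    intro i hi
    have h1 : X i = ⟨FreeGroup.of ⟨i, Nat.lt_succ_of_le hi⟩, -1⟩ := dif_pos _
    rw [h1]
    apply SemidirectProduct.ext
    · rw [SemidirectProduct.mul_left]
      show FreeGroup.of _ * φ (-1) (FreeGroup.of _) = 1
      rw [hφ, exists_free_tau_of, mul_inv_cancel]
    · rw [SemidirectProduct.mul_right]
      show ((-1 : ℤˣ) * (-1) : ℤˣ) = 1
      simp
  let Φ : W k →* FreeGroup (Fin (k + 1)) ⋊[φ] ℤˣ := liftW X hX
  have hΦ : ∀ i (hi : i ≤ k), Φ (xW i) = ⟨FreeGroup.of ⟨i, Nat.lt_succ_of_le hi⟩, -1⟩ := by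
    intro i hi
    show liftW X hX (xW i) = _
    rw [liftW_x X hX hi]
    exact dif_pos _
  have hr : ∀ w, (Φ w).right = parW k w := by
    have h : (SemidirectProduct.rightHom.comp Φ) = parW k := by
      apply homW_ext
      intro i hi
      show SemidirectProduct.rightHom (Φ (xW i)) = parW k (xW i)
      rw [hΦ i hi, parW, liftW_x _ _ hi]
      rfl
    intro w
    exact DFunLike.congr_fun h w
  let Θ : FreeGroup (Fin (k + 1)) ⋊[φ] ℤˣ →* W k :=
    SemidirectProduct.lift (FreeGroup.lift fun i => xW i.val) 1 (by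
      intro g
      rcases Int.units_eq_one_or g with rfl | rfl
      · rw [map_one]
        apply FreeGroup.ext_hom
        intro i
        simp
      · rw [hφ]
        apply FreeGroup.ext_hom
        intro i
        show (FreeGroup.lift fun i : Fin (k + 1) => (xW i.val : W k))
          (exists_free_tau (k + 1) (FreeGroup.of i)) = _
        rw [exists_free_tau_of, map_inv]
        simp)
  have hΘ : ∀ w, Θ (Φ w) = w := by
    have h : Θ.comp Φ = MonoidHom.id _ := by
      apply homW_ext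
      intro i hi
      show Θ (Φ (xW i)) = xW i
      rw [hΦ i hi]
      have h1 : (⟨FreeGroup.of ⟨i, Nat.lt_succ_of_le hi⟩, -1⟩ :
          FreeGroup (Fin (k + 1)) ⋊[φ] ℤˣ) = SemidirectProduct.inl
            (FreeGroup.of ⟨i, Nat.lt_succ_of_le hi⟩) * SemidirectProduct.inr (-1) := by
        ext <;> simp
      rw [h1, map_mul]
      show Θ (SemidirectProduct.inl _) * Θ (SemidirectProduct.inr _) = _
      simp only [Θ, SemidirectProduct.lift_inl, SemidirectProduct.lift_inr, FreeGroup.lift_apply_of,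
        MonoidHom.one_apply, mul_one]
    intro w
    exact DFunLike.congr_fun h w
  refine ⟨⟨⟨fun w => (Φ w).left, by simp⟩, ?_⟩, ?_⟩
  · intro v w
    have hv : (Φ v).right = 1 := by rw [hr]; exact v.2
    show (Φ ((v : W k) * w)).left = (Φ v).left * (Φ w).left
    rw [map_mul, SemidirectProduct.mul_left, hv, map_one]
    rfl
  · intro v w h
    have h' : (Φ v).left = (Φ w).left := h
    have hv : (Φ v).right = 1 := by rw [hr]; exact v.2
    have hw : (Φ w).right = 1 := by rw [hr]; exact w.2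
    have h2 : Φ v = Φ w := by
      apply SemidirectProduct.ext
      · exact h'
      · rw [hv, hw]
    apply Subtype.ext
    rw [← hΘ v, ← hΘ w, h2]

/-- piece DN-F13: centralizers in the even subgroup are cyclic.
Proof. `exists_free`, and in the free group: `comm_trans` (elements `≠ 1`) and `comm_root`, `tau_pow`, `tau_pos`
(FreeLem.lean of BN4). Let `C` be the set of even `h` with `h g = g h`, and let `c ∈ C`, `c ≠ 1`, have minimal
`tau (f c) > 0` (`g` itself is in `C`). For `h ∈ C`: `f h`, `f c` commute (`comm_trans` through `f g`), so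
`f h = r^p`, `f c = r^q`, `q ≠ 0`; divide `p = q t + s`, `0 ≤ s < |q|`: `h c^-t ∈ C` has
`tau = s tau r < |q| tau r = tau (f c)`, so `f (h c^-t) = 1`. -/
theorem cyc_cent {g : W k} (hg : g ≠ 1) (hp : parW k g = 1) :
    ∃ c : W k, parW k c = 1 ∧ c * g = g * c ∧
      ∀ h, parW k h = 1 → h * g = g * h → h ∈ Subgroup.zpowers c := by
  classical
  obtain ⟨f, hf⟩ := exists_free k
  have hone : ∀ x : (parW k).ker, f x = 1 → x = 1 := fun x hx => hf (by rw [hx, map_one])
  have hex : ∃ n : ℕ, ∃ c : (parW k).ker, c.1 * g = g * c.1 ∧ c ≠ 1 ∧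
      Pool.Agent.Helper18.BN4.tau (f c) = n :=
    ⟨_, ⟨g, hp⟩, rfl, fun h => hg (congrArg Subtype.val h), rfl⟩
  obtain ⟨c, hc, hc1, hcn⟩ := Nat.find_spec hex
  have hmin : ∀ d : (parW k).ker, d.1 * g = g * d.1 →
      Pool.Agent.Helper18.BN4.tau (f d) < Pool.Agent.Helper18.BN4.tau (f c) → d = 1 := by
    intro d hd hlt
    by_contra hne
    rw [hcn] at hlt
    exact Nat.find_min hex hlt ⟨d, hd, hne, rfl⟩
  let G : (parW k).ker := ⟨g, hp⟩
  have hG1 : f G ≠ 1 := fun h => hg (congrArg Subtype.val (hone G h))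
  refine ⟨c.1, c.2, hc, ?_⟩
  intro h hh hcomm
  let H : (parW k).ker := ⟨h, hh⟩
  have h1 : f H * f G = f G * f H := by
    rw [← map_mul, ← map_mul]
    congr 1
    exact Subtype.ext hcomm
  have h2 : f G * f c = f c * f G := by
    rw [← map_mul, ← map_mul]
    congr 1
    exact Subtype.ext hc.symm
  obtain ⟨r, p, q, hr, hq⟩ := Pool.Agent.Helper18.BN4.comm_root
    (Pool.Agent.Helper18.BN4.comm_trans hG1 h1 h2)
  have hfc : f c ≠ 1 := fun h => hc1 (hone c h)
  have hr1 : r ≠ 1 := by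
    rintro rfl
    exact hfc (by rw [hq, one_zpow])
  have hq0 : q ≠ 0 := by
    rintro rfl
    exact hfc (by rw [hq, zpow_zero])
  have hpos := Pool.Agent.Helper18.BN4.tau_pos hr1
  have key : H * c ^ (-(p / q)) = 1 := by
    apply hmin
    · have e1 : Commute (c.1 ^ (-(p / q))) g := Commute.zpow_left hc _
      have e2 : Commute h g := hcomm
      exact e2.mul_left e1
    · have e3 : f (H * c ^ (-(p / q))) = r ^ (p % q) := by
        rw [map_mul, map_zpow, hr, hq, ← zpow_mul, ← zpow_add]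
        congr 1
        have := Int.emod_add_mul_ediv p q
        linarith
      rw [e3, hq, Pool.Agent.Helper18.BN4.tau_zpow, Pool.Agent.Helper18.BN4.tau_zpow]
      have e4 := Int.emod_nonneg p hq0
      have e5 := Int.emod_lt_abs p hq0
      rw [Int.abs_eq_natAbs] at e5
      apply Nat.mul_lt_mul_of_pos_right _ hpos
      omega
  have h5 : H = c ^ (p / q) := by
    rw [zpow_neg] at key
    exact mul_inv_eq_one.1 key
  refine ⟨p / q, ?_⟩
  have := congrArg Subtype.val h5
  exact this.symm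

/-- piece DN-F13: even elements have infinite order -/
theorem even_pow {g : W k} (hp : parW k g = 1) {n : ℤ} (hn : n ≠ 0) (h : g ^ n = 1) : g = 1 := by
  obtain ⟨f, hf⟩ := exists_free k
  let G : (parW k).ker := ⟨g, hp⟩
  have h1 : G ^ n = 1 := Subtype.ext h
  have h2 : (f G) ^ n = 1 := by rw [← map_zpow, h1, map_one]
  have h3 : f G = 1 := by
    apply zpow_left_injective hn
    simpa using h2
  have h4 : G = 1 := hf (by rw [h3, map_one])
  exact congrArg Subtype.val h4

/-- piece DN-F13: `α_j` preserves the parity (`homW_ext`) -/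
theorem parW_wA {j : ℕ} (w : W k) : parW k (wA j w) = parW k w := by
  rcases Nat.lt_or_ge j k with hj | hj
  · have h : (parW k).comp (wA j).toMonoidHom = parW k := by
      apply homW_ext
      intro i hi
      have e : ∀ i, i ≤ k → parW k (xW i) = -1 := fun i hi => liftW_x _ _ hi
      show parW k (wA j (xW i)) = parW k (xW i)
      rw [wA_x hj hi, e i hi]
      unfold wC
      split_ifs
      · rw [map_mul, map_mul, e _ (by omega), e _ (by omega)]; simp
      · exact e _ (by omega)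
      · exact e _ hi
    exact DFunLike.congr_fun h w
  · unfold wA
    rw [dif_neg (by omega)]
    rfl

end

end Pool.Agent.Helper20.DN
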