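import Pool.Agent.Helper20.DN.FR
import Pool.Agent.Helper20.DN.WF
import Pool.Agent.Helper7.DN.Sup2
import Pool.Agent.Helper7.DN.Sup4

/-!
# Project DN, block SUP (captain helper7): support arguments in `L k` (interface)
-/

namespace Pool.Agent.Helper20.DN

open Pool.Agent.Helper38.BN

variable {k : ℕ}

/-- block SUP (L1): the center of `L k` is trivial -/
theorem centerL (hk : 2 ≤ k) {x : L k} (h : ∀ y, x * y = y * x) : x = 1 :=
  Pool.Agent.Helper7.DN.centerL' hk h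

/-- block SUP (L2): the centralizer of a power of `r` -/
theorem cent_rL (hk : 2 ≤ k) {x : L k} {n : ℤ} (hn : n ≠ 0) (h : x * rL k ^ n = rL k ^ n * x) :
    x ∈ Subgroup.zpowers (rL k) := Pool.Agent.Helper7.DN.cent_rL' hk hn h

/-- block SUP: `r` has infinite order -/
theorem rL_pow (hk : 2 ≤ k) {n : ℤ} (h : rL k ^ n = 1) : n = 0 :=
  Pool.Agent.Helper7.DN.rL_pow' hk h

/-- block SUP (L3): the centralizer of `x_k x_{k-1}` in `K k` -/
theorem cent_xx (hk : 2 ≤ k) {x : L k} (hx : x ∈ K k)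
    (h : x * (xL k * xL (k - 1)) = xL k * xL (k - 1) * x) : x = 1 :=
  Pool.Agent.Helper7.DN.cent_xx' hk hx h

/-- the subgroup generated by the elements `R^i y R^-i` -/
def KR (k : ℕ) : Subgroup (L k) := Subgroup.closure (Set.range fun i : ℤ => muL (RW k ^ i))

/-- block SUP (L4): the elements of `K k` which are fixed by the braid group -/
theorem fixBrK (hk : 2 ≤ k) {x : L k} (hx : x ∈ K k) (h : ∀ j, j < k → aL j x = x) : x ∈ KR k :=
  Pool.Agent.Helper7.DN.fixBrL hk hx h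

/-- block SUP (L4): the elements of `L k` which are fixed by the braid group are the elements
`κ r^i`, `κ ∈ KR k` -/
theorem fixBr (hk : 2 ≤ k) {x : L k} (h : ∀ j, j < k → aL j x = x) :
    ∃ κ ∈ KR k, ∃ i : ℤ, x = rL k ^ i * κ := Pool.Agent.Helper7.DN.fixBr' hk h

/-- block SUP (L5): `e` fixes no nontrivial element of `KR k` -/
theorem e_fix (hk : 2 ≤ k) {x : L k} (hx : x ∈ KR k) (h : eL k x = x) : x = 1 :=
  Pool.Agent.Helper7.DN.e_fix' hk hx h

/-- block SUP (Z): THE MAIN LEMMA -/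
theorem lemZ (hk : 3 ≤ k) {κ : L k} (hκ : κ ∈ K k) {j : ℤ} (hj : j ≠ 0)
    (h : ∀ N : ℕ, ∃ l : L k, l * (κ * rL k ^ j) * l⁻¹ =
      (((eL k)⁻¹ * aL 0) ^ N : MulAut (L k)) (κ * rL k ^ j)) :
    ∃ c ∈ K k, κ * rL k ^ j = c * rL k ^ j * c⁻¹ := Pool.Agent.Helper7.DN.lemZ' hk hκ hj h

end Pool.Agent.Helper20.DN
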