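import Pool.Agent.Helper20.DN.Main
import Pool.Agent.Helper38.DN.S2F

/-!
# Project DN: the assembly
-/

namespace Pool.Agent.Helper20.DN

open Pool.Agent.Helper38.BN

section
variable {p : ℕ}

private lemma piH_aD {j : ℕ} (hj : j < p + 3) : piH (p + 3) (aH j) = Equiv.swap j (j + 1) :=
  liftH_a _ hj

/-- the permutation of the strands by the fold -/
theorem piH_foldG (x : D p) : piH (p + 3) (foldG p (iD x)) = Pool.Agent.Helper38.DN.piD p x := by
  have h : ((piH (p + 3)).comp (foldG p)).comp iD = Pool.Agent.Helper38.DN.piD p := by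
    have hj : ∀ j, j < p + 3 → piH (p + 3) (foldG p (iD (aD j))) =
        Pool.Agent.Helper38.DN.piD p (aD j) := by
      intro j hj
      rw [foldG_a hj, Pool.Agent.Helper38.DN.piD_a hj, piH_aD hj]
    apply homD_ext
    · intro j h1
      exact hj j h1
    · show piH (p + 3) (foldG p (iD bD)) = Pool.Agent.Helper38.DN.piD p bD
      rw [foldG_b, Pool.Agent.Helper38.DN.piD_b, piH_aD (by omega)]
    · show piH (p + 3) (foldG p (iD eD)) = Pool.Agent.Helper38.DN.piD p eD
      rw [foldG_e, Pool.Agent.Helper38.DN.piD_e, piH_aD (by omega)]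
  exact DFunLike.congr_fun h x

/-- the condition on the permutations holds for all automorphisms -/
theorem piC_of (h1 : ∀ φ : MulAut (D p), ∃ s : D p, ∀ x,
    Pool.Agent.Helper38.DN.piD p (φ x) = Pool.Agent.Helper38.DN.piD p (s * x * s⁻¹))
    (φ : MulAut (D p)) : PiC φ := by
  obtain ⟨s, hs⟩ := h1 φ
  refine ⟨Pool.Agent.Helper38.DN.piD p s, fun x => ?_⟩
  rw [piH_foldG, piH_foldG, hs, map_mul, map_mul, map_inv]

theorem final_of (hp : 1 ≤ p) (hB : BrInner p) (h1 : ∀ φ : MulAut (D p), ∃ s : D p, ∀ x,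
    Pool.Agent.Helper38.DN.piD p (φ x) = Pool.Agent.Helper38.DN.piD p (s * x * s⁻¹)) :
    Stmt (Dt (p + 4)) :=
  stmt_of hp (aut_D hB (solv hp) (fun φ => (Pool.Agent.Helper38.DN.step23 hp h1 φ).imp id And.symm) (piC_of h1))

end

end Pool.Agent.Helper20.DN
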