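import Pool.Agent.Helper20.DN.Sym
import Pool.Agent.Helper20.DN.IntSup
import Pool.Agent.Helper38.BN.IntG
import Pool.Agent.Helper38.BN.IntH

/-!
# Project DN: the structure of `Γ = Dh p`

`k = p + 3`, and `m = p + 1` in the conventions of project BN.  `QA : A (p+1) → Γ` is onto the subgroup
generated by `D p` and `tL`, `d ↦ tL`; `QAh : Ah (p+1) → Γ` is onto, `th ↦ tR`.  `lam : L k → Γ` comes from
`QAh ∘ xGh`, and `ActD : Γ → MulAut (L k)` is the action; `lam (ActD x l) = x lam l x⁻¹` and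
`ActD (lam l) = conj l`.  `HD` is the subgroup generated by the `a_j` and `tL`, `BrD` the one generated by
the `a_j`.  `ze = lam r` is `ζ`, `lam' = σ ∘ lam`.
-/

namespace Pool.Agent.Helper20.DN

open Pool.Agent.Helper38.BN

section
variable {p : ℕ}

/-- piece DN-G1: the relations of type `B̃` in `Γ`: `relA_of_relD` with `(relD p).map iD`, `t = tL`:
`tL_sq`, `e_eq`, and `tL_conj` with `tLa_b`, `tLa_a` -/
theorem relA_Gam (p : ℕ) : RelA (p + 1) (fun j => (iD (aD j) : Dh p)) (iD bD) tL := by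
  refine relA_of_relD (e := iD eD) ((relD p).map iD) tL_sq ?_ ?_ ?_
  · exact e_eq.symm
  · rw [tL_conj, tLa_b]
  · intro j h0 hj
    change (iD (aD j) : Dh p) * tL = tL * iD (aD j)
    rw [tL_conj, tLa_a h0 hj]

end

/-- the homomorphism `A (p+1) → Γ` -/
def QA (p : ℕ) : A (p + 1) →* Dh p := liftA (relA_Gam p)

section
variable {p : ℕ}

lemma QA_a {j : ℕ} (hj : j < p + 3) : QA p (aA j) = iD (aD j) := liftA_a _ hj
@[simp] lemma QA_b : QA p bA = iD bD := liftA_b _
@[simp] lemma QA_d : QA p dA = tL := liftA_d _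

/-- piece DN-G1: the extension to `Ah (p+1)`.
Proof. `SemidirectProduct.lift (QA p) (c2hom tR tR_sq)`; `QA (tau x) = tR * QA x * tR` by `homA_ext`
(`tauHom_a`, `tauHom_a'`, `tR_conj`, `tRa_a`, ..., and `tR` commutes with `tL`). -/
theorem exists_QAh (p : ℕ) : ∃ f : Ah (p + 1) →* Dh p, (∀ x, f (iA x) = QA p x) ∧ f th = tR := by
  have htr : (tR : Dh p)⁻¹ = tR := inv_eq_of_mul_eq_one_left tR_sq
  have hc : ∀ x : D p, (tR : Dh p) * iD x * tR⁻¹ = iD (tRa p x) := fun x => by
    rw [tR_conj, mul_inv_cancel_right]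
  have key : (QA p).comp (tau (p + 1)).toMonoidHom =
      (MulAut.conj (tR : Dh p)).toMonoidHom.comp (QA p) := by
    apply homA_ext
    · intro j hj
      change QA p (tauHom (p + 1) (aA j)) = tR * QA p (aA j) * tR⁻¹
      rw [QA_a (by omega), hc]
      rcases Nat.lt_or_ge j (p + 2) with h | h
      · rw [tauHom_a (by omega), QA_a (by omega), tRa_a h]
      · have e : j = p + 2 := by omega
        subst e
        rw [tRa_a', show tauHom (p + 1) (aA (p + 2)) = bA from tauHom_a', QA_b]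
    · change QA p (tauHom (p + 1) bA) = tR * QA p bA * tR⁻¹
      rw [QA_b, hc, tRa_b, show tauHom (p + 1) bA = aA (p + 2) from tauHom_b, QA_a (by omega)]
    · change QA p (tauHom (p + 1) dA) = tR * QA p dA * tR⁻¹
      rw [tauHom_d, QA_d, ← tL_tR, mul_inv_cancel_right]
  refine ⟨SemidirectProduct.lift (QA p) (c2hom tR tR_sq) ?_, fun x => ?_, ?_⟩
  · intro g
    rcases Int.units_eq_one_or g with rfl | rfl
    · rw [map_one, map_one, map_one]
      rfl
    · rw [tauAct_neg, c2hom_neg]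
      exact key
  · exact SemidirectProduct.lift_inl _ _ _ x
  · exact (SemidirectProduct.lift_inr _ _ _ _).trans (c2hom_neg _ _)

end

/-- the homomorphism `Ah (p+1) → Γ` -/
noncomputable def QAh (p : ℕ) : Ah (p + 1) →* Dh p := Classical.choose (exists_QAh p)

/-- the homomorphism `G (p+3) → Γ` -/
noncomputable def Phi (p : ℕ) : G (p + 3) →* Dh p := (QAh p).comp (xGh (p + 1))

section
variable {p : ℕ}

@[simp] lemma QAh_iA (x : A (p + 1)) : QAh p (iA x) = QA p x :=
  (Classical.choose_spec (exists_QAh p)).1 x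
@[simp] lemma QAh_th : QAh p th = tR := (Classical.choose_spec (exists_QAh p)).2

/-- piece DN-G2: from `xGh_equiv`, `actAh_iA` and `liftA_a` -/
theorem Phi_gA {j : ℕ} (hj : j < p + 3) (g : G (p + 3)) :
    Phi p (gA j g) = iD (aD j) * Phi p g * (iD (aD j))⁻¹ := by
  have h := xGh_equiv (m := p + 1) (iA (aA j)) g
  have e : actA (p + 1) (aA j) = gA j := liftA_a (gB_rel (p + 1)) hj
  rw [actAh_iA, e] at h
  have h2 := congrArg (QAh p) h
  rw [map_mul, map_mul, map_inv, QAh_iA, QA_a hj] at h2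
  exact h2.symm

/-- piece DN-G2: the same with `dA` -/
theorem Phi_gD (g : G (p + 3)) : Phi p (gD g) = tL * Phi p g * tL⁻¹ := by
  have h := xGh_equiv (m := p + 1) (iA dA) g
  have e : actA (p + 1) dA = gD := liftA_d (gB_rel (p + 1))
  rw [actAh_iA, e] at h
  have h2 := congrArg (QAh p) h
  rw [map_mul, map_mul, map_inv, QAh_iA, QA_d] at h2
  exact h2.symm

/-- piece DN-G2: `Φ (c_0) = 1`: `gD (gD y) = (y x_0 y x_0) y (y x_0 y x_0)⁻¹` in `G` and `tL² = 1`, so `Φ y`
commutes with `Φ (y x_0 y x_0)`, hence with `Φ (x_0 y x_0)` -/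
theorem Phi_c0 : Phi p (cG 0) = 1 := by
  have h1 : Phi p (gD (gD yG)) = Phi p yG := by
    rw [Phi_gD, Phi_gD]
    have ht : (tL : Dh p)⁻¹ = tL := inv_eq_of_mul_eq_one_left tL_sq
    calc tL * (tL * Phi p yG * tL⁻¹) * tL⁻¹ = (tL * tL) * Phi p yG * (tL⁻¹ * tL⁻¹) := by
          simp only [mul_assoc]
      _ = Phi p yG := by rw [ht, tL_sq, one_mul, mul_one]
  have hs : (xG 0 : G (p + 3)) * xG 0 = 1 := xG_sq 0
  have hi : (xG 0 : G (p + 3))⁻¹ = xG 0 := inv_eq_of_mul_eq_one_left hs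
  have h2 : (gD (gD yG) : G (p + 3)) = (yG * yT 0) * yG * (yG * yT 0)⁻¹ := by
    have hx : (gD (xG 0) : G (p + 3)) = yG * xG 0 * yG⁻¹ := by
      rw [gD_x (Nat.zero_le _)]
      unfold gDC
      rw [if_pos rfl]
    have hyx : (gD (yG * xG 0) : G (p + 3)) = yG * xG 0 := by
      rw [map_mul, gD_y, hx]
      calc yG * xG 0 * yG * xG 0 * yG⁻¹ * (yG * xG 0 * yG⁻¹)
          = yG * xG 0 * yG * (xG 0 * xG 0) * (yG : G (p + 3))⁻¹ := by group
        _ = yG * xG 0 := by rw [hs]; group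
    have e1 : (gD (gD yG) : G (p + 3)) = gD (yG * xG 0) * gD (yG * xG 0) * (gD yG)⁻¹ := by
      conv_lhs => rw [gD_y]
      simp only [map_mul, map_inv, mul_assoc]
    rw [e1, hyx, gD_y]
    unfold yT
    simp only [mul_inv_rev, inv_inv, hi, mul_assoc]
  rw [h2, map_mul, map_mul, map_inv, map_mul] at h1
  unfold cG
  rw [map_mul, map_mul, map_mul, map_inv, map_inv]
  have h3 : Phi p (yT 0) * Phi p yG * (Phi p (yT 0))⁻¹ = Phi p yG := by
    have h4 : Phi p yG * (Phi p (yT 0) * Phi p yG * (Phi p (yT 0))⁻¹) * (Phi p yG)⁻¹ =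
        Phi p yG := by
      rw [mul_inv_rev] at h1
      simp only [mul_assoc] at h1 ⊢
      exact h1
    calc Phi p (yT 0) * Phi p yG * (Phi p (yT 0))⁻¹
        = (Phi p yG)⁻¹ * (Phi p yG * (Phi p (yT 0) * Phi p yG * (Phi p (yT 0))⁻¹) *
          (Phi p yG)⁻¹) * Phi p yG := by group
      _ = Phi p yG := by rw [h4]; group
  have h5 : Phi p (yT 0) * Phi p yG = Phi p yG * Phi p (yT 0) := by
    calc Phi p (yT 0) * Phi p yG
        = Phi p (yT 0) * Phi p yG * (Phi p (yT 0))⁻¹ * Phi p (yT 0) := by group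
      _ = Phi p yG * Phi p (yT 0) := by rw [h3]
  rw [← h5]
  group

/-- piece DN-G2: all `Φ (c_j) = 1`: `c_j = gA j (c_{j+1})` (`gA_c_succ`), `Phi_gA`; `j ≤ p + 3` -/
theorem Phi_c {j : ℕ} (hj : j ≤ p + 3) : Phi p (cG j) = 1 := by
  induction j with
  | zero => exact Phi_c0
  | succ j ih =>
    have h1 : Phi p (cG j) = 1 := ih (by omega)
    rw [← gA_c_succ (show j < p + 3 by omega), Phi_gA (show j < p + 3 by omega)] at h1
    calc Phi p (cG (j + 1))
        = (iD (aD j))⁻¹ * (iD (aD j) * Phi p (cG (j + 1)) * (iD (aD j))⁻¹) * iD (aD j) := by group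
      _ = 1 := by rw [h1]; group

/-- piece DN-G2: for every `j ≤ p + 3` there is `t` with `Φ (T j g) = t Φ(g) t⁻¹` for all `g`.
Proof. `j = 0`: `t = tL`; `T 0` and `gD` agree on the `x_i` (`gDC`, `xT`), and
`Φ (T 0 y) = Φ (x_0 y x_0) = Φ (gD y)` by `Phi_c0` (`homG_ext`). Step: `T (j+1) g = α_j⁻¹ (T j (α_j g))`
(`gA_T_succ`), so `t' = a_j⁻¹ t a_j`. -/
theorem exists_Phi_T {j : ℕ} (hj : j ≤ p + 3) : ∃ t : Dh p, ∀ g, Phi p (T j g) = t * Phi p g * t⁻¹ := by
  induction j with
  | zero =>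
    refine ⟨tL, fun g => ?_⟩
    have h : (Phi p).comp (T 0) = (Phi p).comp (gD : MulAut (G (p + 3))).toMonoidHom := by
      refine homG_ext (fun i hi => ?_) ?_
      · show Phi p (T 0 (xG i)) = Phi p (gD (xG i))
        have h0 : (xT 0 i : G (p + 3)) = gDC i := by
          unfold xT gDC
          rw [if_neg (Nat.not_lt_zero i)]
        rw [T_x 0 hi, gD_x hi, h0]
      · show Phi p (T 0 yG) = Phi p (gD yG)
        have h0 : Phi p (cG 0) = 1 := Phi_c0
        unfold cG at h0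
        have h1 : (gD yG : G (p + 3)) = yG * yT 0 * yG⁻¹ * (yT 0)⁻¹ * yT 0 := by
          rw [gD_y]; unfold yT; group
        rw [T_y, h1, map_mul, h0, one_mul]
    have h2 : Phi p (T 0 g) = Phi p (gD g) := DFunLike.congr_fun h g
    rw [h2, Phi_gD]
  | succ j ih =>
    obtain ⟨t, ht⟩ := ih (by omega)
    have hj' : j < p + 3 := by omega
    refine ⟨(iD (aD j))⁻¹ * t * iD (aD j), fun g => ?_⟩
    have h1 : Phi p (gA j (T (j + 1) g)) = Phi p (T j (gA j g)) := by rw [gA_T_succ hj']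
    rw [Phi_gA hj', ht, Phi_gA hj'] at h1
    have h2 : Phi p (T (j + 1) g) = (iD (aD j))⁻¹ * (iD (aD j) * Phi p (T (j + 1) g) *
        (iD (aD j))⁻¹) * iD (aD j) := by group
    rw [h2, h1]
    group

/-- piece DN-G2: `Φ` kills `ML`: the relators `Fr v (cG j)` by induction on `v` (`exists_Phi_T`) -/
theorem Phi_ML {g : G (p + 3)} (hg : g ∈ ML (p + 3)) : Phi p g = 1 := by
  have key : ∀ v : List ℕ, (∀ i ∈ v, i ≤ p + 3) →
      ∃ t : Dh p, ∀ g, Phi p (Fr v g) = t * Phi p g * t⁻¹ := by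
    intro v
    induction v with
    | nil =>
      intro _
      refine ⟨1, fun g => ?_⟩
      show Phi p g = _
      rw [one_mul, inv_one, mul_one]
    | cons j v ih =>
      intro hv
      obtain ⟨t, ht⟩ := ih (fun i hi => hv i (List.mem_cons_of_mem _ hi))
      obtain ⟨t', ht'⟩ := exists_Phi_T (p := p) (hv j List.mem_cons_self)
      refine ⟨t * t', fun g => ?_⟩
      show Phi p (Fr v (T j g)) = _
      rw [ht, ht']
      group
  have h1 : ML (p + 3) ≤ (Phi p).ker := by
    unfold ML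
    refine Subgroup.normalClosure_le_normal ?_
    rintro _ ⟨v, j, hv, rfl⟩
    show Fr v (cG j) ∈ (Phi p).ker
    obtain ⟨t, ht⟩ := key v (fun i hi => hv i (List.mem_cons_of_mem _ hi))
    rw [MonoidHom.mem_ker, ht, Phi_c (hv j List.mem_cons_self), mul_one, mul_inv_cancel]
  exact MonoidHom.mem_ker.1 (h1 hg)

end

/-- the homomorphism `λ : L k → Γ` -/
noncomputable def lam (p : ℕ) : L (p + 3) →* Dh p :=
  QuotientGroup.lift (ML (p + 3)) (Phi p) (fun _ hg => Phi_ML hg)

/-- the element `ζ` of `Γ` -/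
def ze (p : ℕ) : Dh p := QA p (zeA (p + 1))

/-- the element `Ω` of `Γ` -/
def OmD (p : ℕ) : Dh p := Om (p + 3) (fun j => iD (aD j))

/-- the homomorphism `HB k → Γ` -/
def jH (p : ℕ) : HB (p + 3) →* Dh p := (QA p).comp (inc (p + 1))

/-- the subgroup `HD` of `Γ` -/
def HD (p : ℕ) : Subgroup (Dh p) := (jH p).range

/-- the braid subgroup of `Γ` -/
def BrD (p : ℕ) : Subgroup (Dh p) := Subgroup.closure ((fun j => iD (aD j)) '' {j | j < p + 3})

/-- the homomorphism `λ' = σ ∘ λ` -/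
noncomputable def lam' (p : ℕ) : L (p + 3) →* Dh p := (sgh p).toMonoidHom.comp (lam p)

section
variable {p : ℕ}

lemma lam_mk (g : G (p + 3)) : lam p (mkL (p + 3) g) = Phi p g := rfl

lemma lam'_apply (l : L (p + 3)) : lam' p l = sgh p (lam p l) := rfl

private lemma g3_x {i : ℕ} (hi : i ≤ p + 3) : lam p (xL i) = QAh p (xh i) := by
  change QAh p (xGh (p + 1) (xG i)) = _
  unfold xGh
  rw [liftG_x _ _ _ hi]

/-- piece DN-G3: `λ x_k = tR` (`xh_last`) -/
theorem lam_x : lam p (xL (p + 3)) = tR := by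
  rw [g3_x le_rfl]
  have h := xh_last (m := p + 1)
  rw [show p + 3 = p + 1 + 2 from rfl, h, QAh_th]
/-- piece DN-G3: `λ x_j = a_j (λ x_{j+1}) a_j⁻¹` (`xh_step`) -/
theorem lam_x_step {j : ℕ} (hj : j < p + 3) :
    lam p (xL j) = iD (aD j) * lam p (xL (j + 1)) * (iD (aD j))⁻¹ := by
  rw [g3_x (by omega), g3_x (by omega), xh_step (m := p + 1) (by omega), map_mul, map_mul, map_inv,
    QAh_iA, QA_a hj]
/-- piece DN-G3: `λ r = ζ` (`xGh_r`) -/
theorem lam_r : lam p (rL (p + 3)) = ze p := by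
  have h : lam p (rL (p + 3)) = QAh p (xGh (p + 1) (rG (p + 1 + 2))) := rfl
  rw [h, xGh_r, QAh_iA]
  rfl
/-- piece DN-G3: `ζ = (tL a_0 ⋯ a_{k-1})^(k+1)` (`map_zeta`) -/
theorem ze_eq_zeta : ze p = zeta (p + 3) (fun j => iD (aD j)) tL := by
  unfold ze zeA
  rw [map_zeta, QA_d]
  exact zeta_congr (fun j hj => QA_a hj) tL
/-- piece DN-G3: `v_0 = b a_{k-1}⁻¹ = λ (x_k x_{k-1})` (`xGh_u`) -/
theorem lam_v0 : lam p (xL (p + 3) * xL (p + 2)) = iD (bD * (aD (p + 2))⁻¹) := by
  change QAh p (xGh (p + 1) (xG (p + 1 + 2) * xG (p + 1 + 1))) = _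
  rw [xGh_u, QAh_iA]
  unfold uA
  rw [map_mul, map_inv, QA_b, QA_a (by omega), map_mul, map_inv]

private lemma g4_conj {k : ℕ} {f : MulAut (L k)} {l : L k} (h : f l = l) :
    f * MulAut.conj l = MulAut.conj l * f := by
  refine MulEquiv.ext fun x => ?_
  rw [MulAut.mul_apply, MulAut.mul_apply, MulAut.conj_apply, MulAut.conj_apply, map_mul, map_mul,
    map_inv, h]

private lemma g4_Xsq (k : ℕ) : (MulAut.conj (xL k) : MulAut (L k)) * MulAut.conj (xL k) = 1 := by
  rw [← map_mul]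
  have h : (xL k : L k) * xL k = 1 := by
    unfold xL
    rw [← map_mul, xG_sq, map_one]
  rw [h, map_one]

private lemma g4_aX {k j : ℕ} (hj : j + 1 < k) :
    (aL j : MulAut (L k)) * MulAut.conj (xL k) = MulAut.conj (xL k) * aL j := by
  refine g4_conj ?_
  unfold xL
  rw [aL_mk (by omega), gA_x (by omega) le_rfl, gC, if_neg (by omega), if_neg (by omega)]

private lemma g4_tX {k : ℕ} (hk : 0 < k) :
    tL0 k * MulAut.conj (xL k) = MulAut.conj (xL k) * tL0 k := g4_conj (tL0_x hk)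

/-- piece DN-G4: the action of `Γ` on `L k`.
Proof. On `D p`: `liftD (relD_of_relA (relA_L (p+1)) tL0_sq)`; on the Klein four group:
`(s, t) ↦ c2hom tL0 s * c2hom (conj x_k) t` (they commute: `tL0` fixes `x_k`, `tL0_x`);
`SemidirectProduct.lift`, the compatibility for `(-1, 1)` and `(1, -1)` by `homD_ext`:
`tL0 * aL 0 * tL0 = eL`, `tL0` commutes with `aL j`, `j ≥ 1` (`relB_L`), and with
`conj x_k * aL (k-1) * conj x_k`; `conj x_k` commutes with `aL j`, `j ≤ k - 2` (`aL_sW`: `α_j` fixes `x_k`)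
and with `eL` (`eL_x`). -/
theorem exists_ActD (p : ℕ) : ∃ f : Dh p →* MulAut (L (p + 3)),
    (∀ j, j < p + 3 → f (iD (aD j)) = aL j) ∧ f tL = tL0 (p + 3) ∧
    f tR = MulAut.conj (xL (p + 3)) := by
  have hA := relA_L (p + 1)
  have ht : tL0 (p + 3) * tL0 (p + 3) = 1 := tL0_sq
  have hX : (MulAut.conj (xL (p + 3)) : MulAut (L (p + 3))) * MulAut.conj (xL (p + 3)) = 1 :=
    g4_Xsq (p + 3)
  have htX : tL0 (p + 3) * MulAut.conj (xL (p + 3)) =
      MulAut.conj (xL (p + 3)) * tL0 (p + 3) := g4_tX (by omega)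
  have haX : ∀ j, j < p + 2 → (aL j : MulAut (L (p + 3))) * MulAut.conj (xL (p + 3)) =
      MulAut.conj (xL (p + 3)) * aL j := fun j hj => g4_aX (by omega)
  have hB := relB_L (p + 3)
  change RelA (p + 1) (aL : ℕ → MulAut (L (p + 3)))
    (MulAut.conj (xL (p + 3)) * aL (p + 2) * MulAut.conj (xL (p + 3))) (tL0 (p + 3)) at hA
  generalize tL0 (p + 3) = t at *
  generalize (MulAut.conj (xL (p + 3)) : MulAut (L (p + 3))) = X at *
  have hR := relD_of_relA hA ht
  let F : D p →* MulAut (L (p + 3)) := liftD hR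
  have Fa : ∀ j, j < p + 3 → F (aD j) = aL j := fun j hj => liftD_a hR hj
  have Fb : F bD = X * aL (p + 2) * X := liftD_b hR
  have Fe : F eD = t * aL 0 * t := liftD_e hR
  have hti : t⁻¹ = t := inv_eq_of_mul_eq_one_left ht
  have hXi : X⁻¹ = X := inv_eq_of_mul_eq_one_left hX
  let c : ℤˣ × ℤˣ →* MulAut (L (p + 3)) :=
    MonoidHom.noncommCoprod (c2hom t ht) (c2hom X hX) (fun s u => by
      rcases Int.units_eq_one_or s with rfl | rfl
      · rw [map_one]; exact Commute.one_left _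
      · rcases Int.units_eq_one_or u with rfl | rfl
        · rw [map_one]; exact Commute.one_right _
        · rw [c2hom_neg, c2hom_neg]; exact htX)
  have cL : c (-1, 1) = t := by
    change c2hom t ht (-1) * c2hom X hX 1 = t
    rw [map_one, c2hom_neg, mul_one]
  have cR : c (1, -1) = X := by
    change c2hom t ht 1 * c2hom X hX (-1) = X
    rw [map_one, c2hom_neg, one_mul]
  have kL : ∀ x, F (kAct p (-1, 1) x) = c (-1, 1) * F x * (c (-1, 1))⁻¹ := by
    have h : F.comp (kAct p (-1, 1)).toMonoidHom =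
        (MulAut.conj (c (-1, 1))).toMonoidHom.comp F := by
      rw [cL, kAct_L]
      apply homD_ext
      · intro j hj
        change F (tLa p (aD j)) = t * F (aD j) * t⁻¹
        rw [hti, Fa j hj]
        rcases Nat.eq_zero_or_pos j with rfl | h0
        · rw [tLa_a0, Fe]
        · rw [tLa_a h0 hj, Fa j hj, ← hA.dcomm j (by omega) (by omega), mul_assoc, ht, mul_one]
      · change F (tLa p bD) = t * F bD * t⁻¹
        rw [hti, tLa_b, Fb, ← hA.bd, mul_assoc _ t t, ht, mul_one]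
      · change F (tLa p eD) = t * F eD * t⁻¹
        rw [hti, tLa_e, Fe, Fa 0 (by omega)]
        calc (aL 0 : MulAut (L (p + 3))) = (t * t) * aL 0 * (t * t) := by
              rw [ht, one_mul, mul_one]
          _ = t * (t * aL 0 * t) * t := by simp only [mul_assoc]
    exact fun x => DFunLike.congr_fun h x
  have kR : ∀ x, F (kAct p (1, -1) x) = c (1, -1) * F x * (c (1, -1))⁻¹ := by
    have h : F.comp (kAct p (1, -1)).toMonoidHom =
        (MulAut.conj (c (1, -1))).toMonoidHom.comp F := by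
      rw [cR, kAct_R]
      apply homD_ext
      · intro j hj
        change F (tRa p (aD j)) = X * F (aD j) * X⁻¹
        rw [hXi, Fa j hj]
        rcases Nat.lt_or_ge j (p + 2) with h0 | h0
        · rw [tRa_a h0, Fa j hj, ← haX j h0, mul_assoc, hX, mul_one]
        · have e : j = p + 2 := by omega
          subst e
          rw [tRa_a', Fb]
      · change F (tRa p bD) = X * F bD * X⁻¹
        rw [hXi, tRa_b, Fb, Fa (p + 2) (by omega)]
        calc (aL (p + 2) : MulAut (L (p + 3))) = (X * X) * aL (p + 2) * (X * X) := by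
              rw [hX, one_mul, mul_one]
          _ = X * (X * aL (p + 2) * X) * X := by simp only [mul_assoc]
      · change F (tRa p eD) = X * F eD * X⁻¹
        rw [hXi, tRa_e, Fe]
        have h0 := haX 0 (by omega)
        calc t * aL 0 * t = t * aL 0 * t * (X * X) := by rw [hX, mul_one]
          _ = t * aL 0 * (t * X) * X := by simp only [mul_assoc]
          _ = t * (aL 0 * X) * t * X := by rw [htX]; simp only [mul_assoc]
          _ = (t * X) * aL 0 * t * X := by rw [h0]; simp only [mul_assoc]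
          _ = X * (t * aL 0 * t) * X := by rw [htX]; simp only [mul_assoc]
    exact fun x => DFunLike.congr_fun h x
  have key : ∀ g x, F (kAct p g x) = c g * F x * (c g)⁻¹ := by
    rintro ⟨s, u⟩ x
    have e : ((s, u) : ℤˣ × ℤˣ) = (s, 1) * (1, u) := by simp
    have h1 : ∀ y, F (kAct p (s, 1) y) = c (s, 1) * F y * (c (s, 1))⁻¹ := by
      intro y
      rcases Int.units_eq_one_or s with rfl | rfl
      · change F (kAct p 1 y) = c 1 * F y * (c 1)⁻¹
        rw [map_one, map_one, MulAut.one_apply, one_mul, inv_one, mul_one]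
      · exact kL y
    have h2 : ∀ y, F (kAct p (1, u) y) = c (1, u) * F y * (c (1, u))⁻¹ := by
      intro y
      rcases Int.units_eq_one_or u with rfl | rfl
      · change F (kAct p 1 y) = c 1 * F y * (c 1)⁻¹
        rw [map_one, map_one, MulAut.one_apply, one_mul, inv_one, mul_one]
      · exact kR y
    rw [e, map_mul, map_mul, MulAut.mul_apply, h1, h2, mul_inv_rev]
    simp only [mul_assoc]
  refine ⟨SemidirectProduct.lift F c (fun g => MonoidHom.ext fun x => ?_), fun j hj => ?_, ?_, ?_⟩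
  · exact key g x
  · exact (SemidirectProduct.lift_inl _ _ _ _).trans (Fa j hj)
  · exact (SemidirectProduct.lift_inr _ _ _ _).trans cL
  · exact (SemidirectProduct.lift_inr _ _ _ _).trans cR

end

/-- the action of `Γ` on `L k` -/
noncomputable def ActD (p : ℕ) : Dh p →* MulAut (L (p + 3)) := Classical.choose (exists_ActD p)

section
variable {p : ℕ}

lemma ActD_a {j : ℕ} (hj : j < p + 3) : ActD p (iD (aD j)) = aL j :=
  (Classical.choose_spec (exists_ActD p)).1 j hj
@[simp] lemma ActD_tL : ActD p tL = tL0 (p + 3) := (Classical.choose_spec (exists_ActD p)).2.1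
@[simp] lemma ActD_tR : ActD p tR = MulAut.conj (xL (p + 3)) :=
  (Classical.choose_spec (exists_ActD p)).2.2
lemma ActD_e : ActD p (iD eD) = eL (p + 3) := by
  rw [e_eq, map_mul, map_mul, ActD_tL, ActD_a (by omega)]; rfl

/-- piece DN-G5: `λ` is equivariant.
Proof. For fixed `x` in the generating set of `closure_Dh` both sides are homomorphisms in `l`;
`l = mkL g`: `Phi_gA` (`aL_mk`), `Phi_gD` (`tL0_mk`), and `tR = λ x_k` (`lam_x`). Closure induction. -/
theorem lam_equiv (x : Dh p) (l : L (p + 3)) : x * lam p l * x⁻¹ = lam p (ActD p x l) := by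
  have hx : x ∈ Subgroup.closure
      ({tL, tR} ∪ (fun j => iD (aD j)) '' {j | j < p + 3} : Set (Dh p)) := by
    rw [closure_Dh]; exact Subgroup.mem_top x
  induction hx using Subgroup.closure_induction generalizing l with
  | mem x h =>
    obtain ⟨g, rfl⟩ := mkL_surj (p + 3) l
    rcases h with h | ⟨j, hj, rfl⟩
    · rcases h with rfl | h
      · rw [ActD_tL, tL0_mk, lam_mk, lam_mk, Phi_gD]
      · rw [Set.mem_singleton_iff] at h
        subst h
        rw [ActD_tR, MulAut.conj_apply, map_mul, map_mul, map_inv, lam_x]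
    · have hj' : j < p + 3 := hj
      change iD (aD j) * lam p (mkL (p + 3) g) * (iD (aD j))⁻¹ =
        lam p (ActD p (iD (aD j)) (mkL (p + 3) g))
      rw [ActD_a hj', aL_mk hj', lam_mk, lam_mk, Phi_gA hj']
  | one => rw [map_one, MulAut.one_apply, one_mul, inv_one, mul_one]
  | mul x y _ _ hx hy =>
    rw [map_mul, MulAut.mul_apply, ← hx, ← hy, mul_inv_rev]
    simp only [mul_assoc]
  | inv x _ hx =>
    have h := hx ((ActD p x)⁻¹ l)
    rw [MulAut.apply_inv_self] at h
    rw [map_inv, ← h]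
    group

private lemma g5_kap {k : ℕ} (j : ℕ) (hj : j ≤ k) (g : G k) :
    kap (aL : ℕ → MulAut (L k)) j (mkL k g) = mkL k (kap (gA : ℕ → MulAut (G k)) j g) := by
  induction j generalizing g with
  | zero => rfl
  | succ j ih =>
    change kap (aL : ℕ → MulAut (L k)) j (aL j (mkL k g)) =
      mkL k (kap (gA : ℕ → MulAut (G k)) j (gA j g))
    rw [aL_mk (by omega), ih (by omega)]

private lemma g5_pow {k : ℕ} {f : MulAut (L k)} {f' : MulAut (G k)}
    (h : ∀ g, f (mkL k g) = mkL k (f' g)) (n : ℕ) (g : G k) :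
    (f ^ n) (mkL k g) = mkL k ((f' ^ n) g) := by
  induction n generalizing g with
  | zero => rfl
  | succ n ih =>
    rw [pow_succ, pow_succ, MulAut.mul_apply, MulAut.mul_apply, h, ih]

private lemma g5_zeta (k : ℕ) : zeta k (aL : ℕ → MulAut (L k)) (tL0 k) = MulAut.conj (rL k) := by
  refine MulEquiv.ext fun x => ?_
  obtain ⟨g, rfl⟩ := mkL_surj k x
  have h1 : ∀ g : G k, rho k (aL : ℕ → MulAut (L k)) (tL0 k) (mkL k g) =
      mkL k (rho k (gA : ℕ → MulAut (G k)) gD g) := by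
    intro g
    change tL0 k (kap (aL : ℕ → MulAut (L k)) k (mkL k g)) =
      mkL k (gD (kap (gA : ℕ → MulAut (G k)) k g))
    rw [g5_kap k le_rfl, tL0_mk]
  have h2 : zeta k (aL : ℕ → MulAut (L k)) (tL0 k) (mkL k g) =
      mkL k (zeta k (gA : ℕ → MulAut (G k)) gD g) := g5_pow h1 (k + 1) g
  rw [h2, zeta_G, MulAut.conj_apply, MulAut.conj_apply, map_mul, map_mul, map_inv]
  rfl

private lemma g5_conj {H : Type*} [Group H] (f : MulAut H) (l : H) :
    f * MulAut.conj l * f⁻¹ = MulAut.conj (f l) := by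
  refine MulEquiv.ext fun x => ?_
  rw [MulAut.mul_apply, MulAut.mul_apply, MulAut.conj_apply, MulAut.conj_apply, map_mul, map_mul,
    map_inv, MulAut.apply_inv_self]

private lemma g5_x (p t : ℕ) (ht : t ≤ p + 3) :
    ActD p (lam p (xL (p + 3 - t))) = MulAut.conj (xL (p + 3 - t)) := by
  induction t with
  | zero => rw [Nat.sub_zero, lam_x, ActD_tR]
  | succ t ih =>
    have h1 : p + 3 - t = p + 3 - (t + 1) + 1 := by omega
    have h2 := ih (by omega)
    rw [h1] at h2
    rw [lam_x_step (by omega), map_mul, map_mul, map_inv, h2, ActD_a (by omega), g5_conj]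
    congr 1
    unfold xL
    rw [aL_mk (by omega), gA_x (by omega) (by omega), gC, if_neg (by omega), if_pos rfl]

/-- piece DN-G5: `ActD (λ l) = conj l`.
Proof. `homL_ext`: `x_j` by downward induction on `j` (`lam_x`, `lam_x_step`, `ActD_a`,
`f * conj l * f⁻¹ = conj (f l)`, `aL j (x_{j+1}) = x_j`); `y`: `r = y R` and `ActD (λ r) = ActD ζ`, which is
`conj r`: `ze_eq_zeta`, `map_zeta`, and on `mkL g` it is `zeta_G` of BN. -/
theorem ActD_lam (l : L (p + 3)) : ActD p (lam p l) = MulAut.conj l := by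
  have hx : ∀ i, i ≤ p + 3 → ActD p (lam p (xL i)) = MulAut.conj (xL i) := by
    intro i hi
    have h1 := g5_x p (p + 3 - i) (by omega)
    have h2 : p + 3 - (p + 3 - i) = i := by omega
    rwa [h2] at h1
  have hw : ∀ w : W (p + 3), ActD p (lam p (sW (p + 3) w)) = MulAut.conj (sW (p + 3) w) := by
    intro w
    have h : ((ActD p).comp (lam p)).comp (sW (p + 3)) = MulAut.conj.comp (sW (p + 3)) := by
      apply homW_ext
      intro i hi
      change ActD p (lam p (sW (p + 3) (xW i))) = MulAut.conj (sW (p + 3) (xW i))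
      rw [sW_x hi, hx i hi]
    exact DFunLike.congr_fun h w
  have hr : ActD p (lam p (rL (p + 3))) = MulAut.conj (rL (p + 3)) := by
    rw [lam_r, ze_eq_zeta, map_zeta, ActD_tL,
      zeta_congr (a' := (aL : ℕ → MulAut (L (p + 3)))) (fun j hj => ActD_a hj), g5_zeta]
  have hy : ActD p (lam p yL) = MulAut.conj (yL : L (p + 3)) := by
    have h1 := hr
    rw [rL_eq, map_mul, map_mul, map_mul] at h1
    have h2 : ActD p (lam p (RL (p + 3))) = MulAut.conj (RL (p + 3)) := hw (RW (p + 3))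
    rw [h2] at h1
    exact mul_right_cancel h1
  have h : (ActD p).comp (lam p) = MulAut.conj := homL_ext hx hy
  exact DFunLike.congr_fun h l

/-- piece DN-G5: `λ` is injective: `ActD_lam` and `centerL` -/
theorem lam_inj : Function.Injective (lam p) := by
  rw [injective_iff_map_eq_one]
  intro l hl
  have h1 := ActD_lam l
  rw [hl, map_one] at h1
  refine centerL (by omega) fun y => ?_
  have h2 : MulAut.conj l y = y := by rw [← h1]; rfl
  rw [MulAut.conj_apply] at h2
  exact mul_inv_eq_iff_eq_mul.1 h2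

lemma lam'_inj : Function.Injective (lam' p) := (sgh p).injective.comp lam_inj

private lemma g5_K (x : Dh p) (l : L (p + 3)) : ActD p x l ∈ K (p + 3) ↔ l ∈ K (p + 3) := by
  have hx : x ∈ Subgroup.closure
      ({tL, tR} ∪ (fun j => iD (aD j)) '' {j | j < p + 3} : Set (Dh p)) := by
    rw [closure_Dh]; exact Subgroup.mem_top x
  induction hx using Subgroup.closure_induction generalizing l with
  | mem x h =>
    rw [mem_K, mem_K]
    rcases h with h | ⟨j, hj, rfl⟩
    · rcases h with rfl | h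
      · rw [ActD_tL, toW_tL0]
      · rw [Set.mem_singleton_iff] at h
        subst h
        rw [ActD_tR, MulAut.conj_apply, map_mul, map_mul, map_inv, mul_inv_eq_one,
          mul_eq_left]
    · have hj' : j < p + 3 := hj
      change toW (p + 3) (ActD p (iD (aD j)) l) = 1 ↔ toW (p + 3) l = 1
      rw [ActD_a hj', toW_aL hj', EmbeddingLike.map_eq_one_iff]
  | one => rw [map_one, MulAut.one_apply]
  | mul x y _ _ hx hy =>
    rw [map_mul, MulAut.mul_apply]
    exact (hx _).trans (hy _)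
  | inv x _ hx =>
    have h := hx ((ActD p x)⁻¹ l)
    rw [MulAut.apply_inv_self] at h
    rw [map_inv]
    exact h.symm

/-- piece DN-G5: the action of `Γ` on `L k` preserves `K k` -/
theorem ActD_K (x : Dh p) {l : L (p + 3)} (hl : l ∈ K (p + 3)) : ActD p x l ∈ K (p + 3) :=
  (g5_K x l).2 hl

/-! ### the subgroups `HD` and `BrD` -/

/-- piece DN-G6 -/
theorem jH_a {j : ℕ} (hj : j < p + 3) : jH p (aH j) = iD (aD j) := by
  have h1 : inc (p + 1) (aH j) = aA j := liftH_a _ hj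
  change QA p (inc (p + 1) (aH j)) = _
  rw [h1, QA_a hj]
/-- piece DN-G6 -/
theorem jH_d : jH p dH = tL := by
  have h1 : inc (p + 1) dH = dA := liftH_d _
  change QA p (inc (p + 1) dH) = _
  rw [h1, QA_d]
/-- piece DN-G6: `HD` is generated by `tL` and the `a_j` (`closure_H`) -/
theorem HD_eq : HD p = Subgroup.closure ({tL} ∪ (fun j => iD (aD j)) '' {j | j < p + 3}) := by
  have h0 : HD p = (⊤ : Subgroup (HB (p + 3))).map (jH p) := MonoidHom.range_eq_map _
  rw [h0, ← closure_H, MonoidHom.map_closure]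
  congr 1
  ext x
  constructor
  · rintro ⟨y, hy | ⟨j, hj, rfl⟩, rfl⟩
    · rw [Set.mem_singleton_iff] at hy
      subst hy
      exact Or.inl jH_d
    · exact Or.inr ⟨j, hj, (jH_a hj).symm⟩
  · rintro (hx | ⟨j, hj, rfl⟩)
    · rw [Set.mem_singleton_iff] at hx
      subst hx
      exact ⟨dH, Or.inl rfl, jH_d⟩
    · exact ⟨aH j, Or.inr ⟨j, hj, rfl⟩, jH_a hj⟩
/-- piece DN-G6: `BrD` is the image of `BrH` -/
theorem BrD_eq : BrD p = (BrH (p + 3)).map (jH p) := by
  unfold BrH BrD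
  rw [MonoidHom.map_closure]
  congr 1
  ext x
  constructor
  · rintro ⟨j, hj, rfl⟩
    exact ⟨aH j, ⟨j, hj, rfl⟩, jH_a hj⟩
  · rintro ⟨y, ⟨j, hj, rfl⟩, rfl⟩
    exact ⟨j, hj, (jH_a hj).symm⟩
/-- piece DN-G6 -/
theorem BrD_le_HD : BrD p ≤ HD p := by
  rw [BrD_eq, HD, MonoidHom.range_eq_map]
  exact Subgroup.map_mono le_top
/-- piece DN-G6: `ζ` commutes with `HD` (`zeta_comm_a`, `zeta_comm_d` for `(relA_Gam p).toRelB`) -/
theorem ze_comm {h : Dh p} (hh : h ∈ HD p) : h * ze p = ze p * h := by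
  have key : HD p ≤ Subgroup.centralizer {ze p} := by
    rw [HD_eq, Subgroup.closure_le]
    rintro x (hx | ⟨j, hj, rfl⟩)
    · rw [Set.mem_singleton_iff.mp hx]
      show tL ∈ Subgroup.centralizer {ze p}
      rw [Subgroup.mem_centralizer_singleton_iff, ze_eq_zeta]
      exact (zeta_comm_d (relA_Gam p).toRelB).symm
    · show (iD (aD j) : Dh p) ∈ Subgroup.centralizer {ze p}
      rw [Subgroup.mem_centralizer_singleton_iff, ze_eq_zeta]
      exact (zeta_comm_a (relA_Gam p).toRelB hj).symm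
  exact Subgroup.mem_centralizer_singleton_iff.mp (key hh)
/-- piece DN-G6: `HD` fixes `r` -/
theorem ActD_HD_r {h : Dh p} (hh : h ∈ HD p) : ActD p h (rL (p + 3)) = rL (p + 3) := by
  have key : HD p ≤
      (MulAction.stabilizer (MulAut (L (p + 3))) (rL (p + 3))).comap (ActD p) := by
    rw [HD_eq, Subgroup.closure_le]
    rintro x (hx | ⟨j, hj, rfl⟩)
    · rw [Set.mem_singleton_iff.mp hx]
      show ActD p tL (rL (p + 3)) = rL (p + 3)
      rw [ActD_tL, tL0_r]
    · show ActD p (iD (aD j)) (rL (p + 3)) = rL (p + 3)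
      rw [ActD_a hj, aL_r]
  exact key hh
/-- piece DN-G6: `Ω` commutes with the `a_j`: from `ζ` with `d = 1`, or directly by `kap_shift` as
`zeta_comm_a` -/
theorem OmD_comm {b : Dh p} (hb : b ∈ BrD p) : b * OmD p = OmD p * b := by
  have hB : RelB (p + 3) (fun j => (iD (aD j) : Dh p)) 1 :=
    ⟨(relA_Gam p).toRelB.toRelBr, fun i _ _ => by rw [mul_one, one_mul], fun _ => by
      simp only [mul_one, one_mul]⟩
  have hz : zeta (p + 3) (fun j => (iD (aD j) : Dh p)) 1 = OmD p := by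
    unfold zeta rho OmD Om
    rw [one_mul]
  have key : BrD p ≤ Subgroup.centralizer {OmD p} := by
    unfold BrD
    rw [Subgroup.closure_le]
    rintro x ⟨j, hj, rfl⟩
    show (iD (aD j) : Dh p) ∈ Subgroup.centralizer {OmD p}
    rw [Subgroup.mem_centralizer_singleton_iff, ← hz]
    exact (zeta_comm_a hB hj).symm
  exact Subgroup.mem_centralizer_singleton_iff.mp (key hb)
/-- piece DN-G6 -/
theorem OmD_mem : OmD p ∈ BrD p := by
  have h : ∀ n, n ≤ p + 3 → kap (fun j => (iD (aD j) : Dh p)) n ∈ BrD p := by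
    intro n
    induction n with
    | zero => intro _; exact Subgroup.one_mem _
    | succ n ih =>
      intro hn
      exact Subgroup.mul_mem _ (ih (by omega)) (Subgroup.subset_closure ⟨n, by
        show n < p + 3
        omega, rfl⟩)
  exact Subgroup.pow_mem _ (h (p + 3) le_rfl) _

/-- piece DN-G7: every element of `Γ` is `λ(l) h`, `h ∈ HD`.
Proof. The set of these products is a subgroup (`lam_equiv`) and contains `tL`, `a_j ∈ HD`, `tR = λ x_k`;
`closure_Dh`. -/
theorem Dh_decomp (x : Dh p) : ∃ (l : L (p + 3)), ∃ h ∈ HD p, x = lam p l * h := by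
  have hx : x ∈ Subgroup.closure
      ({tL, tR} ∪ (fun j => iD (aD j)) '' {j | j < p + 3} : Set (Dh p)) := by
    rw [closure_Dh]; exact Subgroup.mem_top x
  induction hx using Subgroup.closure_induction with
  | mem x hx =>
    rcases hx with (rfl | rfl) | ⟨j, hj, rfl⟩
    · refine ⟨1, tL, ?_, by simp⟩
      rw [HD_eq]
      exact Subgroup.subset_closure (Or.inl rfl)
    · exact ⟨xL (p + 3), 1, one_mem _, by rw [lam_x, mul_one]⟩
    · refine ⟨1, iD (aD j), ?_, by simp⟩
      rw [HD_eq]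
      exact Subgroup.subset_closure (Or.inr ⟨j, hj, rfl⟩)
  | one => exact ⟨1, 1, one_mem _, by simp⟩
  | mul x y _ _ ihx ihy =>
    obtain ⟨l, h, hh, rfl⟩ := ihx
    obtain ⟨l', h', hh', rfl⟩ := ihy
    refine ⟨l * ActD p h l', h * h', mul_mem hh hh', ?_⟩
    rw [map_mul, ← lam_equiv]
    group
  | inv x _ ih =>
    obtain ⟨l, h, hh, rfl⟩ := ih
    refine ⟨ActD p h⁻¹ l⁻¹, h⁻¹, inv_mem hh, ?_⟩
    rw [← lam_equiv, map_inv]
    group

private lemma ze_mem_aux : ze p ∈ HD p := by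
  have hL : (tL : Dh p) ∈ HD p := by
    rw [HD_eq]
    exact Subgroup.subset_closure (Or.inl rfl)
  have hk : ∀ j, j ≤ p + 3 → kap (fun j => (iD (aD j) : Dh p)) j ∈ HD p := by
    intro j
    induction j with
    | zero => intro _; exact one_mem _
    | succ j ih =>
      intro hj
      refine mul_mem (ih (by omega)) ?_
      rw [HD_eq]
      exact Subgroup.subset_closure (Or.inr ⟨j, hj, rfl⟩)
  rw [ze_eq_zeta]
  exact pow_mem (mul_mem hL (hk _ le_rfl)) _

/-- piece DN-G7: the centralizer of a power of `ζ`.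
Proof. `x = λ(l) h`; `h` commutes with `ζ`, so `λ(l)` commutes with `ζ^n = λ(r^n)`, `l` with `r^n`
(`lam_inj`), `l = r^i` (`cent_rL`), `λ(l) = ζ^i ∈ HD`. -/
theorem cent_ze {x : Dh p} {n : ℤ} (hn : n ≠ 0) (h : x * ze p ^ n = ze p ^ n * x) : x ∈ HD p := by
  obtain ⟨l, g, hg, rfl⟩ := Dh_decomp x
  have hc : g * ze p ^ n = ze p ^ n * g := (show Commute g (ze p) from ze_comm hg).zpow_right n
  have h1 : lam p l * ze p ^ n = ze p ^ n * lam p l := by
    have h2 : lam p l * ze p ^ n * g = ze p ^ n * lam p l * g := by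
      rw [mul_assoc, ← hc, ← mul_assoc, h, mul_assoc]
    exact mul_right_cancel h2
  have h3 : l * rL (p + 3) ^ n = rL (p + 3) ^ n * l := by
    apply lam_inj
    rw [map_mul, map_mul, map_zpow, lam_r, h1]
  obtain ⟨i, hi⟩ := cent_rL (by omega) hn h3
  have h4 : lam p l = ze p ^ i := by
    rw [← lam_r, ← map_zpow]
    exact congrArg (lam p) hi.symm
  rw [h4]
  exact mul_mem (zpow_mem ze_mem_aux i) hg

/-- piece DN-G7: `ζ ∈ HD` and `λ(L) ∩ HD = ⟨ζ⟩` -/
theorem ze_mem : ze p ∈ HD p := by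
  refine ⟨zeH (p + 3), ?_⟩
  change QA p (inc (p + 1) (zeH (p + 1 + 2))) = ze p
  rw [inc_zeta]
  rfl
/-- piece DN-G7 -/
theorem lam_HD {l : L (p + 3)} (h : lam p l ∈ HD p) : l ∈ Subgroup.zpowers (rL (p + 3)) := by
  have h1 := ze_comm h
  rw [← lam_r, ← map_mul, ← map_mul] at h1
  have h2 := lam_inj h1
  refine cent_rL (by omega) (n := 1) one_ne_zero ?_
  rw [zpow_one]
  exact h2

/-- piece DN-G7: the powers of `ζ` -/
theorem ze_pow {n : ℤ} (h : ze p ^ n = 1) : n = 0 := by
  rw [← lam_r, ← map_zpow] at h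
  have h1 : rL (p + 3) ^ n = 1 := lam_inj (by rw [h, map_one])
  have h2 := congrArg (toW (p + 3)) h1
  rw [map_zpow, toW_r, map_one] at h2
  exact RW_pow (by omega) h2

/-! ### the fold `Γ → HB k` -/

private theorem g8_rel (p : ℕ) :
    RelD p (aH : ℕ → HB (p + 3)) (aH (p + 2)) (aH 0) where
  toRelBr := (relH (p + 3)).toRelBr
  ba := rfl
  bb := ((relH (p + 3)).braid (p + 1) (by omega)).symm
  bc i hi := ((relH (p + 3)).comm i (p + 2) (by omega) (by omega)).symm
  ea := rfl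
  eb := (relH (p + 3)).braid 0 (by omega)
  ec i h1 h2 := (relH (p + 3)).comm 0 i (by omega) h2
  be := ((relH (p + 3)).comm 0 (p + 2) (by omega) (by omega)).symm

/-- piece DN-G8: the fold `a_j ↦ a_j`, `e ↦ a_0`, `b ↦ a_{k-1}`, `tL, tR ↦ 1`.
Proof. On `D p` by `liftD`, the relations are clear from `relH`; `SemidirectProduct.lift _ 1`,
compatibility by `homD_ext`. -/
theorem exists_fold (p : ℕ) : ∃ f : Dh p →* HB (p + 3), (∀ j, j < p + 3 → f (iD (aD j)) = aH j) ∧
    f (iD eD) = aH 0 ∧ f (iD bD) = aH (p + 2) ∧ f tL = 1 ∧ f tR = 1 := by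
  have hR := g8_rel p
  obtain ⟨f, hf⟩ : ∃ f : D p →* HB (p + 3), f = liftD hR := ⟨_, rfl⟩
  have fa : ∀ j, j < p + 3 → f (aD j) = aH j := fun j hj => by rw [hf]; exact liftD_a hR hj
  have fb : f bD = aH (p + 2) := by rw [hf]; exact liftD_b hR
  have fe : f eD = aH 0 := by rw [hf]; exact liftD_e hR
  have hL : ∀ x, f (kAct p (-1, 1) x) = f x := by
    intro x
    rw [kAct_L]
    have h : f.comp (tLa p).toMonoidHom = f := by
      apply homD_ext
      · intro j hj
        change f (tLa p (aD j)) = f (aD j)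
        rcases Nat.eq_zero_or_pos j with rfl | h0
        · rw [tLa_a0, fe, fa 0 hj]
        · rw [tLa_a h0 hj]
      · change f (tLa p bD) = f bD
        rw [tLa_b]
      · change f (tLa p eD) = f eD
        rw [tLa_e, fe, fa 0 (by omega)]
    exact DFunLike.congr_fun h x
  have hr : ∀ x, f (kAct p (1, -1) x) = f x := by
    intro x
    rw [kAct_R]
    have h : f.comp (tRa p).toMonoidHom = f := by
      apply homD_ext
      · intro j hj
        change f (tRa p (aD j)) = f (aD j)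
        by_cases h0 : j = p + 2
        · subst h0
          rw [tRa_a', fb, fa _ hj]
        · rw [tRa_a (by omega)]
      · change f (tRa p bD) = f bD
        rw [tRa_b, fb, fa _ (by omega)]
      · change f (tRa p eD) = f eD
        rw [tRa_e]
    exact DFunLike.congr_fun h x
  have hk : ∀ (g : ℤˣ × ℤˣ) (x : D p), f (kAct p g x) = f x := by
    rintro ⟨u, v⟩ x
    rcases Int.units_eq_one_or u with rfl | rfl <;> rcases Int.units_eq_one_or v with rfl | rfl
    · have h1 : kAct p (1, 1) = 1 := map_one _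
      rw [h1]
      rfl
    · exact hr x
    · exact hL x
    · have h1 : kAct p (-1, -1) = kAct p (-1, 1) * kAct p (1, -1) := by
        rw [← map_mul]
        rfl
      rw [h1, MulAut.mul_apply, hL, hr]
  refine ⟨SemidirectProduct.lift f 1 (fun g => ?_), fun j hj => ?_, ?_, ?_, ?_, ?_⟩
  · refine MonoidHom.ext fun x => ?_
    change f (kAct p g x) = 1 * f x * 1⁻¹
    rw [hk, one_mul, inv_one, mul_one]
  · rw [SemidirectProduct.lift_inl, fa j hj]
  · rw [SemidirectProduct.lift_inl, fe]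
  · rw [SemidirectProduct.lift_inl, fb]
  · unfold tL
    rw [SemidirectProduct.lift_inr, MonoidHom.one_apply]
  · unfold tR
    rw [SemidirectProduct.lift_inr, MonoidHom.one_apply]

end

/-- the fold `Γ → HB k` -/
noncomputable def foldG (p : ℕ) : Dh p →* HB (p + 3) := Classical.choose (exists_fold p)

section
variable {p : ℕ}

lemma foldG_a {j : ℕ} (hj : j < p + 3) : foldG p (iD (aD j)) = aH j :=
  (Classical.choose_spec (exists_fold p)).1 j hj
@[simp] lemma foldG_e : foldG p (iD eD) = aH 0 := (Classical.choose_spec (exists_fold p)).2.1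
@[simp] lemma foldG_b : foldG p (iD bD) = aH (p + 2) := (Classical.choose_spec (exists_fold p)).2.2.1
@[simp] lemma foldG_tL : foldG p tL = 1 := (Classical.choose_spec (exists_fold p)).2.2.2.1
@[simp] lemma foldG_tR : foldG p tR = 1 := (Classical.choose_spec (exists_fold p)).2.2.2.2

/-- piece DN-G8 -/
theorem foldG_mem (x : Dh p) : foldG p x ∈ BrH (p + 3) := by
  have h : Subgroup.closure ({tL, tR} ∪ (fun j => iD (aD j)) '' {j | j < p + 3} : Set (Dh p)) ≤
      (BrH (p + 3)).comap (foldG p) := by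
    rw [Subgroup.closure_le]
    rintro y ((rfl | hy) | ⟨j, hj, rfl⟩)
    · change foldG p tL ∈ BrH (p + 3)
      rw [foldG_tL]
      exact one_mem _
    · rw [Set.mem_singleton_iff] at hy
      subst hy
      change foldG p tR ∈ BrH (p + 3)
      rw [foldG_tR]
      exact one_mem _
    · change foldG p (iD (aD j)) ∈ BrH (p + 3)
      rw [foldG_a hj]
      exact Subgroup.subset_closure ⟨j, hj, rfl⟩
  rw [closure_Dh] at h
  exact h (Subgroup.mem_top x)
/-- piece DN-G8: the fold is the identity on `BrH` (closure induction) -/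
theorem fold_jH {b : HB (p + 3)} (hb : b ∈ BrH (p + 3)) : foldG p (jH p b) = b := by
  have h : Set.EqOn ((foldG p).comp (jH p)) (MonoidHom.id (HB (p + 3)))
      (aH '' {j | j < p + 3}) := by
    rintro _ ⟨j, hj, rfl⟩
    change foldG p (jH p (aH j)) = aH j
    rw [jH_a hj, foldG_a hj]
  exact MonoidHom.eqOn_closure h hb
/-- piece DN-G8 -/
theorem jH_fold {b : Dh p} (hb : b ∈ BrD p) : jH p (foldG p b) = b := by
  have h : Set.EqOn ((jH p).comp (foldG p)) (MonoidHom.id (Dh p))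
      ((fun j => iD (aD j)) '' {j | j < p + 3}) := by
    rintro _ ⟨j, hj, rfl⟩
    change jH p (foldG p (iD (aD j))) = iD (aD j)
    rw [foldG_a hj, jH_a hj]
  exact MonoidHom.eqOn_closure h hb
private lemma foldG_kap (p j : ℕ) (hj : j ≤ p + 3) :
    foldG p (kap (fun j => (iD (aD j) : Dh p)) j) = kap aH j := by
  induction j with
  | zero => exact map_one _
  | succ j ih =>
    change foldG p (kap (fun j => (iD (aD j) : Dh p)) j * iD (aD j)) = kap aH j * aH j
    rw [map_mul, ih (by omega), foldG_a (by omega)]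

private lemma foldG_lam_x (p t : ℕ) (ht : t ≤ p + 3) : foldG p (lam p (xL (p + 3 - t))) = 1 := by
  induction t with
  | zero => rw [Nat.sub_zero, lam_x, foldG_tR]
  | succ t ih =>
    have h1 : p + 3 - t = p + 3 - (t + 1) + 1 := by omega
    have h2 := ih (by omega)
    rw [h1] at h2
    rw [lam_x_step (by omega), map_mul, map_mul, h2, mul_one, map_inv, mul_inv_cancel]

/-- piece DN-G8: `λ(x_i) ↦ 1` and `ζ ↦ Ω`, so `λ(L) ↦ ⟨Ω⟩` -/
theorem fold_ze : foldG p (ze p) = Om (p + 3) aH := by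
  rw [ze_eq_zeta]
  unfold zeta rho Om
  rw [map_pow, map_mul, foldG_tL, one_mul, foldG_kap p (p + 3) le_rfl]
/-- piece DN-G8 -/
theorem fold_sW (w : W (p + 3)) : foldG p (lam p (sW (p + 3) w)) = 1 := by
  have h : ((foldG p).comp (lam p)).comp (sW (p + 3)) = 1 := by
    apply homW_ext
    intro i hi
    show foldG p (lam p (sW (p + 3) (xW i))) = 1
    rw [sW_x hi]
    have h1 := foldG_lam_x p (p + 3 - i) (by omega)
    have h2 : p + 3 - (p + 3 - i) = i := by omega
    rwa [h2] at h1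
  exact DFunLike.congr_fun h w
/-- piece DN-G8 -/
theorem fold_lam (l : L (p + 3)) :
    foldG p (lam p l) ∈ Subgroup.zpowers (Om (p + 3) aH : HB (p + 3)) := by
  have hy : foldG p (lam p yL) = Om (p + 3) aH := by
    have h1 : lam p (rL (p + 3)) = ze p := lam_r
    rw [rL_eq, map_mul] at h1
    have h2 : foldG p (lam p yL) * foldG p (lam p (RL (p + 3))) = Om (p + 3) aH := by
      rw [← map_mul, h1, fold_ze]
    have h3 : foldG p (lam p (RL (p + 3))) = 1 := fold_sW (RW (p + 3))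
    rwa [h3, mul_one] at h2
  obtain ⟨g, rfl⟩ := mkL_surj (p + 3) l
  let ψ : G (p + 3) →* Subgroup.zpowers (Om (p + 3) aH : HB (p + 3)) :=
    liftG (fun _ => 1) (fun _ _ => one_mul 1) ⟨Om (p + 3) aH, Subgroup.mem_zpowers _⟩
  have h : (Subgroup.subtype _).comp ψ = ((foldG p).comp (lam p)).comp (mkL (p + 3)) := by
    apply homG_ext
    · intro i hi
      show ((ψ (xG i) : Subgroup.zpowers (Om (p + 3) aH : HB (p + 3))) : HB (p + 3)) =
        foldG p (lam p (xL i))
      have h1 := foldG_lam_x p (p + 3 - i) (by omega)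
      have h2 : p + 3 - (p + 3 - i) = i := by omega
      rw [h2] at h1
      rw [h1, liftG_x _ _ _ hi]
      rfl
    · show ((ψ yG : Subgroup.zpowers (Om (p + 3) aH : HB (p + 3))) : HB (p + 3)) =
        foldG p (lam p yL)
      rw [hy, liftG_y]
  have h4 : foldG p (lam p (mkL (p + 3) g)) = (ψ g : HB (p + 3)) :=
    (DFunLike.congr_fun h g).symm
  rw [h4]
  exact (ψ g).2

/-! ### the second embedding `λ'` -/

/-- piece DN-G9: `a_j λ'(l) a_j⁻¹ = λ'(α_{k-1-j} l)` (`lam_equiv`, `sgh_iD`, `sg_a`, `ActD_a`) -/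
theorem lam'_a {j : ℕ} (hj : j < p + 3) (l : L (p + 3)) :
    iD (aD j) * lam' p l * (iD (aD j))⁻¹ = lam' p (aL (p + 2 - j) l) := by
  have h1 := lam_equiv (iD (aD (p + 2 - j)) : Dh p) l
  rw [ActD_a (by omega)] at h1
  have h2 := congrArg (sgh p) h1
  rw [map_mul, map_mul, map_inv, sgh_iD, sg_a (by omega),
    show p + 2 - (p + 2 - j) = j by omega] at h2
  rw [lam'_apply, lam'_apply]
  exact h2
/-- piece DN-G9 -/
theorem lam'_x : lam' p (xL (p + 3)) = tL := by
  rw [lam'_apply, lam_x, sgh_tR]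
/-- piece DN-G9: `u_0 = e a_0⁻¹ = λ'(x_k x_{k-1})` (apply `sgh` to `lam_v0`) -/
theorem lam'_u0 : lam' p (xL (p + 3) * xL (p + 2)) = iD (eD * (aD 0)⁻¹) := by
  rw [lam'_apply, lam_v0, sgh_iD, map_mul, map_inv, sg_b, sg_a (by omega),
    show p + 2 - (p + 2) = 0 by omega]
/-- piece DN-G9: `BrD` is invariant under the reflection -/
theorem sgh_BrD {b : Dh p} (hb : b ∈ BrD p) : sgh p b ∈ BrD p := by
  have h : BrD p ≤ (BrD p).comap (sgh p).toMonoidHom := by
    conv_lhs => rw [BrD]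
    rw [Subgroup.closure_le]
    rintro x ⟨j, hj, rfl⟩
    have hj' : j < p + 3 := hj
    change sgh p (iD (aD j)) ∈ BrD p
    rw [sgh_iD, sg_a hj']
    exact Subgroup.subset_closure ⟨p + 2 - j, (by omega : p + 2 - j < p + 3), rfl⟩
  exact h hb

private lemma krev_conj_front {H : Type*} [Group H] (a : ℕ → H) : ∀ n : ℕ,
    kap a (n + 1) = a 0 * kap (fun j => a (j + 1)) n
  | 0 => by simp [kap]
  | n + 1 => by rw [kap, krev_conj_front a n, kap, mul_assoc]

private lemma krev_conj_rev {H : Type*} [Group H] (a : ℕ → H) : ∀ n : ℕ,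
    kap (fun j => a (n - 1 - j)) n = krev a n
  | 0 => rfl
  | n + 1 => by
    rw [krev_conj_front, krev, ← krev_conj_rev a n]
    have h : (fun j => a (n + 1 - 1 - (j + 1))) = fun j => a (n - 1 - j) :=
      funext fun j => congrArg a (by omega)
    rw [h]
    rfl

private lemma krev_conj_kap_comm {H : Type*} [Group H] {x : H} (a : ℕ → H) : ∀ n : ℕ,
    (∀ j, j < n → Commute x (a j)) → Commute x (kap a n)
  | 0, _ => Commute.one_right x
  | n + 1, h =>
    (krev_conj_kap_comm a n fun j hj => h j (by omega)).mul_right (h n (by omega))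

private lemma krev_conj_krev_comm {H : Type*} [Group H] {x : H} (a : ℕ → H) : ∀ n : ℕ,
    (∀ j, j < n → Commute x (a j)) → Commute x (krev a n)
  | 0, _ => Commute.one_right x
  | n + 1, h =>
    (h n (by omega)).mul_right (krev_conj_krev_comm a n fun j hj => h j (by omega))

private lemma krev_conj_mem {H : Type*} [Group H] (S : Subgroup H) (a : ℕ → H) : ∀ n : ℕ,
    (∀ j, j < n → a j ∈ S) → kap a n ∈ S
  | 0, _ => S.one_mem
  | n + 1, h => S.mul_mem (krev_conj_mem S a n fun j hj => h j (by omega)) (h n (by omega))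

/-- piece DN-G10: the reversed product is conjugate to the product.
Proof. `w_i = (a_i ⋯ a_{k-1}) (a_{i-1} ⋯ a_0)`; `w_0 = kap a k`, and `w_i` is conjugate to `w_{i-1}`: conjugate
with `U = a_i ⋯ a_{k-1}`: `a_{i-1} V U = a_{i-1} U V` where `V = a_{i-2} ⋯ a_0` commutes with `U`. -/
theorem krev_conj {H : Type*} [Group H] {k : ℕ} {a : ℕ → H} (h : RelBr k a) :
    ∃ g ∈ Subgroup.closure (a '' {j | j < k}), krev a k = g * kap a k * g⁻¹ := by
  have key : ∀ i, i ≤ k → ∃ g ∈ Subgroup.closure (a '' {j | j < k}),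
      kap (fun j => a (j + i)) (k - i) * krev a i = g * kap a k * g⁻¹ := by
    intro i
    induction i with
    | zero =>
      intro _
      refine ⟨1, Subgroup.one_mem _, ?_⟩
      rw [one_mul, inv_one, mul_one]
      exact mul_one _
    | succ i ih =>
      intro hi
      obtain ⟨g, hg, he⟩ := ih (by omega)
      have hU : kap (fun j => a (j + (i + 1))) (k - (i + 1)) ∈
          Subgroup.closure (a '' {j | j < k}) :=
        krev_conj_mem _ _ _ fun j hj => Subgroup.subset_closure ⟨j + (i + 1), by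
          show j + (i + 1) < k
          omega, rfl⟩
      have hf : kap (fun j => a (j + i)) (k - i) =
          a i * kap (fun j => a (j + (i + 1))) (k - (i + 1)) := by
        rw [show k - i = k - (i + 1) + 1 by omega, krev_conj_front]
        have h2 : ∀ j, j + 1 + i = j + (i + 1) := fun j => by omega
        simp only [h2, Nat.zero_add]
      have hc : Commute (kap (fun j => a (j + (i + 1))) (k - (i + 1))) (krev a i) := by
        refine krev_conj_krev_comm _ _ fun l hl => ?_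
        refine (krev_conj_kap_comm _ _ fun j hj => ?_).symm
        exact h.comm l (j + (i + 1)) (by omega) (by omega)
      rw [hf] at he
      generalize kap (fun j => a (j + (i + 1))) (k - (i + 1)) = U at *
      refine ⟨U * g, Subgroup.mul_mem _ hU hg, ?_⟩
      have h3 : U * g * kap a k * (U * g)⁻¹ = U * (g * kap a k * g⁻¹) * U⁻¹ := by group
      rw [h3, ← he]
      show U * (a i * krev a i) = _
      rw [mul_assoc (a i), hc.eq]
      group
  obtain ⟨g, hg, he⟩ := key k le_rfl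
  refine ⟨g, hg, ?_⟩
  rw [← he, Nat.sub_self]
  exact (one_mul _).symm

/-- piece DN-G10: `σ Ω = Ω`: `σ Ω = krev^(k+1) = (g κ g⁻¹)^(k+1) = g Ω g⁻¹ = Ω` (`krev_conj`, `OmD_comm`) -/
theorem sgh_OmD : sgh p (OmD p) = OmD p := by
  have hR : RelBr (p + 3) (fun j => (iD (aD j) : Dh p)) := (relA_Gam p).toRelB.toRelBr
  have h1 : sgh p (kap (fun j => (iD (aD j) : Dh p)) (p + 3)) =
      krev (fun j => (iD (aD j) : Dh p)) (p + 3) := by
    have h0 := map_kap (sgh p).toMonoidHom (fun j => (iD (aD j) : Dh p)) (p + 3)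
    refine h0.trans ?_
    rw [← krev_conj_rev]
    refine kap_congr fun j hj => ?_
    show sgh p (iD (aD j)) = iD (aD (p + 3 - 1 - j))
    rw [sgh_iD, sg_a hj]
    rfl
  obtain ⟨g, hg, he⟩ := krev_conj hR
  unfold OmD Om
  rw [map_pow, h1, he, conj_pow]
  have h2 := OmD_comm (p := p) (b := g) hg
  unfold OmD Om at h2
  rw [h2, mul_inv_cancel_right]

private lemma ze10_x1 {k j : ℕ} (hj : j < k) : aL j (xL (j + 1) : L k) = xL j := by
  unfold xL
  rw [aL_mk hj, gA_x hj (by omega)]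
  unfold gC
  rw [if_neg (by omega), if_pos rfl]

private lemma ze10_x0 {k j : ℕ} (hj : j < k) :
    aL j (xL j : L k) = xL j * xL (j + 1) * xL j := by
  unfold xL
  rw [aL_mk hj, gA_x hj (by omega)]
  unfold gC
  rw [if_pos rfl, map_mul, map_mul]

private lemma ze10_x {k j i : ℕ} (hj : j < k) (hi : i ≤ k) (h1 : i ≠ j) (h2 : i ≠ j + 1) :
    aL j (xL i : L k) = xL i := by
  unfold xL
  rw [aL_mk hj, gA_x hj hi]
  unfold gC
  rw [if_neg h1, if_neg h2]

private lemma ze10_sq {k : ℕ} (i : ℕ) : (xL i : L k) * xL i = 1 := by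
  unfold xL
  rw [← map_mul, xG_sq, map_one]

/-- the product `x_k x_{k-1} ⋯ x_{k-i+1}` -/
private def ze10_P (k : ℕ) : ℕ → L k
  | 0 => 1
  | i + 1 => ze10_P k i * xL (k - i)

private lemma ze10_fix {k j : ℕ} : ∀ i : ℕ, j + 1 + i ≤ k → aL j (ze10_P k i) = ze10_P k i := by
  intro i
  induction i with
  | zero => intro _; exact map_one _
  | succ i ih =>
    intro h
    change aL j (ze10_P k i * xL (k - i)) = ze10_P k i * xL (k - i)
    rw [map_mul, ih (by omega), ze10_x (by omega) (by omega) (by omega) (by omega)]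

private lemma ze10_step {k m i : ℕ} (h : m + 1 + i = k) :
    aL m (ze10_P k (i + 1) * xL (k - (i + 1)) * (ze10_P k (i + 1))⁻¹) =
      ze10_P k i * xL (k - i) * (ze10_P k i)⁻¹ := by
  have e : ze10_P k (i + 1) = ze10_P k i * xL (k - i) := rfl
  have e1 : k - i = m + 1 := by omega
  have e2 : k - (i + 1) = m := by omega
  have hi : (xL m : L k)⁻¹ = xL m := inv_eq_of_mul_eq_one_left (ze10_sq m)
  rw [e, e1, e2, map_mul, map_inv, map_mul, map_mul, ze10_fix i (by omega), ze10_x1 (by omega),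
    ze10_x0 (by omega), mul_inv_rev, hi]
  calc ze10_P k i * xL m * (xL m * xL (m + 1) * xL m) * (xL m * (ze10_P k i)⁻¹)
      = ze10_P k i * (xL m * xL m) * xL (m + 1) * (xL m * xL m) * (ze10_P k i)⁻¹ := by
        simp only [mul_assoc]
    _ = _ := by rw [ze10_sq, mul_one, mul_one]

private lemma ze10_zz {p : ℕ} : ∀ i : ℕ, i ≤ p + 3 → zz (fun j => (iD (aD j) : Dh p)) tL i =
    lam' p (ze10_P (p + 3) i * xL (p + 3 - i) * (ze10_P (p + 3) i)⁻¹) := by
  intro i
  induction i with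
  | zero =>
    intro _
    change (tL : Dh p) = lam' p (1 * xL (p + 3 - 0) * 1⁻¹)
    rw [one_mul, inv_one, mul_one, Nat.sub_zero, lam'_x]
  | succ i ih =>
    intro hi
    change (iD (aD i) : Dh p)⁻¹ * zz (fun j => (iD (aD j) : Dh p)) tL i * iD (aD i) = _
    rw [ih (by omega), ← ze10_step (k := p + 3) (m := p + 2 - i) (i := i) (by omega),
      ← lam'_a (by omega)]
    group

private lemma ze10_wz {p : ℕ} : ∀ i : ℕ, i ≤ p + 3 → wz (fun j => (iD (aD j) : Dh p)) tL i =
    lam' p (ze10_P (p + 3) (i + 1)) := by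
  intro i
  induction i with
  | zero =>
    intro _
    change (tL : Dh p) = lam' p (1 * xL (p + 3 - 0))
    rw [one_mul, Nat.sub_zero, lam'_x]
  | succ i ih =>
    intro hi
    change zz (fun j => (iD (aD j) : Dh p)) tL (i + 1) * wz (fun j => (iD (aD j) : Dh p)) tL i = _
    rw [ih (by omega), ze10_zz (i + 1) hi, ← map_mul, inv_mul_cancel_right]
    rfl

private lemma ze10_R {k : ℕ} : ∀ i : ℕ, i ≤ k → RL k * ze10_P k i = mkL k (xw (k - i)) := by
  intro i
  induction i with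
  | zero =>
    intro _
    change RL k * 1 = _
    rw [mul_one, Nat.sub_zero]
    unfold RL
    rw [sW_apply, sG_R]
  | succ i ih =>
    intro hi
    change RL k * (ze10_P k i * xL (k - i)) = _
    rw [← mul_assoc, ih (by omega)]
    obtain ⟨m, hm⟩ : ∃ m, k - i = m + 1 := ⟨k - i - 1, by omega⟩
    have e2 : k - (i + 1) = m := by omega
    rw [hm, e2]
    change mkL k (xw m * xG (m + 1)) * xL (m + 1) = _
    rw [map_mul, mul_assoc]
    change mkL k (xw m) * (xL (m + 1) * xL (m + 1)) = _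
    rw [ze10_sq, mul_one]

private lemma ze10_last {k : ℕ} : ze10_P k (k + 1) = (RL k)⁻¹ := by
  have h := ze10_R (k := k) k le_rfl
  rw [Nat.sub_self] at h
  have h2 : RL k * ze10_P k (k + 1) = 1 := by
    change RL k * (ze10_P k k * xL (k - k)) = 1
    rw [← mul_assoc, h, Nat.sub_self]
    exact ze10_sq 0
  exact eq_inv_of_mul_eq_one_right h2

/-- piece DN-G10: `ζ = λ'(R)⁻¹ Ω`.
Proof. `(tL κ)^(k+1) = (∏_{i=0}^{k} κ^i tL κ^-i) κ^(k+1)`, `κ = a_0 ⋯ a_{k-1}` acts on `λ'(x_j)` as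
`α_{k-1} α_{k-2} ⋯ α_0`, which maps `x_j` to `x_{j-1}` for `1 ≤ j ≤ k`; so `κ^i tL κ^-i = λ'(x_{k-i})` and the
product is `λ'(x_k x_{k-1} ⋯ x_0) = λ'(R⁻¹)`. -/
theorem ze_eq : ze p = (lam' p (RL (p + 3)))⁻¹ * OmD p := by
  rw [ze_eq_zeta, zeta_eq (relA_Gam p).toRelB]
  change wz (fun j => (iD (aD j) : Dh p)) tL (p + 3) * OmD p = _
  rw [ze10_wz _ le_rfl, ze10_last, map_inv]

/-- piece DN-G11: `HD = λ'(W) BrD`: the products form a subgroup (`lam'_a`, `aL_sW`) with `tL = λ'(x_k)`;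
`HD_eq`. -/
theorem HD_decomp {h : Dh p} (hh : h ∈ HD p) :
    ∃ (w : W (p + 3)), ∃ b ∈ BrD p, h = lam' p (sW (p + 3) w) * b := by
  rw [HD_eq] at hh
  have hmul : ∀ (g : Dh p), g ∈ ({tL} ∪ (fun j => iD (aD j)) '' {j | j < p + 3} : Set (Dh p)) →
      ∀ h : Dh p, (∃ (w : W (p + 3)), ∃ b ∈ BrD p, h = lam' p (sW (p + 3) w) * b) →
      ∃ (w : W (p + 3)), ∃ b ∈ BrD p, g * h = lam' p (sW (p + 3) w) * b := by
    rintro g (hg | ⟨j, hj, rfl⟩) h ⟨w, b, hb, rfl⟩
    · rw [Set.mem_singleton_iff] at hg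
      subst hg
      refine ⟨xW (p + 3) * w, b, hb, ?_⟩
      rw [map_mul, map_mul, sW_x le_rfl, lam'_x, mul_assoc]
    · have hj' : j < p + 3 := hj
      refine ⟨wA (p + 2 - j) w, iD (aD j) * b,
        mul_mem (Subgroup.subset_closure ⟨j, hj, rfl⟩) hb, ?_⟩
      rw [← aL_sW (by omega), ← lam'_a hj']
      simp only [mul_assoc, inv_mul_cancel_left]
  have hmul' : ∀ (g : Dh p), g ∈ ({tL} ∪ (fun j => iD (aD j)) '' {j | j < p + 3} : Set (Dh p)) →
      ∀ h : Dh p, (∃ (w : W (p + 3)), ∃ b ∈ BrD p, h = lam' p (sW (p + 3) w) * b) →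
      ∃ (w : W (p + 3)), ∃ b ∈ BrD p, g⁻¹ * h = lam' p (sW (p + 3) w) * b := by
    rintro g (hg | ⟨j, hj, rfl⟩) h ⟨w, b, hb, rfl⟩
    · rw [Set.mem_singleton_iff] at hg
      subst hg
      refine ⟨(xW (p + 3))⁻¹ * w, b, hb, ?_⟩
      rw [map_mul, map_mul, map_inv, map_inv, sW_x le_rfl, lam'_x, mul_assoc]
    · have hj' : j < p + 3 := hj
      refine ⟨(wA (p + 2 - j))⁻¹ w, (iD (aD j))⁻¹ * b,
        mul_mem (inv_mem (Subgroup.subset_closure ⟨j, hj, rfl⟩)) hb, ?_⟩
      have h1 := lam'_a hj' (sW (p + 3) ((wA (p + 2 - j))⁻¹ w))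
      rw [aL_sW (by omega), MulAut.apply_inv_self] at h1
      rw [← h1]
      simp only [mul_assoc, inv_mul_cancel_left]
  induction hh using Subgroup.closure_induction_left with
  | one => exact ⟨1, 1, one_mem _, by rw [map_one, map_one, mul_one]⟩
  | mul_left g hg y _ ih => exact hmul g hg y ih
  | inv_mul_cancel g hg y _ ih => exact hmul' g hg y ih
/-- piece DN-G11: `λ'(W) ⊂ HD`: `λ'(x_j)` by downward induction (`sgh` of `lam_x_step`) -/
theorem lam'_sW_mem (w : W (p + 3)) : lam' p (sW (p + 3) w) ∈ HD p := by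
  have ha : ∀ j, j < p + 3 → (iD (aD j) : Dh p) ∈ HD p := fun j hj =>
    BrD_le_HD (Subgroup.subset_closure ⟨j, hj, rfl⟩)
  have hx : ∀ n, n ≤ p + 3 → lam' p (xL (p + 3 - n)) ∈ HD p := by
    intro n
    induction n with
    | zero =>
      intro _
      rw [Nat.sub_zero, lam'_x, HD_eq]
      exact Subgroup.subset_closure (Or.inl rfl)
    | succ n ih =>
      intro hn
      have hi : p + 3 - (n + 1) < p + 3 := by omega
      have h1 := lam'_a (p := p) (j := n) (by omega) (xL (p + 3 - n))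
      have h2 : aL (p + 2 - n) (xL (p + 3 - n) : L (p + 3)) = xL (p + 3 - (n + 1)) := by
        rw [← sW_x (by omega), aL_sW (by omega), wA_x (by omega) (by omega), ← sW_x (by omega)]
        congr 1
        unfold wC
        rw [show p + 3 - n = (p + 2 - n) + 1 by omega]
        simp
      rw [h2] at h1
      rw [← h1]
      exact mul_mem (mul_mem (ha n (by omega)) (ih (by omega))) (inv_mem (ha n (by omega)))
  have hH : ∀ l : List ℕ, (∀ i ∈ l, i ≤ p + 3) → lam' p (sW (p + 3) (wv l)) ∈ HD p := by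
    intro l
    induction l with
    | nil => intro _; rw [wv_nil, map_one, map_one]; exact one_mem _
    | cons i l ih =>
      intro h
      have hi : i ≤ p + 3 := h i (by simp)
      rw [wv_cons, map_mul, map_mul, sW_x hi]
      refine mul_mem ?_ (ih (fun j hj => h j (by simp [hj])))
      have := hx (p + 3 - i) (by omega)
      rwa [show p + 3 - (p + 3 - i) = i by omega] at this
  obtain ⟨l, hl, rfl⟩ := exists_red w
  exact hH l hl.1

private lemma dng11_act {b : Dh p} (hb : b ∈ BrD p) :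
    ActD p b yL = yL ∧ ActD p b (rL (p + 3)) = rL (p + 3) := by
  have h : b ∈ (Subgroup.closure ((fun j => (iD (aD j) : Dh p)) '' {j | j < p + 3})) := hb
  induction h using Subgroup.closure_induction with
  | mem x hx =>
    obtain ⟨j, hj, rfl⟩ := hx
    have e : ActD p (iD (aD j)) = aL j := ActD_a hj
    simp only
    rw [e]
    exact ⟨aL_y, aL_r⟩
  | one => rw [map_one]; exact ⟨rfl, rfl⟩
  | mul x y _ _ hx hy =>
    have h1 := hx (by assumption)
    have h2 := hy (by assumption)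
    rw [map_mul]
    refine ⟨?_, ?_⟩
    · rw [MulAut.mul_apply, h2.1, h1.1]
    · rw [MulAut.mul_apply, h2.2, h1.2]
  | inv x _ hx =>
    have h1 := hx (by assumption)
    rw [map_inv]
    refine ⟨?_, ?_⟩
    · rw [MulAut.inv_apply, MulEquiv.symm_apply_eq, h1.1]
    · rw [MulAut.inv_apply, MulEquiv.symm_apply_eq, h1.2]

/-- piece DN-G11: `λ(L) ∩ BrD = 1`.
Proof. `b = λ(l)`: `conj l = ActD b` fixes `y` and `r` (closure induction over `BrD`: `aL_y`, `aL_r`), so
`l = r^i` (`cent_rL`) commutes with `y = muL 1`; the projection to `W`... `r^i y r^-i = y`: modulo the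
kernel of `exists_abK` the left side is `single (R^i) 1`, so `R^i = 1`, `i = 0` (`RW_pow`). -/
theorem lam_Br {l : L (p + 3)} (h : lam p l ∈ BrD p) : l = 1 := by
  obtain ⟨h1, h2⟩ := dng11_act h
  rw [ActD_lam, MulAut.conj_apply] at h1 h2
  have h3 : l * rL (p + 3) ^ (1 : ℤ) = rL (p + 3) ^ (1 : ℤ) * l := by
    rw [zpow_one]
    exact mul_inv_eq_iff_eq_mul.1 h2
  obtain ⟨i, hi⟩ := cent_rL (by omega) one_ne_zero h3
  obtain ⟨κ, hκ, hl⟩ := L_decomp l
  have h4 : toW (p + 3) l = RW (p + 3) ^ i := by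
    rw [← hi]
    show toW (p + 3) (rL (p + 3) ^ i) = _
    rw [map_zpow, toW_r]
  rw [h4] at hl
  have h5 : κ * muL (RW (p + 3) ^ i) * κ⁻¹ = muL (1 : W (p + 3)) := by
    rw [mu_one]
    rw [hl] at h1
    rw [← h1]
    unfold muL
    group
  obtain ⟨φ, hφ⟩ := exists_abK (p + 3)
  have h6 : (⟨κ, hκ⟩ : K (p + 3)) * muK (RW (p + 3) ^ i) * (⟨κ, hκ⟩ : K (p + 3))⁻¹ =
      muK (1 : W (p + 3)) := Subtype.ext h5
  have h7 := congrArg φ h6
  rw [map_mul, map_mul, map_inv, mul_inv_cancel_comm, hφ, hφ] at h7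
  have h8 : Finsupp.single (RW (p + 3) ^ i) (1 : ℤ) = Finsupp.single 1 1 :=
    Multiplicative.ofAdd.injective h7
  have h9 : RW (p + 3) ^ i = 1 := (Finsupp.single_left_inj one_ne_zero).1 h8
  have h10 := RW_pow (by omega) h9
  rw [← hi, h10]
  exact zpow_zero _
/-- piece DN-G11: the mirror image (`sgh_BrD`) -/
theorem lam'_Br {l : L (p + 3)} (h : lam' p l ∈ BrD p) : l = 1 := by
  have h1 := sgh_BrD h
  rw [lam'_apply, sgh_sgh] at h1
  exact lam_Br h1
/-- piece DN-G11: `HD ∩ λ'(L) = λ'(W)`: `h = λ'(w) b = λ'(l)`, so `b ∈ λ'(L)` is trivial -/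
theorem lam'_HD {l : L (p + 3)} (h : lam' p l ∈ HD p) : ∃ w, l = sW (p + 3) w := by
  obtain ⟨w, b, hb, hlb⟩ := HD_decomp h
  refine ⟨w, ?_⟩
  have h1 : lam' p ((sW (p + 3) w)⁻¹ * l) = b := by
    rw [map_mul, hlb, map_inv, inv_mul_cancel_left]
  have h2 := lam'_Br (l := (sW (p + 3) w)⁻¹ * l) (by rw [h1]; exact hb)
  exact (inv_mul_eq_one.1 h2).symm

/-- piece DN-G12: `λ(y) = ζ λ(R)⁻¹` -/
theorem lam_y : lam p yL = ze p * (lam p (RL (p + 3)))⁻¹ := by
  rw [← lam_r, rL_eq, map_mul, mul_inv_cancel_right]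
/-- piece DN-G12: `λ'(y) = λ(R⁻¹ y R)`: `λ'(y) = ζ' λ'(R)⁻¹`, `ζ' = λ(R)⁻¹ Ω` (apply `sgh` to `ze_eq`,
`sgh_OmD`), `λ'(R)⁻¹ = ζ Ω⁻¹` and `ζ = λ(y) λ(R)`; `Ω` commutes with `λ(R)` (`lam_equiv`, `aL_R`) and with `ζ`. -/
theorem lam'_y : lam' p yL = lam p ((RL (p + 3))⁻¹ * yL * RL (p + 3)) := by
  have h1 : sgh p (ze p) = (lam p (RL (p + 3)))⁻¹ * OmD p := by
    conv_lhs => rw [ze_eq]
    rw [map_mul, map_inv, sgh_OmD, lam'_apply, sgh_sgh]
  have h2 : (lam' p (RL (p + 3)))⁻¹ = ze p * (OmD p)⁻¹ := by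
    rw [ze_eq, mul_inv_cancel_right]
  have h3 : OmD p * ze p = ze p * OmD p := ze_comm (BrD_le_HD OmD_mem)
  have h4 : lam' p yL = sgh p (ze p) * (lam' p (RL (p + 3)))⁻¹ := by
    rw [lam'_apply, lam_y, map_mul, map_inv, ← lam'_apply]
  have h5 : lam p yL * lam p (RL (p + 3)) = ze p := by
    rw [lam_y, inv_mul_cancel_right]
  rw [h4, h1, h2, map_mul, map_mul, map_inv, mul_assoc _ (lam p yL), h5]
  calc (lam p (RL (p + 3)))⁻¹ * OmD p * (ze p * (OmD p)⁻¹)
      = (lam p (RL (p + 3)))⁻¹ * (OmD p * ze p) * (OmD p)⁻¹ := by simp only [mul_assoc]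
    _ = (lam p (RL (p + 3)))⁻¹ * (ze p * OmD p) * (OmD p)⁻¹ := by rw [h3]
    _ = (lam p (RL (p + 3)))⁻¹ * ze p := by rw [← mul_assoc, mul_inv_cancel_right]
/-- piece DN-G12: `λ'(K) = λ(K)`: both are the normal closure in `Γ` of conjugate elements: the elements
`λ'(muL g) = λ'(g) λ'(y) λ'(g)⁻¹` are `λ` of elements of `K` by `lam_equiv`, `ActD_K`, and conversely (apply
`sgh`). -/
theorem lam'_K {l : L (p + 3)} (hl : l ∈ K (p + 3)) : ∃ l' ∈ K (p + 3), lam' p l = lam p l' := by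
  rw [K_gen] at hl
  induction hl using Subgroup.closure_induction with
  | mem x h =>
    obtain ⟨g, rfl⟩ := h
    have hy : (RL (p + 3))⁻¹ * yL * RL (p + 3) ∈ K (p + 3) := by
      have h1 : (yL : L (p + 3)) ∈ K (p + 3) := mem_K.2 toW_y
      have hn : (K (p + 3)).Normal := inferInstance
      have h2 := hn.conj_mem yL h1 (RL (p + 3))⁻¹
      rwa [inv_inv] at h2
    refine ⟨ActD p (lam' p (sW (p + 3) g)) ((RL (p + 3))⁻¹ * yL * RL (p + 3)), ActD_K _ hy, ?_⟩
    rw [← lam_equiv, ← lam'_y]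
    unfold muL
    rw [map_mul, map_mul, map_inv]
  | one => exact ⟨1, one_mem _, by rw [map_one, map_one]⟩
  | mul x y _ _ hx hy =>
    obtain ⟨x', hx', h1⟩ := hx
    obtain ⟨y', hy', h2⟩ := hy
    exact ⟨x' * y', mul_mem hx' hy', by rw [map_mul, map_mul, h1, h2]⟩
  | inv x _ hx =>
    obtain ⟨x', hx', h1⟩ := hx
    exact ⟨x'⁻¹, inv_mem hx', by rw [map_inv, map_inv, h1]⟩
/-- piece DN-G12 -/
theorem lam_K {l : L (p + 3)} (hl : l ∈ K (p + 3)) : ∃ l' ∈ K (p + 3), lam p l = lam' p l' := by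
  obtain ⟨l', hl', h⟩ := lam'_K hl
  refine ⟨l', hl', ?_⟩
  rw [lam'_apply, ← h, lam'_apply, sgh_sgh]

private lemma g12_kap {M : Type*} [Group M] (c : M) (n : ℕ) : kap (fun _ => c) n = c ^ n := by
  induction n with
  | zero => exact (pow_zero c).symm
  | succ n ih =>
    change kap (fun _ => c) n * c = c ^ (n + 1)
    rw [ih, pow_succ]

private lemma g12_Om : lenH p (OmD p) = (Multiplicative.ofAdd (1 : ℤ)) ^ ((p + 3) * (p + 4)) := by
  unfold OmD Om
  rw [map_pow, map_kap, kap_congr (a' := fun _ => Multiplicative.ofAdd (1 : ℤ))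
    (fun j hj => by rw [lenH_iD, lenD_a hj]), g12_kap, ← pow_mul]

private lemma g12_pow (n : ℕ) :
    (Multiplicative.ofAdd (1 : ℤ)) ^ n = Multiplicative.ofAdd (n : ℤ) := by
  rw [← ofAdd_nsmul, nsmul_eq_mul, mul_one]

/-- piece DN-G12: the exponent sum of `ζ` is `k (k + 1)` -/
theorem len_ze : lenH p (ze p) = Multiplicative.ofAdd (((p + 3) * (p + 4) : ℕ) : ℤ) := by
  rw [← g12_pow, ze_eq_zeta, map_zeta,
    zeta_congr (a' := fun _ => Multiplicative.ofAdd (1 : ℤ))
    (fun j hj => by rw [lenH_iD, lenD_a hj]), lenH_tL]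
  unfold zeta rho
  rw [g12_kap, one_mul, ← pow_mul]
/-- piece DN-G12 -/
theorem len_OmD : lenH p (OmD p) = Multiplicative.ofAdd (((p + 3) * (p + 4) : ℕ) : ℤ) := by
  rw [← g12_pow, g12_Om]
/-- piece DN-G12 -/
theorem len_sW (w : W (p + 3)) : lenH p (lam p (sW (p + 3) w)) = 1 := by
  have hx : ∀ n, n ≤ p + 3 → lenH p (lam p (xL (p + 3 - n))) = 1 := by
    intro n
    induction n with
    | zero =>
      intro _
      rw [Nat.sub_zero, lam_x, lenH_tR]
    | succ n ih =>
      intro hn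
      rw [lam_x_step (j := p + 3 - (n + 1)) (by omega),
        show p + 3 - (n + 1) + 1 = p + 3 - n by omega, map_mul, map_mul, map_inv,
        ih (by omega), mul_one, mul_inv_cancel]
  have h : ((lenH p).comp (lam p)).comp (sW (p + 3)) = 1 := by
    apply homW_ext
    intro i hi
    rw [MonoidHom.comp_apply, MonoidHom.comp_apply, sW_x hi, MonoidHom.one_apply]
    have h1 := hx (p + 3 - i) (by omega)
    rwa [show p + 3 - (p + 3 - i) = i by omega] at h1
  exact DFunLike.congr_fun h w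
private lemma sgnG_iD (x : D p) : sgn p (iD x) = 1 := SemidirectProduct.rightHom_inl x

private lemma sgnG_kap (j : ℕ) : sgn p (kap (fun i => (iD (aD i) : Dh p)) j) = 1 := by
  induction j with
  | zero => exact map_one _
  | succ j ih =>
    change sgn p (kap (fun i => (iD (aD i) : Dh p)) j * iD (aD j)) = 1
    rw [map_mul, ih, sgnG_iD, one_mul]

private lemma sgnG_W {f g : W (p + 3) →* ℤˣ × ℤˣ} {x : ℤˣ × ℤˣ}
    (hf : f (xW (p + 3)) = x) (hfs : ∀ j, j < p + 3 → f (xW j) = f (xW (j + 1)))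
    (hg : ∀ j, j ≤ p + 3 → g (xW j) = x) : f = g := by
  apply homW_ext
  have h : ∀ i, i ≤ p + 3 → f (xW (p + 3 - i)) = x := by
    intro i
    induction i with
    | zero => intro _; exact hf
    | succ i ih =>
      intro hi
      rw [hfs _ (by omega), show p + 3 - (i + 1) + 1 = p + 3 - i by omega]
      exact ih (by omega)
  intro i hi
  have h1 := h (p + 3 - i) (by omega)
  rw [show p + 3 - (p + 3 - i) = i by omega] at h1
  rw [h1, hg i hi]

/-- piece DN-G12: the signs of `ζ` -/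
theorem sgn_ze : sgn p (ze p) = ((-1) ^ (p + 4), 1) := by
  rw [ze_eq_zeta]
  unfold zeta rho
  rw [map_pow, map_mul, sgnG_kap, mul_one]
  have h : sgn p tL = ((-1, 1) : ℤˣ × ℤˣ) := SemidirectProduct.rightHom_inr _
  rw [h, Prod.pow_mk, one_pow]
/-- piece DN-G12: the signs of `λ(w)`, `w ∈ W` -/
theorem sgn_sW (w : W (p + 3)) : sgn p (lam p (sW (p + 3) w)) = (1, parW (p + 3) w) := by
  have h : (sgn p).comp ((lam p).comp (sW (p + 3))) =
      (MonoidHom.inr ℤˣ ℤˣ).comp (parW (p + 3)) := by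
    refine sgnG_W (x := ((1, -1) : ℤˣ × ℤˣ)) ?_ ?_ ?_
    · change sgn p (lam p (sW (p + 3) (xW (p + 3)))) = _
      rw [sW_x le_rfl, lam_x]
      exact SemidirectProduct.rightHom_inr _
    · intro j hj
      change sgn p (lam p (sW (p + 3) (xW j))) = sgn p (lam p (sW (p + 3) (xW (j + 1))))
      rw [sW_x (by omega), sW_x (by omega), lam_x_step hj, map_mul, map_mul, map_inv, sgnG_iD,
        inv_one, one_mul, mul_one]
    · intro j hj
      change ((1, parW (p + 3) (xW j)) : ℤˣ × ℤˣ) = _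
      rw [parW, liftW_x _ _ hj]
  exact DFunLike.congr_fun h w
/-- piece DN-G12: the signs of `λ'(w)`, `w ∈ W` -/
theorem sgn_sW' (w : W (p + 3)) : sgn p (lam' p (sW (p + 3) w)) = (parW (p + 3) w, 1) := by
  have h : (sgn p).comp ((lam' p).comp (sW (p + 3))) =
      (MonoidHom.inl ℤˣ ℤˣ).comp (parW (p + 3)) := by
    refine sgnG_W (x := ((-1, 1) : ℤˣ × ℤˣ)) ?_ ?_ ?_
    · change sgn p (lam' p (sW (p + 3) (xW (p + 3)))) = _
      rw [sW_x le_rfl, lam'_x]
      exact SemidirectProduct.rightHom_inr _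
    · intro j hj
      change sgn p (lam' p (sW (p + 3) (xW j))) = sgn p (lam' p (sW (p + 3) (xW (j + 1))))
      have e : ∀ l : Dh p, sgh p (iD (aD j) * l * (iD (aD j))⁻¹) =
          iD (sg p (aD j)) * sgh p l * (iD (sg p (aD j)))⁻¹ := by
        intro l
        rw [map_mul, map_mul, map_inv, sgh_iD]
      rw [sW_x (by omega), sW_x (by omega), lam'_apply, lam'_apply, lam_x_step hj, e, map_mul,
        map_mul, map_inv, sgnG_iD, inv_one, one_mul, mul_one]
    · intro j hj
      change ((parW (p + 3) (xW j), 1) : ℤˣ × ℤˣ) = _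
      rw [parW, liftW_x _ _ hj]
  exact DFunLike.congr_fun h w
/-- piece DN-G12 -/
theorem sgn_BrD {b : Dh p} (hb : b ∈ BrD p) : sgn p b = 1 := by
  have h : BrD p ≤ (sgn p).ker := by
    unfold BrD
    rw [Subgroup.closure_le]
    rintro _ ⟨j, -, rfl⟩
    exact sgnG_iD _
  exact h hb
/-- piece DN-G12: the elements of `D p` are the elements with trivial signs -/
theorem mem_D {x : Dh p} (h : sgn p x = 1) : ∃ d : D p, x = iD d :=
  ⟨x.left, SemidirectProduct.ext rfl h⟩

end

/-! ### the subgroups of `D p` -/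

/-- the subgroup `LR` of `D p` -/
noncomputable def LR (p : ℕ) : Subgroup (D p) := (lam p).range.comap iD
/-- the subgroup `LL` of `D p` -/
noncomputable def LL (p : ℕ) : Subgroup (D p) := (lam' p).range.comap iD
/-- the subgroup `DHs = D ∩ HD` -/
def DHs (p : ℕ) : Subgroup (D p) := (HD p).comap iD
/-- the elements of `D p` whose fold is a power of `Ω` -/
noncomputable def NN (p : ℕ) : Subgroup (D p) :=
  (Subgroup.zpowers (Om (p + 3) aH : HB (p + 3))).comap ((foldG p).comp iD)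

section
variable {p : ℕ}

/-- piece DN-G13: `ζ²` is in `D p` (`sgn_ze`, `mem_D`) -/
theorem exists_zD (p : ℕ) : ∃ z : D p, (iD z : Dh p) = ze p ^ 2 := by
  have h : sgn p (ze p ^ 2) = 1 := by
    rw [map_pow, sgn_ze]
    refine Prod.ext ?_ (one_pow 2)
    change (((-1 : ℤˣ) ^ (p + 4)) ^ 2) = 1
    rw [← pow_mul, mul_comm, pow_mul, neg_one_sq, one_pow]
  obtain ⟨d, hd⟩ := mem_D h
  exact ⟨d, hd.symm⟩

end

/-- the element `z = ζ²` of `D p` -/
noncomputable def zD (p : ℕ) : D p := Classical.choose (exists_zD p)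

section
variable {p : ℕ}

lemma iD_zD : (iD (zD p) : Dh p) = ze p ^ 2 := Classical.choose_spec (exists_zD p)

/-- piece DN-G13: conjugation with elements of `Γ` preserves `LR` and `LL` -/
theorem cj_LR (γ : Dh p) {x : D p} : cj p γ x ∈ LR p ↔ x ∈ LR p := by
  have key : ∀ (γ : Dh p) (x : D p), x ∈ LR p → cj p γ x ∈ LR p := by
    rintro γ x ⟨l, hl⟩
    exact ⟨ActD p γ l, by rw [← lam_equiv, hl, iD_cj]⟩
  refine ⟨fun h => ?_, key γ x⟩
  have h1 := key γ⁻¹ _ h
  rwa [map_inv, MulAut.inv_apply_self] at h1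
/-- piece DN-G13 -/
theorem cj_LL (γ : Dh p) {x : D p} : cj p γ x ∈ LL p ↔ x ∈ LL p := by
  have key : ∀ (γ : Dh p) (x : D p), x ∈ LL p → cj p γ x ∈ LL p := by
    rintro γ x ⟨l, hl⟩
    refine ⟨ActD p (sgh p γ) l, ?_⟩
    rw [lam'_apply, ← lam_equiv, map_mul, map_mul, map_inv, sgh_sgh, iD_cj, ← hl, lam'_apply]
  refine ⟨fun h => ?_, key γ x⟩
  have h1 := key γ⁻¹ _ h
  rwa [map_inv, MulAut.inv_apply_self] at h1
/-- piece DN-G13 -/
theorem sg_LR {x : D p} : sg p x ∈ LL p ↔ x ∈ LR p := by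
  constructor
  · rintro ⟨l, hl⟩
    refine ⟨l, (sgh p).injective ?_⟩
    rw [sgh_iD, ← hl, lam'_apply]
  · rintro ⟨l, hl⟩
    exact ⟨l, by rw [lam'_apply, hl, sgh_iD]⟩
/-- piece DN-G13 -/
theorem sg_LL {x : D p} : sg p x ∈ LR p ↔ x ∈ LL p := by
  rw [← sg_LR (x := sg p x)]
  have h : sg p (sg p x) = x := sgHom_sq x
  rw [h]
/-- piece DN-G13: `z ∈ LR`, `z ∉ LL`: `ζ² = λ'(l)` gives `l = sW w` (`lam'_HD`, `ze_mem`), and
`ζ² = λ'(R)⁻² Ω²` (`ze_eq`; `Ω` commutes with `λ'(R)`), so `Ω² ∈ λ'(L)`, `Ω² = 1` (`lam'_Br`), against `len_OmD`. -/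
theorem zD_LR : zD p ∈ LR p := by
  refine ⟨rL (p + 3) ^ 2, ?_⟩
  rw [map_pow, lam_r, iD_zD]
/-- piece DN-G13 -/
theorem zD_LL : zD p ∉ LL p := by
  rintro ⟨l, hl⟩
  rw [iD_zD] at hl
  have h3 : OmD p * ze p = ze p * OmD p := ze_comm (BrD_le_HD OmD_mem)
  have h2 : (lam' p (RL (p + 3)))⁻¹ = ze p * (OmD p)⁻¹ := by
    rw [ze_eq, mul_inv_cancel_right]
  have h4 : Commute (ze p) (OmD p)⁻¹ := (Commute.inv_left (show Commute (OmD p) (ze p) from h3)).symm
  have h5 : lam' p (RL (p + 3) ^ 2 * l) = OmD p ^ 2 := by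
    have h6 : lam' p (RL (p + 3)) = (ze p)⁻¹ * OmD p := by
      rw [← inv_inv (lam' p (RL (p + 3))), h2, mul_inv_rev, inv_inv]
      exact (Commute.inv_right (show Commute (OmD p) (ze p) from h3)).eq
    have h7 : Commute ((ze p)⁻¹) (OmD p) :=
      (Commute.inv_right (show Commute (OmD p) (ze p) from h3)).symm
    have hc : Commute (OmD p ^ 2) (ze p ^ 2) := (show Commute (OmD p) (ze p) from h3).pow_pow 2 2
    rw [map_mul, map_pow, hl, h6, h7.mul_pow, mul_assoc, hc.eq, inv_pow, inv_mul_cancel_left]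
  have h8 : OmD p ^ 2 = 1 := by
    have h9 := lam'_Br (p := p) (l := RL (p + 3) ^ 2 * l) (by rw [h5]; exact pow_mem OmD_mem 2)
    rw [← h5, h9, map_one]
  have h10 := congrArg (lenH p) h8
  rw [map_pow, map_one, len_OmD, ← ofAdd_nsmul] at h10
  have h11 := Multiplicative.ofAdd.injective (h10.trans ofAdd_zero.symm)
  rw [nsmul_eq_mul] at h11
  have h12 : (2 : ℤ) * (((p + 3) * (p + 4) : ℕ) : ℤ) = 0 := by exact_mod_cast h11
  push_cast at h12
  nlinarith
/-- piece DN-G13: `v_0 ∈ LR`, `v_0 ∉ LL`; `u_0 ∈ LL`, `u_0 ∉ LR`: `u_0 = λ'(x_k x_{k-1}) = λ(l)` is in `HD`, so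
`l = r^i` (`lam_HD`), `u_0 = ζ^i`, the exponent sums give `i = 0`; but `x_k x_{k-1} ≠ 1`. -/
theorem v0_LR : bD * (aD (p + 2))⁻¹ ∈ LR p := ⟨_, lam_v0⟩
/-- piece DN-G13 -/
theorem u0_LL : eD * (aD 0)⁻¹ ∈ LL p := ⟨_, lam'_u0⟩

private lemma g13_xx : (xW (p + 3) * xW (p + 2) : W (p + 3)) ≠ 1 := by
  intro h
  have h1 : (wv [p + 3, p + 2] : W (p + 3)) = wv [] := by
    simp only [wv_cons, wv_nil, mul_one]
    exact h
  have h2 := red_uniq (k := p + 3) (l := [p + 3, p + 2]) (l' := [])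
    ⟨by simp, by simp⟩ ⟨by simp, List.isChain_nil⟩ h1
  cases h2
/-- piece DN-G13 -/
theorem u0_LR : eD * (aD 0)⁻¹ ∉ LR p := by
  rintro ⟨l, hl⟩
  have hs : sW (p + 3) (xW (p + 3) * xW (p + 2)) = xL (p + 3) * xL (p + 2) := by
    rw [map_mul, sW_x le_rfl, sW_x (by omega)]
  have h1 : lam p l ∈ HD p := by
    rw [hl, ← lam'_u0, ← hs]
    exact lam'_sW_mem _
  obtain ⟨i, hi⟩ := lam_HD h1
  have h2 : ze p ^ i = iD (eD * (aD 0)⁻¹) := by
    rw [← hl, ← hi, ← lam_r]
    exact (map_zpow (lam p) _ _).symm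
  have h3 : i = 0 := by
    have h4 := congrArg (lenH p) h2
    rw [map_zpow, len_ze, lenH_iD, map_mul, map_inv, lenD_e, lenD_a (by omega), mul_inv_cancel,
      ← ofAdd_zsmul] at h4
    have h5 := Multiplicative.ofAdd.injective (h4.trans ofAdd_zero.symm)
    rw [smul_eq_mul] at h5
    rcases mul_eq_zero.1 h5 with h6 | h6
    · exact h6
    · exfalso
      have h7 : (p + 3) * (p + 4) = 0 := by exact_mod_cast h6
      rcases Nat.mul_eq_zero.1 h7 with h8 | h8 <;> omega
  rw [h3, zpow_zero, ← lam'_u0, ← hs] at h2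
  have h6 : sW (p + 3) (xW (p + 3) * xW (p + 2)) = 1 :=
    lam'_inj (h2.symm.trans (map_one _).symm)
  exact g13_xx (sW_inj (h6.trans (map_one _).symm))
/-- piece DN-G13 -/
theorem v0_LL : bD * (aD (p + 2))⁻¹ ∉ LL p := by
  intro h
  rw [← sg_LL, map_mul, map_inv, sg_b, sg_a (by omega), Nat.sub_self] at h
  exact u0_LR h

end

end Pool.Agent.Helper20.DN
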