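import Pool.Agent.Helper20.DN.Sym

/-!
# Project DN: automorphisms of the Coxeter graph, and the form of the final statement
-/

namespace Pool.Agent.Helper20.DN

open Pool.Agent.Helper7.AG (Artin)

/-- the group of inner automorphisms -/
def Inn (G : Type*) [Group G] : Subgroup (MulAut G) := (MulAut.conj : G →* MulAut G).range

instance Inn_normal (G : Type*) [Group G] : (Inn G).Normal := by
  refine ⟨?_⟩
  rintro _ ⟨x, rfl⟩ φ
  refine ⟨φ x, ?_⟩
  ext y
  simp [MulAut.mul_apply]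

/-- the group of outer automorphisms -/
abbrev Out (G : Type*) [Group G] : Type _ := MulAut G ⧸ Inn G

/-- `ε` inverts the standard generators of the Artin group of `M` -/
def InvertsGens {S : Type*} (M : CoxeterMatrix S) (ε : MulAut (Artin M)) : Prop :=
  ∀ s : S, ε (PresentedGroup.of s) = (PresentedGroup.of s)⁻¹

/-- the extension `1 → Inn G → Aut G → Out G → 1` splits: `Aut G → Out G` has a section which is
a homomorphism -/
def Splits (G : Type*) [Group G] : Prop :=
  ∃ σ : Out G →* MulAut G, ∀ o, QuotientGroup.mk (σ o) = o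

/-- the group of automorphisms of the Coxeter graph of `M` -/
def GraphAut {S : Type*} (M : CoxeterMatrix S) : Subgroup (Equiv.Perm S) where
  carrier := {g | ∀ s t, M (g s) (g t) = M s t}
  one_mem' := fun _ _ => rfl
  mul_mem' := fun {g h} hg hh s t => by
    rw [Equiv.Perm.mul_apply, Equiv.Perm.mul_apply, hg, hh]
  inv_mem' := fun {g} hg s t => by
    have h := hg (g⁻¹ s) (g⁻¹ t)
    have e : ∀ x, g (g⁻¹ x) = x := fun x => Equiv.apply_symm_apply g x
    rw [e, e] at h
    exact h.symm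

/-- `γ g` permutes the standard generators as `g` does -/
def Permutes {S : Type*} (M : CoxeterMatrix S) (γ : GraphAut M →* MulAut (Artin M)) : Prop :=
  ∀ (g : GraphAut M) (s : S), γ g (PresentedGroup.of s) = PresentedGroup.of (g.1 s)

/-- every automorphism of `G` is in exactly one way `conj x * γ g` or `conj x * γ g * ε` -/
def UniqueFormG (G : Type*) [Group G] {E : Type*} [Group E] (ε : MulAut G) (γ : E →* MulAut G) :
    Prop :=
  Function.Bijective (fun q : G × E × Bool =>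
    MulAut.conj q.1 * γ q.2.1 * (if q.2.2 = true then ε else 1))

/-- `Out G` is isomorphic to `E × {1, -1}`: the class of `γ g` corresponds to `(g, 1)`, the class of `ε` to
`(1, -1)` -/
def OutProd (G : Type*) [Group G] {E : Type*} [Group E] (ε : MulAut G) (γ : E →* MulAut G) : Prop :=
  ∃ f : Out G ≃* E × ℤˣ, (∀ g, f (QuotientGroup.mk (γ g)) = (g, 1)) ∧
    f (QuotientGroup.mk ε) = (1, -1)

private noncomputable def gamHom {S : Type*} (M : CoxeterMatrix S) (g : GraphAut M) :
    Artin M →* Artin M :=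
  PresentedGroup.toGroup (f := fun s => (PresentedGroup.of (g.1 s) : Artin M))
    (Pool.Agent.Helper38.BN.artin_lift_aux M _ (fun s t => by
      have h := Pool.Agent.Helper38.BN.artin_rel M (g.1 s) (g.1 t)
      rw [g.2 s t] at h
      exact h))

private lemma gamHom_of {S : Type*} (M : CoxeterMatrix S) (g : GraphAut M) (s : S) :
    gamHom M g (PresentedGroup.of s) = PresentedGroup.of (g.1 s) := PresentedGroup.toGroup.of _

private lemma gamHom_comp {S : Type*} (M : CoxeterMatrix S) (g h : GraphAut M) :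
    (gamHom M g).comp (gamHom M h) = gamHom M (g * h) := by
  apply PresentedGroup.ext
  intro s
  rw [MonoidHom.comp_apply, gamHom_of, gamHom_of, gamHom_of]
  rfl

private lemma gamHom_one {S : Type*} (M : CoxeterMatrix S) :
    gamHom M 1 = MonoidHom.id (Artin M) := by
  apply PresentedGroup.ext
  intro s
  rw [gamHom_of]
  rfl

/-- piece DN-O1: the action of the graph automorphisms.
Proof. `PresentedGroup.toGroup` for `s ↦ of (g s)`: the relator of `(s, t)` becomes the relator of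
`(g s, g t)` (`alt` commutes with homomorphisms); the inverse is given by `g⁻¹`. -/
theorem exists_gam {S : Type*} (M : CoxeterMatrix S) :
    ∃ γ : GraphAut M →* MulAut (Artin M), Permutes M γ :=
  ⟨{ toFun := fun g => MonoidHom.toMulEquiv (gamHom M g) (gamHom M g⁻¹)
        (by rw [gamHom_comp, inv_mul_cancel, gamHom_one])
        (by rw [gamHom_comp, mul_inv_cancel, gamHom_one])
     map_one' := by
        ext x
        exact DFunLike.congr_fun (gamHom_one M) x
     map_mul' := fun g h => by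
        ext x
        exact (DFunLike.congr_fun (gamHom_comp M g h) x).symm },
    fun g s => gamHom_of M g s⟩

/-- the action of the graph automorphisms -/
noncomputable def gam {S : Type*} (M : CoxeterMatrix S) : GraphAut M →* MulAut (Artin M) :=
  Classical.choose (exists_gam M)

lemma gam_of {S : Type*} (M : CoxeterMatrix S) (g : GraphAut M) (s : S) :
    gam M g (PresentedGroup.of s) = PresentedGroup.of (g.1 s) :=
  Classical.choose_spec (exists_gam M) g s

/-- piece DN-O2: the general argument (as `KH.uniqueForm2` etc. in Helper34/BN/Klein: the map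
`(g, u) ↦ γ g * ε^u`, `E × ℤˣ → Aut G → Out G`, is an isomorphism; the inverse followed by the first map is the
section) -/
theorem out_general {G E : Type*} [Group G] [Group E] {ε : MulAut G} {γ : E →* MulAut G}
    (hc : Subgroup.center G = ⊥) (h1 : ε * ε = 1) (h2 : ∀ g, ε * γ g = γ g * ε)
    (n1 : ∀ g x, γ g = MulAut.conj x → g = 1) (n2 : ∀ g x, γ g * ε ≠ MulAut.conj x)
    (h : ∀ φ : MulAut G, ∃ x g, φ = MulAut.conj x * γ g ∨ φ = MulAut.conj x * γ g * ε) :
    UniqueFormG G ε γ ∧ OutProd G ε γ ∧ Splits G := by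
  have hinj : ∀ x y : G, (MulAut.conj x : MulAut G) = MulAut.conj y → x = y := by
    intro x y hxy
    have h3 : y⁻¹ * x ∈ Subgroup.center G := by
      rw [Subgroup.mem_center_iff]
      intro z
      have h4 : x * z * x⁻¹ = y * z * y⁻¹ := DFunLike.congr_fun hxy z
      have h5 : z * (y⁻¹ * x) = y⁻¹ * (y * z * y⁻¹) * x := by group
      rw [h5, ← h4]
      group
    rw [hc, Subgroup.mem_bot, inv_mul_eq_one] at h3
    exact h3.symm
  have hcomm : ∀ (m : E) (n : ℤˣ), Commute (γ m) (Pool.Agent.Helper38.BN.c2hom ε h1 n) := by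
    intro m n
    rcases Int.units_eq_one_or n with rfl | rfl
    · rw [map_one]
      exact Commute.one_right _
    · rw [Pool.Agent.Helper38.BN.c2hom_neg]
      exact (h2 m).symm
  let Θ : E × ℤˣ →* MulAut G := γ.noncommCoprod (Pool.Agent.Helper38.BN.c2hom ε h1) hcomm
  have hΘ : ∀ g u, Θ (g, u) = γ g * Pool.Agent.Helper38.BN.c2hom ε h1 u := fun g u => rfl
  have hΘ1 : ∀ g, Θ (g, 1) = γ g := fun g => by rw [hΘ, map_one, mul_one]
  have hΘ2 : ∀ g, Θ (g, -1) = γ g * ε := fun g => by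
    rw [hΘ, Pool.Agent.Helper38.BN.c2hom_neg]
  let Ψ : E × ℤˣ →* Out G := (QuotientGroup.mk' (Inn G)).comp Θ
  have hΨi : Function.Injective Ψ := by
    rw [injective_iff_map_eq_one]
    rintro ⟨g, u⟩ hgu
    obtain ⟨x, hx⟩ := (QuotientGroup.eq_one_iff _).1 hgu
    rcases Int.units_eq_one_or u with rfl | rfl
    · rw [hΘ1] at hx
      rw [n1 g x hx.symm]
      rfl
    · rw [hΘ2] at hx
      exact absurd hx.symm (n2 g x)
  have hconj : ∀ x : G, (QuotientGroup.mk (MulAut.conj x : MulAut G) : Out G) = 1 := fun x =>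
    (QuotientGroup.eq_one_iff _).2 ⟨x, rfl⟩
  have hΨs : Function.Surjective Ψ := by
    intro o
    obtain ⟨φ, rfl⟩ := QuotientGroup.mk_surjective o
    obtain ⟨x, g, hφ | hφ⟩ := h φ
    · refine ⟨(g, 1), ?_⟩
      change (QuotientGroup.mk (Θ (g, 1)) : Out G) = _
      rw [hΘ1, hφ, QuotientGroup.mk_mul, hconj, one_mul]
    · refine ⟨(g, -1), ?_⟩
      change (QuotientGroup.mk (Θ (g, -1)) : Out G) = _
      rw [hΘ2, hφ, mul_assoc, QuotientGroup.mk_mul _ (MulAut.conj x), hconj, one_mul]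
  let f : E × ℤˣ ≃* Out G := MulEquiv.ofBijective Ψ ⟨hΨi, hΨs⟩
  refine ⟨⟨?_, ?_⟩, ⟨f.symm, fun g => ?_, ?_⟩, ⟨Θ.comp f.symm.toMonoidHom, fun o => ?_⟩⟩
  · rintro ⟨x, g, b⟩ ⟨x', g', b'⟩ hq
    have key : ∀ (x : G) (g : E) (b : Bool), (MulAut.conj x : MulAut G) * γ g *
        (if b = true then ε else 1) = MulAut.conj x * Θ (g, if b = true then -1 else 1) := by
      intro x g b
      cases b
      · simp [hΘ1]
      · simp [hΘ2, mul_assoc]
    have hq' : (MulAut.conj x : MulAut G) * Θ (g, if b = true then -1 else 1) =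
        MulAut.conj x' * Θ (g', if b' = true then -1 else 1) := by
      rw [← key, ← key]
      exact hq
    have h3 : Ψ (g, if b = true then -1 else 1) = Ψ (g', if b' = true then -1 else 1) := by
      have h4 := congrArg (fun φ : MulAut G => (QuotientGroup.mk φ : Out G)) hq'
      simp only [QuotientGroup.mk_mul, hconj, one_mul] at h4
      exact h4
    have h5 := hΨi h3
    rw [h5] at hq'
    have h6 := hinj x x' (mul_right_cancel hq')
    have h7 : g = g' := congrArg Prod.fst h5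
    have h8 : (if b = true then (-1 : ℤˣ) else 1) = if b' = true then -1 else 1 :=
      congrArg Prod.snd h5
    have h9 : b = b' := by
      cases b <;> cases b'
      · rfl
      · exact absurd h8 (by decide)
      · exact absurd h8 (by decide)
      · rfl
    rw [h6, h7, h9]
  · intro φ
    obtain ⟨x, g, hφ | hφ⟩ := h φ
    · exact ⟨(x, g, false), by rw [hφ]; simp⟩
    · exact ⟨(x, g, true), by rw [hφ]; simp⟩
  · rw [MulEquiv.symm_apply_eq]
    change _ = (QuotientGroup.mk (Θ (g, 1)) : Out G)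
    rw [hΘ1]
  · rw [MulEquiv.symm_apply_eq]
    change _ = (QuotientGroup.mk (Θ (1, -1)) : Out G)
    rw [hΘ2, map_one, one_mul]
  · exact f.apply_symm_apply o

/-- the swap of the nodes `0` and `1` -/
def pR (p : ℕ) : Equiv.Perm (Fin (p + 4 + 1)) := Equiv.swap ⟨0, by omega⟩ ⟨1, by omega⟩
/-- the swap of the nodes `n - 1` and `n` -/
def pL (p : ℕ) : Equiv.Perm (Fin (p + 4 + 1)) := Equiv.swap ⟨p + 3, by omega⟩ ⟨p + 4, by omega⟩
/-- the reversal `i ↦ n - i` -/
def pS (p : ℕ) : Equiv.Perm (Fin (p + 4 + 1)) := Fin.revPerm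

private lemma dno3_zero (n j : ℕ) (hn : 4 ≤ n) :
    dtE n 0 j = if 0 = j then 1 else if j = 2 then 3 else 2 := by
  unfold dtE
  by_cases h0 : 0 = j
  · rw [if_pos h0, if_pos h0]
  rw [if_neg h0, if_neg h0]
  by_cases h2 : j = 2
  · rw [if_pos h2, if_pos (by omega)]
  · rw [if_neg h2, if_neg (by omega), if_neg (by omega), if_neg (by omega)]

private lemma dno3_one (n j : ℕ) (hn : 4 ≤ n) :
    dtE n 1 j = if 1 = j then 1 else if j = 2 then 3 else 2 := by
  unfold dtE
  by_cases h0 : 1 = j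
  · rw [if_pos h0, if_pos h0]
  rw [if_neg h0, if_neg h0, if_neg (by omega)]
  by_cases h2 : j = 2
  · rw [if_pos h2, if_neg (by omega), if_pos (by omega)]
  · rw [if_neg h2, if_neg (by omega), if_neg (by omega)]

private lemma dno3_R (n i j i' j' : ℕ) (hn : 4 ≤ n)
    (hi : (i = 0 ∧ i' = 1) ∨ (i = 1 ∧ i' = 0) ∨ (2 ≤ i ∧ i' = i))
    (hj : (j = 0 ∧ j' = 1) ∨ (j = 1 ∧ j' = 0) ∨ (2 ≤ j ∧ j' = j)) :
    dtE n i' j' = dtE n i j := by
  have h01 : ∀ t, 2 ≤ t → dtE n 0 t = dtE n 1 t := by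
    intro t ht
    rw [dno3_zero n t hn, dno3_one n t hn, if_neg (show ¬ (0 = t) by omega),
      if_neg (show ¬ (1 = t) by omega)]
  rcases hi with ⟨rfl, rfl⟩ | ⟨rfl, rfl⟩ | ⟨hi, rfl⟩
  · rcases hj with ⟨rfl, rfl⟩ | ⟨rfl, rfl⟩ | ⟨hj, rfl⟩
    · rw [dtE_self, dtE_self]
    · exact dtE_symm n 1 0
    · exact (h01 _ hj).symm
  · rcases hj with ⟨rfl, rfl⟩ | ⟨rfl, rfl⟩ | ⟨hj, rfl⟩
    · exact dtE_symm n 0 1
    · rw [dtE_self, dtE_self]
    · exact h01 _ hj
  · rcases hj with ⟨rfl, rfl⟩ | ⟨rfl, rfl⟩ | ⟨hj, rfl⟩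
    · rw [dtE_symm n i' 1, dtE_symm n i' 0, h01 _ hi]
    · rw [dtE_symm n i' 1, dtE_symm n i' 0, h01 _ hi]
    · rfl

private lemma dno3_ite {P Q : Prop} [Decidable P] [Decidable Q] (a b : ℕ) :
    (if P then a else if Q then a else b) = if Q then a else if P then a else b := by
  split_ifs <;> rfl

private lemma dno3_S (n i j i' j' : ℕ) (hi : i + i' = n) (hj : j + j' = n) :
    dtE n i' j' = dtE n i j := by
  have e0 : i' = j' ↔ i = j := by omega
  have e1 : (i' = 0 ∧ j' = 2) ∨ (j' = 0 ∧ i' = 2) ↔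
      (i + 2 = n ∧ j = n) ∨ (j + 2 = n ∧ i = n) := by omega
  have e2 : (i' + 2 = n ∧ j' = n) ∨ (j' + 2 = n ∧ i' = n) ↔
      (i = 0 ∧ j = 2) ∨ (j = 0 ∧ i = 2) := by omega
  have e3 : (i' ≠ 0 ∧ j' = i' + 1 ∧ j' ≠ n) ∨ (j' ≠ 0 ∧ i' = j' + 1 ∧ i' ≠ n) ↔
      (i ≠ 0 ∧ j = i + 1 ∧ j ≠ n) ∨ (j ≠ 0 ∧ i = j + 1 ∧ i ≠ n) := by omega
  unfold dtE
  rw [dno3_ite (P := (i = 0 ∧ j = 2) ∨ (j = 0 ∧ i = 2))]
  simp only [e0, e1, e2, e3]

private lemma dno3_L (n i j i' j' : ℕ) (hn : 4 ≤ n)
    (hi : (i + 1 = n ∧ i' = n) ∨ (i = n ∧ i' + 1 = n) ∨ (i + 2 ≤ n ∧ i' = i))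
    (hj : (j + 1 = n ∧ j' = n) ∨ (j = n ∧ j' + 1 = n) ∨ (j + 2 ≤ n ∧ j' = j)) :
    dtE n i' j' = dtE n i j := by
  rw [← dno3_S n i' j' (n - i') (n - j') (by omega) (by omega),
    ← dno3_S n i j (n - i) (n - j) (by omega) (by omega)]
  exact dno3_R n _ _ _ _ hn (by omega) (by omega)

/-- piece DN-O3: the three permutations are automorphisms of the graph (`dtE`, case distinctions, `omega`) -/
theorem pR_mem (p : ℕ) : pR p ∈ GraphAut (Dt (p + 4)) := by
  intro s t
  have h : ∀ x : Fin (p + 4 + 1), ((x : ℕ) = 0 ∧ ((pR p x : Fin (p + 4 + 1)) : ℕ) = 1) ∨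
      ((x : ℕ) = 1 ∧ ((pR p x : Fin (p + 4 + 1)) : ℕ) = 0) ∨
      (2 ≤ (x : ℕ) ∧ ((pR p x : Fin (p + 4 + 1)) : ℕ) = x) := by
    intro x
    by_cases h0 : (x : ℕ) = 0
    · have hx : x = ⟨0, by omega⟩ := Fin.ext h0
      left
      refine ⟨h0, ?_⟩
      rw [hx, pR, Equiv.swap_apply_left]
    by_cases h1 : (x : ℕ) = 1
    · have hx : x = ⟨1, by omega⟩ := Fin.ext h1
      right; left
      refine ⟨h1, ?_⟩
      rw [hx, pR, Equiv.swap_apply_right]
    · right; right
      refine ⟨by omega, ?_⟩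
      rw [pR, Equiv.swap_apply_of_ne_of_ne (fun h => h0 (congrArg Fin.val h))
        (fun h => h1 (congrArg Fin.val h))]
  exact dno3_R _ _ _ _ _ (by omega) (h s) (h t)
/-- piece DN-O3 -/
theorem pL_mem (p : ℕ) : pL p ∈ GraphAut (Dt (p + 4)) := by
  intro s t
  have h : ∀ x : Fin (p + 4 + 1),
      ((x : ℕ) + 1 = p + 4 ∧ ((pL p x : Fin (p + 4 + 1)) : ℕ) = p + 4) ∨
      ((x : ℕ) = p + 4 ∧ ((pL p x : Fin (p + 4 + 1)) : ℕ) + 1 = p + 4) ∨
      ((x : ℕ) + 2 ≤ p + 4 ∧ ((pL p x : Fin (p + 4 + 1)) : ℕ) = x) := by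
    intro x
    have hx2 := x.2
    by_cases h0 : (x : ℕ) = p + 3
    · have hx : x = ⟨p + 3, by omega⟩ := Fin.ext h0
      left
      refine ⟨by omega, ?_⟩
      rw [hx, pL, Equiv.swap_apply_left]
    by_cases h1 : (x : ℕ) = p + 4
    · have hx : x = ⟨p + 4, by omega⟩ := Fin.ext h1
      right; left
      refine ⟨h1, ?_⟩
      rw [hx, pL, Equiv.swap_apply_right]
    · right; right
      refine ⟨by omega, ?_⟩
      rw [pL, Equiv.swap_apply_of_ne_of_ne (fun h => h0 (congrArg Fin.val h))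
        (fun h => h1 (congrArg Fin.val h))]
  exact dno3_L _ _ _ _ _ (by omega) (h s) (h t)
/-- piece DN-O3 -/
theorem pS_mem (p : ℕ) : pS p ∈ GraphAut (Dt (p + 4)) := by
  intro s t
  have h : ∀ x : Fin (p + 4 + 1), (x : ℕ) + ((pS p x : Fin (p + 4 + 1)) : ℕ) = p + 4 := by
    intro x
    unfold pS
    rw [Fin.revPerm_apply, Fin.val_rev]
    omega
  exact dno3_S _ _ _ _ _ (h s) (h t)

private lemma o4_iff {n i j : ℕ} : dtE n i j = 3 ↔ (i = 0 ∧ j = 2) ∨ (j = 0 ∧ i = 2) ∨
    (i + 2 = n ∧ j = n) ∨ (j + 2 = n ∧ i = n) ∨ (i ≠ 0 ∧ j = i + 1 ∧ j ≠ n) ∨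
    (j ≠ 0 ∧ i = j + 1 ∧ i ≠ n) := by
  unfold dtE
  split_ifs <;> omega

private lemma o4_deg {n x a b c : ℕ} (h1 : a ≠ b) (h2 : a ≠ c) (h3 : b ≠ c)
    (ha : dtE n x a = 3) (hb : dtE n x b = 3) (hc : dtE n x c = 3) : x = 2 ∨ x + 2 = n := by
  by_contra h
  have key : ∀ y, dtE n x y = 3 →
      (x = 0 ∧ y = 2) ∨ (x = n ∧ (y + 2 = n ∨ y = n + 1)) ∨
        (x ≠ 0 ∧ x ≠ n ∧ (y = x + 1 ∨ x = y + 1)) := by
    intro y hy
    rw [o4_iff] at hy
    omega
  have ha' := key a ha
  have hb' := key b hb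
  have hc' := key c hc
  clear ha hb hc key
  by_cases hx0 : x = 0
  · omega
  by_cases hxn : x = n
  · omega
  have ha2 : a = x + 1 ∨ x = a + 1 := by omega
  have hb2 : b = x + 1 ∨ x = b + 1 := by omega
  have hc2 : c = x + 1 ∨ x = c + 1 := by omega
  clear ha' hb' hc'
  omega

private lemma o4_two {n : ℕ} (hn : 5 ≤ n) {f : ℕ → ℕ}
    (h2 : ∀ x ≤ n, ∀ y ≤ n, f x = f y → x = y)
    (h4 : ∀ x ≤ n, ∀ y ≤ n, (dtE n (f x) (f y) = 3 ↔ dtE n x y = 3)) :
    (f 2 = 2 ∧ f (n - 2) + 2 = n) ∨ (f 2 + 2 = n ∧ f (n - 2) = 2) := by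
  have a1 : f 2 = 2 ∨ f 2 + 2 = n := by
    refine o4_deg (a := f 0) (b := f 1) (c := f 3) ?_ ?_ ?_ ?_ ?_ ?_
    · intro h; have := h2 0 (by omega) 1 (by omega) h; omega
    · intro h; have := h2 0 (by omega) 3 (by omega) h; omega
    · intro h; have := h2 1 (by omega) 3 (by omega) h; omega
    · rw [h4 2 (by omega) 0 (by omega), o4_iff]; omega
    · rw [h4 2 (by omega) 1 (by omega), o4_iff]; omega
    · rw [h4 2 (by omega) 3 (by omega), o4_iff]; omega
  have a2 : f (n - 2) = 2 ∨ f (n - 2) + 2 = n := by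
    refine o4_deg (a := f (n - 3)) (b := f (n - 1)) (c := f n) ?_ ?_ ?_ ?_ ?_ ?_
    · intro h; have := h2 _ (by omega) _ (by omega) h; omega
    · intro h; have := h2 _ (by omega) _ (by omega) h; omega
    · intro h; have := h2 _ (by omega) _ (by omega) h; omega
    · rw [h4 _ (by omega) _ (by omega), o4_iff]; omega
    · rw [h4 _ (by omega) _ (by omega), o4_iff]; omega
    · rw [h4 _ (by omega) _ (by omega), o4_iff]; omega
  have a3 : f 2 ≠ f (n - 2) := by
    intro h; have := h2 _ (by omega) _ (by omega) h; omega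
  omega

private lemma o4_main {n : ℕ} (hn : 5 ≤ n) {f : ℕ → ℕ}
    (h2 : ∀ x ≤ n, ∀ y ≤ n, f x = f y → x = y) (h3 : ∀ y ≤ n, ∃ x ≤ n, f x = y)
    (h4 : ∀ x ≤ n, ∀ y ≤ n, (dtE n (f x) (f y) = 3 ↔ dtE n x y = 3)) (h5 : f 2 = 2) :
    ((f 0 = 0 ∧ f 1 = 1) ∨ (f 0 = 1 ∧ f 1 = 0)) ∧
    ((f (n - 1) + 1 = n ∧ f n = n) ∨ (f (n - 1) = n ∧ f n + 1 = n)) ∧
    ∀ s, 2 ≤ s → s + 2 ≤ n → f s = s := by
  have h6 : f (n - 2) + 2 = n := by
    have := o4_two hn h2 h4
    omega
  have l0 : ∀ x ≤ n, dtE n x 2 = 3 → (∀ y ≤ n, dtE n x y = 3 → y = 2) → f x = 0 ∨ f x = 1 := by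
    intro x hx h7 h8
    have h9 : dtE n (f x) (f 2) = 3 := (h4 x hx 2 (by omega)).2 h7
    rw [h5, o4_iff] at h9
    by_contra h10
    have h11 : f x = 3 := by omega
    obtain ⟨z, hz, hz2⟩ := h3 4 (by omega)
    have h12 : dtE n (f x) (f z) = 3 := by
      rw [h11, hz2, o4_iff]; omega
    have h13 := h8 z hz ((h4 x hx z hz).1 h12)
    rw [h13, h5] at hz2
    omega
  have l1 : ∀ x ≤ n, dtE n x (n - 2) = 3 → (∀ y ≤ n, dtE n x y = 3 → y = n - 2) →
      f x + 1 = n ∨ f x = n := by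
    intro x hx h7 h8
    have h9 : dtE n (f x) (f (n - 2)) = 3 := (h4 x hx (n - 2) (by omega)).2 h7
    have h6' : f (n - 2) = n - 2 := by omega
    rw [h6', o4_iff] at h9
    by_contra h10
    have h11 : f x = n - 3 := by omega
    obtain ⟨z, hz, hz2⟩ := h3 (n - 4) (by omega)
    have h12 : dtE n (f x) (f z) = 3 := by
      rw [h11, hz2, o4_iff]; omega
    have h13 := h8 z hz ((h4 x hx z hz).1 h12)
    rw [h13] at hz2
    omega
  have b0 : f 0 = 0 ∨ f 0 = 1 := l0 0 (by omega) (o4_iff.2 (by omega))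
    (fun y _ h => by rw [o4_iff] at h; omega)
  have b1 : f 1 = 0 ∨ f 1 = 1 := l0 1 (by omega) (o4_iff.2 (by omega))
    (fun y _ h => by rw [o4_iff] at h; omega)
  have b2 : f (n - 1) + 1 = n ∨ f (n - 1) = n := l1 (n - 1) (by omega) (o4_iff.2 (by omega))
    (fun y _ h => by rw [o4_iff] at h; omega)
  have b3 : f n + 1 = n ∨ f n = n := l1 n le_rfl (o4_iff.2 (by omega))
    (fun y _ h => by rw [o4_iff] at h; omega)
  have b4 : f 0 ≠ f 1 := by
    intro h; have := h2 _ (by omega) _ (by omega) h; omega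
  have b5 : f (n - 1) ≠ f n := by
    intro h; have := h2 _ (by omega) _ (by omega) h; omega
  refine ⟨by omega, by omega, ?_⟩
  intro s
  induction s using Nat.strong_induction_on with
  | _ s ih =>
    intro hs1 hs2
    rcases Nat.eq_or_lt_of_le hs1 with h | h
    · rw [← h]; exact h5
    · have i1 := ih (s - 1) (by omega) (by omega) (by omega)
      have i2 : dtE n (f (s - 1)) (f s) = 3 := by
        rw [h4 _ (by omega) _ (by omega), o4_iff]; omega
      rw [i1, o4_iff] at i2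
      have i3 : f s ≠ f 0 := by
        intro h; have := h2 _ (by omega) _ (by omega) h; omega
      have i4 : f s ≠ f 1 := by
        intro h; have := h2 _ (by omega) _ (by omega) h; omega
      rcases Nat.eq_or_lt_of_le (show 3 ≤ s by omega) with h' | h'
      · omega
      · have i5 := ih (s - 2) (by omega) (by omega) (by omega)
        have i6 : f s ≠ f (s - 2) := by
          intro h; have := h2 _ (by omega) _ (by omega) h; omega
        omega

private lemma o4_perm {p : ℕ} (hp : 1 ≤ p) {g : Equiv.Perm (Fin (p + 4 + 1))}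
    (hg : g ∈ GraphAut (Dt (p + 4))) (h5 : (g ⟨2, by omega⟩ : ℕ) = 2) :
    ∃ i j : Bool, g = (if i then pL p else 1) * (if j then pR p else 1) := by
  have e : ∀ s t : Fin (p + 4 + 1), dtE (p + 4) (g s) (g t) = dtE (p + 4) s t := hg
  obtain ⟨c1, c2, c3⟩ := o4_main (n := p + 4) (by omega)
    (f := fun x => if h : x < p + 4 + 1 then (g ⟨x, h⟩ : ℕ) else 0)
    (fun x hx y hy h => by
      rw [dif_pos (by omega), dif_pos (by omega)] at h
      have := g.injective (Fin.ext h)
      exact congrArg Fin.val this)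
    (fun y hy => ⟨(g.symm ⟨y, by omega⟩ : Fin _), by
      have := (g.symm ⟨y, by omega⟩ : Fin (p + 4 + 1)).2
      omega, by
      rw [dif_pos (g.symm ⟨y, by omega⟩ : Fin (p + 4 + 1)).2, Fin.eta, Equiv.apply_symm_apply]⟩)
    (fun x hx y hy => by
      rw [dif_pos (by omega), dif_pos (by omega), e])
    (by rw [dif_pos (by omega)]; exact h5)
  rw [dif_pos (by omega), dif_pos (by omega)] at c1
  rw [dif_pos (by omega), dif_pos (by omega)] at c2
  have k : ∀ (i j : Bool) , (∀ x (hx : x < p + 4 + 1), (g ⟨x, hx⟩ : ℕ) =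
      if x = 0 then (if j then 1 else 0) else if x = 1 then (if j then 0 else 1)
      else if x = p + 3 then (if i then p + 4 else p + 3)
      else if x = p + 4 then (if i then p + 3 else p + 4) else x) →
      g = (if i then pL p else 1) * (if j then pR p else 1) := by
    intro i j h
    ext ⟨x, hx⟩
    rw [h x hx, Equiv.Perm.mul_apply]
    cases i <;> cases j <;>
      simp only [Bool.false_eq_true, if_false, if_true, Equiv.Perm.one_apply, pL, pR,
        Equiv.swap_apply_def, Fin.ext_iff] <;> split_ifs <;> (try omega) <;> (try rfl) <;>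
          simp_all
  refine ⟨decide ((g ⟨p + 4, by omega⟩ : ℕ) = p + 3), decide ((g ⟨0, by omega⟩ : ℕ) = 1),
    k _ _ ?_⟩
  intro x hx
  by_cases x0 : x = 0
  · subst x0
    rw [if_pos rfl]
    simp only [decide_eq_true_eq]
    split_ifs <;> omega
  by_cases x1 : x = 1
  · subst x1
    rw [if_neg x0, if_pos rfl]
    simp only [decide_eq_true_eq]
    split_ifs <;> omega
  by_cases x2 : x = p + 3
  · subst x2
    have c2' : ((g ⟨p + 3, hx⟩ : ℕ) + 1 = p + 4 ∧ (g ⟨p + 4, by omega⟩ : ℕ) = p + 4) ∨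
        ((g ⟨p + 3, hx⟩ : ℕ) = p + 4 ∧ (g ⟨p + 4, by omega⟩ : ℕ) + 1 = p + 4) := c2
    rw [if_neg x0, if_neg x1, if_pos rfl]
    simp only [decide_eq_true_eq]
    split_ifs <;> omega
  by_cases x3 : x = p + 4
  · subst x3
    have c2' : ((g ⟨p + 3, by omega⟩ : ℕ) + 1 = p + 4 ∧ (g ⟨p + 4, by omega⟩ : ℕ) = p + 4) ∨
        ((g ⟨p + 3, by omega⟩ : ℕ) = p + 4 ∧ (g ⟨p + 4, by omega⟩ : ℕ) + 1 = p + 4) := c2
    rw [if_neg x0, if_neg x1, if_neg x2, if_pos rfl]
    simp only [decide_eq_true_eq]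
    split_ifs <;> omega
  have := c3 x (by omega) (by omega)
  rw [dif_pos hx] at this
  rw [if_neg x0, if_neg x1, if_neg x2, if_neg x3, this]

/-- piece DN-O4: the automorphisms of the graph for `n = p + 4 ≥ 5`.
Proof. The nodes `2` and `n - 2` are the only ones with three neighbours (`dtE = 3`), so `g` preserves
`{2, n-2}`; if it exchanges them, replace `g` by `pS g`. Then `g 2 = 2`, `g (n-2) = n-2`; the neighbours of `2` with
only one neighbour are `0` and `1`, so `g` preserves `{0, 1}` and similarly `{n-1, n}`; compose with `pR`, `pL` to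
fix the four leaves. Then `g i = i` for `2 ≤ i ≤ n - 2` by induction: `g (i+1)` is a neighbour of `g i = i` and different
from the images of the other neighbours. -/
theorem graphAut_cases {p : ℕ} (hp : 1 ≤ p) {g : Equiv.Perm (Fin (p + 4 + 1))}
    (hg : g ∈ GraphAut (Dt (p + 4))) :
    ∃ i j l : Bool, g = (if i then pL p else 1) * (if j then pR p else 1) * (if l then pS p else 1) := by
  have e : ∀ s t : Fin (p + 4 + 1), dtE (p + 4) (g s) (g t) = dtE (p + 4) s t := hg
  have c := o4_two (n := p + 4) (by omega)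
    (f := fun x => if h : x < p + 4 + 1 then (g ⟨x, h⟩ : ℕ) else 0)
    (fun x hx y hy h => by
      rw [dif_pos (by omega), dif_pos (by omega)] at h
      have := g.injective (Fin.ext h)
      exact congrArg Fin.val this)
    (fun x hx y hy => by
      rw [dif_pos (by omega), dif_pos (by omega), e])
  rw [dif_pos (by omega), dif_pos (by omega)] at c
  rcases c with c | c
  · obtain ⟨i, j, h⟩ := o4_perm hp hg c.1
    exact ⟨i, j, false, by rw [h]; simp⟩
  · have hS : g * pS p ∈ GraphAut (Dt (p + 4)) := Subgroup.mul_mem _ hg (pS_mem p)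
    have h5 : ((g * pS p) ⟨2, by omega⟩ : ℕ) = 2 := by
      have e2 : pS p ⟨2, by omega⟩ = ⟨p + 4 - 2, by omega⟩ := by
        apply Fin.ext
        change p + 4 + 1 - (2 + 1) = p + 4 - 2
        omega
      rw [Equiv.Perm.mul_apply, e2]
      exact c.2
    obtain ⟨i, j, h⟩ := o4_perm hp hS h5
    refine ⟨i, j, true, ?_⟩
    have e3 : pS p * pS p = 1 := by
      ext x
      change ((Fin.rev (Fin.rev x) : Fin (p + 4 + 1)) : ℕ) = x
      rw [Fin.rev_rev]
    rw [← h, mul_assoc, if_pos rfl, e3, mul_one]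

private lemma o5_R (p : ℕ) (x : Fin (p + 4 + 1)) :
    (pR p x).val = if x.val = 0 then 1 else if x.val = 1 then 0 else x.val := by
  unfold pR
  rw [Equiv.swap_apply_def]
  simp only [Fin.ext_iff]
  split_ifs <;> rfl

private lemma o5_L (p : ℕ) (x : Fin (p + 4 + 1)) :
    (pL p x).val = if x.val = p + 3 then p + 4 else if x.val = p + 4 then p + 3 else x.val := by
  unfold pL
  rw [Equiv.swap_apply_def]
  simp only [Fin.ext_iff]
  split_ifs <;> rfl

private lemma o5_S (p : ℕ) (x : Fin (p + 4 + 1)) : (pS p x).val = p + 4 - x.val := by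
  unfold pS
  rw [Fin.revPerm_apply, Fin.val_rev]
  omega

private lemma o5_SL (p : ℕ) : pS p * pL p = pR p * pS p := by
  refine Equiv.ext fun x => Fin.ext ?_
  have hx := x.isLt
  rw [Equiv.Perm.mul_apply, Equiv.Perm.mul_apply, o5_S, o5_L, o5_R, o5_S]
  split_ifs <;> omega

private lemma o5_LR (p : ℕ) : pL p * pR p = pR p * pL p := by
  refine Equiv.ext fun x => Fin.ext ?_
  have hx := x.isLt
  rw [Equiv.Perm.mul_apply, Equiv.Perm.mul_apply]
  by_cases h0 : x.val = 0 ∨ x.val = 1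
  · have h1 : (pL p x).val = x.val := by rw [o5_L, if_neg (by omega), if_neg (by omega)]
    have h2 : (pR p x).val = 1 - x.val := by
      rw [o5_R]
      split_ifs <;> omega
    rw [o5_L, h2, if_neg (by omega), if_neg (by omega), o5_R, h1]
    split_ifs <;> omega
  · have h2 : (pR p x).val = x.val := by rw [o5_R, if_neg (by omega), if_neg (by omega)]
    have h1 : 2 ≤ (pL p x).val := by
      rw [o5_L]
      split_ifs <;> omega
    have h3 : (pR p (pL p x)).val = (pL p x).val := by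
      rw [o5_R, if_neg (by omega), if_neg (by omega)]
    rw [h3, o5_L, h2, o5_L]

private lemma o5_SS (p : ℕ) : pS p * pS p = 1 := by
  refine Equiv.ext fun x => Fin.ext ?_
  have hx := x.isLt
  rw [Equiv.Perm.mul_apply, o5_S, o5_S, Equiv.Perm.one_apply]
  omega

private lemma o5_LL (p : ℕ) : pL p * pL p = 1 := Equiv.swap_mul_self _ _
private lemma o5_RR (p : ℕ) : pR p * pR p = 1 := Equiv.swap_mul_self _ _

private lemma o5_mod {E : Type*} [Group E] {ρ : E} (h : ρ ^ 4 = 1) (m : ℕ) :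
    ρ ^ (m % 4) = ρ ^ m := by
  conv_rhs => rw [← Nat.div_add_mod m 4, pow_add, pow_mul, h, one_pow, one_mul]

/-- the homomorphism from the dihedral group of order eight -/
private def o5_hom {E : Type*} [Group E] {ρ σ : E} (h4 : ρ ^ 4 = 1) (hs : σ * σ = 1)
    (hc : σ * ρ * σ = ρ⁻¹) : DihedralGroup 4 →* E :=
  MonoidHom.mk' (fun x => match x with
    | DihedralGroup.r i => ρ ^ i.val
    | DihedralGroup.sr i => σ * ρ ^ i.val) (by
  have hadd : ∀ i j : ZMod 4, ρ ^ (i + j).val = ρ ^ i.val * ρ ^ j.val := by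
    intro i j
    rw [ZMod.val_add, o5_mod h4, pow_add]
  have hsub : ∀ i j : ZMod 4, ρ ^ (j - i).val = (ρ ^ i.val)⁻¹ * ρ ^ j.val := by
    intro i j
    have h1 := hadd i (j - i)
    rw [add_sub_cancel] at h1
    rw [h1, inv_mul_cancel_left]
  have hσ : σ⁻¹ = σ := inv_eq_of_mul_eq_one_left hs
  have hconj : ∀ m : ℕ, σ * ρ ^ m * σ = (ρ ^ m)⁻¹ := by
    intro m
    have h1 : (σ * ρ * σ⁻¹) ^ m = σ * ρ ^ m * σ⁻¹ := conj_pow
    rw [hσ, hc, inv_pow] at h1
    exact h1.symm
  have hconj' : ∀ m : ℕ, ρ ^ m * σ = σ * (ρ ^ m)⁻¹ := by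
    intro m
    rw [← hconj m, ← mul_assoc, ← mul_assoc, hs, one_mul]
  intro a b
  match a, b with
  | DihedralGroup.r i, DihedralGroup.r j => exact hadd i j
  | DihedralGroup.r i, DihedralGroup.sr j =>
    change σ * ρ ^ (j - i).val = ρ ^ i.val * (σ * ρ ^ j.val)
    rw [hsub, ← mul_assoc, ← mul_assoc, hconj']
  | DihedralGroup.sr i, DihedralGroup.r j =>
    change σ * ρ ^ (i + j).val = σ * ρ ^ i.val * ρ ^ j.val
    rw [hadd, mul_assoc]
  | DihedralGroup.sr i, DihedralGroup.sr j =>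
    change ρ ^ (j - i).val = σ * ρ ^ i.val * (σ * ρ ^ j.val)
    rw [hsub, ← mul_assoc, hconj])

/-- piece DN-O5: the graph automorphism group for `n ≥ 5` is the dihedral group of order eight.
Proof. `ρ = pL pS` has order `4`, `pS ρ pS = ρ⁻¹`; `r i ↦ ρ^i`, `sr i ↦ pS ρ^i` is a homomorphism
`DihedralGroup 4 → GraphAut`, injective (images of the nodes `0, 1, n-1, n`) and surjective (`graphAut_cases`). -/
theorem graphAut_D4 {p : ℕ} (hp : 1 ≤ p) :
    Nonempty (GraphAut (Dt (p + 4)) ≃* DihedralGroup 4) := by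
  have eSL := o5_SL p
  have eLR := o5_LR p
  have eSS := o5_SS p
  have eLL := o5_LL p
  have eRR := o5_RR p
  have eSR : pS p * pR p = pL p * pS p := by
    calc pS p * pR p = pS p * (pR p * pS p) * pS p := by
          rw [mul_assoc, mul_assoc, eSS, mul_one]
      _ = pL p * pS p := by rw [← eSL, ← mul_assoc, eSS, one_mul]
  -- powers of `pL * pS`
  have e2 : (pL p * pS p) ^ 2 = pL p * pR p := by
    calc (pL p * pS p) ^ 2 = pL p * (pS p * pL p) * pS p := by rw [pow_two]; simp only [mul_assoc]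
      _ = pL p * pR p := by rw [eSL, ← mul_assoc, mul_assoc _ (pS p) (pS p), eSS, mul_one]
  have e3 : (pL p * pS p) ^ 3 = pR p * pS p := by
    rw [pow_succ, e2, eLR]
    calc pR p * pL p * (pL p * pS p) = pR p * (pL p * pL p) * pS p := by simp only [mul_assoc]
      _ = pR p * pS p := by rw [eLL, mul_one]
  have e4 : (pL p * pS p) ^ 4 = 1 := by
    have h : (pL p * pS p) ^ 4 = ((pL p * pS p) ^ 2) ^ 2 := by rw [← pow_mul]
    rw [h, e2, pow_two]
    calc pL p * pR p * (pL p * pR p) = pL p * (pR p * pL p) * pR p := by simp only [mul_assoc]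
      _ = (pL p * pL p) * (pR p * pR p) := by rw [← eLR]; simp only [mul_assoc]
      _ = 1 := by rw [eLL, eRR, one_mul]
  have ec : pS p * (pL p * pS p) * pS p = (pL p * pS p)⁻¹ := by
    symm
    refine inv_eq_of_mul_eq_one_right ?_
    calc pL p * pS p * (pS p * (pL p * pS p) * pS p)
        = pL p * (pS p * pS p) * pL p * (pS p * pS p) := by simp only [mul_assoc]
      _ = 1 := by rw [eSS, mul_one, mul_one, eLL]
  let ρ : GraphAut (Dt (p + 4)) := ⟨pL p * pS p, mul_mem (pL_mem p) (pS_mem p)⟩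
  let σ : GraphAut (Dt (p + 4)) := ⟨pS p, pS_mem p⟩
  have hρ4 : ρ ^ 4 = 1 := Subtype.ext e4
  have hσ2 : σ * σ = 1 := Subtype.ext eSS
  have hc : σ * ρ * σ = ρ⁻¹ := Subtype.ext ec
  let f : DihedralGroup 4 →* GraphAut (Dt (p + 4)) := o5_hom hρ4 hσ2 hc
  have fr : ∀ i : ZMod 4, (f (DihedralGroup.r i)).1 = (pL p * pS p) ^ i.val := fun i => rfl
  have fsr : ∀ i : ZMod 4, (f (DihedralGroup.sr i)).1 = pS p * (pL p * pS p) ^ i.val :=
    fun i => rfl
  have v0 : (0 : ZMod 4).val = 0 := rfl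
  have v1 : (1 : ZMod 4).val = 1 := rfl
  have v2 : (2 : ZMod 4).val = 2 := rfl
  have v3 : (3 : ZMod 4).val = 3 := rfl
  -- the values
  have s1 : pS p * (pL p * pS p) = pR p := by
    rw [← mul_assoc, eSL, mul_assoc, eSS, mul_one]
  have s2 : pS p * (pL p * pR p) = pL p * pR p * pS p := by
    rw [← mul_assoc, eSL, mul_assoc, eSR, ← mul_assoc, ← eLR]
  have s3 : pS p * (pR p * pS p) = pL p := by
    rw [← mul_assoc, eSR, mul_assoc, eSS, mul_one]
  have hcas : ∀ i : ZMod 4, i = 0 ∨ i = 1 ∨ i = 2 ∨ i = 3 := by decide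
  have hinj : Function.Injective f := by
    rw [injective_iff_map_eq_one]
    intro x hx
    have hx1 : (f x).1 = 1 := congrArg Subtype.val hx
    have hev : ∀ y : Fin (p + 4 + 1), ((f x).1 y).val = y.val := fun y => by
      rw [hx1, Equiv.Perm.one_apply]
    have h0 := hev ⟨0, by omega⟩
    have hn := hev ⟨p + 4, by omega⟩
    match x, h0, hn with
    | DihedralGroup.r i, h0, hn =>
      rw [fr] at h0 hn
      rcases hcas i with rfl | rfl | rfl | rfl
      · rfl
      · rw [v1, pow_one, Equiv.Perm.mul_apply, o5_L, o5_S] at h0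
        split_ifs at h0
      · rw [v2, e2, Equiv.Perm.mul_apply, o5_L, o5_R] at h0
        simp at h0
      · rw [v3, e3, Equiv.Perm.mul_apply, o5_R, o5_S] at h0
        simp at h0
    | DihedralGroup.sr i, h0, hn =>
      rw [fsr] at h0 hn
      rcases hcas i with rfl | rfl | rfl | rfl
      · rw [v0, pow_zero, mul_one, o5_S] at h0
        simp at h0
      · rw [v1, pow_one, s1, o5_R] at h0
        simp at h0
      · rw [v2, e2, s2, Equiv.Perm.mul_apply, Equiv.Perm.mul_apply, o5_L, o5_R, o5_S] at h0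
        simp at h0
      · rw [v3, e3, s3, o5_L] at hn
        simp at hn
  have hsurj : Function.Surjective f := by
    intro g
    obtain ⟨i, j, l, hg⟩ := graphAut_cases hp g.2
    cases i <;> cases j <;> cases l
    · refine ⟨1, Subtype.ext ?_⟩
      rw [hg]
      rfl
    · refine ⟨DihedralGroup.sr 0, Subtype.ext ?_⟩
      rw [hg, fsr, v0, pow_zero]
      simp
    · refine ⟨DihedralGroup.sr 1, Subtype.ext ?_⟩
      rw [hg, fsr, v1, pow_one, s1]
      simp
    · refine ⟨DihedralGroup.r 3, Subtype.ext ?_⟩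
      rw [hg, fr, v3, e3]
      simp
    · refine ⟨DihedralGroup.sr 3, Subtype.ext ?_⟩
      rw [hg, fsr, v3, e3, s3]
      simp
    · refine ⟨DihedralGroup.r 1, Subtype.ext ?_⟩
      rw [hg, fr, v1, pow_one]
      simp
    · refine ⟨DihedralGroup.r 2, Subtype.ext ?_⟩
      rw [hg, fr, v2, e2]
      simp
    · refine ⟨DihedralGroup.sr 2, Subtype.ext ?_⟩
      rw [hg, fsr, v2, e2, s2]
      simp
  exact ⟨(MulEquiv.ofBijective f ⟨hinj, hsurj⟩).symm⟩

section
variable {p : ℕ}

private lemma o6_a {i : Fin (p + 4 + 1)} {j : ℕ} (hj : j < p + 3) (h : i.val = p + 3 - j) :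
    (PresentedGroup.of i : D p) = aD j := by
  unfold aD
  rw [if_pos hj]
  congr 1
  exact Fin.ext h

private lemma o6_b {i : Fin (p + 4 + 1)} (h : i.val = 0) : (PresentedGroup.of i : D p) = bD := by
  unfold bD
  congr 1
  exact Fin.ext h

private lemma o6_e {i : Fin (p + 4 + 1)} (h : i.val = p + 4) :
    (PresentedGroup.of i : D p) = eD := by
  unfold eD
  congr 1
  exact Fin.ext h

private lemma o6_ext {g : GraphAut (Dt (p + 4))} {f : MulAut (D p)}
    (ha : ∀ j, (hj : j < p + 3) →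
      (PresentedGroup.of (g.1 ⟨p + 3 - j, by omega⟩) : D p) = f (aD j))
    (hb : (PresentedGroup.of (g.1 ⟨0, by omega⟩) : D p) = f bD)
    (he : (PresentedGroup.of (g.1 ⟨p + 4, by omega⟩) : D p) = f eD) :
    gam (Dt (p + 4)) g = f := by
  have h : (gam (Dt (p + 4)) g).toMonoidHom = f.toMonoidHom := by
    apply homD_ext
    · intro j hj
      change gam (Dt (p + 4)) g (aD j) = f (aD j)
      rw [← ha j hj, ← gam_of]
      congr 1
      unfold aD
      rw [if_pos hj]
    · change gam (Dt (p + 4)) g bD = f bD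
      rw [← hb, ← gam_of]
      rfl
    · change gam (Dt (p + 4)) g eD = f eD
      rw [← he, ← gam_of]
      rfl
  ext x
  exact DFunLike.congr_fun h x

/-- piece DN-O6: the automorphisms `tLa`, `tRa`, `sg` of `D p` are the graph automorphisms
(`aD j = of (p+3-j)`, `bD = of 0`, `eD = of (p+4)`; `homD_ext`) -/
theorem gam_pL : gam (Dt (p + 4)) ⟨pL p, pL_mem p⟩ = tLa p := by
  apply o6_ext
  · intro j hj
    rcases Nat.eq_zero_or_pos j with rfl | h0
    · rw [tLa_a0]
      apply o6_e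
      rw [o5_L, if_pos (by simp)]
    · rw [tLa_a h0 hj]
      apply o6_a hj
      rw [o5_L, if_neg (by simp only; omega), if_neg (by simp only; omega)]
  · rw [tLa_b]
    apply o6_b
    rw [o5_L, if_neg (by simp only; omega), if_neg (by simp only; omega)]
  · rw [tLa_e]
    apply o6_a (by omega)
    rw [o5_L, if_neg (by simp only; omega), if_pos rfl, Nat.sub_zero]
/-- piece DN-O6 -/
theorem gam_pR : gam (Dt (p + 4)) ⟨pR p, pR_mem p⟩ = tRa p := by
  apply o6_ext
  · intro j hj
    by_cases h0 : j = p + 2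
    · subst h0
      rw [tRa_a']
      apply o6_b
      rw [o5_R, if_neg (by simp only; omega), if_pos (by simp only; omega)]
    · rw [tRa_a (by omega)]
      apply o6_a hj
      rw [o5_R, if_neg (by simp only; omega), if_neg (by simp only; omega)]
  · rw [tRa_b]
    apply o6_a (by omega)
    rw [o5_R, if_pos rfl]
    omega
  · rw [tRa_e]
    apply o6_e
    rw [o5_R, if_neg (by simp only; omega), if_neg (by simp only; omega)]
/-- piece DN-O6 -/
theorem gam_pS : gam (Dt (p + 4)) ⟨pS p, pS_mem p⟩ = sg p := by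
  apply o6_ext
  · intro j hj
    rw [sg_a hj]
    apply o6_a (by omega)
    rw [o5_S]
    simp only
    omega
  · rw [sg_b]
    apply o6_e
    rw [o5_S]
    simp only
    omega
  · rw [sg_e]
    apply o6_b
    rw [o5_S]
    simp only
    omega
/-- piece DN-O6 -/
theorem invertsGens_eps : InvertsGens (Dt (p + 4)) (eps p) := by
  intro i
  rcases genD_cases i with h | h | ⟨j, hj, h⟩
  · rw [h, eps_b]
  · rw [h, eps_e]
  · rw [h, eps_a hj]
/-- piece DN-O6 (`homD_ext` or `PresentedGroup.ext`) -/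
theorem eps_gam (g : GraphAut (Dt (p + 4))) :
    eps p * gam (Dt (p + 4)) g = gam (Dt (p + 4)) g * eps p := by
  have h : (eps p * gam (Dt (p + 4)) g).toMonoidHom = (gam (Dt (p + 4)) g * eps p).toMonoidHom := by
    apply PresentedGroup.ext
    intro i
    change eps p (gam (Dt (p + 4)) g (PresentedGroup.of i)) =
      gam (Dt (p + 4)) g (eps p (PresentedGroup.of i))
    rw [gam_of, invertsGens_eps, invertsGens_eps, map_inv, gam_of]
  ext x
  exact DFunLike.congr_fun h x

end

/-- the statement for one Coxeter matrix -/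
def Stmt {n : ℕ} (M : CoxeterMatrix (Fin (n + 1))) : Prop :=
  ∃ (ε : MulAut (Artin M)) (γ : GraphAut M →* MulAut (Artin M)), InvertsGens M ε ∧ Permutes M γ ∧
    ε * ε = 1 ∧ (∀ g, ε * γ g = γ g * ε) ∧ UniqueFormG (Artin M) ε γ ∧
    OutProd (Artin M) ε γ ∧ Splits (Artin M)

end Pool.Agent.Helper20.DN
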