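import Pool.Agent.Helper38.BN.Core

/-!
# Project DN: the free product `W k` of `k + 1` groups of order two

`W k` has the generators `xW 0, …, xW k`, `RW k` is their product; `wA j` (`j < k`) is the action of the
braid generator: `x_j ↦ x_j x_{j+1} x_j`, `x_{j+1} ↦ x_j`.  `pG : G k → W k` kills `y` and `sG : W k → G k` is
the inclusion.  `lenW` is the length of the reduced word.
-/

namespace Pool.Agent.Helper20.DN

open Pool.Agent.Helper38.BN
open Monoid

/-- the free product of `k + 1` groups of order two -/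
abbrev W (k : ℕ) : Type := CoprodI (fun _ : Fin (k + 1) => ℤˣ)

/-- the generators of `W k` (the element `1` for `i > k`) -/
def xW {k : ℕ} (i : ℕ) : W k :=
  if h : i < k + 1 then CoprodI.of (M := fun _ : Fin (k + 1) => ℤˣ) (i := ⟨i, h⟩) (-1) else 1

section
variable {k : ℕ} {K : Type*} [Group K]

lemma xW_of {i : ℕ} (h : i < k + 1) : (xW i : W k) =
    CoprodI.of (M := fun _ : Fin (k + 1) => ℤˣ) (i := ⟨i, h⟩) (-1) := dif_pos h

lemma xW_ge {i : ℕ} (h : k + 1 ≤ i) : (xW i : W k) = 1 := dif_neg (by omega)

@[simp] lemma xW_sq (i : ℕ) : (xW i : W k) * xW i = 1 := by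
  rcases Nat.lt_or_ge i (k + 1) with h | h
  · rw [xW_of h, ← map_mul]
    have : (-1 : ℤˣ) * (-1) = 1 := by simp
    rw [this, map_one]
  · rw [xW_ge h, one_mul]

@[simp] lemma xW_sq' (i : ℕ) (g : W k) : (xW i : W k) * (xW i * g) = g := by
  rw [← mul_assoc, xW_sq, one_mul]

@[simp] lemma xW_inv (i : ℕ) : (xW i : W k)⁻¹ = xW i := inv_eq_of_mul_eq_one_left (xW_sq i)

/-- the universal property of `W k` -/
def liftW (X : ℕ → K) (hX : ∀ i, i ≤ k → X i * X i = 1) : W k →* K :=
  CoprodI.lift (fun i : Fin (k + 1) => c2hom (X i) (hX i (by omega)))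

lemma liftW_x (X : ℕ → K) (hX : ∀ i, i ≤ k → X i * X i = 1) {i : ℕ} (h : i ≤ k) :
    liftW X hX (xW i) = X i := by
  rw [xW_of (by omega)]
  unfold liftW
  rw [CoprodI.lift_of]
  exact c2hom_neg (X i) (hX i h)

lemma homW_ext {f g : W k →* K} (hx : ∀ i, i ≤ k → f (xW i) = g (xW i)) : f = g := by
  apply CoprodI.ext_hom
  intro i
  apply homC2_ext
  have h3 := hx i.val (by omega)
  rwa [xW_of i.isLt] at h3

end

/-- the projection `G k → W k` which kills `y` -/
def pG (k : ℕ) : G k →* W k := liftG xW (fun i _ => xW_sq i) 1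

/-- the inclusion `W k → G k` -/
def sG (k : ℕ) : W k →* G k := liftW xG (fun i _ => xG_sq i)

/-- the product `x_0 ⋯ x_j` in `W k` -/
def xwW {k : ℕ} : ℕ → W k
  | 0 => xW 0
  | j + 1 => xwW j * xW (j + 1)

/-- the element `R = x_0 ⋯ x_k` -/
def RW (k : ℕ) : W k := xwW k

/-- images under `α_j` -/
def wC {k : ℕ} (j i : ℕ) : W k :=
  if i = j then xW j * xW (j + 1) * xW j else if i = j + 1 then xW j else xW i

/-- images under `α_j⁻¹` -/
def wC' {k : ℕ} (j i : ℕ) : W k :=
  if i = j then xW (j + 1) else if i = j + 1 then xW (j + 1) * xW j * xW (j + 1) else xW i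

section
variable {k : ℕ}

lemma wC_sq (j i : ℕ) : (wC j i : W k) * wC j i = 1 := by
  unfold wC; split_ifs <;> simp [mul_assoc]

lemma wC'_sq (j i : ℕ) : (wC' j i : W k) * wC' j i = 1 := by
  unfold wC'; split_ifs <;> simp [mul_assoc]

/-- the homomorphism `α_j` -/
def wAh (j : ℕ) : W k →* W k := liftW (wC j) (fun i _ => wC_sq j i)
/-- the homomorphism `α_j⁻¹` -/
def wAh' (j : ℕ) : W k →* W k := liftW (wC' j) (fun i _ => wC'_sq j i)

/-- piece DN-W1. Proof. `homW_ext` as in `g_inv1` (Acts.lean) -/
theorem wA_inv1 {j : ℕ} (hj : j < k) (x : W k) : wAh j (wAh' j x) = x := by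
  have h : (wAh (k := k) j).comp (wAh' j) = MonoidHom.id (W k) := by
    apply homW_ext
    intro i hi
    rw [MonoidHom.comp_apply, MonoidHom.id_apply]
    unfold wAh wAh'
    rw [liftW_x _ _ hi]
    unfold wC'
    split_ifs with h1 h2
    · subst h1
      rw [liftW_x _ _ (by omega)]; simp [wC]
    · subst h2
      rw [map_mul, map_mul, liftW_x _ _ (by omega), liftW_x _ _ (by omega)]
      simp [wC, mul_assoc]
    · rw [liftW_x _ _ hi]; simp [wC, h1, h2]
  exact DFunLike.congr_fun h x
/-- piece DN-W1 -/
theorem wA_inv2 {j : ℕ} (hj : j < k) (x : W k) : wAh' j (wAh j x) = x := by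
  have h : (wAh' (k := k) j).comp (wAh j) = MonoidHom.id (W k) := by
    apply homW_ext
    intro i hi
    rw [MonoidHom.comp_apply, MonoidHom.id_apply]
    unfold wAh wAh'
    rw [liftW_x _ _ hi]
    unfold wC
    split_ifs with h1 h2
    · subst h1
      rw [map_mul, map_mul, liftW_x _ _ (by omega), liftW_x _ _ (by omega)]
      simp [wC', mul_assoc]
    · subst h2
      rw [liftW_x _ _ (by omega)]; simp [wC']
    · rw [liftW_x _ _ hi]; simp [wC', h1, h2]
  exact DFunLike.congr_fun h x

/-- the automorphism `α_j` of `W k` -/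
def wA (j : ℕ) : MulAut (W k) :=
  if hj : j < k then ⟨⟨wAh j, wAh' j, wA_inv2 hj, wA_inv1 hj⟩, map_mul _⟩ else 1

lemma wA_apply {j : ℕ} (hj : j < k) (x : W k) : wA j x = wAh j x := by
  unfold wA; rw [dif_pos hj]; rfl

lemma wA_x {j i : ℕ} (hj : j < k) (hi : i ≤ k) : wA j (xW i : W k) = wC j i := by
  rw [wA_apply hj]; exact liftW_x _ _ hi

lemma pG_x {i : ℕ} (hi : i ≤ k) : pG k (xG i) = xW i := liftG_x _ _ _ hi
@[simp] lemma pG_y : pG k yG = 1 := liftG_y _ _ _
lemma sG_x {i : ℕ} (hi : i ≤ k) : sG k (xW i) = xG i := liftW_x _ _ hi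

/-- piece DN-W1 (`homW_ext`) -/
theorem pG_sG (w : W k) : pG k (sG k w) = w := by
  have h : (pG k).comp (sG k) = MonoidHom.id (W k) := by
    apply homW_ext
    intro i hi
    rw [MonoidHom.comp_apply, MonoidHom.id_apply, sG_x hi, pG_x hi]
  exact DFunLike.congr_fun h w
/-- piece DN-W1 (`homG_ext`) -/
theorem pG_gA {j : ℕ} (hj : j < k) (g : G k) : pG k (gA j g) = wA j (pG k g) := by
  have h : (pG k).comp (gA j : MulAut (G k)).toMonoidHom =
      (wA j : MulAut (W k)).toMonoidHom.comp (pG k) := by
    apply homG_ext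
    · intro i hi
      show pG k (gA j (xG i)) = wA j (pG k (xG i))
      rw [gA_x hj hi, pG_x hi, wA_x hj hi]
      unfold gC wC
      split_ifs
      · rw [map_mul, map_mul, pG_x (by omega), pG_x (by omega)]
      · rw [pG_x (by omega)]
      · rw [pG_x hi]
    · show pG k (gA j yG) = wA j (pG k yG)
      rw [gA_y, pG_y, map_one]
  exact DFunLike.congr_fun h g
/-- piece DN-W1 (`homW_ext`) -/
theorem gA_sG {j : ℕ} (hj : j < k) (w : W k) : gA j (sG k w) = sG k (wA j w) := by
  have h : (gA j : MulAut (G k)).toMonoidHom.comp (sG k) =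
      (sG k).comp (wA j : MulAut (W k)).toMonoidHom := by
    apply homW_ext
    intro i hi
    show gA j (sG k (xW i)) = sG k (wA j (xW i))
    rw [sG_x hi, gA_x hj hi, wA_x hj hi]
    unfold gC wC
    split_ifs
    · rw [map_mul, map_mul, sG_x (by omega), sG_x (by omega)]
    · rw [sG_x (by omega)]
    · rw [sG_x hi]
  exact DFunLike.congr_fun h w
/-- piece DN-W1 (`homG_ext`, `gD_x`, `gD_y`) -/
theorem pG_gD (g : G k) : pG k (gD g) = pG k g := by
  have h : (pG k).comp (gD : MulAut (G k)).toMonoidHom = pG k := by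
    apply homG_ext
    · intro i hi
      show pG k (gD (xG i)) = pG k (xG i)
      rw [gD_x hi, pG_x hi]
      unfold gDC
      split_ifs with h0
      · subst h0
        rw [map_mul, map_mul, map_inv, pG_y, pG_x (by omega)]
        simp
      · rw [pG_x hi]
    · show pG k (gD yG) = pG k yG
      rw [gD_y, map_mul, map_mul, map_mul, map_mul, map_inv, pG_y, pG_x (by omega)]
      simp
  exact DFunLike.congr_fun h g
/-- piece DN-W1: induction on `j ≤ k` -/
theorem pG_xw : pG k (xw k) = RW k := by
  have h : ∀ j, j ≤ k → pG k (xw j) = xwW j := by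
    intro j
    induction j with
    | zero => intro _; exact pG_x (by omega)
    | succ j ih =>
      intro hj
      show pG k (xw j * xG (j + 1)) = xwW j * xW (j + 1)
      rw [map_mul, ih (by omega), pG_x hj]
  exact h k le_rfl
/-- piece DN-W1 -/
theorem sG_R : sG k (RW k) = xw k := by
  have h : ∀ j, j ≤ k → sG k (xwW j) = xw j := by
    intro j
    induction j with
    | zero => intro _; exact sG_x (by omega)
    | succ j ih =>
      intro hj
      show sG k (xwW j * xW (j + 1)) = xw j * xG (j + 1)
      rw [map_mul, ih (by omega), sG_x hj]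
  exact h k le_rfl
/-- piece DN-W1: `α_j` fixes `R`: `x_j x_{j+1} ↦ x_j x_{j+1}` -/
theorem wA_R {j : ℕ} (hj : j < k) : wA j (RW k) = RW k := by
  have h1 : ∀ i, i < j → wA j (xwW i : W k) = xwW i := by
    intro i
    induction i with
    | zero =>
      intro h
      show wA j (xW 0) = xW 0
      rw [wA_x hj (by omega)]
      unfold wC
      rw [if_neg (by omega), if_neg (by omega)]
    | succ i ih =>
      intro h
      show wA j (xwW i * xW (i + 1)) = xwW i * xW (i + 1)
      rw [map_mul, ih (by omega), wA_x hj (by omega)]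
      unfold wC
      rw [if_neg (by omega), if_neg (by omega)]
  have h2 : wA j (xwW (j + 1) : W k) = xwW (j + 1) := by
    rcases Nat.eq_zero_or_pos j with rfl | hp
    · show wA 0 (xW 0 * xW 1) = xW 0 * xW 1
      rw [map_mul, wA_x hj (by omega), wA_x hj (by omega)]
      simp [wC, mul_assoc]
    · obtain ⟨i, rfl⟩ : ∃ i, j = i + 1 := ⟨j - 1, by omega⟩
      show wA (i + 1) (xwW i * xW (i + 1) * xW (i + 1 + 1)) = xwW i * xW (i + 1) * xW (i + 1 + 1)
      rw [map_mul, map_mul, h1 i (by omega), wA_x hj (by omega), wA_x hj (by omega)]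
      simp [wC, mul_assoc]
  have h3 : ∀ i, j + 1 ≤ i → i ≤ k → wA j (xwW i : W k) = xwW i := by
    intro i hi
    induction i, hi using Nat.le_induction with
    | base => intro _; exact h2
    | succ i hi ih =>
      intro h
      show wA j (xwW i * xW (i + 1)) = xwW i * xW (i + 1)
      rw [map_mul, ih (by omega), wA_x hj (by omega)]
      unfold wC
      rw [if_neg (by omega), if_neg (by omega)]
  exact h3 k (by omega) le_rfl

/-! ### lengths -/

end

/-- reduced words with letters `≤ k` -/
def RedW (k : ℕ) (l : List ℕ) : Prop := (∀ i ∈ l, i ≤ k) ∧ l.IsChain (· ≠ ·)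

/-- the value of a word -/
def wv {k : ℕ} (l : List ℕ) : W k := (l.map xW).prod

section
variable {k : ℕ}

@[simp] lemma wv_nil : (wv [] : W k) = 1 := rfl
@[simp] lemma wv_cons (i : ℕ) (l : List ℕ) : (wv (i :: l) : W k) = xW i * wv l := by simp [wv]
@[simp] lemma wv_append (l l' : List ℕ) : (wv (l ++ l') : W k) = wv l * wv l' := by simp [wv]

private lemma red_cons_dn {i : ℕ} (hi : i ≤ k) {l : List ℕ} (hl : RedW k l) :
    ∃ l', RedW k l' ∧ wv l' = xW i * (wv l : W k) := by
  cases l with
  | nil => exact ⟨[i], ⟨by simpa using hi, List.isChain_singleton i⟩, by simp⟩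
  | cons j l =>
    by_cases hij : i = j
    · subst hij
      refine ⟨l, ⟨fun a ha => hl.1 a (List.mem_cons_of_mem _ ha), hl.2.tail⟩, by simp⟩
    · refine ⟨i :: j :: l, ⟨fun a ha => ?_, List.isChain_cons_cons.2 ⟨hij, hl.2⟩⟩, by simp⟩
      rcases List.mem_cons.1 ha with rfl | ha
      · exact hi
      · exact hl.1 a ha

/-- piece DN-W2: every element has exactly one reduced word.
Proof. Existence: the set of values of reduced words contains `1` and is closed under
multiplication with `xW i` on the left; every element is a product of the `xW i`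
(`CoprodI.induction_on` or closure). Uniqueness: `CoprodI.Word` or `rw_uniq` of
`Pool/Agent/Helper38/BN/B6W.lean` with the syllables `⟨⟨i, _⟩, -1⟩`. -/
theorem exists_red (w : W k) : ∃ l, RedW k l ∧ wv l = w := by
  induction w using CoprodI.induction_left with
  | one => exact ⟨[], ⟨by simp, List.isChain_nil⟩, rfl⟩
  | @mul i m x ih =>
    obtain ⟨l, hl, rfl⟩ := ih
    rcases Int.units_eq_one_or m with hm | hm
    · subst hm
      exact ⟨l, hl, by rw [map_one, one_mul]⟩
    · subst hm
      have hx : (CoprodI.of (M := fun _ : Fin (k + 1) => ℤˣ) (i := i) (-1)) = (xW i.val : W k) :=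
        (xW_of i.isLt).symm
      rw [hx]
      exact red_cons_dn (by omega) hl

/-- the word of syllables of a reduced word -/
private def syl_dn (k : ℕ) (l : List ℕ) (h : ∀ i ∈ l, i ≤ k) :
    List (Σ _ : Fin (k + 1), ℤˣ) :=
  l.attach.map (fun a => ⟨⟨a.1, Nat.lt_succ_of_le (h a.1 a.2)⟩, -1⟩)

private lemma syl_dn_fst {l : List ℕ} (h : ∀ i ∈ l, i ≤ k) :
    (syl_dn k l h).map (fun p => p.1.val) = l := by
  unfold syl_dn
  rw [List.map_map]
  exact List.attach_map_subtype_val l

private def word_dn (k : ℕ) (l : List ℕ) (h : RedW k l) :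
    CoprodI.Word (fun _ : Fin (k + 1) => ℤˣ) where
  toList := syl_dn k l h.1
  ne_one := by
    intro p hp
    unfold syl_dn at hp
    obtain ⟨a, -, rfl⟩ := List.mem_map.1 hp
    change (-1 : ℤˣ) ≠ 1
    decide
  chain_ne := by
    have h1 : ((syl_dn k l h.1).map (fun p => p.1.val)).IsChain (· ≠ ·) := by
      rw [syl_dn_fst]; exact h.2
    rw [List.isChain_map] at h1
    exact h1.imp (fun a b hab he => hab (by rw [he]))

private lemma word_dn_prod {l : List ℕ} (h : RedW k l) : (word_dn k l h).prod = (wv l : W k) := by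
  change List.prod ((syl_dn k l h.1).map (fun p => CoprodI.of (M := fun _ : Fin (k + 1) => ℤˣ)
    (i := p.1) p.2)) = _
  unfold syl_dn wv
  rw [List.map_map]
  congr 1
  conv_rhs => rw [← List.attach_map_subtype_val l]
  rw [List.map_map]
  apply List.map_congr_left
  intro a _
  exact (xW_of (Nat.lt_succ_of_le (h.1 a.1 a.2))).symm

/-- piece DN-W2 -/
theorem red_uniq {l l' : List ℕ} (h : RedW k l) (h' : RedW k l')
    (he : (wv l : W k) = wv l') : l = l' := by
  classical
  have h4 : word_dn k l h = word_dn k l' h' := by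
    apply CoprodI.Word.equiv.symm.injective
    change (word_dn k l h).prod = (word_dn k l' h').prod
    rw [word_dn_prod, word_dn_prod, he]
  have h5 := congrArg (fun w => (CoprodI.Word.toList w).map (fun p => p.1.val)) h4
  change (syl_dn k l h.1).map (fun p => p.1.val) = (syl_dn k l' h'.1).map (fun p => p.1.val) at h5
  rwa [syl_dn_fst, syl_dn_fst] at h5

end

/-- the reduced word of an element -/
noncomputable def nfW {k : ℕ} (w : W k) : List ℕ := Classical.choose (exists_red w)

/-- the length of an element -/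
noncomputable def lenW {k : ℕ} (w : W k) : ℕ := (nfW w).length

section
variable {k : ℕ}

lemma nfW_red (w : W k) : RedW k (nfW w) := (Classical.choose_spec (exists_red w)).1
lemma wv_nfW (w : W k) : wv (nfW w) = w := (Classical.choose_spec (exists_red w)).2
lemma nfW_wv {l : List ℕ} (h : RedW k l) : nfW (wv l : W k) = l :=
  red_uniq (nfW_red _) h (wv_nfW _)
lemma lenW_wv {l : List ℕ} (h : RedW k l) : lenW (wv l : W k) = l.length := by
  unfold lenW; rw [nfW_wv h]

/-- piece DN-W3 -/
theorem lenW_one : lenW (1 : W k) = 0 := by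
  have h := lenW_wv (k := k) (l := []) ⟨by simp, List.isChain_nil⟩
  simpa using h
/-- piece DN-W3 -/
theorem lenW_eq_zero {w : W k} (h : lenW w = 0) : w = 1 := by
  have h1 : nfW w = [] := List.length_eq_zero_iff.1 h
  rw [← wv_nfW w, h1, wv_nil]

private lemma red_len_dn {l : List ℕ} (h : ∀ i ∈ l, i ≤ k) :
    ∃ l', RedW k l' ∧ (wv l' : W k) = wv l ∧ l'.length ≤ l.length := by
  induction l with
  | nil => exact ⟨[], ⟨by simp, List.isChain_nil⟩, rfl, le_rfl⟩
  | cons i l ih =>
    have hi : i ≤ k := h i List.mem_cons_self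
    obtain ⟨l', hl', he, hn⟩ := ih (fun a ha => h a (List.mem_cons_of_mem _ ha))
    cases l' with
    | nil =>
      refine ⟨[i], ⟨by simpa using hi, List.isChain_singleton i⟩, ?_, by simp⟩
      rw [wv_cons, wv_cons, ← he]
    | cons j m =>
      by_cases hij : i = j
      · subst hij
        refine ⟨m, ⟨fun a ha => hl'.1 a (List.mem_cons_of_mem _ ha), hl'.2.tail⟩, ?_, ?_⟩
        · rw [wv_cons, ← he, wv_cons, xW_sq']
        · simp only [List.length_cons] at hn ⊢
          omega
      · refine ⟨i :: j :: m, ⟨fun a ha => ?_, List.isChain_cons_cons.2 ⟨hij, hl'.2⟩⟩, ?_, ?_⟩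
        · rcases List.mem_cons.1 ha with rfl | ha
          · exact hi
          · exact hl'.1 a ha
        · rw [wv_cons, he, wv_cons]
        · simp only [List.length_cons] at hn ⊢
          omega

/-- piece DN-W3: the length of a word which is perhaps not reduced -/
theorem lenW_wv_le {l : List ℕ} (h : ∀ i ∈ l, i ≤ k) : lenW (wv l : W k) ≤ l.length := by
  obtain ⟨l', hl', he, hn⟩ := red_len_dn (k := k) h
  rw [← he, lenW_wv hl']
  exact hn
/-- piece DN-W3 -/
theorem lenW_mul_le (v w : W k) : lenW (v * w) ≤ lenW v + lenW w := by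
  have h1 : v * w = wv (nfW v ++ nfW w) := by rw [wv_append, wv_nfW, wv_nfW]
  have h2 : lenW (wv (nfW v ++ nfW w) : W k) ≤ (nfW v ++ nfW w).length := by
    apply lenW_wv_le
    intro i hi
    rcases List.mem_append.1 hi with hi | hi
    · exact (nfW_red v).1 i hi
    · exact (nfW_red w).1 i hi
  rw [h1]
  refine h2.trans ?_
  rw [List.length_append]
  exact le_rfl

private lemma wv_rev_dn (l : List ℕ) : (wv l.reverse : W k) = (wv l)⁻¹ := by
  induction l with
  | nil => simp
  | cons i l ih => rw [List.reverse_cons, wv_append, ih, wv_cons, wv_cons, wv_nil, mul_one,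
      mul_inv_rev, xW_inv]

private lemma lenW_inv_le_dn (w : W k) : lenW w⁻¹ ≤ lenW w := by
  have h1 : w⁻¹ = wv (nfW w).reverse := by rw [wv_rev_dn, wv_nfW]
  have h2 : lenW (wv (nfW w).reverse : W k) ≤ (nfW w).reverse.length := by
    apply lenW_wv_le
    intro i hi
    exact (nfW_red w).1 i (List.mem_reverse.1 hi)
  rw [h1]
  refine h2.trans ?_
  rw [List.length_reverse]
  exact le_rfl

/-- piece DN-W3 -/
theorem lenW_inv (w : W k) : lenW w⁻¹ = lenW w := by
  apply le_antisymm (lenW_inv_le_dn w)
  have h := lenW_inv_le_dn w⁻¹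
  rwa [inv_inv] at h
/-- piece DN-W3: multiplication with a generator: the last letter is `i`, or not -/
theorem lenW_mul_x (w : W k) {i : ℕ} (hi : i ≤ k) :
    (lenW (w * xW i) = lenW w + 1 ∧ ∀ l, RedW k l → wv l = w → RedW k (l ++ [i])) ∨
      (lenW (w * xW i) + 1 = lenW w) := by
  rcases List.eq_nil_or_concat (nfW w) with h | ⟨l', b, h⟩
  on_goal 2 => rw [List.concat_eq_append] at h
  · left
    have hw : (w : W k) = 1 := by
      rw [← wv_nfW w, h]
      rfl
    have hr : RedW k [i] := ⟨fun j hj => by
      rw [List.mem_singleton] at hj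
      omega, List.isChain_singleton i⟩
    have e : (w * xW i : W k) = wv [i] := by
      rw [hw]
      simp
    refine ⟨?_, ?_⟩
    · rw [e, lenW_wv hr]
      unfold lenW
      rw [h]
      rfl
    · intro l hl hlw
      have h1 : l = nfW w := red_uniq hl (nfW_red w) (by rw [hlw, wv_nfW])
      rw [h1, h]
      exact hr
  · have hr := nfW_red w
    have hv := wv_nfW w
    have hl : lenW w = l'.length + 1 := by
      unfold lenW
      rw [h]
      simp
    rw [h] at hr hv
    by_cases hb : b = i
    · right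
      subst hb
      have hr' : RedW k l' := ⟨fun j hj => hr.1 j (List.mem_append_left _ hj),
        (List.isChain_append.1 hr.2).1⟩
      have e : (w * xW b : W k) = wv l' := by
        rw [← hv]
        simp [mul_assoc]
      rw [e, lenW_wv hr', hl]
    · left
      have hr' : RedW k ((l' ++ [b]) ++ [i]) := by
        refine ⟨fun j hj => ?_, ?_⟩
        · rcases List.mem_append.1 hj with h1 | h1
          · exact hr.1 j h1
          · rw [List.mem_singleton] at h1
            omega
        · rw [List.isChain_append]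
          refine ⟨hr.2, List.isChain_singleton i, ?_⟩
          intro x hx y hy
          rw [List.getLast?_append] at hx
          simp only [List.getLast?_singleton, Option.some_or, Option.mem_def,
            Option.some.injEq] at hx
          simp only [List.head?_cons, Option.mem_def, Option.some.injEq] at hy
          rw [← hx, ← hy]
          exact hb
      have e : (w * xW i : W k) = wv ((l' ++ [b]) ++ [i]) := by
        rw [wv_append, hv]
        simp
      refine ⟨?_, ?_⟩
      · rw [e, lenW_wv hr', hl]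
        simp
      · intro l hl' hlw
        have h1 : l = l' ++ [b] := red_uniq hl' hr (by rw [hlw, hv])
        rw [h1]
        exact hr'
/-- piece DN-W3: an element of positive length is `w' x_i` -/
theorem lenW_succ {w : W k} {n : ℕ} (h : lenW w = n + 1) :
    ∃ (w' : W k) (i : ℕ), i ≤ k ∧ w = w' * xW i ∧ lenW w' = n := by
  have hr := nfW_red w
  have hv := wv_nfW w
  unfold lenW at h
  rcases List.eq_nil_or_concat (nfW w) with h1 | ⟨l', b, h1⟩
  on_goal 2 => rw [List.concat_eq_append] at h1
  · rw [h1] at h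
    simp at h
  · rw [h1] at h hr hv
    have hr' : RedW k l' := ⟨fun j hj => hr.1 j (List.mem_append_left _ hj),
      (List.isChain_append.1 hr.2).1⟩
    refine ⟨wv l', b, hr.1 b (by simp), ?_, ?_⟩
    · rw [← hv]
      simp
    · rw [lenW_wv hr']
      simpa using h
/-- piece DN-W3: balls are finite: the image of a finite set of lists.
Proof. Induction on `n`: `{w | lenW w ≤ n + 1}` is contained in the union of `{w | lenW w ≤ n}` and of the
images of it under `w ↦ w * xW i`, `i ≤ k`. -/
theorem ball_finite (k n : ℕ) : {w : W k | lenW w ≤ n}.Finite := by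
  induction n with
  | zero =>
    refine (Set.finite_singleton (1 : W k)).subset ?_
    intro w hw
    rw [Set.mem_ofPred_eq, Nat.le_zero] at hw
    exact lenW_eq_zero hw
  | succ n ih =>
    have h1 : (⋃ i ∈ Finset.range (k + 1), (fun w : W k => w * xW i) '' {w : W k | lenW w ≤ n}).Finite :=
      Set.Finite.biUnion (Finset.finite_toSet _) fun i _ => ih.image _
    refine (ih.union h1).subset ?_
    intro w hw
    rw [Set.mem_ofPred_eq] at hw
    rcases Nat.lt_or_ge n (lenW w) with h2 | h2
    · right
      have h3 : lenW w = n + 1 := by omega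
      obtain ⟨w', i, hi, he, hl⟩ := lenW_succ h3
      rw [Set.mem_iUnion]
      refine ⟨i, ?_⟩
      rw [Set.mem_iUnion]
      refine ⟨Finset.mem_range.2 (by omega), w', ?_, he.symm⟩
      rw [Set.mem_ofPred_eq]
      omega
    · left
      exact h2
/-- piece DN-W3: every finite set is in a ball -/
theorem exists_ball {S : Set (W k)} (hS : S.Finite) : ∃ n, ∀ w ∈ S, lenW w ≤ n := by
  obtain ⟨n, hn⟩ := (hS.image (lenW (k := k))).bddAbove
  exact ⟨n, fun w hw => hn (Set.mem_image_of_mem _ hw)⟩

end

end Pool.Agent.Helper20.DN
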