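import Pool.Agent.Helper20.DN.T
import Pool.Agent.Helper20.DN.W

/-!
# Project DN: the group `L k`, its subgroups `K k` and `W k`, and the automorphisms `α_j`, `t_j`

`L k = G k ⧸ ML k = K k ⋊ W k`; `muL g = g y g⁻¹`, `g ∈ W k`.
-/

namespace Pool.Agent.Helper20.DN

open Pool.Agent.Helper38.BN

section
variable {k : ℕ}

/-- piece DN-L1: `ML k` is killed by `pG`. Proof. `pG (T j g) = pG g` (`homG_ext`), so
`pG (Fr v (cG j)) = pG (cG j) = 1`; `map_normalClosure_le` or `Subgroup.normalClosure_le_normal` for the kernel. -/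
theorem pG_T {j : ℕ} (g : G k) : pG k (T j g) = pG k g := by
  have hx : ∀ i, pG k (xG i) = xW i := by
    intro i
    rcases Nat.lt_or_ge k i with h | h
    · rw [xG_ge (by omega), xW_ge (by omega), map_one]
    · exact pG_x h
  have hy : pG k (yT j) = 1 := by
    unfold yT
    rw [map_mul, map_mul, hx, pG_y, mul_one, xW_sq]
  have h : (pG k).comp (T j) = pG k := by
    refine homG_ext (fun i hi => ?_) ?_
    · show pG k (T j (xG i)) = pG k (xG i)
      rw [T_x j hi]
      unfold xT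
      split_ifs with h1 h2
      · rw [map_mul, map_mul, map_inv]
        unfold eT
        rw [map_mul, map_inv, pG_y, hy, inv_one, mul_one, one_mul, inv_one, mul_one]
      · rw [map_mul, map_mul, map_inv, pG_y, inv_one, mul_one, one_mul, h2]
      · rfl
    · show pG k (T j yG) = pG k yG
      rw [T_y, hy, pG_y]
  exact DFunLike.congr_fun h g
/-- piece DN-L1 -/
theorem pG_Fr (v : List ℕ) (g : G k) : pG k (Fr v g) = pG k g := by
  induction v generalizing g with
  | nil => rfl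
  | cons j v ih =>
    show pG k (Fr v (T j g)) = pG k g
    rw [ih, pG_T]
/-- piece DN-L1 -/
theorem pG_ML {g : G k} (hg : g ∈ ML k) : pG k g = 1 := by
  have h1 : ML k ≤ (pG k).ker := by
    unfold ML
    refine Subgroup.normalClosure_le_normal ?_
    rintro _ ⟨v, j, _, rfl⟩
    show Fr v (cG j) ∈ (pG k).ker
    rw [MonoidHom.mem_ker, pG_Fr]
    unfold cG
    rw [map_mul, map_mul, map_mul, map_inv, map_inv, pG_y, inv_one, one_mul, mul_one,
      mul_inv_cancel]
  exact MonoidHom.mem_ker.1 (h1 hg)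

end

/-- the projection `L k → W k` -/
def toW (k : ℕ) : L k →* W k := QuotientGroup.lift (ML k) (pG k) (fun _ hg => pG_ML hg)

/-- the inclusion `W k → L k` -/
def sW (k : ℕ) : W k →* L k := (mkL k).comp (sG k)

/-- the subgroup `K k`, the kernel of `L k → W k` -/
def K (k : ℕ) : Subgroup (L k) := (toW k).ker

instance (k : ℕ) : (K k).Normal := MonoidHom.normal_ker _

/-- the element `y` of `L k` -/
def yL {k : ℕ} : L k := mkL k yG
/-- the element `x_i` of `L k` -/
def xL {k : ℕ} (i : ℕ) : L k := mkL k (xG i)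
/-- the element `R = x_0 ⋯ x_k` of `L k` -/
def RL (k : ℕ) : L k := sW k (RW k)
/-- the element `r = y R` of `L k` -/
def rL (k : ℕ) : L k := mkL k (rG k)

/-- the elements `g y g⁻¹`, `g ∈ W k` -/
def muL {k : ℕ} (g : W k) : L k := sW k g * yL * (sW k g)⁻¹

/-- the automorphism of `L k` induced by an automorphism of `G k` which preserves `ML k` -/
def quoAut {k : ℕ} (f : MulAut (G k)) (h : ∀ g ∈ ML k, f g ∈ ML k) (h' : ∀ g ∈ ML k, f.symm g ∈ ML k) :
    MulAut (L k) where
  toFun := QuotientGroup.map (ML k) (ML k) f.toMonoidHom (fun g hg => h g hg)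
  invFun := QuotientGroup.map (ML k) (ML k) f.symm.toMonoidHom (fun g hg => h' g hg)
  left_inv x := by
    obtain ⟨g, rfl⟩ := mkL_surj k x
    change mkL k (f.symm (f g)) = mkL k g
    rw [MulEquiv.symm_apply_apply]
  right_inv x := by
    obtain ⟨g, rfl⟩ := mkL_surj k x
    change mkL k (f (f.symm g)) = mkL k g
    rw [MulEquiv.apply_symm_apply]
  map_mul' := map_mul _

/-- the automorphism `α_j` of `L k` -/
def aL {k : ℕ} (j : ℕ) : MulAut (L k) :=
  if hj : j < k then quoAut (gA j) (fun _ hg => gA_ML hj hg) (fun _ hg => gA_symm_ML hj hg) else 1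

/-- the automorphism `t_0` of `L k` -/
def tL0 (k : ℕ) : MulAut (L k) := quoAut gD (fun _ hg => gD_ML hg) (fun _ hg => gD_symm_ML hg)

/-- the automorphism `e = t_0 α_0 t_0` of `L k` -/
def eL (k : ℕ) : MulAut (L k) := tL0 k * aL 0 * tL0 k

section
variable {k : ℕ}

lemma aL_mk {j : ℕ} (hj : j < k) (g : G k) : aL j (mkL k g) = mkL k (gA j g) := by
  unfold aL; rw [dif_pos hj]; rfl

lemma tL0_mk (g : G k) : tL0 k (mkL k g) = mkL k (gD g) := rfl

lemma toW_mk (g : G k) : toW k (mkL k g) = pG k g := rfl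

lemma sW_apply (w : W k) : sW k w = mkL k (sG k w) := rfl

@[simp] lemma toW_sW (w : W k) : toW k (sW k w) = w := by
  rw [sW_apply, toW_mk, pG_sG]

lemma sW_inj : Function.Injective (sW k) := fun v w h => by
  rw [← toW_sW v, ← toW_sW w, h]

lemma mem_K {x : L k} : x ∈ K k ↔ toW k x = 1 := MonoidHom.mem_ker

/-- homomorphisms on `L k` -/
lemma homL_ext {H : Type*} [Group H] {f g : L k →* H} (hx : ∀ i, i ≤ k → f (xL i) = g (xL i))
    (hy : f yL = g yL) : f = g := by
  have h : f.comp (mkL k) = g.comp (mkL k) := homG_ext hx hy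
  refine MonoidHom.ext fun x => ?_
  obtain ⟨y, rfl⟩ := mkL_surj k x
  exact DFunLike.congr_fun h y

lemma autL_ext {f g : MulAut (L k)} (hx : ∀ i, i ≤ k → f (xL i) = g (xL i))
    (hy : f yL = g yL) : f = g := by
  have h1 : f.toMonoidHom = g.toMonoidHom := homL_ext hx hy
  refine MulEquiv.ext fun x => ?_
  exact DFunLike.congr_fun h1 x

/-- piece DN-L2 -/
theorem tL0_sq : tL0 k * tL0 k = 1 := by
  have h : ∀ x : L k, tL0 k x = TL 0 (Nat.zero_le k) x := by
    intro x
    obtain ⟨g, rfl⟩ := mkL_surj k x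
    rw [tL0_mk, TL_mk, gD_mk]
  refine MulEquiv.ext fun x => ?_
  show tL0 k (tL0 k x) = x
  rw [h, h, TL_sq]
/-- piece DN-L2: `t_0` is `T 0` (`gD_mk`) -/
theorem tL0_eq (x : L k) : tL0 k x = TL 0 (Nat.zero_le k) x := by
  obtain ⟨g, rfl⟩ := mkL_surj k x
  rw [tL0_mk, TL_mk, gD_mk]
/-- piece DN-L2 -/
theorem sW_x {i : ℕ} (hi : i ≤ k) : sW k (xW i) = xL i := by
  rw [sW_apply, sG_x hi]; rfl
/-- piece DN-L2: `r = y R` -/
theorem rL_eq : rL k = yL * RL k := by
  unfold rL RL rG yL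
  rw [sW_apply, sG_R, map_mul]
/-- piece DN-L2 -/
theorem toW_aL {j : ℕ} (hj : j < k) (x : L k) : toW k (aL j x) = wA j (toW k x) := by
  obtain ⟨g, rfl⟩ := mkL_surj k x
  rw [aL_mk hj, toW_mk, toW_mk, pG_gA hj]
/-- piece DN-L2 -/
theorem toW_tL0 (x : L k) : toW k (tL0 k x) = toW k x := by
  obtain ⟨g, rfl⟩ := mkL_surj k x
  rw [tL0_mk, toW_mk, toW_mk, pG_gD]
/-- piece DN-L2 -/
theorem toW_y : toW k yL = 1 := by
  unfold yL
  rw [toW_mk, pG_y]
/-- piece DN-L2 -/
theorem toW_r : toW k (rL k) = RW k := by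
  unfold rL rG
  rw [toW_mk, map_mul, pG_y, one_mul, pG_xw]
/-- piece DN-L2: `α_j` fixes `y` -/
theorem aL_y {j : ℕ} : aL j (yL : L k) = yL := by
  rcases Nat.lt_or_ge j k with hj | hj
  · unfold yL
    rw [aL_mk hj, gA_y]
  · unfold aL
    rw [dif_neg (by omega)]
    rfl
/-- piece DN-L2 -/
theorem aL_sW {j : ℕ} (hj : j < k) (w : W k) : aL j (sW k w) = sW k (wA j w) := by
  rw [sW_apply, sW_apply, aL_mk hj, gA_sG hj]
/-- piece DN-L2 -/
theorem aL_mu {j : ℕ} (hj : j < k) (w : W k) : aL j (muL w) = muL (wA j w) := by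
  unfold muL
  rw [map_mul, map_mul, map_inv, aL_sW hj, aL_y]
/-- piece DN-L2 -/
theorem aL_R {j : ℕ} : aL j (RL k) = RL k := by
  by_cases hj : j < k
  · unfold RL
    rw [aL_sW hj, wA_R hj]
  · unfold aL
    rw [dif_neg hj]
    rfl
/-- piece DN-L2 -/
theorem aL_r {j : ℕ} : aL j (rL k) = rL k := by
  rw [rL_eq, map_mul, aL_y, aL_R]
/-- piece DN-L2: `gD r = r`: `gD (rG k) = rG k` in `G k`: `y x_0 y x_0 y⁻¹ · y x_0 y⁻¹ · x_1 ⋯ x_k`... this is
`y x_0 x_1 ⋯ x_k` exactly (see also `zeta_G`) -/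
theorem tL0_r : tL0 k (rL k) = rL k := by
  have hx : ∀ i, 0 < i → gD (xG i : G k) = xG i := by
    intro i hi
    rcases Nat.lt_or_ge k i with h | h
    · rw [xG_ge (by omega), map_one]
    · rw [gD_x h]
      unfold gDC
      rw [if_neg (by omega)]
  have h : ∀ j, gD (yG * xw j : G k) = yG * xw j := by
    intro j
    induction j with
    | zero =>
      change gD (yG * xG 0 : G k) = yG * xG 0
      rw [map_mul, gD_y, gD_x (Nat.zero_le k)]
      unfold gDC
      rw [if_pos rfl]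
      simp only [mul_assoc, inv_mul_cancel_left, xG_sq', mul_inv_cancel, mul_one]
    | succ j ih =>
      change gD (yG * (xw j * xG (j + 1)) : G k) = yG * (xw j * xG (j + 1))
      rw [← mul_assoc, map_mul, ih, hx _ (Nat.succ_pos j)]
  unfold rL
  rw [tL0_mk]
  unfold rG
  rw [h k]
/-- piece DN-L2: `t_0 y = x_0 y x_0`, `t_0 x_0 = y x_0 y⁻¹`, `t_0 x_i = x_i` for `i > 0` -/
theorem tL0_y : tL0 k yL = xL 0 * yL * xL 0 := by
  unfold yL xL
  rw [tL0_mk, gD_mk, T_y]
  unfold yT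
  rw [map_mul, map_mul]
/-- piece DN-L2 -/
theorem tL0_x0 : tL0 k (xL 0) = yL * xL 0 * yL⁻¹ := by
  unfold yL xL
  rw [tL0_mk, gD_x (Nat.zero_le k)]
  unfold gDC
  rw [if_pos rfl, map_mul, map_mul, map_inv]
/-- piece DN-L2 -/
theorem tL0_x {i : ℕ} (hi : 0 < i) : tL0 k (xL i) = xL i := by
  unfold xL
  rw [tL0_mk]
  rcases Nat.lt_or_ge k i with h | h
  · rw [xG_ge (by omega), map_one]
  · rw [gD_x h]
    unfold gDC
    rw [if_neg (by omega)]

private lemma dnl3_ext {f f' : MulAut (L k)} (h : ∀ g : G k, f (mkL k g) = f' (mkL k g)) :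
    f = f' := by
  refine MulEquiv.ext fun x => ?_
  obtain ⟨g, rfl⟩ := mkL_surj k x
  exact h g

private lemma dnl3_mk {f f' : MulAut (G k)} (h : f = f') (g : G k) :
    mkL k (f g) = mkL k (f' g) := by
  rw [h]

/-- piece DN-L3: the relations of type `B` in the automorphism group (from `g_rel` of Rels.lean:
`quoAut` is compatible with products; compare on `mkL k g`) -/
theorem relB_L (k : ℕ) : RelB k (aL : ℕ → MulAut (L k)) (tL0 k) where
  comm i j h1 h2 := dnl3_ext fun g => by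
    simp only [MulAut.mul_apply, aL_mk (show i < k by omega), aL_mk h2]
    exact dnl3_mk ((g_rel k).comm i j h1 h2) g
  braid i h1 := dnl3_ext fun g => by
    simp only [MulAut.mul_apply, aL_mk (show i < k by omega), aL_mk h1]
    exact dnl3_mk ((g_rel k).braid i h1) g
  dcomm i h1 h2 := dnl3_ext fun g => by
    simp only [MulAut.mul_apply, aL_mk h2, tL0_mk]
    exact dnl3_mk ((g_rel k).dcomm i h1 h2) g
  four h1 := dnl3_ext fun g => by
    simp only [MulAut.mul_apply, aL_mk h1, tL0_mk]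
    exact dnl3_mk ((g_rel k).four h1) g

private lemma dnl3_b {m : ℕ} (g : G (m + 2)) :
    (MulAut.conj (xL (m + 2)) * aL (m + 1) * MulAut.conj (xL (m + 2)) : MulAut (L (m + 2)))
      (mkL (m + 2) g) = mkL (m + 2) (gB g) := by
  have h1 : ∀ g : G (m + 2), MulAut.conj (xL (m + 2)) (mkL (m + 2) g) =
      mkL (m + 2) (MulAut.conj (xG (m + 2)) g) := by
    intro g
    rw [MulAut.conj_apply, MulAut.conj_apply, map_mul, map_mul, map_inv]
    rfl
  rw [MulAut.mul_apply, MulAut.mul_apply, h1, aL_mk (by omega), h1]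
  rfl

/-- piece DN-L3: the relations of type `B̃` (from `gB_rel`; `b` acts as
`conj x_k * α_{k-1} * conj x_k`) -/
theorem relA_L (m : ℕ) : RelA m (aL : ℕ → MulAut (L (m + 2)))
    (MulAut.conj (xL (m + 2)) * aL (m + 1) * MulAut.conj (xL (m + 2))) (tL0 (m + 2)) := by
  have hR := gB_rel m
  have hb := dnl3_b (m := m)
  obtain ⟨b, hbb⟩ : ∃ b : MulAut (L (m + 2)), b = MulAut.conj (xL (m + 2)) * aL (m + 1) *
    MulAut.conj (xL (m + 2)) := ⟨_, rfl⟩
  rw [← hbb] at hb ⊢
  refine { toRelB := relB_L (m + 2), ba := ?_, bb := ?_, bc := ?_, bd := ?_ }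
  · refine dnl3_ext fun g => ?_
    simp only [MulAut.mul_apply, hb, aL_mk (show m + 1 < m + 2 by omega)]
    exact dnl3_mk hR.ba g
  · refine dnl3_ext fun g => ?_
    simp only [MulAut.mul_apply, hb, aL_mk (show m < m + 2 by omega)]
    exact dnl3_mk hR.bb g
  · intro i hi
    refine dnl3_ext fun g => ?_
    simp only [MulAut.mul_apply, hb, aL_mk (show i < m + 2 by omega)]
    exact dnl3_mk (hR.bc i hi) g
  · refine dnl3_ext fun g => ?_
    simp only [MulAut.mul_apply, hb, tL0_mk]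
    exact dnl3_mk hR.bd g

/-! ### the subgroup `K k` -/

lemma mu_mem (g : W k) : muL g ∈ K k := by
  rw [mem_K]
  unfold muL
  rw [map_mul, map_mul, map_inv, toW_y, mul_one, mul_inv_cancel]

/-- the element `g y g⁻¹` of `K k` -/
def muK (g : W k) : K k := ⟨muL g, mu_mem g⟩

/-- piece DN-L4: `w (g y g⁻¹) w⁻¹` -/
theorem sW_mu (w g : W k) : sW k w * muL g * (sW k w)⁻¹ = muL (w * g) := by
  unfold muL
  rw [map_mul, mul_inv_rev]
  simp only [mul_assoc]
/-- piece DN-L4: `muL 1 = y` -/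
theorem mu_one : muL (1 : W k) = yL := by
  unfold muL
  rw [map_one, one_mul, inv_one, mul_one]
/-- piece DN-L4: `L k = K k W k`: every `x` is `κ w` with `κ ∈ K k`, `w = toW x` -/
theorem L_decomp (x : L k) : ∃ κ ∈ K k, x = κ * sW k (toW k x) := by
  refine ⟨x * (sW k (toW k x))⁻¹, ?_, by rw [inv_mul_cancel_right]⟩
  rw [mem_K, map_mul, map_inv, toW_sW, mul_inv_cancel]
/-- piece DN-L4: `K k` is generated by the `muL g`.
Proof. The set of the `x` with `x * (sW (toW x))⁻¹ ∈ closure (range muL)` contains `y` and the `x_i` and is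
closed under products and inverses, as the closure is normalised by `sW w` (`sW_mu`). For `x ∈ K k` it
says `x ∈ closure`. -/
theorem K_gen (k : ℕ) : K k = Subgroup.closure (Set.range muL) := by
  apply le_antisymm
  · have hn : ∀ (w : W k) (c : L k), c ∈ Subgroup.closure (Set.range (muL (k := k))) →
        sW k w * c * (sW k w)⁻¹ ∈ Subgroup.closure (Set.range (muL (k := k))) := by
      intro w c hc
      have h1 : Subgroup.closure (Set.range (muL (k := k))) ≤
          (Subgroup.closure (Set.range (muL (k := k)))).comap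
            (MulAut.conj (sW k w)).toMonoidHom := by
        rw [Subgroup.closure_le]
        rintro _ ⟨g, rfl⟩
        show sW k w * muL g * (sW k w)⁻¹ ∈ Subgroup.closure (Set.range (muL (k := k)))
        rw [sW_mu]
        exact Subgroup.subset_closure ⟨_, rfl⟩
      exact h1 hc
    let S : Subgroup (L k) :=
      { carrier := {x | x * (sW k (toW k x))⁻¹ ∈ Subgroup.closure (Set.range (muL (k := k)))}
        one_mem' := by
          show (1 : L k) * (sW k (toW k 1))⁻¹ ∈ Subgroup.closure (Set.range (muL (k := k)))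
          rw [map_one, map_one, inv_one, mul_one]
          exact one_mem _
        mul_mem' := fun {a b} ha hb => by
          have ha' : a * (sW k (toW k a))⁻¹ ∈ Subgroup.closure (Set.range (muL (k := k))) := ha
          have hb' : b * (sW k (toW k b))⁻¹ ∈ Subgroup.closure (Set.range (muL (k := k))) := hb
          show a * b * (sW k (toW k (a * b)))⁻¹ ∈ Subgroup.closure (Set.range (muL (k := k)))
          have h1 := mul_mem ha' (hn (toW k a) _ hb')
          have h2 : a * (sW k (toW k a))⁻¹ *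
              (sW k (toW k a) * (b * (sW k (toW k b))⁻¹) * (sW k (toW k a))⁻¹) =
              a * b * (sW k (toW k (a * b)))⁻¹ := by
            rw [map_mul, map_mul, mul_inv_rev]
            simp only [mul_assoc, inv_mul_cancel_left]
          rwa [h2] at h1
        inv_mem' := fun {a} ha => by
          have ha' : a * (sW k (toW k a))⁻¹ ∈ Subgroup.closure (Set.range (muL (k := k))) := ha
          show a⁻¹ * (sW k (toW k a⁻¹))⁻¹ ∈ Subgroup.closure (Set.range (muL (k := k)))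
          have h1 := hn (toW k a)⁻¹ _ (inv_mem ha')
          have h2 : sW k (toW k a)⁻¹ * (a * (sW k (toW k a))⁻¹)⁻¹ * (sW k (toW k a)⁻¹)⁻¹ =
              a⁻¹ * (sW k (toW k a⁻¹))⁻¹ := by
            rw [map_inv, map_inv, map_inv, mul_inv_rev, inv_inv, inv_mul_cancel_left]
          rwa [h2] at h1 }
    have hx : ∀ i, i ≤ k → xL i ∈ S := by
      intro i hi
      show xL i * (sW k (toW k (xL i)))⁻¹ ∈ Subgroup.closure (Set.range (muL (k := k)))
      rw [← sW_x hi, toW_sW, mul_inv_cancel]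
      exact one_mem _
    have hy : yL ∈ S := by
      show yL * (sW k (toW k yL))⁻¹ ∈ Subgroup.closure (Set.range (muL (k := k)))
      rw [toW_y, map_one, inv_one, mul_one]
      exact Subgroup.subset_closure ⟨1, mu_one⟩
    have hx' : ∀ i, (xL (min i k) : L k) ∈ S := fun i => hx _ (min_le_right _ _)
    have hS : ∀ x, x ∈ S := by
      intro x
      obtain ⟨g, rfl⟩ := mkL_surj k x
      have h1 : S.subtype.comp (liftG (fun i => (⟨xL (min i k), hx' i⟩ : S))
          (fun i hi => Subtype.ext (by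
            show (xL (min i k) : L k) * xL (min i k) = 1
            unfold xL
            rw [← map_mul, xG_sq, map_one])) ⟨yL, hy⟩) = mkL k := by
        apply homG_ext
        · intro i hi
          rw [MonoidHom.comp_apply, liftG_x _ _ _ hi]
          show (xL (min i k) : L k) = mkL k (xG i)
          rw [min_eq_left hi]
          rfl
        · rw [MonoidHom.comp_apply, liftG_y]
          rfl
      rw [← DFunLike.congr_fun h1 g]
      exact Subtype.property _
    intro x hxK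
    have h2 : x * (sW k (toW k x))⁻¹ ∈ Subgroup.closure (Set.range (muL (k := k))) := hS x
    rwa [mem_K.1 hxK, map_one, inv_one, mul_one] at h2
  · rw [Subgroup.closure_le]
    rintro _ ⟨g, rfl⟩
    exact mu_mem g
/-- piece DN-L4: homomorphisms on `K k` -/
theorem homK_ext {H : Type*} [Group H] {f g : K k →* H} (h : ∀ w, f (muK w) = g (muK w)) : f = g := by
  refine MonoidHom.ext fun x => ?_
  have h1 : K k ≤ (MonoidHom.eqLocus f g).map (K k).subtype := by
    conv_lhs => rw [K_gen]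
    rw [Subgroup.closure_le]
    rintro _ ⟨w, rfl⟩
    exact ⟨muK w, h w, rfl⟩
  obtain ⟨y, hy, hxy⟩ := h1 x.2
  have h2 : y = x := Subtype.ext hxy
  rw [← h2]
  exact hy
/-- piece DN-L4: every element of `K k` is in the subgroup generated by finitely many `muL g`
(`K_gen`, closure induction) -/
theorem exists_supp {x : L k} (hx : x ∈ K k) :
    ∃ S : Set (W k), S.Finite ∧ x ∈ Subgroup.closure (muL '' S) := by
  rw [K_gen] at hx
  induction hx using Subgroup.closure_induction with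
  | mem x h =>
    obtain ⟨g, rfl⟩ := h
    exact ⟨{g}, Set.finite_singleton g,
      Subgroup.subset_closure ⟨g, Set.mem_singleton g, rfl⟩⟩
  | one => exact ⟨∅, Set.finite_empty, one_mem _⟩
  | mul x y _ _ hx hy =>
    obtain ⟨S, hS, h1⟩ := hx
    obtain ⟨S', hS', h2⟩ := hy
    refine ⟨S ∪ S', hS.union hS', mul_mem ?_ ?_⟩
    · exact Subgroup.closure_mono (Set.image_mono Set.subset_union_left) h1
    · exact Subgroup.closure_mono (Set.image_mono Set.subset_union_right) h2
  | inv x _ hx =>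
    obtain ⟨S, hS, h1⟩ := hx
    exact ⟨S, hS, inv_mem h1⟩
/-- piece DN-L4: `α_j`, `t_0` and conjugations map `K k` to itself -/
theorem aL_K {j : ℕ} {x : L k} (hx : x ∈ K k) : aL j x ∈ K k := by
  rw [mem_K] at hx ⊢
  by_cases hj : j < k
  · rw [toW_aL hj, hx, map_one]
  · unfold aL
    rw [dif_neg hj]
    exact hx
/-- piece DN-L4 -/
theorem tL0_K {x : L k} (hx : x ∈ K k) : tL0 k x ∈ K k := by
  rw [mem_K] at hx ⊢
  rw [toW_tL0, hx]

/-- piece DN-L5: `t_0` moves the class of `muL g` to the class of `muL (g x_0)`.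
Proof. `t_0 (muL g) = t_0(sW g) · x_0 y x_0 · t_0(sW g)⁻¹` and `t_0 (sW g) = κ sW g` with `κ ∈ K k` (`toW_tL0`);
so it is `κ muL (g x_0) κ⁻¹`. -/
theorem tL0_mu (g : W k) : ∃ κ ∈ K k, tL0 k (muL g) = κ * muL (g * xW 0) * κ⁻¹ := by
  obtain ⟨κ, hκ, h⟩ := L_decomp (tL0 k (sW k g))
  rw [toW_tL0, toW_sW] at h
  refine ⟨κ, hκ, ?_⟩
  have hx : (sW k (xW 0))⁻¹ = sW k (xW 0) := by rw [← map_inv, xW_inv]
  have e : tL0 k (yL : L k) = sW k (xW 0) * yL * (sW k (xW 0))⁻¹ := by
    rw [tL0_y, hx, sW_x (Nat.zero_le k)]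
  unfold muL
  rw [map_mul, map_mul, map_inv, h, e, map_mul, mul_inv_rev, mul_inv_rev]
  simp only [mul_assoc]

/-- `t_0` on a conjugate of `muL g` -/
private theorem l5_t {κ : L k} (hκ : κ ∈ K k) (g : W k) :
    ∃ κ' ∈ K k, tL0 k (κ * muL g * κ⁻¹) = κ' * muL (g * xW 0) * κ'⁻¹ := by
  obtain ⟨c, hc, h⟩ := tL0_mu g
  refine ⟨tL0 k κ * c, (K k).mul_mem (tL0_K hκ) hc, ?_⟩
  rw [map_mul, map_mul, map_inv, h, mul_inv_rev]
  simp only [mul_assoc]

/-- piece DN-L5: `e = t_0 α_0 t_0` moves the class of `muL g` to that of `muL (α_0(g) x_0 x_1)`, `k ≥ 1`: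
`α_0 (g x_0) x_0 = α_0(g) x_0 x_1 x_0 x_0` -/
theorem eL_mu (hk : 1 ≤ k) (g : W k) :
    ∃ κ ∈ K k, eL k (muL g) = κ * muL (wA 0 g * (xW 0 * xW 1)) * κ⁻¹ := by
  obtain ⟨κ, hκ, h⟩ := tL0_mu g
  have h1 : aL 0 (κ * muL (g * xW 0) * κ⁻¹) =
      aL 0 κ * muL (wA 0 (g * xW 0)) * (aL 0 κ)⁻¹ := by
    rw [map_mul, map_mul, map_inv, aL_mu (by omega)]
  obtain ⟨c, hc, h2⟩ := l5_t (aL_K (j := 0) hκ) (wA 0 (g * xW 0))
  refine ⟨c, hc, ?_⟩
  have h3 : eL k (muL g) = tL0 k (aL 0 (tL0 k (muL g))) := rfl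
  have h4 : wA 0 (g * xW 0) * xW 0 = wA 0 g * (xW 0 * xW 1) := by
    rw [map_mul, wA_x (by omega) (by omega)]
    unfold wC
    rw [if_pos rfl]
    simp only [mul_assoc, xW_sq, mul_one, zero_add]
  rw [h3, h, h1, h2, h4]

/-- piece DN-L5: `e⁻¹ α_0` moves the class of `muL g` to that of `muL (g x_1 x_0)`: `e (muL g)` is in the
class of `α_0(g) x_0 x_1 = α_0(g x_1 x_0 · ...)`; compute: `e⁻¹ = t_0 α_0⁻¹ t_0`; `α_0 g`, then `x_0` on the
right, then `α_0⁻¹`: `g x_1`, then `x_0` on the right: `g x_1 x_0`. -/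
theorem ea_mu (hk : 1 ≤ k) (g : W k) :
    ∃ κ ∈ K k, ((eL k)⁻¹ * aL 0 : MulAut (L k)) (muL g) = κ * muL (g * (xW 1 * xW 0)) * κ⁻¹ := by
  have ht : (tL0 k)⁻¹ = tL0 k := inv_eq_of_mul_eq_one_left tL0_sq
  have he : (eL k)⁻¹ = tL0 k * (aL 0)⁻¹ * tL0 k := by
    unfold eL
    rw [mul_inv_rev, mul_inv_rev, ht, mul_assoc]
  have ha : ∀ x : L k, aL 0 ((aL 0)⁻¹ x) = x := fun x => MulAut.apply_inv_self _ _ x
  have ha' : ∀ x : L k, (aL 0)⁻¹ (aL 0 x) = x := fun x => MulAut.inv_apply_self _ _ x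
  have hw : ∀ w : W k, (wA 0)⁻¹ (wA 0 w) = w := fun x => MulAut.inv_apply_self _ _ x
  have hw' : ∀ w : W k, wA 0 ((wA 0)⁻¹ w) = w := fun x => MulAut.apply_inv_self _ _ x
  obtain ⟨κ, hκ, h⟩ := tL0_mu (wA 0 g)
  have hK : (aL 0)⁻¹ κ ∈ K k := by
    rw [mem_K]
    have h1 := toW_aL (show 0 < k by omega) ((aL 0)⁻¹ κ)
    rw [ha, mem_K.1 hκ] at h1
    exact (wA 0).injective (h1.symm.trans (map_one _).symm)
  have h5 : wA 0 g * xW 0 = wA 0 (g * xW 1) := by
    rw [map_mul, wA_x (by omega) hk]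
    unfold wC
    rw [if_neg (by omega), if_pos (by omega)]
  have h1 : (aL 0)⁻¹ (κ * muL (wA 0 g * xW 0) * κ⁻¹) =
      (aL 0)⁻¹ κ * muL (g * xW 1) * ((aL 0)⁻¹ κ)⁻¹ := by
    rw [map_mul, map_mul, map_inv, h5, ← aL_mu (by omega), ha']
  obtain ⟨c, hc, h2⟩ := l5_t hK (g * xW 1)
  refine ⟨c, hc, ?_⟩
  have h3 : ((eL k)⁻¹ * aL 0 : MulAut (L k)) (muL g) =
      tL0 k ((aL 0)⁻¹ (tL0 k (aL 0 (muL g)))) := by
    rw [he]
    rfl
  rw [h3, aL_mu (by omega), h, h1, h2, mul_assoc g]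

/-- piece DN-L5: `e` fixes `x_i` for `i ≥ 2` and `r` -/
theorem eL_x {i : ℕ} (hi : 2 ≤ i) : eL k (xL i) = xL i := by
  have h3 : eL k (xL i) = tL0 k (aL 0 (tL0 k (xL i))) := rfl
  have h1 : aL 0 (xL i : L k) = xL i := by
    rcases Nat.eq_zero_or_pos k with h0 | h0
    · unfold aL
      rw [dif_neg (by omega)]
      rfl
    · rcases Nat.lt_or_ge k i with h | h
      · have e : (xL i : L k) = 1 := by
          unfold xL
          rw [xG_ge (by omega), map_one]
        rw [e, map_one]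
      · rw [← sW_x h, aL_sW h0, wA_x h0 h]
        unfold wC
        rw [if_neg (by omega), if_neg (by omega)]
  rw [h3, tL0_x (by omega), h1, tL0_x (by omega)]
/-- piece DN-L5 -/
theorem eL_r : eL k (rL k) = rL k := by
  have h3 : eL k (rL k) = tL0 k (aL 0 (tL0 k (rL k))) := rfl
  rw [h3, tL0_r, aL_r, tL0_r]

end

end Pool.Agent.Helper20.DN
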