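import Pool.Agent.Helper20.DN.S7
import Pool.Agent.Helper20.DN.GrA

/-!
# Project DN: the final statement from the form of the automorphisms
-/

namespace Pool.Agent.Helper20.DN

open Pool.Agent.Helper7.AG (Artin)
open Pool.Agent.Helper38.BN

section
variable {p : ℕ}

/-- the graph automorphism of a pair of signs -/
def gT (p : ℕ) (u v : ℤˣ) : GraphAut (Dt (p + 4)) :=
  (if u = -1 then ⟨pL p, pL_mem p⟩ else 1) * (if v = -1 then ⟨pR p, pR_mem p⟩ else 1)

lemma gam_gT (u v : ℤˣ) : gam (Dt (p + 4)) (gT p u v) = kAct p (u, v) := by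
  have h1 : kAct p (u, v) = kAct p (u, 1) * kAct p (1, v) := by
    rw [← map_mul, Prod.mk_mul_mk, mul_one, one_mul]
  rw [h1, gT, map_mul]
  congr 1
  · rcases Int.units_eq_one_or u with rfl | rfl
    · rw [if_neg (by decide), map_one]
      exact (map_one _).symm
    · rw [if_pos rfl, gam_pL, kAct_L]
  · rcases Int.units_eq_one_or v with rfl | rfl
    · rw [if_neg (by decide), map_one]
      exact (map_one _).symm
    · rw [if_pos rfl, gam_pR, kAct_R]

lemma cj_iD (x : D p) : cj p (iD x) = MulAut.conj x := by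
  unfold cj
  rw [SemidirectProduct.lift_inl]

lemma cj_inr (s : ℤˣ × ℤˣ) : cj p (SemidirectProduct.inr s) = kAct p s := by
  unfold cj
  rw [SemidirectProduct.lift_inr]

lemma cj_form (γ : Dh p) : ∃ (x : D p) (u v : ℤˣ), cj p γ =
    MulAut.conj x * gam (Dt (p + 4)) (gT p u v) := by
  refine ⟨γ.left, γ.right.1, γ.right.2, ?_⟩
  rw [gam_gT, ← cj_iD, ← cj_inr, ← map_mul, Prod.mk.eta, SemidirectProduct.inl_left_mul_inr_right]

/-- the graph automorphism `σ` -/
def gS (p : ℕ) : GraphAut (Dt (p + 4)) := ⟨pS p, pS_mem p⟩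

lemma gam_gS : gam (Dt (p + 4)) (gS p) = sg p := gam_pS

/-- the form of the automorphisms -/
theorem form (h : ∀ φ : MulAut (D p), ∃ γ : Dh p, φ = cj p γ ∨ φ = cj p γ * eps p ∨
    φ = cj p γ * sg p ∨ φ = cj p γ * eps p * sg p) (φ : MulAut (D p)) :
    ∃ (x : D p) (g : GraphAut (Dt (p + 4))), φ = MulAut.conj x * gam (Dt (p + 4)) g ∨
      φ = MulAut.conj x * gam (Dt (p + 4)) g * eps p := by
  obtain ⟨γ, hγ⟩ := h φ
  obtain ⟨x, u, v, hx⟩ := cj_form γ
  rw [hx] at hγ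
  rcases hγ with h | h | h | h
  · exact ⟨x, gT p u v, Or.inl h⟩
  · exact ⟨x, gT p u v, Or.inr h⟩
  · refine ⟨x, gT p u v * gS p, Or.inl ?_⟩
    rw [h, map_mul, gam_gS, mul_assoc]
  · refine ⟨x, gT p u v * gS p, Or.inr ?_⟩
    rw [h, map_mul, gam_gS, mul_assoc _ (eps p), eps_sg']
    simp only [mul_assoc]

lemma gT_inner {u v : ℤˣ} {x : D p} (h : gam (Dt (p + 4)) (gT p u v) = MulAut.conj x) :
    u = 1 ∧ v = 1 := by
  rw [gam_gT, ← cj_iD, ← cj_inr] at h
  have h1 := congrArg SemidirectProduct.right (cj_inj h)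
  have h2 : ((u, v) : ℤˣ × ℤˣ) = 1 := h1
  exact ⟨congrArg Prod.fst h2, congrArg Prod.snd h2⟩

/-- every graph automorphism is `gT u v` or `gT u v * gS` -/
lemma cases_gT (hp : 1 ≤ p) (g : GraphAut (Dt (p + 4))) :
    ∃ u v : ℤˣ, g = gT p u v ∨ g = gT p u v * gS p := by
  obtain ⟨i, j, l, h⟩ := graphAut_cases hp g.2
  refine ⟨if i then -1 else 1, if j then -1 else 1, ?_⟩
  cases l
  · left
    apply Subtype.ext
    rw [h]
    cases i <;> cases j <;> simp [gT]
  · right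
    apply Subtype.ext
    rw [h]
    cases i <;> cases j <;> simp [gT, gS]

theorem gam_inner (hp : 1 ≤ p) {g : GraphAut (Dt (p + 4))} {x : D p}
    (h : gam (Dt (p + 4)) g = MulAut.conj x) : g = 1 := by
  obtain ⟨u, v, rfl | rfl⟩ := cases_gT hp g
  · obtain ⟨rfl, rfl⟩ := gT_inner h
    rw [gT, if_neg (by decide), if_neg (by decide), one_mul]
  · exfalso
    rw [map_mul, gam_gS, gam_gT, ← cj_inr, ← cj_iD] at h
    exact sg_ne _ _ h.symm

theorem gam_eps_inner (hp : 1 ≤ p) (g : GraphAut (Dt (p + 4))) (x : D p) :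
    gam (Dt (p + 4)) g * eps p ≠ MulAut.conj x := by
  intro h
  obtain ⟨u, v, rfl | rfl⟩ := cases_gT hp g
  · rw [gam_gT, ← cj_inr, ← cj_iD] at h
    exact eps_ne _ _ h.symm
  · rw [map_mul, gam_gS, gam_gT, ← cj_inr, ← cj_iD, mul_assoc, ← eps_sg'] at h
    exact epssg_ne _ _ h.symm

/-- the final statement from the form of the automorphisms -/
theorem stmt_of (hp : 1 ≤ p) (h : ∀ φ : MulAut (D p), ∃ γ : Dh p, φ = cj p γ ∨ φ = cj p γ * eps p ∨
    φ = cj p γ * sg p ∨ φ = cj p γ * eps p * sg p) : Stmt (Dt (p + 4)) := by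
  have h1 := out_general (G := D p) (ε := eps p) (γ := gam (Dt (p + 4))) center_D eps_eps eps_gam
    (fun g x hg => gam_inner hp hg) (gam_eps_inner hp) (form h)
  exact ⟨eps p, gam (Dt (p + 4)), invertsGens_eps, gam_of _, eps_eps, eps_gam, h1⟩

end

end Pool.Agent.Helper20.DN
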