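import Pool.Agent.Helper20.DN.Defs

/-!
# Project DN: presentation of `D p`
-/

namespace Pool.Agent.Helper20.DN

open Pool.Agent.Helper7.AG (alt rels Artin)
open Pool.Agent.Helper38.BN

lemma Dt_apply (n : ℕ) (i j : Fin (n + 1)) : (Dt n) i j = dtE n i j := rfl

lemma dtE_two {n i j : ℕ} (h1 : i ≠ j) (h2 : ¬((i = 0 ∧ j = 2) ∨ (j = 0 ∧ i = 2)))
    (h3 : ¬((i + 2 = n ∧ j = n) ∨ (j + 2 = n ∧ i = n)))
    (h4 : ¬((i ≠ 0 ∧ j = i + 1 ∧ j ≠ n) ∨ (j ≠ 0 ∧ i = j + 1 ∧ i ≠ n))) : dtE n i j = 2 := by
  unfold dtE
  rw [if_neg h1, if_neg h2, if_neg h3, if_neg h4]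

lemma dtE_three {n i j : ℕ} (h : (i = 0 ∧ j = 2) ∨ (j = 0 ∧ i = 2) ∨
    (i + 2 = n ∧ j = n) ∨ (j + 2 = n ∧ i = n) ∨
    (i ≠ 0 ∧ j = i + 1 ∧ j ≠ n) ∨ (j ≠ 0 ∧ i = j + 1 ∧ i ≠ n)) : dtE n i j = 3 := by
  unfold dtE
  rw [if_neg (by omega)]
  split_ifs <;> first | rfl | omega

section
variable {p : ℕ}

lemma aD_of {j : ℕ} (h : j < p + 3) :
    (aD j : D p) = PresentedGroup.of (⟨p + 3 - j, by omega⟩ : Fin (p + 4 + 1)) := if_pos h

lemma aD_ge {j : ℕ} (h : p + 3 ≤ j) : (aD j : D p) = 1 := if_neg (by omega)

private lemma rel2 {i j : Fin (p + 4 + 1)} (h : dtE (p + 4) i j = 2) :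
    (PresentedGroup.of i : D p) * PresentedGroup.of j =
      PresentedGroup.of j * PresentedGroup.of i := by
  have h1 := artin_rel (Dt (p + 4)) i j
  rwa [Dt_apply, h, alt_two, alt_two] at h1

private lemma rel3 {i j : Fin (p + 4 + 1)} (h : dtE (p + 4) i j = 3) :
    (PresentedGroup.of i : D p) * PresentedGroup.of j * PresentedGroup.of i =
      PresentedGroup.of j * PresentedGroup.of i * PresentedGroup.of j := by
  have h1 := artin_rel (Dt (p + 4)) i j
  rwa [Dt_apply, h, alt_three, alt_three] at h1

theorem relD (p : ℕ) : RelD p (aD : ℕ → D p) bD eD where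
  comm i j h h' := by
    rw [aD_of (by omega), aD_of (by omega)]
    exact rel2 (dtE_two (by simp only; omega) (by simp only; omega) (by simp only; omega)
      (by simp only; omega))
  braid i h := by
    rw [aD_of (by omega), aD_of (by omega)]
    exact rel3 (dtE_three (by simp only; omega))
  ba := by
    rw [aD_of (by omega)]
    exact rel2 (dtE_two (by simp only; omega) (by simp only; omega) (by simp only; omega)
      (by simp only; omega))
  bb := by
    rw [aD_of (by omega)]
    refine rel3 (dtE_three (Or.inl ⟨rfl, ?_⟩))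
    change p + 3 - (p + 1) = 2
    omega
  bc i h := by
    rw [aD_of (by omega)]
    exact rel2 (dtE_two (by simp only; omega) (by simp only; omega) (by simp only; omega)
      (by simp only; omega))
  ea := by
    rw [aD_of (by omega)]
    exact rel2 (dtE_two (by simp only; omega) (by simp only; omega) (by simp only; omega)
      (by simp only; omega))
  eb := by
    rw [aD_of (by omega)]
    refine rel3 (dtE_three (Or.inr (Or.inr (Or.inr (Or.inl ⟨?_, rfl⟩)))))
    change p + 3 - 1 + 2 = p + 4
    omega
  ec i h h' := by
    rw [aD_of (by omega)]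
    exact rel2 (dtE_two (by simp only; omega) (by simp only; omega) (by simp only; omega)
      (by simp only; omega))
  be := rel2 (dtE_two (by simp only; omega) (by simp only; omega) (by simp only; omega)
      (by simp only; omega))

variable {K : Type*} [Group K]

/-- the images of the generators -/
def liftDf (p : ℕ) (a : ℕ → K) (b e : K) (i : Fin (p + 4 + 1)) : K :=
  if i.val = 0 then b else if i.val = p + 4 then e else a (p + 3 - i.val)

private lemma liftD_aux {a : ℕ → K} {b e : K} (h : RelD p a b e) :
    ∀ r ∈ rels (Dt (p + 4)), FreeGroup.lift (liftDf p a b e) r = 1 := by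
  apply artin_lift_aux
  -- it is enough to consider `s < t`
  have key : ∀ s t : Fin (p + 4 + 1), s.val < t.val →
      alt (liftDf p a b e s) (liftDf p a b e t) (Dt (p + 4) s t) =
        alt (liftDf p a b e t) (liftDf p a b e s) (Dt (p + 4) s t) := by
    intro s t hst
    obtain ⟨s, hs⟩ := s
    obtain ⟨t, ht⟩ := t
    simp only at hst
    rw [Dt_apply]
    simp only [liftDf]
    rcases Nat.eq_zero_or_pos s with rfl | hs0
    · -- `s = b`
      rw [if_pos rfl, if_neg (by omega)]
      rcases Nat.lt_or_ge t (p + 4) with ht1 | ht1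
      · rw [if_neg (by omega)]
        rcases Nat.lt_trichotomy t 2 with h2 | h2 | h2
        · have e1 : t = 1 := by omega
          subst e1
          have e1 : dtE (p + 4) 0 1 = 2 :=
              dtE_two (by omega) (by omega) (by omega) (by omega)
          rw [e1, alt_two, alt_two]
          exact h.ba
        · subst h2
          have e1 : dtE (p + 4) 0 2 = 3 := dtE_three (by omega)
          rw [e1, alt_three, alt_three]
          exact h.bb
        · have e1 : dtE (p + 4) 0 t = 2 :=
              dtE_two (by omega) (by omega) (by omega) (by omega)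
          rw [e1, alt_two, alt_two]
          exact h.bc _ (by omega)
      · rw [if_pos (by omega)]
        have e1 : dtE (p + 4) 0 t = 2 :=
              dtE_two (by omega) (by omega) (by omega) (by omega)
        rw [e1, alt_two, alt_two]
        exact h.be
    · rw [if_neg (by omega), if_neg (by omega), if_neg (by omega)]
      rcases Nat.lt_or_ge t (p + 4) with ht1 | ht1
      · rw [if_neg (by omega)]
        rcases Nat.lt_or_ge (s + 1) t with h2 | h2
        · have e1 : dtE (p + 4) s t = 2 :=
              dtE_two (by omega) (by omega) (by omega) (by omega)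
          rw [e1, alt_two, alt_two]
          exact (h.comm _ _ (by omega) (by omega)).symm
        · have e : t = s + 1 := by omega
          subst e
          have e1 : dtE (p + 4) s (s + 1) = 3 := dtE_three (by omega)
          rw [e1, alt_three, alt_three]
          have h3 := h.braid (p + 3 - (s + 1)) (by omega)
          have e2 : p + 3 - (s + 1) + 1 = p + 3 - s := by omega
          rw [e2] at h3
          exact h3.symm
      · rw [if_pos (by omega)]
        rcases Nat.lt_trichotomy s (p + 2) with h2 | h2 | h2
        · have e1 : dtE (p + 4) s t = 2 :=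
              dtE_two (by omega) (by omega) (by omega) (by omega)
          rw [e1, alt_two, alt_two]
          exact (h.ec _ (by omega) (by omega)).symm
        · subst h2
          have e1 : dtE (p + 4) (p + 2) t = 3 := dtE_three (by omega)
          rw [e1, alt_three, alt_three]
          have e2 : p + 3 - (p + 2) = 1 := by omega
          rw [e2]
          exact h.eb.symm
        · have e : s = p + 3 := by omega
          subst e
          have e1 : dtE (p + 4) (p + 3) t = 2 :=
              dtE_two (by omega) (by omega) (by omega) (by omega)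
          rw [e1, alt_two, alt_two]
          have e2 : p + 3 - (p + 3) = 0 := by omega
          rw [e2]
          exact h.ea.symm
  intro s t
  rcases lt_trichotomy s.val t.val with h1 | h1 | h1
  · exact key s t h1
  · have : s = t := Fin.ext h1
    rw [this]
  · have h2 := key t s h1
    rw [(Dt (p + 4)).symmetric s t]
    exact h2.symm

/-- the universal property of `D p` -/
def liftD {a : ℕ → K} {b e : K} (h : RelD p a b e) : D p →* K :=
  PresentedGroup.toGroup (liftD_aux h)

@[simp] lemma liftD_b {a : ℕ → K} {b e : K} (h : RelD p a b e) : liftD h bD = b := by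
  unfold liftD bD; rw [PresentedGroup.toGroup.of]; simp [liftDf]
@[simp] lemma liftD_e {a : ℕ → K} {b e : K} (h : RelD p a b e) : liftD h eD = e := by
  unfold liftD eD; rw [PresentedGroup.toGroup.of]; simp [liftDf]
lemma liftD_a {a : ℕ → K} {b e : K} (h : RelD p a b e) {j : ℕ} (hj : j < p + 3) :
    liftD h (aD j) = a j := by
  rw [aD_of hj]; unfold liftD; rw [PresentedGroup.toGroup.of]
  have e : p + 3 - (p + 3 - j) = j := by omega
  simp only [liftDf]
  rw [if_neg (by omega), if_neg (by omega), e]

lemma genD_cases (i : Fin (p + 4 + 1)) : (PresentedGroup.of i : D p) = bD ∨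
    (PresentedGroup.of i : D p) = eD ∨ ∃ j, j < p + 3 ∧ (PresentedGroup.of i : D p) = aD j := by
  obtain ⟨i, hi⟩ := i
  rcases Nat.eq_zero_or_pos i with rfl | h0
  · exact Or.inl rfl
  · rcases Nat.lt_or_ge i (p + 4) with h1 | h1
    · refine Or.inr (Or.inr ⟨p + 3 - i, by omega, ?_⟩)
      rw [aD_of (by omega)]
      congr 2
      omega
    · refine Or.inr (Or.inl ?_)
      have e : i = p + 4 := by omega
      subst e
      rfl

/-- homomorphisms on `D p` are equal if they agree on the generators -/
lemma homD_ext {f g : D p →* K} (ha : ∀ j, j < p + 3 → f (aD j) = g (aD j))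
    (hb : f bD = g bD) (he : f eD = g eD) : f = g := by
  apply PresentedGroup.ext
  intro i
  rcases genD_cases i with h | h | ⟨j, hj, h⟩
  · rw [h, hb]
  · rw [h, he]
  · rw [h, ha j hj]

lemma closure_D : Subgroup.closure ({bD, eD} ∪ aD '' {j | j < p + 3} : Set (D p)) = ⊤ := by
  rw [eq_top_iff, ← PresentedGroup.closure_range_of, Subgroup.closure_le]
  rintro _ ⟨i, rfl⟩
  apply Subgroup.subset_closure
  rcases genD_cases i with h | h | ⟨j, hj, h⟩
  · rw [h]; simp
  · rw [h]; simp
  · rw [h]; exact Or.inr ⟨j, hj, rfl⟩

end

end Pool.Agent.Helper20.DN
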