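import Pool.Agent.Helper20.DN.Gam

/-!
# Project DN, step 5: the image of `z = ζ²`

For an automorphism `φ` of `D p` which preserves `LR` and `LL` the element `φ z` is conjugate in `Γ` to `z` or
`z⁻¹`.
-/

namespace Pool.Agent.Helper20.DN

open Pool.Agent.Helper38.BN

section
variable {p : ℕ}

/-- `φ` preserves `LR` -/
def PLR (φ : MulAut (D p)) : Prop := ∀ x, φ x ∈ LR p ↔ x ∈ LR p
/-- `φ` preserves `LL` -/
def PLL (φ : MulAut (D p)) : Prop := ∀ x, φ x ∈ LL p ↔ x ∈ LL p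

lemma PLR.cj {φ : MulAut (D p)} (h : PLR φ) (γ : Dh p) : PLR (cj p γ * φ) := fun x => by
  rw [MulAut.mul_apply, cj_LR]; exact h x
lemma PLL.cj {φ : MulAut (D p)} (h : PLL φ) (γ : Dh p) : PLL (cj p γ * φ) := fun x => by
  rw [MulAut.mul_apply, cj_LL]; exact h x
lemma PLR.inv {φ : MulAut (D p)} (h : PLR φ) : PLR φ⁻¹ := fun x => by
  rw [← h (φ⁻¹ x), MulAut.apply_inv_self]
lemma PLL.inv {φ : MulAut (D p)} (h : PLL φ) : PLL φ⁻¹ := fun x => by
  rw [← h (φ⁻¹ x), MulAut.apply_inv_self]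

/-- the automorphism `σ φ σ` -/
def mir (φ : MulAut (D p)) : MulAut (D p) := sg p * φ * sg p

lemma mir_apply (φ : MulAut (D p)) (x : D p) : mir φ x = sg p (φ (sg p x)) := rfl

lemma sg_sg' (x : D p) : sg p (sg p x) = x := DFunLike.congr_fun sg_sg x

lemma mir_mir (φ : MulAut (D p)) : mir (mir φ) = φ := by
  ext x
  rw [mir_apply, mir_apply, sg_sg', sg_sg']

lemma PLL.mirror {φ : MulAut (D p)} (h : PLL φ) : PLR (mir φ) := fun x => by
  rw [mir_apply, sg_LL, h, sg_LR]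
lemma PLR.mirror {φ : MulAut (D p)} (h : PLR φ) : PLL (mir φ) := fun x => by
  rw [mir_apply, sg_LR, h, sg_LL]

/-- piece DN-Z1: the second sign is trivial on `HD` (`HD_eq`, closure induction) -/
theorem sgn_HD {h : Dh p} (hh : h ∈ HD p) : (sgn p h).2 = 1 := by
  have key : HD p ≤ ((MonoidHom.snd ℤˣ ℤˣ).comp (sgn p)).ker := by
    rw [HD_eq, Subgroup.closure_le]
    rintro x (hx | ⟨j, hj, rfl⟩)
    · rw [Set.mem_singleton_iff.mp hx]
      show (sgn p tL).2 = 1
      have h : sgn p tL = ((-1, 1) : ℤˣ × ℤˣ) := SemidirectProduct.rightHom_inr _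
      rw [h]
    · show (sgn p (iD (aD j))).2 = 1
      have h : sgn p (iD (aD j)) = 1 := SemidirectProduct.rightHom_inl _
      rw [h]
      rfl
  exact MonoidHom.mem_ker.mp (key hh)

/-- piece DN-Z1: if the second sign of `λ(l)` is trivial then `λ(l rⁱ) ∈ D` for `i = 0` or `i = 1`.
Proof. `l = κ (sW w)` with `κ ∈ K` (`L_decomp`); `sgn (λ (muL g)) = sgn (λ y) = sgn ζ * sgn (λ R)` (`lam_y`,
`sgn_ze`, `sgn_sW`, `parW (RW k) = (-1)^(k+1)`), the value group is commutative of exponent two. If `p + 4` is even: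
`sgn (λ y) = 1`, so `sgn (λ l) = (1, parW w)` and `i = 0`. If `p + 4` is odd: `sgn ζ = (-1, 1)`, so `i = 0` or `i = 1`
gives the first sign `1`. -/
theorem exists_par {l : L (p + 3)} (h : (sgn p (lam p l)).2 = 1) :
    ∃ i : ℤ, sgn p (lam p (l * rL (p + 3) ^ i)) = 1 := by
  have hr : sgn p (lam p (rL (p + 3))) = ((-1) ^ (p + 4), 1) := by rw [lam_r, sgn_ze]
  by_cases hp : Even (p + 4)
  · have hf : ((MonoidHom.fst ℤˣ ℤˣ).comp ((sgn p).comp (lam p))) = 1 := by
      apply homL_ext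
      · intro i hi
        show (sgn p (lam p (xL i))).1 = 1
        rw [← sW_x hi, sgn_sW]
      · show (sgn p (lam p yL)).1 = 1
        rw [lam_y, map_mul, map_inv, sgn_ze]
        have h1 : sgn p (lam p (RL (p + 3))) = (1, parW (p + 3) (RW (p + 3))) := sgn_sW _
        rw [h1, hp.neg_one_pow]
        simp
    refine ⟨0, ?_⟩
    rw [zpow_zero, mul_one]
    exact Prod.ext (DFunLike.congr_fun hf l) h
  · rw [Nat.not_even_iff_odd] at hp
    rw [hp.neg_one_pow] at hr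
    rcases Int.units_eq_one_or (sgn p (lam p l)).1 with h1 | h1
    · refine ⟨0, ?_⟩
      rw [zpow_zero, mul_one]
      exact Prod.ext h1 h
    · refine ⟨1, ?_⟩
      rw [zpow_one, map_mul, map_mul, hr]
      refine Prod.ext ?_ ?_
      · show (sgn p (lam p l)).1 * (-1) = 1
        rw [h1]
        rfl
      · show (sgn p (lam p l)).2 * 1 = 1
        rw [h, mul_one]

/-- piece DN-Z2: the class of `φ z` is a class of `LR`.
Proof. Let `d' = φ⁻¹ d`. By `Dh_decomp` `iD d' = λ(l₁) h`, `h ∈ HD`; `h` commutes with `ζ` (`ze_comm`), so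
`iD (d' z d'⁻¹) = λ(l₁) ζ² λ(l₁)⁻¹`. `sgn (iD d') = 1` and `sgn_HD` give `(sgn (λ l₁)).2 = 1`; take `i` from
`exists_par` and `d''` with `iD d'' = λ(l₁ rⁱ)` (`mem_D`), `d'' ∈ LR`. As `λ r = ζ` (`lam_r`) commutes with
`ζ²`, `d' z d'⁻¹ = d'' z d''⁻¹`. Apply `φ`: `d (φ z) d⁻¹ = φ(d'') (φ z) φ(d'')⁻¹` with `φ d'' ∈ LR`, so
`iD (φ d'') = λ(l)`; now use `lam_equiv` and `lam_inj`. -/
theorem classZ {φ : MulAut (D p)} (hR : PLR φ) {l₀ : L (p + 3)} (h₀ : lam p l₀ = iD (φ (zD p)))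
    (d : D p) : ∃ l, ActD p (iD d) l₀ = l * l₀ * l⁻¹ := by
  have hinj : Function.Injective (iD : D p → Dh p) := SemidirectProduct.inl_injective
  obtain ⟨l₁, h, hh, e⟩ := Dh_decomp (iD (φ⁻¹ d) : Dh p)
  have hs1 : sgn p (iD (φ⁻¹ d)) = 1 := SemidirectProduct.rightHom_inl _
  have hs2 : (sgn p (lam p l₁)).2 = 1 := by
    have h1 := congrArg (fun x => (sgn p x).2) e
    simp only [hs1, map_mul, Prod.snd_mul, sgn_HD hh, mul_one] at h1
    exact h1.symm
  obtain ⟨i, hi⟩ := exists_par hs2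
  obtain ⟨d'', hd''⟩ := mem_D hi
  have hLR : d'' ∈ LR p := ⟨_, hd''⟩
  obtain ⟨l, hl⟩ := (hR d'').2 hLR
  have hz : h * ze p ^ 2 * h⁻¹ = ze p ^ 2 := by
    have hc : Commute h (ze p) := ze_comm hh
    rw [(hc.pow_right 2).eq, mul_inv_cancel_right]
  have hz2 : ze p ^ i * ze p ^ 2 * (ze p ^ i)⁻¹ = ze p ^ 2 := by
    have hc : Commute (ze p ^ i) (ze p ^ 2) :=
      ((Commute.refl (ze p)).zpow_left i).pow_right 2
    rw [hc.eq, mul_inv_cancel_right]
  have hconj : φ⁻¹ d * zD p * (φ⁻¹ d)⁻¹ = d'' * zD p * d''⁻¹ := by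
    apply hinj
    rw [map_mul, map_mul, map_inv, map_mul, map_mul, map_inv, iD_zD, ← hd'', e, map_mul, map_zpow,
      lam_r]
    calc lam p l₁ * h * ze p ^ 2 * (lam p l₁ * h)⁻¹
        = lam p l₁ * (h * ze p ^ 2 * h⁻¹) * (lam p l₁)⁻¹ := by group
      _ = lam p l₁ * (ze p ^ i * ze p ^ 2 * (ze p ^ i)⁻¹) * (lam p l₁)⁻¹ := by rw [hz, hz2]
      _ = lam p l₁ * ze p ^ i * ze p ^ 2 * (lam p l₁ * ze p ^ i)⁻¹ := by
        simp only [mul_inv_rev, mul_assoc]
  have h2 := congrArg φ hconj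
  rw [map_mul, map_mul, map_inv, MulAut.apply_inv_self, map_mul, map_mul, map_inv] at h2
  refine ⟨l, lam_inj ?_⟩
  rw [← lam_equiv, h₀, map_mul, map_mul, map_inv, hl, h₀]
  change iD d * iD (φ (zD p)) * (iD d)⁻¹ = iD (φ d'') * iD (φ (zD p)) * (iD (φ d''))⁻¹
  rw [← map_inv, ← map_mul, ← map_mul, h2, map_mul, map_mul, map_inv]

/-- piece DN-Z3: every element `l₀` with the classes as in `classZ` is `s (κ rⁿ) s⁻¹`, `s ∈ W`, `κ ∈ K`.
Proof. `toW (ActD (iD (aD j)) l₀) = wA j (toW l₀)` (`ActD_a`, `toW_aL`), so `toW l₀` satisfies the hypothesis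
of `wcl`: `toW l₀ = g Rⁿ g⁻¹`; `κ = s⁻¹ l₀ s r⁻ⁿ` with `s = sW g` is in `K` because `toW r = R`. -/
theorem exists_kr {l₀ : L (p + 3)} (h : ∀ d : D p, ∃ l, ActD p (iD d) l₀ = l * l₀ * l⁻¹) :
    ∃ (g : W (p + 3)) (n : ℤ), ∃ κ ∈ K (p + 3),
      l₀ = sW (p + 3) g * (κ * rL (p + 3) ^ n) * (sW (p + 3) g)⁻¹ := by
  have h1 : ∀ j, j < p + 3 →
      ∃ g, g * toW (p + 3) l₀ * g⁻¹ = wA j (toW (p + 3) l₀) := by
    intro j hj
    obtain ⟨l, hl⟩ := h (aD j)
    rw [ActD_a hj] at hl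
    refine ⟨toW (p + 3) l, ?_⟩
    rw [← toW_aL hj, hl, map_mul, map_mul, map_inv]
  obtain ⟨g, n, hg⟩ := wcl (by omega) h1
  refine ⟨g, n, (sW (p + 3) g)⁻¹ * l₀ * sW (p + 3) g * (rL (p + 3) ^ n)⁻¹, ?_, ?_⟩
  · rw [mem_K, map_mul, map_mul, map_mul, map_inv, map_inv, map_zpow, toW_sW, toW_r, hg]
    group
  · group

/-- piece DN-Z4: the classes of `κ rⁿ`, in the form of `lemZ`.
Proof. `l₀ = s l' s⁻¹`, `l' = κ rⁿ`; for `d = (e⁻¹ a_0)^N` the automorphism `ActD (iD d)` is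
`((eL)⁻¹ * aL 0)^N` (`ActD_e`, `ActD_a`), and `ActD(d)(s) ActD(d)(l') ActD(d)(s)⁻¹ = l s l' s⁻¹ l⁻¹`. -/
theorem class_pow {l₀ l' s : L (p + 3)} (h : ∀ d : D p, ∃ l, ActD p (iD d) l₀ = l * l₀ * l⁻¹)
    (hs : l₀ = s * l' * s⁻¹) (N : ℕ) : ∃ l : L (p + 3), l * l' * l⁻¹ =
      (((eL (p + 3))⁻¹ * aL 0) ^ N : MulAut (L (p + 3))) l' := by
  obtain ⟨l, hl⟩ := h ((eD⁻¹ * aD 0) ^ N)
  have h1 : ActD p (iD ((eD⁻¹ * aD 0) ^ N)) = ((eL (p + 3))⁻¹ * aL 0) ^ N := by
    rw [map_pow, map_pow, map_mul, map_mul, map_inv, map_inv, ActD_e, ActD_a (by omega)]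
  rw [h1, hs, map_mul, map_mul, map_inv] at hl
  generalize (((eL (p + 3))⁻¹ * aL 0) ^ N : MulAut (L (p + 3))) = F at hl ⊢
  refine ⟨(F s)⁻¹ * l * s, ?_⟩
  have h2 : F l' = (F s)⁻¹ * (F s * F l' * (F s)⁻¹) * F s := by group
  rw [h2, hl]
  group

/-- piece DN-Z5: the exponent: `λ(c) ζⁿ λ(c)⁻¹ = φ z` implies `n = 2` or `n = -2` (`len_aut`, `len_ze`,
`lenH_iD`, `iD_zD`) -/
theorem exp_two {φ : MulAut (D p)} {γ : Dh p} {n : ℤ} (h : iD (φ (zD p)) = γ * ze p ^ n * γ⁻¹) :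
    n = 2 ∨ n = -2 := by
  have h1 := congrArg (lenH p) h
  have h2 := congrArg (lenH p) (iD_zD (p := p))
  rw [map_mul, map_mul, map_inv, map_zpow, len_ze, mul_comm (lenH p γ), mul_inv_cancel_right,
    lenH_iD] at h1
  rw [map_pow, len_ze, lenH_iD] at h2
  have hK : (0 : ℤ) < (((p + 3) * (p + 4) : ℕ) : ℤ) := by positivity
  generalize (((p + 3) * (p + 4) : ℕ) : ℤ) = K at h1 h2 hK
  have h3 := congrArg Multiplicative.toAdd h1
  have h4 := congrArg Multiplicative.toAdd h2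
  rw [toAdd_zpow, toAdd_ofAdd, smul_eq_mul] at h3
  rw [toAdd_pow, toAdd_ofAdd, nsmul_eq_mul] at h4
  push_cast at h4
  rcases len_aut φ with h5 | h5
  · left
    rw [h5, h4] at h3
    exact (mul_right_cancel₀ hK.ne' h3).symm
  · right
    rw [h5, toAdd_inv, h4, ← neg_mul] at h3
    exact (mul_right_cancel₀ hK.ne' h3).symm

/-- piece DN-Z6, STEP 5.
Proof. `iD (φ z) = λ(l₀)` as `z ∈ LR` (`zD_LR`). `classZ`, `exists_kr`: `l₀ = s (κ rⁿ) s⁻¹`. If `n = 0`, then
`l₀ ∈ K` (normal: kernel of `toW`), so `λ(l₀) ∈ λ'(L)` (`lam_K`) and `φ z ∈ LL`, `z ∈ LL`, against `zD_LL`.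
For `n ≠ 0` `class_pow` and `lemZ` give `κ rⁿ = c rⁿ c⁻¹`; so `iD (φ z) = γ ζⁿ γ⁻¹`, `γ = λ(s c)`, and
`exp_two`; `iD_cj`, `iD_zD`. -/
theorem image_z {φ : MulAut (D p)} (hR : PLR φ) (hL : PLL φ) :
    ∃ γ : Dh p, φ (zD p) = cj p γ (zD p) ∨ φ (zD p) = (cj p γ (zD p))⁻¹ := by
  have hz : φ (zD p) ∈ LR p := (hR _).2 zD_LR
  obtain ⟨l₀, h₀⟩ := hz
  have hcl := fun d => classZ hR h₀ d
  obtain ⟨g, n, κ, hκ, e⟩ := exists_kr hcl
  have hn : n ≠ 0 := by
    rintro rfl
    rw [zpow_zero, mul_one] at e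
    have hK : l₀ ∈ K (p + 3) := by
      rw [e]
      exact (inferInstance : ((toW (p + 3)).ker).Normal).conj_mem _ hκ _
    obtain ⟨l', _, h'⟩ := lam_K hK
    refine zD_LL ((hL _).1 ⟨l', ?_⟩)
    rw [← h', h₀]
  obtain ⟨c, hc, hc'⟩ := lemZ (by omega) hκ hn (class_pow hcl e)
  rw [hc'] at e
  have h1 : iD (φ (zD p)) = lam p (sW (p + 3) g * c) * ze p ^ n *
      (lam p (sW (p + 3) g * c))⁻¹ := by
    rw [← h₀, e]
    simp only [map_mul, map_inv, map_zpow, lam_r, mul_inv_rev, mul_assoc]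
  have hinj : Function.Injective (iD : D p → Dh p) := SemidirectProduct.inl_injective
  refine ⟨lam p (sW (p + 3) g * c), ?_⟩
  rcases exp_two h1 with rfl | rfl
  · left
    apply hinj
    rw [iD_cj, iD_zD, h1]
    rfl
  · right
    apply hinj
    rw [map_inv, iD_cj, iD_zD, h1]
    simp only [mul_inv_rev, inv_inv, mul_assoc]
    rfl

/-! ### the automorphism `ε` -/

private lemma kap_succ_e1 {K : Type*} [Group K] (a : ℕ → K) (j : ℕ) :
    kap a (j + 1) = a 0 * kap (fun i => a (i + 1)) j := by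
  induction j with
  | zero => change 1 * a 0 = a 0 * 1; rw [one_mul, mul_one]
  | succ j ih =>
    change kap a (j + 1) * a (j + 1) = a 0 * (kap (fun i => a (i + 1)) j * a (j + 1))
    rw [ih, mul_assoc]

/-- piece DN-E1: the reversed product is conjugate to the product (only commutations are used).
Proof. Induction on `n`: `kap s (n+1) = kap s n * s n`, `krev s (n+1) = s n * krev s n` up to the definition of
`krev`; the claim for `n`: `krev s n = g (kap s n) g⁻¹`, `g ∈ closure {s_0, …, s_{n-1}}`. Then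
`s_n krev s n = s_n g (kap s n) g⁻¹`. This is not yet a conjugate of `kap s n * s_n`; use instead the family of the
proof of `krev_conj`: `w_i = (s_i ⋯ s_{n-1}) (s_{i-1} ⋯ s_0)`, `w_0 = kap s n`, `w_n = krev s n`, and
`w_i = U s_{i-1} V` with `U = s_i ⋯ s_{n-1}`, `V = s_{i-2} ⋯ s_0`, is conjugate with `U⁻¹` to
`s_{i-1} V U = s_{i-1} U V = w_{i-1}` (`V` commutes with `U`). -/
theorem rev_conj {H : Type*} [Group H] {n : ℕ} {s : ℕ → H}
    (h : ∀ i j, i + 2 ≤ j → j < n → s i * s j = s j * s i) :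
    ∃ g ∈ Subgroup.closure (s '' {j | j < n}), krev s n = g * kap s n * g⁻¹ := by
  have hg : ∀ j, j < n → s j ∈ Subgroup.closure (s '' {j | j < n}) := fun j hj =>
    Subgroup.subset_closure ⟨j, hj, rfl⟩
  have hc1 : ∀ i j, i + 1 ≤ j → j < n → krev s i * s j = s j * krev s i := by
    intro i
    induction i with
    | zero => intro j _ _; change 1 * s j = s j * 1; rw [one_mul, mul_one]
    | succ i ih =>
      intro j h1 h2
      change s i * krev s i * s j = s j * (s i * krev s i)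
      rw [mul_assoc, ih j (by omega) h2, ← mul_assoc, h i j (by omega) h2, mul_assoc]
  have hc2 : ∀ i t, i + 1 + t ≤ n → krev s i * kap (fun m => s (i + 1 + m)) t =
      kap (fun m => s (i + 1 + m)) t * krev s i := by
    intro i t
    induction t with
    | zero => intro _; change krev s i * 1 = 1 * krev s i; rw [one_mul, mul_one]
    | succ t ih =>
      intro h1
      change krev s i * (kap (fun m => s (i + 1 + m)) t * s (i + 1 + t)) =
        kap (fun m => s (i + 1 + m)) t * s (i + 1 + t) * krev s i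
      rw [← mul_assoc, ih (by omega), mul_assoc, hc1 i (i + 1 + t) (by omega) (by omega), ← mul_assoc]
  have hU : ∀ i t, i + t ≤ n → kap (fun m => s (i + m)) t ∈ Subgroup.closure (s '' {j | j < n}) := by
    intro i t
    induction t with
    | zero => intro _; exact Subgroup.one_mem _
    | succ t ih =>
      intro h1
      exact Subgroup.mul_mem _ (ih (by omega)) (hg (i + t) (by omega))
  have key : ∀ i, i ≤ n → ∃ g ∈ Subgroup.closure (s '' {j | j < n}),
      kap (fun m => s (i + m)) (n - i) * krev s i = g * kap s n * g⁻¹ := by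
    intro i
    induction i with
    | zero =>
      intro _
      refine ⟨1, Subgroup.one_mem _, ?_⟩
      have e : (fun m => s (0 + m)) = s := by funext m; rw [Nat.zero_add]
      rw [e, Nat.sub_zero]
      change kap s n * 1 = _
      simp
    | succ i ih =>
      intro hi
      obtain ⟨g, hgm, hge⟩ := ih (by omega)
      have e1 : n - i = (n - (i + 1)) + 1 := by omega
      have e2 : (fun m => s (i + (m + 1))) = (fun m => s (i + 1 + m)) := by
        funext m; congr 1; omega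
      rw [e1, kap_succ_e1, e2] at hge
      change s (i + 0) * kap (fun m => s (i + 1 + m)) (n - (i + 1)) * krev s i = _ at hge
      rw [Nat.add_zero] at hge
      have hU1 := hU (i + 1) (n - (i + 1)) (by omega)
      have hc := hc2 i (n - (i + 1)) (by omega)
      generalize kap (fun m => s (i + 1 + m)) (n - (i + 1)) = U at *
      refine ⟨U * g, Subgroup.mul_mem _ hU1 hgm, ?_⟩
      change U * (s i * krev s i) = _
      calc U * (s i * krev s i) = U * (s i * (krev s i * U)) * U⁻¹ := by group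
        _ = U * (s i * U * krev s i) * U⁻¹ := by rw [hc]; group
        _ = U * (g * kap s n * g⁻¹) * U⁻¹ := by rw [hge]
        _ = U * g * kap s n * (U * g)⁻¹ := by group
  obtain ⟨g, hgm, hge⟩ := key n le_rfl
  refine ⟨g, hgm, ?_⟩
  rw [← hge, Nat.sub_self]
  change krev s n = 1 * krev s n
  rw [one_mul]

/-- piece DN-E2: `ε ζ = ζ⁻¹`.
Proof. `ζ = (tL κ)^(k+1)`, `κ = a_0 ⋯ a_{k-1}` (`ze_eq_zeta`, the definition of `zeta`);
`ε ζ = (tL a_0⁻¹ ⋯ a_{k-1}⁻¹)^(k+1) = ((a_{k-1} ⋯ a_0 tL)^(k+1))⁻¹` and `a_{k-1} ⋯ a_0 tL` is conjugate to `tL κ`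
in `HD` by `rev_conj` for the sequence `tL, a_0, …, a_{k-1}`; `ζ` commutes with `HD` (`ze_comm`). -/
theorem eph_ze : eph p (ze p) = (ze p)⁻¹ := by
  obtain ⟨s, hs⟩ : ∃ s : ℕ → Dh p, s = fun j => Nat.casesOn j tL (fun i => iD (aD i)) := ⟨_, rfl⟩
  have hs0 : s 0 = tL := by subst hs; rfl
  have hs1 : ∀ i, s (i + 1) = iD (aD i) := fun i => by subst hs; rfl
  have hti : (tL : Dh p)⁻¹ = tL := inv_eq_of_mul_eq_one_left tL_sq
  have hk : ∀ n, kap s (n + 1) = tL * kap (fun j => (iD (aD j) : Dh p)) n := by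
    intro n
    induction n with
    | zero =>
      change 1 * s 0 = tL * 1
      rw [hs0, one_mul, mul_one]
    | succ n ih =>
      change kap s (n + 1) * s (n + 1) = tL * (kap (fun j => (iD (aD j) : Dh p)) n * iD (aD n))
      rw [ih, hs1, mul_assoc]
  have hze : ze p = kap s (p + 4) ^ (p + 4) := by
    rw [ze_eq_zeta, hk (p + 3)]
    rfl
  have hcomm : ∀ i j, i + 2 ≤ j → j < p + 4 → s i * s j = s j * s i := by
    intro i j h1 h2
    obtain ⟨j', rfl⟩ : ∃ j', j = j' + 1 := ⟨j - 1, by omega⟩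
    rcases Nat.eq_zero_or_pos i with h0 | h0
    · subst h0
      rw [hs0, hs1]
      exact ((relA_Gam p).dcomm j' (by omega) (by omega)).symm
    · obtain ⟨i', rfl⟩ : ∃ i', i = i' + 1 := ⟨i - 1, by omega⟩
      rw [hs1, hs1]
      exact (relA_Gam p).comm i' j' (by omega) (by omega)
  obtain ⟨g, hg, hg2⟩ := rev_conj hcomm
  have hgH : g ∈ HD p := by
    have hle : Subgroup.closure (s '' {j | j < p + 4}) ≤ HD p := by
      rw [HD_eq, Subgroup.closure_le]
      rintro _ ⟨j, hj, rfl⟩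
      rcases Nat.eq_zero_or_pos j with h0 | h0
      · subst h0
        rw [hs0]
        exact Subgroup.subset_closure (Or.inl rfl)
      · obtain ⟨i, rfl⟩ : ∃ i, j = i + 1 := ⟨j - 1, by omega⟩
        rw [hs1]
        have hj' : i + 1 < p + 4 := hj
        exact Subgroup.subset_closure (Or.inr ⟨i, by change i < p + 3; omega, rfl⟩)
    exact hle hg
  have heps : ∀ j, j < p + 4 → eph p (s j) = (s j)⁻¹ := by
    intro j hj
    rcases Nat.eq_zero_or_pos j with h0 | h0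
    · subst h0
      rw [hs0, eph_tL, hti]
    · obtain ⟨i, rfl⟩ : ∃ i, j = i + 1 := ⟨j - 1, by omega⟩
      rw [hs1, eph_iD, eps_a (by omega), map_inv]
  have hkap : ∀ n, n ≤ p + 4 → eph p (kap s n) = (krev s n)⁻¹ := by
    intro n
    induction n with
    | zero =>
      intro _
      change eph p 1 = (1 : Dh p)⁻¹
      rw [map_one, inv_one]
    | succ n ih =>
      intro hn
      change eph p (kap s n * s n) = (s n * krev s n)⁻¹
      rw [map_mul, ih (by omega), heps n (by omega), mul_inv_rev]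
  have hz := ze_comm hgH
  rw [hze, map_pow, hkap _ le_rfl, hg2, inv_pow, conj_pow, ← hze, hz, mul_inv_cancel_right]

/-- piece DN-E3: `ε z = z⁻¹` -/
theorem eps_z : eps p (zD p) = (zD p)⁻¹ := by
  apply SemidirectProduct.inl_injective (φ := kAct p)
  show (iD (eps p (zD p)) : Dh p) = iD (zD p)⁻¹
  rw [← eph_iD, map_inv, iD_zD, map_pow, eph_ze, inv_pow]

private lemma e3_gen {M : Subgroup (L (p + 3))} (hx : ∀ i, i ≤ p + 3 → (xL i : L (p + 3)) ∈ M)
    (hy : (yL : L (p + 3)) ∈ M) (l : L (p + 3)) : l ∈ M := by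
  obtain ⟨g, rfl⟩ := mkL_surj (p + 3) l
  have hx' : ∀ i, (xL (min i (p + 3)) : L (p + 3)) ∈ M := fun i => hx _ (min_le_right _ _)
  have h1 : M.subtype.comp (liftG (fun i => (⟨xL (min i (p + 3)), hx' i⟩ : M))
      (fun i hi => Subtype.ext (by
        show (xL (min i (p + 3)) : L (p + 3)) * xL (min i (p + 3)) = 1
        unfold xL
        rw [← map_mul, xG_sq, map_one])) ⟨yL, hy⟩) = mkL (p + 3) := by
    apply homG_ext
    · intro i hi
      rw [MonoidHom.comp_apply, liftG_x _ _ _ hi]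
      show (xL (min i (p + 3)) : L (p + 3)) = mkL (p + 3) (xG i)
      rw [min_eq_left hi]
      rfl
    · rw [MonoidHom.comp_apply, liftG_y]
      rfl
  rw [← DFunLike.congr_fun h1 g]
  exact Subtype.property _

private lemma e3_normal (x : Dh p) {h : Dh p} (hh : h ∈ (lam p).range) :
    x * h * x⁻¹ ∈ (lam p).range := by
  obtain ⟨l, rfl⟩ := hh
  exact ⟨ActD p x l, (lam_equiv x l).symm⟩

private lemma e3_x : ∀ n j, j + n = p + 3 → eph p (lam p (xL j)) ∈ (lam p).range := by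
  intro n
  induction n with
  | zero =>
    intro j hj
    obtain rfl : j = p + 3 := hj
    rw [lam_x, eph_tR, ← lam_x]
    exact ⟨_, rfl⟩
  | succ n ih =>
    intro j hj
    rw [lam_x_step (by omega), map_mul, map_mul, map_inv]
    exact e3_normal _ (ih (j + 1) (by omega))

private lemma e3_xw : ∀ j, j ≤ p + 3 → eph p (lam p (sW (p + 3) (xwW j))) ∈ (lam p).range := by
  intro j
  induction j with
  | zero =>
    intro h
    show eph p (lam p (sW (p + 3) (xW 0))) ∈ (lam p).range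
    rw [sW_x h]
    exact e3_x (p + 3) 0 (by omega)
  | succ j ih =>
    intro h
    show eph p (lam p (sW (p + 3) (xwW j * xW (j + 1)))) ∈ (lam p).range
    rw [map_mul, map_mul, map_mul, sW_x h]
    exact mul_mem (ih (by omega)) (e3_x (p + 3 - (j + 1)) (j + 1) (by omega))

private lemma e3_y : eph p (lam p (yL : L (p + 3))) ∈ (lam p).range := by
  rw [lam_y, map_mul, map_inv, eph_ze, ← lam_r]
  exact mul_mem (inv_mem ⟨_, rfl⟩) (inv_mem (e3_xw (p + 3) le_rfl))

/-- piece DN-E3: `ε` preserves `λ(L)`.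
Proof. `λ(L)` is normal in `Γ` (`lam_equiv`) and generated by the `λ x_j` (conjugates of `tR`: `lam_x`,
`lam_x_step`, downward induction) and `ζ`; `ε` maps `tR` to `tR`, `a_j` to `a_j⁻¹` and `ζ` to `ζ⁻¹`. Show
`eph (lam l) ∈ range` for `l = mkL g` by the induction on `g` (the `x_j` and `y = r R⁻¹`), and use that `ε` is an
involution for the converse. -/
theorem PLR_eps : PLR (eps p) := by
  have key : ∀ l : L (p + 3), eph p (lam p l) ∈ (lam p).range := fun l =>
    e3_gen (M := (lam p).range.comap ((eph p).toMonoidHom.comp (lam p)))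
      (fun i hi => e3_x (p + 3 - i) i (by omega)) e3_y l
  have h1 : ∀ x, x ∈ LR p → eps p x ∈ LR p := by
    rintro x ⟨l, hl⟩
    show iD (eps p x) ∈ (lam p).range
    have h2 : eph p (iD x) = eph p (lam p l) := by
      have h3 : lam p l = iD x := hl
      rw [h3]
    rw [← eph_iD, h2]
    exact key l
  intro x
  refine ⟨fun h => ?_, h1 x⟩
  have h2 := h1 _ h
  have h3 : eps p (eps p x) = x := DFunLike.congr_fun eps_eps x
  rwa [h3] at h2
/-- piece DN-E3: from `PLR_eps` and `eps_sg'`: `mir (eps p) = eps p` -/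
theorem PLL_eps : PLL (eps p) := by
  have h : mir (eps p) = eps p := by
    ext x
    have h1 : eps p (sg p x) = sg p (eps p x) := DFunLike.congr_fun eps_sg' x
    rw [mir_apply, h1, sg_sg']
  have h2 : PLL (mir (eps p)) := PLR_eps.mirror
  rwa [h] at h2

end

end Pool.Agent.Helper20.DN
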