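import Pool.Agent.Helper20.DN.S6
import Pool.Agent.Helper38.BN.IntH
import Pool.Agent.Helper29.B5.Iota

/-!
# Project DN, step 7: the form of all automorphisms
-/

namespace Pool.Agent.Helper20.DN

open Pool.Agent.Helper38.BN

section
variable {k : ℕ}

private theorem C1_fix {T : Equiv.Perm ℕ} (h0 : T * Equiv.swap 0 1 = Equiv.swap 0 1 * T)
    (h1 : T * Equiv.swap 1 2 = Equiv.swap 1 2 * T) : T 0 = 0 := by
  have e0 : T 1 = Equiv.swap 0 1 (T 0) := by
    have h := DFunLike.congr_fun h0 0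
    rwa [Equiv.Perm.mul_apply, Equiv.Perm.mul_apply, Equiv.swap_apply_left] at h
  have e1 : T 2 = Equiv.swap 1 2 (T 1) := by
    have h := DFunLike.congr_fun h1 1
    rwa [Equiv.Perm.mul_apply, Equiv.Perm.mul_apply, Equiv.swap_apply_left] at h
  have n0 : T 1 ≠ T 0 := fun e => absurd (T.injective e) (by decide)
  have n1 : T 2 ≠ T 1 := fun e => absurd (T.injective e) (by decide)
  rw [Equiv.swap_apply_def] at e0 e1
  split_ifs at e0 e1 <;> omega

private theorem C1_iota_mem (h : HB k) : iota k h ∈ BrH (k + 1) := by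
  have h1 : h ∈ (BrH (k + 1)).comap (iota k) := by
    apply BTwo.HB_le
    · intro j hj
      rw [Subgroup.mem_comap, BTwo.iota_a hj]
      exact Subgroup.subset_closure ⟨j + 1, Nat.succ_lt_succ hj, rfl⟩
    · rw [Subgroup.mem_comap, BTwo.iota_d]
      have h0 : (aH 0 : HB (k + 1)) ∈ BrH (k + 1) :=
        Subgroup.subset_closure ⟨0, Nat.succ_pos k, rfl⟩
      exact Subgroup.mul_mem _ h0 h0
  exact h1

/-- piece DN-C1 (helper16, with the injectivity of `iota` of block BR): the center of the braid group.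
Proof. `k = k' + 1`. `piH c` is central in the image of `BrH k`, which contains all `swap j (j+1)`, `j < k`, so
`piH c` fixes `0`: (`piH c 0 = i ≠ 0` is impossible: a permutation of `{0..k}` which commutes with all transpositions
is trivial for `k ≥ 2`; `piH c` commutes with `swap 0 1` and with `swap 1 2`, so `piH c` maps `{0, 1}` and `{1, 2}`
to themselves and fixes `1`, then `0`). `Br_stab`: `c = iota h`, `h ∈ HB k'`. `h` commutes with every `zH k' x`:
`iota (zH x) ∈ BrH k` and `iota` is injective; so `zH (Chi h x) = zH x` (`zH_conj`), `Chi h = 1` (`zH` is injective),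
`h = ζⁱ` (`faithful`) and `c = iota (ζⁱ) = Ωⁱ` (`iota_zeta`). -/
theorem center_Br (hk : 2 ≤ k) {c : HB k} (hc : c ∈ BrH k) (h : ∀ b ∈ BrH k, c * b = b * c) :
    c ∈ Subgroup.zpowers (Om k (aH : ℕ → HB k)) := by
  obtain ⟨l, rfl⟩ : ∃ l, k = l + 1 + 1 := ⟨k - 2, by omega⟩
  have hp : ∀ j, j < l + 1 + 1 →
      piH (l + 1 + 1) c * Equiv.swap j (j + 1) = Equiv.swap j (j + 1) * piH (l + 1 + 1) c := by
    intro j hj
    have h1 := congrArg (piH (l + 1 + 1)) (h (aH j) (Subgroup.subset_closure ⟨j, hj, rfl⟩))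
    rwa [map_mul, map_mul, BTwo.piH_a hj] at h1
  obtain ⟨u, hu⟩ := Br_stab hc (C1_fix (hp 0 (by omega)) (hp 1 (by omega)))
  have hz : ∀ x, u * zH (l + 1) x = zH (l + 1) x * u := by
    intro x
    apply Helper29.B5.iota_inj (l + 1)
    rw [map_mul, map_mul, ← hu]
    exact h _ (C1_iota_mem _)
  obtain ⟨n, hn⟩ := Subgroup.mem_zpowers_iff.1 (Helper29.B5.eq_zeta_pow hz)
  rw [hu, ← hn, map_zpow, iota_zeta]
  exact Subgroup.zpow_mem _ (Subgroup.mem_zpowers _) n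

private theorem C2_gen (i : ℤ) : muL (RW k ^ i) ∈ KR k := Subgroup.subset_closure ⟨i, rfl⟩

private theorem C2_y : (yL : L k) ∈ KR k := by
  have h := C2_gen (k := k) 0
  rwa [zpow_zero, mu_one] at h

private theorem C2_R {x : L k} (hx : x ∈ KR k) (n : ℤ) :
    RL k ^ n * x * (RL k ^ n)⁻¹ ∈ KR k := by
  have h1 : KR k ≤ (KR k).comap (MulAut.conj (RL k ^ n)).toMonoidHom := by
    unfold KR
    rw [Subgroup.closure_le]
    rintro _ ⟨i, rfl⟩
    change MulAut.conj (RL k ^ n) (muL (RW k ^ i)) ∈ KR k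
    have h2 : RL k ^ n = sW k (RW k ^ n) := by
      unfold RL
      rw [map_zpow]
    rw [MulAut.conj_apply, h2, sW_mu, ← zpow_add]
    exact C2_gen _
  have h2 := h1 hx
  exact h2

private theorem C2_pos {x : L k} (hx : x ∈ KR k) : rL k * x * (rL k)⁻¹ ∈ KR k := by
  have h1 := C2_R hx 1
  rw [zpow_one] at h1
  have h2 := (KR k).mul_mem ((KR k).mul_mem C2_y h1) ((KR k).inv_mem C2_y)
  rw [rL_eq]
  have h3 : yL * RL k * x * (yL * RL k)⁻¹ = yL * (RL k * x * (RL k)⁻¹) * yL⁻¹ := by group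
  rw [h3]
  exact h2

private theorem C2_neg {x : L k} (hx : x ∈ KR k) : (rL k)⁻¹ * x * rL k ∈ KR k := by
  have h1 := C2_R ((KR k).mul_mem ((KR k).mul_mem ((KR k).inv_mem C2_y) hx) C2_y) (-1)
  rw [zpow_neg_one, inv_inv] at h1
  rw [rL_eq]
  have h3 : (yL * RL k)⁻¹ * x * (yL * RL k) = (RL k)⁻¹ * (yL⁻¹ * x * yL) * RL k := by group
  rw [h3]
  exact h1

/-- piece DN-C2: `r` normalises `KR`: `r = y R`, `y = muL 1 ∈ KR`, `R muL(Rⁱ) R⁻¹ = muL(Rⁱ⁺¹)` (`sW_mu`) -/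
theorem r_KR {x : L k} (hx : x ∈ KR k) (n : ℤ) : rL k ^ n * x * (rL k ^ n)⁻¹ ∈ KR k := by
  induction n using Int.induction_on generalizing x with
  | zero =>
    rw [zpow_zero, one_mul, inv_one, mul_one]
    exact hx
  | succ n ih =>
    have h1 := ih (C2_pos hx)
    have h2 : rL k ^ ((n : ℤ) + 1) * x * (rL k ^ ((n : ℤ) + 1))⁻¹ =
        rL k ^ (n : ℤ) * (rL k * x * (rL k)⁻¹) * (rL k ^ (n : ℤ))⁻¹ := by group
    rw [h2]
    exact h1
  | pred n ih =>
    have h1 := ih (C2_neg hx)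
    have h2 : rL k ^ (-(n : ℤ) - 1) * x * (rL k ^ (-(n : ℤ) - 1))⁻¹ =
        rL k ^ (-(n : ℤ)) * ((rL k)⁻¹ * x * rL k) * (rL k ^ (-(n : ℤ)))⁻¹ := by group
    rw [h2]
    exact h1
/-- piece DN-C2: `r⁻ʲ Rʲ ∈ KR`: it holds for `j = 1` (`r⁻¹ R = R⁻¹ y⁻¹ R`), and the set of the `j` is closed under
sums and negatives by `r_KR` and the same statement for `R` -/
theorem rR_KR (j : ℤ) : (rL k ^ j)⁻¹ * RL k ^ j ∈ KR k := by
  have h1 : (rL k)⁻¹ * RL k ∈ KR k := by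
    have h2 := C2_neg ((KR k).inv_mem (C2_y (k := k)))
    have h3 : (rL k)⁻¹ * yL⁻¹ * rL k = (rL k)⁻¹ * RL k := by
      rw [rL_eq]
      group
    rwa [h3] at h2
  have h2 : rL k * (RL k)⁻¹ ∈ KR k := by
    have h3 : rL k * (RL k)⁻¹ = yL := by
      rw [rL_eq]
      group
    rw [h3]
    exact C2_y
  induction j using Int.induction_on with
  | zero =>
    rw [zpow_zero, zpow_zero, inv_one, mul_one]
    exact (KR k).one_mem
  | succ n ih =>
    have h3 := (KR k).mul_mem (r_KR h1 (-(n : ℤ))) ih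
    have h4 : rL k ^ (-(n : ℤ)) * ((rL k)⁻¹ * RL k) * (rL k ^ (-(n : ℤ)))⁻¹ *
        ((rL k ^ (n : ℤ))⁻¹ * RL k ^ (n : ℤ)) =
        (rL k ^ ((n : ℤ) + 1))⁻¹ * RL k ^ ((n : ℤ) + 1) := by
      simp only [zpow_neg, zpow_add, zpow_one, mul_inv_rev, inv_inv]
      have h5 : RL k ^ (n : ℤ) * RL k = RL k * RL k ^ (n : ℤ) :=
        ((Commute.refl (RL k)).zpow_left _).eq
      have h6 : (rL k)⁻¹ * (rL k ^ (n : ℤ))⁻¹ = (rL k ^ (n : ℤ))⁻¹ * (rL k)⁻¹ := by
        rw [← mul_inv_rev, ← mul_inv_rev, ((Commute.refl (rL k)).zpow_left (n : ℤ)).eq]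
      rw [h5, h6]
      group
    rw [← h4]
    exact h3
  | pred n ih =>
    have h3 := (KR k).mul_mem (r_KR h2 (n : ℤ)) ih
    have h4 : rL k ^ (n : ℤ) * (rL k * (RL k)⁻¹) * (rL k ^ (n : ℤ))⁻¹ *
        ((rL k ^ (-(n : ℤ)))⁻¹ * RL k ^ (-(n : ℤ))) =
        (rL k ^ (-(n : ℤ) - 1))⁻¹ * RL k ^ (-(n : ℤ) - 1) := by
      simp only [zpow_neg, zpow_sub, zpow_one, mul_inv_rev, inv_inv]
      have h5 : (RL k ^ (n : ℤ))⁻¹ * (RL k)⁻¹ = (RL k)⁻¹ * (RL k ^ (n : ℤ))⁻¹ := by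
        rw [← mul_inv_rev, ← mul_inv_rev, ((Commute.refl (RL k)).zpow_left (n : ℤ)).eq]
      have h6 : rL k * rL k ^ (n : ℤ) = rL k ^ (n : ℤ) * rL k :=
        ((Commute.refl (rL k)).zpow_right (n : ℤ)).eq
      rw [h5, h6]
      group
    rw [← h4]
    exact h3
/-- piece DN-C2: the elements of `KR` are fixed by the braid group (`aL_mu`, `wA_R`) and in `K` -/
theorem KR_fix {x : L k} (hx : x ∈ KR k) {j : ℕ} (hj : j < k) : aL j x = x := by
  have h1 : KR k ≤ ((aL j : MulAut (L k)).toMonoidHom).eqLocus (MonoidHom.id (L k)) := by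
    unfold KR
    rw [Subgroup.closure_le]
    rintro _ ⟨i, rfl⟩
    change aL j (muL (RW k ^ i)) = muL (RW k ^ i)
    rw [aL_mu hj, map_zpow, wA_R hj]
  exact h1 hx
/-- piece DN-C2 -/
theorem KR_le_K {x : L k} (hx : x ∈ KR k) : x ∈ K k := by
  have h1 : KR k ≤ K k := by
    unfold KR
    rw [Subgroup.closure_le]
    rintro _ ⟨i, rfl⟩
    exact mu_mem _
  exact h1 hx

end

section
variable {p : ℕ}

/-- the element `ζ' = σ ζ` -/
noncomputable def ze' (p : ℕ) : Dh p := sgh p (ze p)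

/-- piece DN-C3: `Ω = λ(R) ζ'` and the two factors commute (`sgh` of `lam'_R` with `sgh_OmD`;
`Ω` commutes with `λ(R)` by `lam_equiv`, `aL_R`) -/
theorem OmD_eq : OmD p = lam p (RL (p + 3)) * ze' p := by
  have h1 := congrArg (sgh p) (lam'_R (p := p))
  rw [lam'_apply, sgh_sgh, map_mul, map_inv, sgh_OmD] at h1
  change OmD p = lam p (RL (p + 3)) * sgh p (ze p)
  rw [h1, inv_mul_cancel_right]
/-- piece DN-C3 -/
theorem lam_R_ze' : lam p (RL (p + 3)) * ze' p = ze' p * lam p (RL (p + 3)) := by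
  have h3 : OmD p * ze' p = ze' p * OmD p := by
    have h := congrArg (sgh p) (ze_comm (p := p) (BrD_le_HD OmD_mem))
    rw [map_mul, map_mul, sgh_OmD] at h
    exact h
  rw [OmD_eq, ← mul_assoc] at h3
  exact mul_right_cancel h3
/-- piece DN-C3: `ζ'` commutes with the `a_j` and with `b` (`sgh` of `ze_comm`) -/
theorem ze'_comm_a {j : ℕ} (hj : j < p + 3) : iD (aD j) * ze' p = ze' p * iD (aD j) := by
  have h := congrArg (sgh p) (ze_comm (p := p) (h := iD (aD (p + 2 - j)))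
    (BrD_le_HD (Subgroup.subset_closure ⟨p + 2 - j, by show p + 2 - j < p + 3; omega, rfl⟩)))
  rw [map_mul, map_mul, sgh_iD, sg_a (by omega), show p + 2 - (p + 2 - j) = j by omega] at h
  exact h
/-- piece DN-C3 -/
theorem ze'_comm_b : iD bD * ze' p = ze' p * iD bD := by
  have he : (iD eD : Dh p) ∈ HD p := by
    have h := lam'_sW_mem (p := p) (xW (p + 3) * xW (p + 2))
    rw [map_mul, sW_x le_rfl, sW_x (by omega), lam'_u0, map_mul, map_inv] at h
    have ha : (iD (aD 0) : Dh p) ∈ HD p :=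
      BrD_le_HD (Subgroup.subset_closure ⟨0, by show (0 : ℕ) < p + 3; omega, rfl⟩)
    have h2 := mul_mem h ha
    rwa [inv_mul_cancel_right] at h2
  have h := congrArg (sgh p) (ze_comm he)
  rw [map_mul, map_mul, sgh_iD, sg_e] at h
  exact h

/-- piece DN-C4: an element `λ(l) h` which commutes with the braid group.
Proof. For `b ∈ BrD`: `b λ(l) h b⁻¹ = λ(b(l)) (b h b⁻¹)` (`lam_equiv`), so `λ(l⁻¹ b(l)) = h (b h b⁻¹)⁻¹ ∈ HD`, and
`l⁻¹ b(l) = rⁿ` (`lam_HD`). `λ(b(l)) = b λ(l) b⁻¹` has the same exponent sum as `λ(l)`, so `n = 0` (`len_ze`). Then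
`b(l) = l` and `b h b⁻¹ = h`. For `b = iD (aD j)` this is `aL j l = l` (`ActD_a`). -/
theorem centBr_L {l : L (p + 3)} {h : Dh p} (hh : h ∈ HD p)
    (hc : ∀ b ∈ BrD p, b * (lam p l * h) = lam p l * h * b) :
    (∀ j, j < p + 3 → aL j l = l) ∧ ∀ b ∈ BrD p, b * h = h * b := by
  have key : ∀ b ∈ BrD p, ActD p b l = l ∧ b * h = h * b := by
    intro b hb
    have h1 := hc b hb
    have h2 : lam p (ActD p b l) * (b * h * b⁻¹) = lam p l * h := by
      rw [← lam_equiv]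
      have e : b * lam p l * b⁻¹ * (b * h * b⁻¹) = b * (lam p l * h) * b⁻¹ := by group
      rw [e, h1]
      group
    have h3 : lam p (l⁻¹ * ActD p b l) = h * (b * h * b⁻¹)⁻¹ := by
      rw [map_mul, map_inv, inv_mul_eq_iff_eq_mul, ← mul_assoc, eq_mul_inv_iff_mul_eq, h2]
    have h4 : lam p (l⁻¹ * ActD p b l) ∈ HD p := by
      rw [h3]
      exact mul_mem hh (inv_mem (mul_mem (mul_mem (BrD_le_HD hb) hh) (inv_mem (BrD_le_HD hb))))
    obtain ⟨n, hn⟩ := lam_HD h4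
    have hn' : rL (p + 3) ^ n = l⁻¹ * ActD p b l := hn
    have h5 : lenH p (lam p (l⁻¹ * ActD p b l)) = 1 := by
      rw [map_mul, map_mul, ← lam_equiv, map_mul, map_mul, map_inv, map_inv, map_inv,
        mul_comm (lenH p b), mul_inv_cancel_right, inv_mul_cancel]
    rw [← hn', map_zpow, map_zpow, lam_r, len_ze, ← ofAdd_zsmul, ofAdd_eq_one, smul_eq_mul] at h5
    have hn0 : n = 0 := by
      rcases mul_eq_zero.1 h5 with h6 | h6
      · exact h6
      · exfalso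
        have h7 : (p + 3) * (p + 4) = 0 := by exact_mod_cast h6
        rcases Nat.mul_eq_zero.1 h7 with h8 | h8 <;> omega
    rw [hn0, zpow_zero] at hn'
    have h6 : ActD p b l = l := (inv_mul_eq_one.1 hn'.symm).symm
    refine ⟨h6, ?_⟩
    rw [h6] at h2
    have h8 := mul_left_cancel h2
    rw [mul_inv_eq_iff_eq_mul] at h8
    exact h8
  refine ⟨fun j hj => ?_, fun b hb => (key b hb).2⟩
  have h1 := (key (iD (aD j)) (Subgroup.subset_closure ⟨j, hj, rfl⟩)).1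
  rwa [ActD_a hj] at h1

private theorem c5_Om : jH p (Om (p + 3) (aH : ℕ → HB (p + 3))) = OmD p := by
  unfold OmD Om
  rw [map_pow, map_kap, kap_congr (fun j hj => jH_a hj)]

/-- piece DN-C5: the centralizer of the braid group in `HD`.
Proof. `h = λ'(w) b₁` (`HD_decomp`); for `b = iD (aD j)`: `b h b⁻¹ = λ'(α_i w) (b b₁ b⁻¹)`, `i = k - 1 - j`
(`lam'_a`, `aL_sW`), so `λ'(w⁻¹ α_i(w)) ∈ BrD` is trivial (`lam'_Br`), `α_i w = w` for all `i < k`, so
`w = Rⁿ` (`wfix`), and `b₁` commutes with the `a_j`: `b₁ = jH c` with `c = foldG b₁` central in `BrH` (`jH_fold`,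
`fold_jH`, `foldG_mem`), `c = Ωʲ` (`center_Br`), `jH (Om aH) = OmD`. `λ'(R)ⁿ = Ωⁿ ζ⁻ⁿ` (`lam'_R`). -/
theorem centBr_HD {h : Dh p} (hh : h ∈ HD p) (hc : ∀ b ∈ BrD p, b * h = h * b) :
    ∃ i j : ℤ, h = ze p ^ i * OmD p ^ j := by
  obtain ⟨w, b₁, hb₁, rfl⟩ := HD_decomp hh
  have hw : ∀ i, i < p + 3 → wA i w = w := by
    intro i hi
    have hj : p + 2 - i < p + 3 := by omega
    have hb : iD (aD (p + 2 - i)) ∈ BrD p :=
      Subgroup.subset_closure ⟨p + 2 - i, hj, rfl⟩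
    have h1 := hc _ hb
    have h2 := lam'_a hj (sW (p + 3) w)
    rw [show p + 2 - (p + 2 - i) = i by omega, aL_sW hi] at h2
    have h3 : lam' p (sW (p + 3) (wA i w)) * (iD (aD (p + 2 - i)) * b₁ *
        (iD (aD (p + 2 - i)))⁻¹) = lam' p (sW (p + 3) w) * b₁ := by
      rw [← h2]
      calc iD (aD (p + 2 - i)) * lam' p (sW (p + 3) w) * (iD (aD (p + 2 - i)))⁻¹ *
            (iD (aD (p + 2 - i)) * b₁ * (iD (aD (p + 2 - i)))⁻¹)
          = iD (aD (p + 2 - i)) * (lam' p (sW (p + 3) w) * b₁) * (iD (aD (p + 2 - i)))⁻¹ := by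
            group
        _ = lam' p (sW (p + 3) w) * b₁ := by rw [h1, mul_inv_cancel_right]
    have h4 : lam' p ((sW (p + 3) (wA i w))⁻¹ * sW (p + 3) w) ∈ BrD p := by
      have h5 : lam' p ((sW (p + 3) (wA i w))⁻¹ * sW (p + 3) w) =
          iD (aD (p + 2 - i)) * b₁ * (iD (aD (p + 2 - i)))⁻¹ * b₁⁻¹ := by
        rw [map_mul, map_inv, inv_mul_eq_iff_eq_mul, ← mul_assoc, h3, mul_inv_cancel_right]
      rw [h5]
      exact mul_mem (mul_mem (mul_mem hb hb₁) (inv_mem hb)) (inv_mem hb₁)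
    exact sW_inj (inv_mul_eq_one.1 (lam'_Br h4))
  obtain ⟨n, hn⟩ := Subgroup.mem_zpowers_iff.1 (wfix (by omega) hw)
  have hcom : Commute (OmD p) (ze p) := ze_comm (BrD_le_HD OmD_mem)
  have hR : lam' p (sW (p + 3) w) = OmD p ^ n * (ze p)⁻¹ ^ n := by
    rw [← hn, map_zpow, map_zpow]
    have h1 : lam' p (sW (p + 3) (RW (p + 3))) = OmD p * (ze p)⁻¹ := lam'_R
    rw [h1, (hcom.inv_right).mul_zpow]
  have hb1 : ∀ b ∈ BrD p, Commute b b₁ := by
    intro b hb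
    have h1 : Commute b (lam' p (sW (p + 3) w)) := by
      rw [hR]
      have h2 : Commute b (OmD p) := OmD_comm hb
      have h3 : Commute b (ze p) := ze_comm (BrD_le_HD hb)
      exact (h2.zpow_right n).mul_right (h3.inv_right.zpow_right n)
    have h2 : Commute b (lam' p (sW (p + 3) w) * b₁) := hc b hb
    have h3 := h1.inv_right.mul_right h2
    rwa [inv_mul_cancel_left] at h3
  have hcc : ∀ b ∈ BrH (p + 3), foldG p b₁ * b = b * foldG p b₁ := by
    intro b hb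
    have h1 : jH p b ∈ BrD p := by
      rw [BrD_eq]
      exact ⟨b, hb, rfl⟩
    have h2 := congrArg (foldG p) (hb1 _ h1).eq
    rw [map_mul, map_mul, fold_jH hb] at h2
    exact h2.symm
  obtain ⟨j, hj⟩ := Subgroup.mem_zpowers_iff.1 (center_Br (by omega) (foldG_mem b₁) hcc)
  have hb1' : b₁ = OmD p ^ j := by
    rw [← jH_fold hb₁, ← hj, map_zpow, c5_Om]
  refine ⟨-n, n + j, ?_⟩
  have h1 : Commute (OmD p ^ n) ((ze p)⁻¹ ^ n) := (hcom.inv_right).zpow_zpow n n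
  rw [hR, hb1', h1.eq, inv_zpow, zpow_neg, mul_assoc, ← zpow_add]

/-- piece DN-C6: the centralizer of the braid group in `Γ`.
Proof. `Dh_decomp`, `centBr_L`, `centBr_HD`, `fixBr`: `γ = λ(r^{i₁} κ₁) ζ^{i₂} Ωʲ`, and `Ωʲ = λ(R)ʲ ζ'ʲ` (`OmD_eq`,
`lam_R_ze'`), `ζ = λ(r)`; so `γ = λ(r^{i₁} κ₁ r^{i₂} Rʲ) ζ'ʲ` and
`r^{i₁} κ₁ r^{i₂} Rʲ = r^{i₁+i₂+j} (r^{-(i₂+j)} κ₁ r^{i₂+j}) (r⁻ʲ Rʲ)` (`r_KR`, `rR_KR`). -/
theorem centBr {γ : Dh p} (hc : ∀ b ∈ BrD p, b * γ = γ * b) :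
    ∃ κ ∈ KR (p + 3), ∃ i j : ℤ, γ = ze p ^ i * lam p κ * ze' p ^ j := by
  obtain ⟨l, h, hh, rfl⟩ := Dh_decomp γ
  obtain ⟨hl, hb⟩ := centBr_L hh hc
  obtain ⟨κ₁, hκ₁, i₁, rfl⟩ := fixBr (by omega) hl
  obtain ⟨i₂, j, rfl⟩ := centBr_HD hh hb
  have hO : OmD p ^ j = lam p (RL (p + 3)) ^ j * ze' p ^ j := by
    rw [OmD_eq]
    exact (show Commute (lam p (RL (p + 3))) (ze' p) from lam_R_ze').mul_zpow j
  have hκ : (rL (p + 3) ^ (-(i₂ + j)) * κ₁ * (rL (p + 3) ^ (-(i₂ + j)))⁻¹) *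
      ((rL (p + 3) ^ j)⁻¹ * RL (p + 3) ^ j) ∈ KR (p + 3) :=
    mul_mem (r_KR hκ₁ _) (rR_KR j)
  refine ⟨_, hκ, i₁ + (i₂ + j), j, ?_⟩
  rw [hO, ← lam_r]
  simp only [map_mul, map_zpow, map_inv]
  group

/-- piece DN-C7: THE LAST STEP.
Proof. `v_0 = b a_{k-1}⁻¹`, `iD v_0 = λ(x_k x_{k-1})` (`lam_v0`). `φ v_0 = cj (λ κ) v_0` because `λ κ` commutes with
`a_{k-1}` (`KR_fix`, `lam_equiv`). `v_0` commutes with `e` (`(relD p).be`, `(relD p).ec`, `k - 1 ≥ 2`), so
`φ v_0` commutes with `φ e = e`: `ActD (iD e) = eL` fixes `κ x_k x_{k-1} κ⁻¹` (`lam_equiv`, `lam_inj`) and it fixes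
`x_k`, `x_{k-1}` (`eL_x`). So `κ⁻¹ eL(κ)` commutes with `x_k x_{k-1}` and is in `K` (`KR_le_K`, `ActD_K`,
`ActD_e`): it is `1` by `cent_xx`, and `e_fix`. -/
theorem last_step {φ : MulAut (D p)} (ha : ∀ j, j < p + 3 → φ (aD j) = aD j) (he : φ eD = eD)
    {κ : L (p + 3)} (hκ : κ ∈ KR (p + 3)) (hb : φ bD = cj p (lam p κ) bD) : κ = 1 := by
  have hinj : Function.Injective (iD : D p → Dh p) := SemidirectProduct.inl_injective
  -- `λ κ` commutes with `a_{k-1}`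
  have h1 : cj p (lam p κ) (aD (p + 2)) = aD (p + 2) := by
    apply hinj
    have h2 : (iD (aD (p + 2)) : Dh p) * lam p κ * (iD (aD (p + 2)))⁻¹ = lam p κ := by
      rw [lam_equiv, ActD_a (by omega), KR_fix hκ (by omega)]
    rw [mul_inv_eq_iff_eq_mul] at h2
    rw [iD_cj, ← h2, mul_inv_cancel_right]
  have h3 : φ (bD * (aD (p + 2))⁻¹) = cj p (lam p κ) (bD * (aD (p + 2))⁻¹) := by
    rw [map_mul, map_inv, ha _ (by omega), hb, map_mul, map_inv, h1]
  have h4 : (iD (φ (bD * (aD (p + 2))⁻¹)) : Dh p) =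
      lam p (κ * (xL (p + 3) * xL (p + 2)) * κ⁻¹) := by
    rw [h3, iD_cj, ← lam_v0, ← map_inv, ← map_mul, ← map_mul]
  -- `v_0` commutes with `e`
  have h5 : eD * (bD * (aD (p + 2))⁻¹) = bD * (aD (p + 2))⁻¹ * (eD : D p) := by
    have c1 : Commute (eD : D p) bD := (relD p).be.symm
    have c2 : Commute (eD : D p) (aD (p + 2)) := (relD p).ec (p + 2) (by omega) (by omega)
    exact (c1.mul_right c2.inv_right).eq
  have h6 : eD * φ (bD * (aD (p + 2))⁻¹) = φ (bD * (aD (p + 2))⁻¹) * eD := by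
    have h7 := congrArg φ h5
    rw [map_mul φ eD, map_mul φ (bD * (aD (p + 2))⁻¹), he] at h7
    exact h7
  have h7 : eL (p + 3) (κ * (xL (p + 3) * xL (p + 2)) * κ⁻¹) =
      κ * (xL (p + 3) * xL (p + 2)) * κ⁻¹ := by
    apply lam_inj
    have h8 := congrArg (iD : D p → Dh p) h6
    generalize φ (bD * (aD (p + 2))⁻¹) = y at h4 h8
    rw [map_mul, map_mul, h4] at h8
    rw [← ActD_e, ← lam_equiv, h8, mul_inv_cancel_right]
  rw [map_mul, map_mul, map_mul, map_inv, eL_x (by omega), eL_x (by omega)] at h7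
  have h8 : κ⁻¹ * eL (p + 3) κ = 1 := by
    apply cent_xx (k := p + 3) (by omega)
    · refine mul_mem (inv_mem (KR_le_K hκ)) ?_
      rw [← ActD_e]
      exact ActD_K _ (KR_le_K hκ)
    · change κ⁻¹ * eL (p + 3) κ * (xL (p + 3) * xL (p + 2)) =
        xL (p + 3) * xL (p + 2) * (κ⁻¹ * eL (p + 3) κ)
      calc κ⁻¹ * eL (p + 3) κ * (xL (p + 3) * xL (p + 2))
          = κ⁻¹ * (eL (p + 3) κ * (xL (p + 3) * xL (p + 2)) * (eL (p + 3) κ)⁻¹) *
            eL (p + 3) κ := by group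
        _ = xL (p + 3) * xL (p + 2) * (κ⁻¹ * eL (p + 3) κ) := by
            rw [h7]
            group
  exact e_fix (by omega) hκ (inv_mul_eq_one.1 h8).symm

/-- piece DN-C8: the mirror image of `six`: there is `γ` with `φ = cj γ` on the `a_j` and `b`.
Proof. `φ' = mir φ` has `PLR`, `PLL` (`PLL.mirror`, `PLR.mirror`), `PiC` (`PiC.mirror`). `image_z` for `φ'`: the second
case is impossible, as `φ'` preserves the exponent sum (`φ` fixes `a_0`; `len_aut` for `φ'`,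
`mir φ (aD j) = sg (φ (aD (p + 2 - j)))`), `len_ze`. So `φ' z = cj γ₁ z`, and `six` for `cj γ₁⁻¹ * φ'`:
`φ' = cj (γ₁ γ₂)` on the `a_j` and `e`. `γ = sgh (γ₁ γ₂)`: `sg (cj γ' x) = cj (sgh γ') (sg x)` (`iD_cj`,
`sgh_iD`). -/
theorem six_mir (hB : BrInner p) (hS : Solv p) {φ : MulAut (D p)} (hR : PLR φ) (hL : PLL φ)
    (hπ : PiC φ) (ha : ∀ j, j < p + 3 → φ (aD j) = aD j) :
    ∃ γ : Dh p, (∀ j, j < p + 3 → φ (aD j) = cj p γ (aD j)) ∧ φ bD = cj p γ bD := by
  have hcj : ∀ (g : Dh p) x, cj p g⁻¹ (cj p g x) = x := fun g x => by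
    rw [map_inv, MulAut.inv_apply_self]
  have hcj' : ∀ (g : Dh p) x, cj p g (cj p g⁻¹ x) = x := fun g x => by
    rw [map_inv, MulAut.apply_inv_self]
  -- the mirror image preserves the exponent sum
  have ha0 : mir φ (aD 0) = aD 0 := by
    rw [mir_apply, sg_a (by omega), ha _ (by omega), sg_a (by omega)]
    congr 1
    omega
  have hlen : ∀ x, lenD p (mir φ x) = lenD p x := by
    rcases len_aut (mir φ) with h | h
    · exact h
    · exfalso
      have h1 := h (aD 0)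
      rw [ha0, lenD_a (by omega), ← ofAdd_neg] at h1
      have h2 := Multiplicative.ofAdd.injective h1
      omega
  obtain ⟨γ₁, h₁⟩ := image_z hL.mirror hR.mirror
  have hz : mir φ (zD p) = cj p γ₁ (zD p) := by
    rcases h₁ with h | h
    · exact h
    · exfalso
      have h1 := hlen (zD p)
      rw [h, map_inv, ← lenH_iD, iD_cj, map_mul, map_mul, map_inv, mul_comm (lenH p γ₁),
        mul_inv_cancel_right, ← lenH_iD, iD_zD, map_pow, len_ze, ← ofAdd_nsmul, ← ofAdd_neg] at h1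
      have h2 := Multiplicative.ofAdd.injective h1
      have h3 : (0 : ℤ) < (((p + 3) * (p + 4) : ℕ) : ℤ) := by positivity
      rw [nsmul_eq_mul] at h2
      push_cast at h2 h3
      linarith
  obtain ⟨γ₂, _, h₂, h₂'⟩ := six hB hS (φ := cj p γ₁⁻¹ * mir φ)
    (by rw [MulAut.mul_apply, hz, hcj]) (hR.mirror.cj _) (hπ.mirror.cj _)
  have hsg : ∀ (g : Dh p) x, sg p (cj p g x) = cj p (sgh p g) (sg p x) := fun g x => by
    apply SemidirectProduct.inl_injective (φ := kAct p)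
    have h : (iD (sg p (cj p g x)) : Dh p) = iD (cj p (sgh p g) (sg p x)) := by
      rw [← sgh_iD, iD_cj, iD_cj, map_mul, map_mul, map_inv, sgh_iD]
    exact h
  have key : ∀ x, (cj p γ₁⁻¹ * mir φ) x = cj p γ₂ x →
      φ (sg p x) = cj p (sgh p (γ₁ * γ₂)) (sg p x) := fun x hx => by
    have h1 : mir φ x = cj p (γ₁ * γ₂) x := by
      rw [map_mul, MulAut.mul_apply, ← hx, MulAut.mul_apply, hcj']
    rw [← hsg, ← h1, mir_apply, sg_sg']
  refine ⟨sgh p (γ₁ * γ₂), fun j hj => ?_, ?_⟩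
  · have h := key _ (h₂ (p + 2 - j) (by omega))
    rw [sg_a (by omega), show p + 2 - (p + 2 - j) = j by omega] at h
    exact h
  · have h := key _ h₂'
    rw [sg_e] at h
    exact h

/-- piece DN-C9, STEP 7.
Proof. `six_mir`: `γ`; as `φ (a_j) = a_j`, `γ` commutes with `BrD` (`iD_cj`, closure). `centBr`:
`γ = ζⁱ λ(κ) ζ'ʲ`; `ζ'` commutes with the `a_j` and `b` (`ze'_comm_a`, `ze'_comm_b`). `φ₃ = cj (ζ⁻ⁱ) * φ` fixes
the `a_j` and `e` (`ζ` commutes with `HD`), `φ₃ b = cj (λ κ) b`. `last_step`: `κ = 1`; so `φ₃ b = b` and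
`φ₃ = 1` (`homD_ext` or `closure_D`). -/
theorem seven (hB : BrInner p) (hS : Solv p) {φ : MulAut (D p)} (hR : PLR φ) (hL : PLL φ)
    (hπ : PiC φ) (ha : ∀ j, j < p + 3 → φ (aD j) = aD j) (he : φ eD = eD) :
    ∃ i : ℤ, φ = cj p (ze p ^ i) := by
  have hinj : Function.Injective (iD : D p → Dh p) := SemidirectProduct.inl_injective
  obtain ⟨γ, hγa, hγb⟩ := six_mir hB hS hR hL hπ ha
  have hc : ∀ b ∈ BrD p, b * γ = γ * b := by
    have h1 : BrD p ≤ Subgroup.centralizer {γ} := by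
      unfold BrD
      rw [Subgroup.closure_le]
      rintro _ ⟨j, hj, rfl⟩
      rw [SetLike.mem_coe, Subgroup.mem_centralizer_singleton_iff]
      have h2 := hγa j hj
      rw [ha j hj] at h2
      have h3 := congrArg (iD : D p → Dh p) h2
      rw [iD_cj] at h3
      rw [eq_mul_inv_iff_mul_eq] at h3
      exact h3
    intro b hb
    exact Subgroup.mem_centralizer_singleton_iff.1 (h1 hb)
  obtain ⟨κ, hκ, i, j, e⟩ := centBr hc
  have hHa : ∀ n, n < p + 3 → (iD (aD n) : Dh p) ∈ HD p := fun n hn =>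
    BrD_le_HD (Subgroup.subset_closure ⟨n, hn, rfl⟩)
  have hHe : (iD eD : Dh p) ∈ HD p := by
    rw [e_eq]
    have h1 : (tL : Dh p) ∈ HD p := by
      rw [HD_eq]
      exact Subgroup.subset_closure (Or.inl rfl)
    exact mul_mem (mul_mem h1 (hHa 0 (by omega))) h1
  have hfix : ∀ x : D p, (iD x : Dh p) ∈ HD p → cj p (ze p ^ (-i)) x = x := by
    intro x hx
    apply hinj
    have h1 : Commute (iD x : Dh p) (ze p) := ze_comm hx
    have h2 : Commute (iD x : Dh p) (ze p ^ (-i)) := h1.zpow_right _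
    rw [iD_cj, ← h2.eq, mul_inv_cancel_right]
  have hz' : cj p (ze' p ^ j) bD = bD := by
    apply hinj
    have h1 : Commute (iD bD : Dh p) (ze' p) := ze'_comm_b
    have h2 : Commute (iD bD : Dh p) (ze' p ^ j) := h1.zpow_right _
    rw [iD_cj, ← h2.eq, mul_inv_cancel_right]
  have h3a : ∀ n, n < p + 3 → (cj p (ze p ^ (-i)) * φ) (aD n) = aD n := by
    intro n hn
    rw [MulAut.mul_apply, ha n hn, hfix _ (hHa n hn)]
  have h3e : (cj p (ze p ^ (-i)) * φ) eD = eD := by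
    rw [MulAut.mul_apply, he, hfix _ hHe]
  have h3b : (cj p (ze p ^ (-i)) * φ) bD = cj p (lam p κ) bD := by
    rw [MulAut.mul_apply, hγb, e, map_mul, map_mul, MulAut.mul_apply, hz', MulAut.mul_apply,
      ← MulAut.mul_apply, ← map_mul, zpow_neg, inv_mul_cancel, map_one, MulAut.one_apply]
  have hκ1 := last_step h3a h3e hκ h3b
  rw [hκ1, map_one, map_one, MulAut.one_apply] at h3b
  have h4 : cj p (ze p ^ (-i)) * φ = 1 := by
    have h5 : (cj p (ze p ^ (-i)) * φ).toMonoidHom = MonoidHom.id (D p) := homD_ext h3a h3b h3e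
    ext x
    exact DFunLike.congr_fun h5 x
  refine ⟨i, ?_⟩
  rw [zpow_neg, map_inv, inv_mul_eq_one] at h4
  exact h4.symm

private lemma c10_case (hB : BrInner p) (hS : Solv p) {φ : MulAut (D p)} (hR : PLR φ) (hL : PLL φ)
    (hπ : PiC φ) {γ : Dh p} (h : φ (zD p) = cj p γ (zD p)) : ∃ γ' : Dh p, φ = cj p γ' := by
  have hcj : ∀ (g : Dh p) (x : D p), cj p g⁻¹ (cj p g x) = x := fun g x => by
    rw [map_inv, MulAut.inv_apply_self]
  have hz : (cj p γ⁻¹ * φ) (zD p) = zD p := by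
    rw [MulAut.mul_apply, h, hcj]
  obtain ⟨γ₂, -, ha, he⟩ := six hB hS hz (hL.cj γ⁻¹) (hπ.cj γ⁻¹)
  have ha' : ∀ j, j < p + 3 → (cj p γ₂⁻¹ * (cj p γ⁻¹ * φ)) (aD j) = aD j := fun j hj => by
    rw [MulAut.mul_apply, ha j hj, hcj]
  have he' : (cj p γ₂⁻¹ * (cj p γ⁻¹ * φ)) eD = eD := by
    rw [MulAut.mul_apply, he, hcj]
  obtain ⟨i, hi⟩ := seven hB hS ((hR.cj γ⁻¹).cj γ₂⁻¹) ((hL.cj γ⁻¹).cj γ₂⁻¹)
    ((hπ.cj γ⁻¹).cj γ₂⁻¹) ha' he'
  refine ⟨γ * γ₂ * ze p ^ i, ?_⟩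
  rw [map_mul, map_mul, ← hi, map_inv, map_inv]
  group

/-- piece DN-C10: the automorphisms which preserve `LR` and `LL`.
Proof. `image_z`. If `φ z = cj γ z`: `six` for `cj γ⁻¹ * φ`, then `seven` for `cj γ₂⁻¹ * cj γ⁻¹ * φ` (it
preserves `LR`, `LL`: `PLR.cj`, `PLL.cj`, and `PiC.cj`). If `φ z = (cj γ z)⁻¹`: `φ * eps` is in the first case (`eps_z`,
`PLR_eps`, `PLL_eps`; `PiC (φ * eps)` is the hypothesis `hπ'`), and `φ = (φ * eps) * eps`. -/
theorem aut_pres (hB : BrInner p) (hS : Solv p) {φ : MulAut (D p)} (hR : PLR φ) (hL : PLL φ)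
    (hπ : PiC φ) (hπ' : PiC (φ * eps p)) : ∃ γ : Dh p, φ = cj p γ ∨ φ = cj p γ * eps p := by
  obtain ⟨γ, h | h⟩ := image_z hR hL
  · obtain ⟨γ', h'⟩ := c10_case hB hS hR hL hπ h
    exact ⟨γ', Or.inl h'⟩
  · have hR' : PLR (φ * eps p) := fun x => by
      rw [MulAut.mul_apply, hR, PLR_eps x]
    have hL' : PLL (φ * eps p) := fun x => by
      rw [MulAut.mul_apply, hL, PLL_eps x]
    have h' : (φ * eps p) (zD p) = cj p γ (zD p) := by
      rw [MulAut.mul_apply, eps_z, map_inv, h, inv_inv]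
    obtain ⟨γ', h''⟩ := c10_case hB hS hR' hL' hπ' h'
    refine ⟨γ', Or.inr ?_⟩
    rw [← h'', mul_assoc, eps_eps, mul_one]

/-- the result of step 3: `{LR, LL}` is permuted -/
def Perm3 (p : ℕ) : Prop := ∀ φ : MulAut (D p), (PLR φ ∧ PLL φ) ∨
  ((∀ x, φ x ∈ LR p ↔ x ∈ LL p) ∧ ∀ x, φ x ∈ LL p ↔ x ∈ LR p)

/-- piece DN-C11: THE FORM OF THE AUTOMORPHISMS. Proof: `aut_pres` for `φ` or `φ * sg` (`sg_LR`, `sg_LL`) -/
theorem aut_D (hB : BrInner p) (hS : Solv p) (h3 : Perm3 p) (hπ : ∀ φ : MulAut (D p), PiC φ)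
    (φ : MulAut (D p)) : ∃ γ : Dh p, φ = cj p γ ∨ φ = cj p γ * eps p ∨ φ = cj p γ * sg p ∨
      φ = cj p γ * eps p * sg p := by
  rcases h3 φ with ⟨hR, hL⟩ | ⟨h1, h2⟩
  · obtain ⟨γ, h | h⟩ := aut_pres hB hS hR hL (hπ φ) (hπ _)
    · exact ⟨γ, Or.inl h⟩
    · exact ⟨γ, Or.inr (Or.inl h)⟩
  · have hR : PLR (φ * sg p) := fun x => by rw [MulAut.mul_apply, h1, sg_LR]
    have hL : PLL (φ * sg p) := fun x => by rw [MulAut.mul_apply, h2, sg_LL]
    have e : φ = φ * sg p * sg p := by rw [mul_assoc, sg_sg, mul_one]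
    obtain ⟨γ, h | h⟩ := aut_pres hB hS hR hL (hπ _) (hπ _)
    · exact ⟨γ, Or.inr (Or.inr (Or.inl (by rw [← h]; exact e)))⟩
    · exact ⟨γ, Or.inr (Or.inr (Or.inr (by rw [← h]; exact e)))⟩

/-! ### uniqueness -/

/-- `x_k x_{k-1}` is not a power of `R` -/
private lemma c12_not {k : ℕ} (hk : 3 ≤ k) {n : ℤ}
    (h : RW k ^ n = (xW k * xW (k - 1) : W k)) : False := by
  have h1 := congrArg (wA (k - 2)) h
  rw [map_zpow, wA_R (by omega), h, map_mul, wA_x (by omega) le_rfl, wA_x (by omega) (by omega)] at h1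
  unfold wC at h1
  rw [if_neg (by omega), if_neg (by omega), if_neg (by omega), if_pos (by omega)] at h1
  have h2 : (xW (k - 1) : W k) = xW (k - 2) := mul_left_cancel h1
  have h3 : ([k - 1] : List ℕ) = [k - 2] := by
    apply red_uniq (k := k)
    · exact ⟨by intro i hi; rw [List.mem_singleton] at hi; omega, List.isChain_singleton _⟩
    · exact ⟨by intro i hi; rw [List.mem_singleton] at hi; omega, List.isChain_singleton _⟩
    · rw [wv_cons, wv_cons, wv_nil, mul_one, mul_one, h2]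
  rw [List.singleton_inj] at h3
  omega

/-- piece DN-C12: `cj` is injective.
Proof. Let `cj γ = 1`: `γ` commutes with every `iD x` (`iD_cj`). It commutes with `ζ² = iD z`, so `γ ∈ HD`
(`cent_ze`), and with `BrD`, so `γ = ζⁱ Ωʲ` (`centBr_HD`). `iD u_0 = λ'(x_k x_{k-1})` commutes with `γ` and with `ζ`,
so with `Ωʲ`; `Ω = λ'(R) ζ`, so `λ'(R)ʲ` commutes with `λ'(x_k x_{k-1})`; if `j ≠ 0` then `x_k x_{k-1} ∈ ⟨R⟩`
(`centW`), impossible: `α_{k-2}` fixes `R` and maps `x_k x_{k-1}` to `x_k x_{k-2}`. So `γ = ζⁱ = λ(rⁱ)` commutes with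
`iD v_0 = λ(x_k x_{k-1})`; if `i ≠ 0` then `x_k x_{k-1} ∈ ⟨r⟩` (`cent_rL`), in `W`: `x_k x_{k-1} ∈ ⟨R⟩`. -/
theorem cj_inj : Function.Injective (cj p) := by
  rw [injective_iff_map_eq_one]
  intro γ hγ
  have hc : ∀ x : D p, γ * iD x = iD x * γ := fun x => by
    have h := iD_cj γ x
    rw [hγ, MulAut.one_apply] at h
    rw [eq_mul_inv_iff_mul_eq] at h
    exact h.symm
  have hz : γ * ze p ^ (2 : ℤ) = ze p ^ (2 : ℤ) * γ := by
    have h := hc (zD p)
    rw [iD_zD] at h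
    exact_mod_cast h
  have hH : γ ∈ HD p := cent_ze (by norm_num) hz
  have hB : ∀ b ∈ BrD p, b * γ = γ * b := by
    intro b hb
    have hle : BrD p ≤ (Subgroup.centralizer {γ}) := by
      unfold BrD
      rw [Subgroup.closure_le]
      rintro _ ⟨j, -, rfl⟩
      rw [SetLike.mem_coe, Subgroup.mem_centralizer_singleton_iff]
      exact (hc (aD j)).symm
    exact Subgroup.mem_centralizer_singleton_iff.1 (hle hb)
  obtain ⟨i, j, hij⟩ := centBr_HD hH hB
  -- the exponent of `Ω`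
  have hj : j = 0 := by
    by_contra hj
    have hu : lam' p (xL (p + 3) * xL (p + 2)) ∈ HD p := by
      have h1 := lam'_sW_mem (p := p) (xW (p + 3) * xW (p + 2))
      rwa [map_mul, sW_x le_rfl, sW_x (by omega)] at h1
    have hR : lam' p (RL (p + 3)) ∈ HD p := lam'_sW_mem (p := p) (RW (p + 3))
    have hO : OmD p = lam' p (RL (p + 3)) * ze p := by
      rw [ze_eq, mul_inv_cancel_left]
    have hOj : OmD p ^ j = lam' p (RL (p + 3)) ^ j * ze p ^ j := by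
      rw [hO]
      exact Commute.mul_zpow (ze_comm hR) j
    have c1 : Commute γ (lam' p (xL (p + 3) * xL (p + 2))) := by
      rw [lam'_u0]
      exact hc _
    have c2 : ∀ m : ℤ, Commute (ze p ^ m) (lam' p (xL (p + 3) * xL (p + 2))) := fun m =>
      (show Commute (lam' p (xL (p + 3) * xL (p + 2))) (ze p) from ze_comm hu).symm.zpow_left m
    have e1 : lam' p (RL (p + 3)) ^ j = (ze p ^ i)⁻¹ * γ * (ze p ^ j)⁻¹ := by
      rw [hij, hOj]
      group
    have c3 : Commute (lam' p (RL (p + 3)) ^ j) (lam' p (xL (p + 3) * xL (p + 2))) := by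
      rw [e1]
      exact ((c2 i).inv_left.mul_left c1).mul_left (c2 j).inv_left
    have c4 : RL (p + 3) ^ j * (xL (p + 3) * xL (p + 2)) =
        (xL (p + 3) * xL (p + 2)) * RL (p + 3) ^ j := by
      apply lam'_inj
      rw [map_mul (lam' p) (RL (p + 3) ^ j), map_mul (lam' p) (xL (p + 3) * xL (p + 2)) , map_zpow]
      exact c3
    have c5 := congrArg (toW (p + 3)) c4
    rw [← sW_x le_rfl, ← sW_x (show p + 2 ≤ p + 3 by omega)] at c5
    simp only [map_mul, map_zpow, toW_sW] at c5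
    have hRL : toW (p + 3) (RL (p + 3)) = RW (p + 3) := toW_sW _
    rw [hRL] at c5
    obtain ⟨n, hn⟩ := Subgroup.mem_zpowers_iff.1
      (centW (k := p + 3) (by omega) (g := xW (p + 3) * xW (p + 2)) hj c5.symm)
    exact c12_not (k := p + 3) (by omega) hn
  have hi : i = 0 := by
    by_contra hi
    rw [hj, zpow_zero, mul_one] at hij
    have c1 := hc (bD * (aD (p + 2))⁻¹)
    rw [← lam_v0, hij, ← lam_r, ← map_zpow, ← map_mul, ← map_mul] at c1
    have c2 := lam_inj c1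
    obtain ⟨n, hn⟩ := Subgroup.mem_zpowers_iff.1 (cent_rL (by omega) hi c2.symm)
    have c3 := congrArg (toW (p + 3)) hn
    rw [← sW_x le_rfl, ← sW_x (show p + 2 ≤ p + 3 by omega)] at c3
    simp only [map_mul, map_zpow, toW_sW, toW_r] at c3
    exact c12_not (k := p + 3) (by omega) c3
  rw [hij, hi, hj, zpow_zero, zpow_zero, mul_one]

/-- piece DN-C13: the center of `D p` is trivial (`cj_inj`) -/
theorem center_D : Subgroup.center (D p) = ⊥ := by
  rw [eq_bot_iff]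
  intro x hx
  rw [Subgroup.mem_center_iff] at hx
  rw [Subgroup.mem_bot]
  have h1 : cj p (iD x) = cj p 1 := by
    rw [map_one]
    refine MulEquiv.ext fun y => ?_
    rw [MulAut.one_apply]
    apply SemidirectProduct.inl_injective (φ := kAct p)
    have h2 := iD_cj (iD x) y
    rw [← map_mul, ← map_inv, ← map_mul, ← hx y, mul_inv_cancel_right] at h2
    exact h2
  have h3 := cj_inj h1
  apply SemidirectProduct.inl_injective (φ := kAct p)
  rw [map_one]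
  exact h3

private lemma dnc13_len (γ : Dh p) (x : D p) : lenD p (cj p γ x) = lenD p x := by
  rw [← lenH_iD, iD_cj, map_mul, map_mul, map_inv, lenH_iD, mul_inv_cancel_comm]

private lemma dnc13_ne : (Multiplicative.ofAdd (1 : ℤ)) ≠ (Multiplicative.ofAdd (1 : ℤ))⁻¹ := by
  intro h
  have h1 := congrArg Multiplicative.toAdd h
  rw [toAdd_ofAdd, toAdd_inv, toAdd_ofAdd] at h1
  omega

/-- piece DN-C13: the exponent sum excludes `ε`: `cj γ = cj γ' * eps` is impossible (`lenD` of the image of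
`aD 0`, `iD_cj`) -/
theorem eps_ne (γ γ' : Dh p) : cj p γ ≠ cj p γ' * eps p := by
  intro h
  have h1 := congrArg (fun f : MulAut (D p) => lenD p (f (aD 0))) h
  simp only [MulAut.mul_apply] at h1
  rw [dnc13_len, dnc13_len, eps_a (by omega), map_inv, lenD_a (by omega)] at h1
  exact dnc13_ne h1
/-- piece DN-C13: `cj γ` and `cj γ * eps` preserve `LR`, `sg` exchanges `LR` and `LL` (`v0_LR`, `v0_LL`) -/
theorem sg_ne (γ γ' : Dh p) : cj p γ ≠ cj p γ' * sg p := by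
  intro h
  have h1 : cj p γ (bD * (aD (p + 2))⁻¹) ∈ LR p := (cj_LR γ).2 v0_LR
  rw [h, MulAut.mul_apply, cj_LR, sg_LL] at h1
  exact v0_LL h1
/-- piece DN-C13: `cj γ = cj γ' * (eps * sg)` is impossible, by the exponent sum -/
theorem epssg_ne (γ γ' : Dh p) : cj p γ ≠ cj p γ' * (eps p * sg p) := by
  intro h
  have h1 := congrArg (fun f : MulAut (D p) => lenD p (f (aD 0))) h
  simp only [MulAut.mul_apply] at h1
  rw [dnc13_len, dnc13_len, sg_a (by omega), eps_a (by omega), map_inv, lenD_a (by omega),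
    lenD_a (by omega)] at h1
  exact dnc13_ne h1

end

end Pool.Agent.Helper20.DN
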