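import Pool.Agent.Helper20.DN.Pres
import Pool.Agent.Helper38.BN.Hat

/-!
# Project DN: the automorphisms of the graph, the group `Γ = Dh p`

`Dh p = D p ⋊ (ℤˣ × ℤˣ)`; the first factor exchanges `e` and `a_0` (element `tL`), the second one
exchanges `b` and `a_{k-1}`, `k = p + 3` (element `tR`).
-/

namespace Pool.Agent.Helper20.DN

open Pool.Agent.Helper38.BN

section
variable {p : ℕ} {K L : Type*} [Group K] [Group L] {a : ℕ → K} {b e : K}

/-- piece DN-S1: homomorphisms preserve the relations -/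
theorem RelD.map (h : RelD p a b e) (f : K →* L) : RelD p (fun j => f (a j)) (f b) (f e) where
  comm i j h1 h2 := by simp only [← map_mul]; rw [h.comm i j h1 h2]
  braid i h1 := by simp only [← map_mul]; rw [h.braid i h1]
  ba := by simp only [← map_mul]; rw [h.ba]
  bb := by simp only [← map_mul]; rw [h.bb]
  bc i h1 := by simp only [← map_mul]; rw [h.bc i h1]
  ea := by simp only [← map_mul]; rw [h.ea]
  eb := by simp only [← map_mul]; rw [h.eb]
  ec i h1 h2 := by simp only [← map_mul]; rw [h.ec i h1 h2]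
  be := by simp only [← map_mul]; rw [h.be]

/-- piece DN-S1 -/
theorem inv_relD (h : RelD p a b e) : RelD p (fun j => (a j)⁻¹) b⁻¹ e⁻¹ where
  comm i j h1 h2 := by simp only [← mul_inv_rev]; rw [h.comm i j h1 h2]
  braid i h1 := by simp only [← mul_inv_rev, ← mul_assoc]; rw [h.braid i h1]
  ba := by simp only [← mul_inv_rev]; rw [h.ba]
  bb := by simp only [← mul_inv_rev, ← mul_assoc]; rw [h.bb]
  bc i h1 := by simp only [← mul_inv_rev]; rw [h.bc i h1]
  ea := by simp only [← mul_inv_rev]; rw [h.ea]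
  eb := by simp only [← mul_inv_rev, ← mul_assoc]; rw [h.eb]
  ec i h1 h2 := by simp only [← mul_inv_rev]; rw [h.ec i h1 h2]
  be := by simp only [← mul_inv_rev]; rw [h.be]

/-- piece DN-S1: `e` and `a_0` are exchanged -/
theorem tL_rel (h : RelD p a b e) : RelD p (fun j => if j = 0 then e else a j) b (a 0) where
  comm i j h1 h2 := by
    rw [if_neg (show j ≠ 0 by omega)]
    split_ifs with h0
    · exact h.ec j (by omega) h2
    · exact h.comm i j h1 h2
  braid i h1 := by
    rw [if_neg (show i + 1 ≠ 0 by omega)]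
    split_ifs with h0
    · subst h0
      exact h.eb
    · exact h.braid i h1
  ba := by
    rw [if_neg (show p + 2 ≠ 0 by omega)]
    exact h.ba
  bb := by
    rw [if_neg (show p + 1 ≠ 0 by omega)]
    exact h.bb
  bc i h1 := by
    split_ifs with h0
    · exact h.be
    · exact h.bc i h1
  ea := by
    simp only [if_true]
    exact h.ea.symm
  eb := by
    rw [if_neg (show (1 : ℕ) ≠ 0 by omega)]
    have h1 := h.braid 0 (by omega)
    rwa [zero_add] at h1
  ec i h1 h2 := by
    rw [if_neg (show i ≠ 0 by omega)]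
    exact h.comm 0 i (by omega) h2
  be := h.bc 0 (by omega)

/-- piece DN-S1: `b` and `a_{p+2}` are exchanged -/
theorem tR_rel (h : RelD p a b e) :
    RelD p (fun j => if j = p + 2 then b else a j) (a (p + 2)) e where
  comm i j h1 h2 := by
    rw [if_neg (show i ≠ p + 2 by omega)]
    split_ifs with h0
    · exact (h.bc i (by omega)).symm
    · exact h.comm i j h1 h2
  braid i h1 := by
    rw [if_neg (show i ≠ p + 2 by omega)]
    split_ifs with h0
    · have e1 : i = p + 1 := by omega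
      subst e1
      exact h.bb.symm
    · exact h.braid i h1
  ba := by
    simp only [if_true]
    exact h.ba.symm
  bb := by
    rw [if_neg (show p + 1 ≠ p + 2 by omega)]
    exact (h.braid (p + 1) (by omega)).symm
  bc i h1 := by
    rw [if_neg (show i ≠ p + 2 by omega)]
    exact (h.comm i (p + 2) (by omega) (by omega)).symm
  ea := by
    rw [if_neg (show 0 ≠ p + 2 by omega)]
    exact h.ea
  eb := by
    rw [if_neg (show 1 ≠ p + 2 by omega)]
    exact h.eb
  ec i h1 h2 := by
    split_ifs with h0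
    · exact h.be.symm
    · exact h.ec i h1 h2
  be := (h.ec (p + 2) (by omega) (by omega)).symm

/-- piece DN-S1: the reflection of the graph -/
theorem sg_rel (h : RelD p a b e) : RelD p (fun j => a (p + 2 - j)) e b where
  comm i j h1 h2 := (h.comm (p + 2 - j) (p + 2 - i) (by omega) (by omega)).symm
  braid i h1 := by
    have h2 := h.braid (p + 2 - (i + 1)) (by omega)
    have e1 : p + 2 - (i + 1) + 1 = p + 2 - i := by omega
    rw [e1] at h2
    exact h2.symm
  ba := by
    simp only [Nat.sub_self]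
    exact h.ea
  bb := by
    have e1 : p + 2 - (p + 1) = 1 := by omega
    simp only [e1]
    exact h.eb
  bc i h1 := h.ec (p + 2 - i) (by omega) (by omega)
  ea := by
    simp only [Nat.sub_zero]
    exact h.ba
  eb := by
    have e1 : p + 2 - 1 = p + 1 := by omega
    simp only [e1]
    exact h.bb
  ec i h1 h2 := h.bc (p + 2 - i) (by omega)
  be := h.be.symm

/-- piece DN-S2: the key lemma: a solution of the relations of type `B̃` with `d² = 1` gives a
solution of the relations of type `D̃` with `e = d a_0 d`.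
Proof. `be`: `b` commutes with `a_0` (`bc`, `0 < p + 1`) and with `d` (`bd`). `ea`: relation `four`,
`a_0 (d a_0 d) = d (d a_0 d a_0) d`, and `d a_0 d a_0 = a_0 d a_0 d` (multiply with `d² = 1`).
`eb`: `d` commutes with `a_1`, so `(d a_0 d) a_1 (d a_0 d) = d (a_0 a_1 a_0) d = d (a_1 a_0 a_1) d`.
`ec`: `a_i`, `i > 1`, commutes with `d` and `a_0`. -/
theorem relD_of_relA {d : K} (h : RelA (p + 1) a b d) (hd : d * d = 1) :
    RelD p a b (d * a 0 * d) := by
  have h1 : Commute (a 1) d := h.dcomm 1 (by omega) (by omega)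
  refine ⟨h.toRelBr, h.ba, h.bb, h.bc, ?_, ?_, ?_, ?_⟩
  · have h4 := h.four (by omega)
    simp only [mul_assoc] at h4 ⊢
    exact h4.symm
  · have h01 := h.braid 0 (by omega)
    rw [zero_add] at h01
    calc d * a 0 * d * a 1 * (d * a 0 * d)
        = d * a 0 * (d * a 1) * (d * a 0 * d) := by simp only [mul_assoc]
      _ = d * a 0 * (a 1 * d) * (d * a 0 * d) := by rw [h1.eq]
      _ = d * a 0 * a 1 * (d * d) * a 0 * d := by simp only [mul_assoc]
      _ = d * (a 0 * a 1 * a 0) * d := by rw [hd, mul_one]; simp only [mul_assoc]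
      _ = d * (a 1 * a 0 * a 1) * d := by rw [h01]
      _ = (d * a 1) * a 0 * (a 1 * d) := by simp only [mul_assoc]
      _ = (a 1 * d) * a 0 * (d * a 1) := by rw [h1.eq]
      _ = a 1 * (d * a 0 * d) * a 1 := by simp only [mul_assoc]
  · intro i hi1 hi2
    have c1 : Commute (a i) d := h.dcomm i (by omega) (by omega)
    have c2 : Commute (a 0) (a i) := h.comm 0 i (by omega) (by omega)
    exact ((c1.mul_right c2.symm).mul_right c1).symm.eq
  · have c1 : Commute b d := h.bd
    have c2 : Commute b (a 0) := h.bc 0 (by omega)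
    exact ((c1.mul_right c2).mul_right c1).eq

/-- piece DN-S2: conversely, if `t` is an involution with `t a_0 t = e` which commutes with `b` and
with `a_j`, `j ≥ 1`, then `a`, `b`, `t` satisfy the relations of type `B̃`.
Proof. `four`: `a_0 t a_0 t = a_0 e` and `t a_0 t a_0 = e a_0`. -/
theorem relA_of_relD {t : K} (h : RelD p a b e) (ht : t * t = 1) (h0 : t * a 0 * t = e)
    (hb : b * t = t * b) (ha : ∀ j, 0 < j → j < p + 3 → a j * t = t * a j) :
    RelA (p + 1) a b t := by
  refine ⟨⟨h.toRelBr, fun i h1 h2 => ha i h1 (by omega), fun _ => ?_⟩, h.ba, h.bb, h.bc, hb⟩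
  have h1 := h.ea
  rw [← h0] at h1
  simp only [mul_assoc] at h1 ⊢
  exact h1.symm

end

/-! ### the automorphisms -/

/-- the homomorphism `ε`: the generators go to their inverses -/
def epsHom (p : ℕ) : D p →* D p := liftD (inv_relD (relD p))
/-- `e ↔ a_0` -/
def tLHom (p : ℕ) : D p →* D p := liftD (tL_rel (relD p))
/-- `b ↔ a_{k-1}` -/
def tRHom (p : ℕ) : D p →* D p := liftD (tR_rel (relD p))
/-- the reflection -/
def sgHom (p : ℕ) : D p →* D p := liftD (sg_rel (relD p))

section
variable {p : ℕ}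

private lemma s3_eps_a {j : ℕ} (hj : j < p + 3) : epsHom p (aD j) = (aD j)⁻¹ := liftD_a _ hj
private lemma s3_eps_b : epsHom p bD = bD⁻¹ := liftD_b _
private lemma s3_eps_e : epsHom p eD = eD⁻¹ := liftD_e _
private lemma s3_tL_a {j : ℕ} (h0 : j ≠ 0) (hj : j < p + 3) : tLHom p (aD j) = aD j := by
  have h := liftD_a (tL_rel (relD p)) hj
  rwa [if_neg h0] at h
private lemma s3_tL_a0 : tLHom p (aD 0) = eD := by
  have h := liftD_a (tL_rel (relD p)) (show 0 < p + 3 by omega)
  rwa [if_pos rfl] at h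
private lemma s3_tL_b : tLHom p bD = bD := liftD_b _
private lemma s3_tL_e : tLHom p eD = aD 0 := liftD_e _
private lemma s3_tR_a {j : ℕ} (h0 : j ≠ p + 2) (hj : j < p + 3) : tRHom p (aD j) = aD j := by
  have h := liftD_a (tR_rel (relD p)) hj
  rwa [if_neg h0] at h
private lemma s3_tR_a' : tRHom p (aD (p + 2)) = bD := by
  have h := liftD_a (tR_rel (relD p)) (show p + 2 < p + 3 by omega)
  rwa [if_pos rfl] at h
private lemma s3_tR_b : tRHom p bD = aD (p + 2) := liftD_b _
private lemma s3_tR_e : tRHom p eD = eD := liftD_e _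
private lemma s3_sg_a {j : ℕ} (hj : j < p + 3) : sgHom p (aD j) = aD (p + 2 - j) := liftD_a _ hj
private lemma s3_sg_b : sgHom p bD = eD := liftD_b _
private lemma s3_sg_e : sgHom p eD = bD := liftD_e _

private lemma s3_ext {f g h k : D p →* D p} (ha : ∀ j, j < p + 3 → f (g (aD j)) = h (k (aD j)))
    (hb : f (g bD) = h (k bD)) (he : f (g eD) = h (k eD)) (x : D p) : f (g x) = h (k x) :=
  DFunLike.congr_fun (homD_ext (f := f.comp g) (g := h.comp k) ha hb he) x

private lemma s3_sq {f : D p →* D p} (ha : ∀ j, j < p + 3 → f (f (aD j)) = aD j)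
    (hb : f (f bD) = bD) (he : f (f eD) = eD) (x : D p) : f (f x) = x :=
  DFunLike.congr_fun (homD_ext (f := f.comp f) (g := MonoidHom.id _) ha hb he) x

/-- piece DN-S3 (all: `homD_ext`) -/
theorem epsHom_sq (x : D p) : epsHom p (epsHom p x) = x := by
  refine s3_sq (fun j hj => ?_) ?_ ?_ x
  · rw [s3_eps_a hj, map_inv, s3_eps_a hj, inv_inv]
  · rw [s3_eps_b, map_inv, s3_eps_b, inv_inv]
  · rw [s3_eps_e, map_inv, s3_eps_e, inv_inv]
/-- piece DN-S3 -/
theorem tLHom_sq (x : D p) : tLHom p (tLHom p x) = x := by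
  refine s3_sq (fun j hj => ?_) ?_ ?_ x
  · rcases Nat.eq_zero_or_pos j with rfl | h0
    · rw [s3_tL_a0, s3_tL_e]
    · rw [s3_tL_a h0.ne' hj, s3_tL_a h0.ne' hj]
  · rw [s3_tL_b, s3_tL_b]
  · rw [s3_tL_e, s3_tL_a0]
/-- piece DN-S3 -/
theorem tRHom_sq (x : D p) : tRHom p (tRHom p x) = x := by
  refine s3_sq (fun j hj => ?_) ?_ ?_ x
  · by_cases h0 : j = p + 2
    · subst h0
      rw [s3_tR_a', s3_tR_b]
    · rw [s3_tR_a h0 hj, s3_tR_a h0 hj]
  · rw [s3_tR_b, s3_tR_a']
  · rw [s3_tR_e, s3_tR_e]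
/-- piece DN-S3 -/
theorem sgHom_sq (x : D p) : sgHom p (sgHom p x) = x := by
  refine s3_sq (fun j hj => ?_) ?_ ?_ x
  · rw [s3_sg_a hj, s3_sg_a (by omega)]
    congr 1
    omega
  · rw [s3_sg_b, s3_sg_e]
  · rw [s3_sg_e, s3_sg_b]
/-- piece DN-S3 -/
theorem tLR_comm (x : D p) : tLHom p (tRHom p x) = tRHom p (tLHom p x) := by
  refine s3_ext (fun j hj => ?_) ?_ ?_ x
  · rcases Nat.eq_zero_or_pos j with rfl | h0
    · rw [s3_tR_a (by omega) hj, s3_tL_a0, s3_tR_e]
    · by_cases h1 : j = p + 2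
      · subst h1
        rw [s3_tR_a', s3_tL_a (by omega) hj, s3_tR_a', s3_tL_b]
      · rw [s3_tR_a h1 hj, s3_tL_a h0.ne' hj, s3_tR_a h1 hj]
  · rw [s3_tR_b, s3_tL_b, s3_tR_b, s3_tL_a (by omega) (by omega)]
  · rw [s3_tR_e, s3_tL_e, s3_tR_a (by omega) (by omega)]
/-- piece DN-S3 -/
theorem sg_tL (x : D p) : sgHom p (tLHom p x) = tRHom p (sgHom p x) := by
  refine s3_ext (fun j hj => ?_) ?_ ?_ x
  · rcases Nat.eq_zero_or_pos j with rfl | h0
    · rw [s3_tL_a0, s3_sg_e, s3_sg_a hj, Nat.sub_zero, s3_tR_a']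
    · rw [s3_tL_a h0.ne' hj, s3_sg_a hj, s3_tR_a (by omega) (by omega)]
  · rw [s3_tL_b, s3_sg_b, s3_tR_e]
  · rw [s3_tL_e, s3_sg_e, s3_sg_a (by omega), Nat.sub_zero, s3_tR_b]
/-- piece DN-S3 -/
theorem sg_tR (x : D p) : sgHom p (tRHom p x) = tLHom p (sgHom p x) := by
  refine s3_ext (fun j hj => ?_) ?_ ?_ x
  · by_cases h0 : j = p + 2
    · subst h0
      rw [s3_tR_a', s3_sg_b, s3_sg_a hj, Nat.sub_self, s3_tL_a0]
    · rw [s3_tR_a h0 hj, s3_sg_a hj, s3_tL_a (by omega) (by omega)]
  · rw [s3_tR_b, s3_sg_b, s3_sg_a (by omega), Nat.sub_self, s3_tL_e]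
  · rw [s3_tR_e, s3_sg_e, s3_tL_b]
/-- piece DN-S3 -/
theorem eps_tL (x : D p) : epsHom p (tLHom p x) = tLHom p (epsHom p x) := by
  refine s3_ext (fun j hj => ?_) ?_ ?_ x
  · rcases Nat.eq_zero_or_pos j with rfl | h0
    · rw [s3_tL_a0, s3_eps_e, s3_eps_a hj, map_inv, s3_tL_a0]
    · rw [s3_tL_a h0.ne' hj, s3_eps_a hj, map_inv, s3_tL_a h0.ne' hj]
  · rw [s3_tL_b, s3_eps_b, map_inv, s3_tL_b]
  · rw [s3_tL_e, s3_eps_e, s3_eps_a (by omega), map_inv, s3_tL_e]
/-- piece DN-S3 -/
theorem eps_tR (x : D p) : epsHom p (tRHom p x) = tRHom p (epsHom p x) := by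
  refine s3_ext (fun j hj => ?_) ?_ ?_ x
  · by_cases h0 : j = p + 2
    · subst h0
      rw [s3_tR_a', s3_eps_b, s3_eps_a hj, map_inv, s3_tR_a']
    · rw [s3_tR_a h0 hj, s3_eps_a hj, map_inv, s3_tR_a h0 hj]
  · rw [s3_tR_b, s3_eps_b, s3_eps_a (by omega), map_inv, s3_tR_b]
  · rw [s3_tR_e, s3_eps_e, map_inv, s3_tR_e]
/-- piece DN-S3 -/
theorem eps_sg (x : D p) : epsHom p (sgHom p x) = sgHom p (epsHom p x) := by
  refine s3_ext (fun j hj => ?_) ?_ ?_ x
  · rw [s3_sg_a hj, s3_eps_a hj, map_inv, s3_sg_a hj, s3_eps_a (by omega)]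
  · rw [s3_sg_b, s3_eps_b, s3_eps_e, map_inv, s3_sg_b]
  · rw [s3_sg_e, s3_eps_e, s3_eps_b, map_inv, s3_sg_e]

end

/-- the automorphism `ε` -/
def eps (p : ℕ) : MulAut (D p) := ⟨⟨epsHom p, epsHom p, epsHom_sq, epsHom_sq⟩, map_mul _⟩
/-- the automorphism `e ↔ a_0` -/
def tLa (p : ℕ) : MulAut (D p) := ⟨⟨tLHom p, tLHom p, tLHom_sq, tLHom_sq⟩, map_mul _⟩
/-- the automorphism `b ↔ a_{k-1}` -/
def tRa (p : ℕ) : MulAut (D p) := ⟨⟨tRHom p, tRHom p, tRHom_sq, tRHom_sq⟩, map_mul _⟩
/-- the automorphism `σ` -/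
def sg (p : ℕ) : MulAut (D p) := ⟨⟨sgHom p, sgHom p, sgHom_sq, sgHom_sq⟩, map_mul _⟩

section
variable {p : ℕ}

lemma eps_eps : eps p * eps p = 1 := MulEquiv.ext epsHom_sq
lemma tLa_tLa : tLa p * tLa p = 1 := MulEquiv.ext tLHom_sq
lemma tRa_tRa : tRa p * tRa p = 1 := MulEquiv.ext tRHom_sq
lemma sg_sg : sg p * sg p = 1 := MulEquiv.ext sgHom_sq
lemma tLa_tRa : tLa p * tRa p = tRa p * tLa p := MulEquiv.ext tLR_comm
lemma sg_tLa : sg p * tLa p = tRa p * sg p := MulEquiv.ext sg_tL
lemma sg_tRa : sg p * tRa p = tLa p * sg p := MulEquiv.ext sg_tR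
lemma eps_tLa : eps p * tLa p = tLa p * eps p := MulEquiv.ext eps_tL
lemma eps_tRa : eps p * tRa p = tRa p * eps p := MulEquiv.ext eps_tR
lemma eps_sg' : eps p * sg p = sg p * eps p := MulEquiv.ext eps_sg

end

/-- the action of the Klein four group on `D p` -/
def kAct (p : ℕ) : ℤˣ × ℤˣ →* MulAut (D p) :=
  (c2hom (tLa p) tLa_tLa).noncommCoprod (c2hom (tRa p) tRa_tRa) (by
    intro x y
    rcases Int.units_eq_one_or x with rfl | rfl <;> rcases Int.units_eq_one_or y with rfl | rfl
    · simp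
    · simp
    · simp
    · rw [c2hom_neg, c2hom_neg]; exact tLa_tRa)

/-- the group `Γ` -/
abbrev Dh (p : ℕ) : Type := D p ⋊[kAct p] (ℤˣ × ℤˣ)

/-- the inclusion `D p → Γ` -/
abbrev iD {p : ℕ} : D p →* Dh p := SemidirectProduct.inl

/-- the element `t_L` of `Γ` -/
def tL {p : ℕ} : Dh p := SemidirectProduct.inr (-1, 1)
/-- the element `t_R` of `Γ` -/
def tR {p : ℕ} : Dh p := SemidirectProduct.inr (1, -1)

/-- the signs -/
abbrev sgn (p : ℕ) : Dh p →* ℤˣ × ℤˣ := SemidirectProduct.rightHom

section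
variable {p : ℕ}

lemma tL_sq : (tL : Dh p) * tL = 1 := by
  unfold tL; rw [← map_mul]; exact map_one _
lemma tR_sq : (tR : Dh p) * tR = 1 := by
  unfold tR; rw [← map_mul]; exact map_one _
lemma tL_tR : (tL : Dh p) * tR = tR * tL := by unfold tL tR; rw [← map_mul, ← map_mul, mul_comm]

lemma kAct_L : kAct p (-1, 1) = tLa p := by
  unfold kAct
  simp [MonoidHom.noncommCoprod_apply]
lemma kAct_R : kAct p (1, -1) = tRa p := by
  unfold kAct
  simp [MonoidHom.noncommCoprod_apply]

lemma tL_conj (x : D p) : (tL : Dh p) * iD x = iD (tLa p x) * tL := by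
  have h := SemidirectProduct.inl_aut (φ := kAct p) (-1, 1) x
  rw [kAct_L] at h
  unfold iD tL
  rw [h, map_inv, inv_mul_cancel_right]

lemma tR_conj (x : D p) : (tR : Dh p) * iD x = iD (tRa p x) * tR := by
  have h := SemidirectProduct.inl_aut (φ := kAct p) (1, -1) x
  rw [kAct_R] at h
  unfold iD tR
  rw [h, map_inv, inv_mul_cancel_right]

lemma tLa_a {j : ℕ} (h0 : 0 < j) (hj : j < p + 3) : tLa p (aD j) = aD j := by
  change liftD (tL_rel (relD p)) (aD j) = _
  rw [liftD_a _ hj, if_neg (by omega)]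
lemma tLa_a0 : tLa p (aD 0) = eD := by
  change liftD (tL_rel (relD p)) (aD 0) = _
  rw [liftD_a _ (by omega), if_pos rfl]
lemma tLa_e : tLa p eD = aD 0 := by
  change liftD (tL_rel (relD p)) eD = _
  rw [liftD_e]
lemma tLa_b : tLa p bD = bD := by
  change liftD (tL_rel (relD p)) bD = _
  rw [liftD_b]
lemma tRa_a {j : ℕ} (hj : j < p + 2) : tRa p (aD j) = aD j := by
  change liftD (tR_rel (relD p)) (aD j) = _
  rw [liftD_a _ (by omega), if_neg (by omega)]
lemma tRa_a' : tRa p (aD (p + 2)) = bD := by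
  change liftD (tR_rel (relD p)) (aD _) = _
  rw [liftD_a _ (by omega), if_pos rfl]
lemma tRa_b : tRa p bD = aD (p + 2) := by
  change liftD (tR_rel (relD p)) bD = _
  rw [liftD_b]
lemma tRa_e : tRa p eD = eD := by
  change liftD (tR_rel (relD p)) eD = _
  rw [liftD_e]
lemma sg_a {j : ℕ} (hj : j < p + 3) : sg p (aD j) = aD (p + 2 - j) := by
  change liftD (sg_rel (relD p)) (aD j) = _
  rw [liftD_a _ hj]
lemma sg_b : sg p bD = eD := by
  change liftD (sg_rel (relD p)) bD = _
  rw [liftD_b]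
lemma sg_e : sg p eD = bD := by
  change liftD (sg_rel (relD p)) eD = _
  rw [liftD_e]
lemma eps_a {j : ℕ} (hj : j < p + 3) : eps p (aD j) = (aD j)⁻¹ := by
  change liftD (inv_relD (relD p)) (aD j) = _
  rw [liftD_a _ hj]
lemma eps_b : eps p bD = bD⁻¹ := by
  change liftD (inv_relD (relD p)) bD = _
  rw [liftD_b]
lemma eps_e : eps p eD = eD⁻¹ := by
  change liftD (inv_relD (relD p)) eD = _
  rw [liftD_e]

/-- piece DN-S4: the reflection of `Γ`: the automorphism `inl x ↦ inl (σ x)`, `inr (s, t) ↦ inr (t, s)`.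
Proof. `SemidirectProduct.map` (or `SemidirectProduct.lift`), with `sg_tLa`, `sg_tRa`. -/
theorem exists_sgh (p : ℕ) : ∃ f : MulAut (Dh p), (∀ x, f (iD x) = iD (sg p x)) ∧ f tL = tR ∧
    f tR = tL := by
  have hL : ∀ x, sg p (kAct p (-1, 1) x) = kAct p (1, -1) (sg p x) := by
    intro x
    rw [kAct_L, kAct_R]
    exact DFunLike.congr_fun (sg_tLa (p := p)) x
  have hR : ∀ x, sg p (kAct p (1, -1) x) = kAct p (-1, 1) (sg p x) := by
    intro x
    rw [kAct_L, kAct_R]
    exact DFunLike.congr_fun (sg_tRa (p := p)) x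
  have h : ∀ g : ℤˣ × ℤˣ, (kAct p g).trans (sg p) =
      (sg p).trans (kAct p ((MulEquiv.prodComm : ℤˣ × ℤˣ ≃* ℤˣ × ℤˣ) g)) := by
    rintro ⟨u, v⟩
    ext x
    change sg p (kAct p (u, v) x) = kAct p (v, u) (sg p x)
    rcases Int.units_eq_one_or u with rfl | rfl <;> rcases Int.units_eq_one_or v with rfl | rfl
    · have h1 : kAct p (1, 1) = 1 := map_one _
      rw [h1]
      rfl
    · exact hR x
    · exact hL x
    · have h1 : kAct p (-1, -1) = kAct p (-1, 1) * kAct p (1, -1) := by
        rw [← map_mul]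
        rfl
      have h2 : kAct p (-1, -1) = kAct p (1, -1) * kAct p (-1, 1) := by
        rw [← map_mul]
        rfl
      calc sg p (kAct p (-1, -1) x) = sg p (kAct p (-1, 1) (kAct p (1, -1) x)) := by
            rw [h1, MulAut.mul_apply]
        _ = kAct p (1, -1) (kAct p (-1, 1) (sg p x)) := by rw [hL, hR]
        _ = kAct p (-1, -1) (sg p x) := by rw [h2, MulAut.mul_apply]
  refine ⟨SemidirectProduct.congr (sg p) MulEquiv.prodComm h, fun x => ?_, ?_, ?_⟩
  · exact SemidirectProduct.ext rfl rfl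
  · exact SemidirectProduct.ext (map_one (sg p)) rfl
  · exact SemidirectProduct.ext (map_one (sg p)) rfl

/-- piece DN-S4: the extension of `ε` to `Γ` which fixes `tL` and `tR` -/
theorem exists_eph (p : ℕ) : ∃ f : MulAut (Dh p), (∀ x, f (iD x) = iD (eps p x)) ∧ f tL = tL ∧
    f tR = tR := by
  have hL : ∀ x, eps p (kAct p (-1, 1) x) = kAct p (-1, 1) (eps p x) := by
    intro x
    rw [kAct_L]
    exact DFunLike.congr_fun (eps_tLa (p := p)) x
  have hR : ∀ x, eps p (kAct p (1, -1) x) = kAct p (1, -1) (eps p x) := by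
    intro x
    rw [kAct_R]
    exact DFunLike.congr_fun (eps_tRa (p := p)) x
  have h : ∀ g : ℤˣ × ℤˣ, (kAct p g).trans (eps p) =
      (eps p).trans (kAct p ((MulEquiv.refl (ℤˣ × ℤˣ)) g)) := by
    rintro ⟨u, v⟩
    ext x
    change eps p (kAct p (u, v) x) = kAct p (u, v) (eps p x)
    rcases Int.units_eq_one_or u with rfl | rfl <;> rcases Int.units_eq_one_or v with rfl | rfl
    · have h1 : kAct p (1, 1) = 1 := map_one _
      rw [h1]
      rfl
    · exact hR x
    · exact hL x
    · have h1 : kAct p (-1, -1) = kAct p (-1, 1) * kAct p (1, -1) := by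
        rw [← map_mul]
        rfl
      rw [h1, MulAut.mul_apply, MulAut.mul_apply, hL, hR]
  refine ⟨SemidirectProduct.congr (eps p) (MulEquiv.refl _) h, fun x => ?_, ?_, ?_⟩
  · exact SemidirectProduct.ext rfl rfl
  · exact SemidirectProduct.ext (map_one (eps p)) rfl
  · exact SemidirectProduct.ext (map_one (eps p)) rfl

/-- piece DN-S4: `Γ` is generated by `D p`, `tL`, `tR`.
Proof. `SemidirectProduct.inl_left_mul_inr_right`, `(s, t) = (s, 1) * (1, t)`. -/
theorem closure_Dh' : Subgroup.closure ({tL, tR} ∪ Set.range (iD : D p →* Dh p)) = ⊤ := by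
  rw [eq_top_iff]
  intro x _
  have hL : (tL : Dh p) ∈ Subgroup.closure ({tL, tR} ∪ Set.range (iD : D p →* Dh p)) :=
    Subgroup.subset_closure (Or.inl (Set.mem_insert _ _))
  have hR : (tR : Dh p) ∈ Subgroup.closure ({tL, tR} ∪ Set.range (iD : D p →* Dh p)) :=
    Subgroup.subset_closure (Or.inl (Set.mem_insert_of_mem _ rfl))
  have hr : ∀ g : ℤˣ × ℤˣ, (SemidirectProduct.inr g : Dh p) ∈
      Subgroup.closure ({tL, tR} ∪ Set.range (iD : D p →* Dh p)) := by
    rintro ⟨u, v⟩
    rcases Int.units_eq_one_or u with rfl | rfl <;> rcases Int.units_eq_one_or v with rfl | rfl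
    · have h1 : (SemidirectProduct.inr (1, 1) : Dh p) = 1 := map_one _
      rw [h1]
      exact one_mem _
    · exact hR
    · exact hL
    · have h1 : (SemidirectProduct.inr (-1, -1) : Dh p) = tL * tR := by
        unfold tL tR
        rw [← map_mul]
        rfl
      rw [h1]
      exact mul_mem hL hR
  rw [← SemidirectProduct.inl_left_mul_inr_right x]
  exact mul_mem (Subgroup.subset_closure (Or.inr ⟨x.left, rfl⟩)) (hr _)

/-- piece DN-S4: `Γ` is generated by the `a_j`, `tL` and `tR`.
Proof. `closure_Dh'`, `closure_D`, `e = tL a_0 tL` (`tL_conj`, `tLa_a0`), `b = tR a_{k-1} tR`. -/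
theorem closure_Dh :
    Subgroup.closure ({tL, tR} ∪ (fun j => iD (aD j)) '' {j | j < p + 3} : Set (Dh p)) = ⊤ := by
  have hL : (tL : Dh p) ∈
      Subgroup.closure ({tL, tR} ∪ (fun j => iD (aD j)) '' {j | j < p + 3} : Set (Dh p)) :=
    Subgroup.subset_closure (Or.inl (Set.mem_insert _ _))
  have hR : (tR : Dh p) ∈
      Subgroup.closure ({tL, tR} ∪ (fun j => iD (aD j)) '' {j | j < p + 3} : Set (Dh p)) :=
    Subgroup.subset_closure (Or.inl (Set.mem_insert_of_mem _ rfl))
  have ha : ∀ j, j < p + 3 → (iD (aD j) : Dh p) ∈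
      Subgroup.closure ({tL, tR} ∪ (fun j => iD (aD j)) '' {j | j < p + 3} : Set (Dh p)) :=
    fun j hj => Subgroup.subset_closure (Or.inr ⟨j, hj, rfl⟩)
  have he : (iD eD : Dh p) = tL * iD (aD 0) * tL := by
    rw [tL_conj, tLa_a0, mul_assoc, tL_sq, mul_one]
  have hb : (iD bD : Dh p) = tR * iD (aD (p + 2)) * tR := by
    rw [tR_conj, tRa_a', mul_assoc, tR_sq, mul_one]
  rw [eq_top_iff, ← closure_Dh', Subgroup.closure_le]
  have hD : ∀ x : D p, (iD x : Dh p) ∈
      Subgroup.closure ({tL, tR} ∪ (fun j => iD (aD j)) '' {j | j < p + 3} : Set (Dh p)) := by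
    have h2 : (⊤ : Subgroup (D p)) ≤ (Subgroup.closure
        ({tL, tR} ∪ (fun j => iD (aD j)) '' {j | j < p + 3} : Set (Dh p))).comap iD := by
      rw [← closure_D, Subgroup.closure_le]
      rintro y (hy | ⟨j, hj, rfl⟩)
      · rcases hy with rfl | hy
        · rw [SetLike.mem_coe, Subgroup.mem_comap, hb]
          exact mul_mem (mul_mem hR (ha _ (by omega))) hR
        · rw [Set.mem_singleton_iff] at hy
          subst hy
          rw [SetLike.mem_coe, Subgroup.mem_comap, he]
          exact mul_mem (mul_mem hL (ha _ (by omega))) hL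
      · exact ha j hj
    exact fun x => h2 (Subgroup.mem_top x)
  rintro y (hy | ⟨x, rfl⟩)
  · rcases hy with rfl | hy
    · exact hL
    · rw [Set.mem_singleton_iff] at hy
      subst hy
      exact hR
  · exact hD x

lemma e_eq : (iD eD : Dh p) = tL * iD (aD 0) * tL := by
  rw [tL_conj, tLa_a0, mul_assoc, tL_sq, mul_one]
lemma b_eq : (iD bD : Dh p) = tR * iD (aD (p + 2)) * tR := by
  rw [tR_conj, tRa_a', mul_assoc, tR_sq, mul_one]

end

/-- the reflection `σ` of `Γ` -/
noncomputable def sgh (p : ℕ) : MulAut (Dh p) := Classical.choose (exists_sgh p)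
/-- the automorphism `ε` of `Γ` -/
noncomputable def eph (p : ℕ) : MulAut (Dh p) := Classical.choose (exists_eph p)

section
variable {p : ℕ}

@[simp] lemma sgh_iD (x : D p) : sgh p (iD x) = iD (sg p x) :=
  (Classical.choose_spec (exists_sgh p)).1 x
@[simp] lemma sgh_tL : sgh p tL = tR := (Classical.choose_spec (exists_sgh p)).2.1
@[simp] lemma sgh_tR : sgh p tR = tL := (Classical.choose_spec (exists_sgh p)).2.2
@[simp] lemma eph_iD (x : D p) : eph p (iD x) = iD (eps p x) :=
  (Classical.choose_spec (exists_eph p)).1 x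
@[simp] lemma eph_tL : eph p tL = tL := (Classical.choose_spec (exists_eph p)).2.1
@[simp] lemma eph_tR : eph p tR = tR := (Classical.choose_spec (exists_eph p)).2.2

/-- homomorphisms on `Γ` are equal if they agree on `D p` and on `tL`, `tR` -/
private theorem homDh_ext {K : Type*} [Group K] {f g : Dh p →* K}
    (h1 : ∀ x : D p, f (iD x) = g (iD x)) (h2 : f tL = g tL) (h3 : f tR = g tR) : f = g := by
  apply SemidirectProduct.hom_ext
  · exact MonoidHom.ext h1
  · refine MonoidHom.ext ?_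
    rintro ⟨s, t⟩
    have e : ((s, t) : ℤˣ × ℤˣ) = (s, 1) * (1, t) := by simp
    rw [e, map_mul, map_mul]
    congr 1
    · rcases Int.units_eq_one_or s with rfl | rfl
      · change f (SemidirectProduct.inr 1) = g (SemidirectProduct.inr 1)
        rw [map_one, map_one, map_one]
      · exact h2
    · rcases Int.units_eq_one_or t with rfl | rfl
      · change f (SemidirectProduct.inr 1) = g (SemidirectProduct.inr 1)
        rw [map_one, map_one, map_one]
      · exact h3

/-- piece DN-S5 -/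
theorem sgh_sgh (x : Dh p) : sgh p (sgh p x) = x := by
  have h : (sgh p).toMonoidHom.comp (sgh p).toMonoidHom = MonoidHom.id (Dh p) := by
    apply homDh_ext
    · intro y
      change sgh p (sgh p (iD y)) = iD y
      rw [sgh_iD, sgh_iD]
      exact congrArg iD (sgHom_sq y)
    · change sgh p (sgh p tL) = tL
      rw [sgh_tL, sgh_tR]
    · change sgh p (sgh p tR) = tR
      rw [sgh_tR, sgh_tL]
  exact DFunLike.congr_fun h x

end

/-- the exponent sum `D p → ℤ` -/
def lenD (p : ℕ) : D p →* Multiplicative ℤ :=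
  liftD (a := fun _ => Multiplicative.ofAdd (1 : ℤ)) (b := Multiplicative.ofAdd 1)
    (e := Multiplicative.ofAdd 1)
    { comm := fun _ _ _ _ => rfl, braid := fun _ _ => rfl, ba := rfl, bb := rfl,
      bc := fun _ _ => rfl, ea := rfl, eb := rfl, ec := fun _ _ _ => rfl, be := rfl }

private theorem S5_tL (p : ℕ) (x : D p) : lenD p (tLa p x) = lenD p x := by
  have h : (lenD p).comp (tLa p).toMonoidHom = lenD p := by
    apply homD_ext
    · intro j hj
      change lenD p (tLa p (aD j)) = _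
      rcases Nat.eq_zero_or_pos j with rfl | h0
      · rw [tLa_a0, lenD, liftD_e, liftD_a _ (by omega)]
      · rw [tLa_a h0 hj]
    · change lenD p (tLa p bD) = _
      rw [tLa_b]
    · change lenD p (tLa p eD) = _
      rw [tLa_e, lenD, liftD_e, liftD_a _ (by omega)]
  exact DFunLike.congr_fun h x

private theorem S5_tR (p : ℕ) (x : D p) : lenD p (tRa p x) = lenD p x := by
  have h : (lenD p).comp (tRa p).toMonoidHom = lenD p := by
    apply homD_ext
    · intro j hj
      change lenD p (tRa p (aD j)) = _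
      rcases Nat.lt_or_ge j (p + 2) with h0 | h0
      · rw [tRa_a h0]
      · have e : j = p + 2 := by omega
        subst e
        rw [tRa_a', lenD, liftD_b, liftD_a _ (by omega)]
    · change lenD p (tRa p bD) = _
      rw [tRa_b, lenD, liftD_b, liftD_a _ (by omega)]
    · change lenD p (tRa p eD) = _
      rw [tRa_e]
  exact DFunLike.congr_fun h x

private theorem S5_sg (p : ℕ) (x : D p) : lenD p (sg p x) = lenD p x := by
  have h : (lenD p).comp (sg p).toMonoidHom = lenD p := by
    apply homD_ext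
    · intro j hj
      change lenD p (sg p (aD j)) = _
      rw [sg_a hj, lenD, liftD_a _ (by omega), liftD_a _ hj]
    · change lenD p (sg p bD) = _
      rw [sg_b, lenD, liftD_e, liftD_b]
    · change lenD p (sg p eD) = _
      rw [sg_e, lenD, liftD_e, liftD_b]
  exact DFunLike.congr_fun h x

/-- piece DN-S5: the exponent sum on `Γ`: `SemidirectProduct.lift (lenD p) 1` -/
theorem exists_lenH (p : ℕ) : ∃ f : Dh p →* Multiplicative ℤ, (∀ x, f (iD x) = lenD p x) ∧
    f tL = 1 ∧ f tR = 1 := by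
  refine ⟨SemidirectProduct.lift (lenD p) 1 ?_, ?_, ?_, ?_⟩
  · rintro ⟨s, t⟩
    refine MonoidHom.ext fun x => ?_
    change lenD p (kAct p (s, t) x) = 1 * lenD p x * 1⁻¹
    rw [one_mul, inv_one, mul_one]
    have e : ((s, t) : ℤˣ × ℤˣ) = (s, 1) * (1, t) := by simp
    rw [e, map_mul, MulAut.mul_apply]
    have h1 : ∀ y, lenD p (kAct p (s, 1) y) = lenD p y := by
      intro y
      rcases Int.units_eq_one_or s with rfl | rfl
      · change lenD p (kAct p 1 y) = _
        rw [map_one, MulAut.one_apply]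
      · rw [kAct_L]
        exact S5_tL p y
    have h2 : ∀ y, lenD p (kAct p (1, t) y) = lenD p y := by
      intro y
      rcases Int.units_eq_one_or t with rfl | rfl
      · change lenD p (kAct p 1 y) = _
        rw [map_one, MulAut.one_apply]
      · rw [kAct_R]
        exact S5_tR p y
    rw [h1, h2]
  · intro x
    exact SemidirectProduct.lift_inl _ _ _ x
  · exact SemidirectProduct.lift_inr _ _ _ _
  · exact SemidirectProduct.lift_inr _ _ _ _

/-- the exponent sum `Γ → ℤ` -/
noncomputable def lenH (p : ℕ) : Dh p →* Multiplicative ℤ := Classical.choose (exists_lenH p)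

/-- conjugation with an element of `Γ` as an automorphism of `D p` -/
def cj (p : ℕ) : Dh p →* MulAut (D p) :=
  SemidirectProduct.lift MulAut.conj (kAct p) (by
    intro g
    ext x y
    simp [MulAut.conj_apply])

section
variable {p : ℕ}

@[simp] lemma lenH_iD (x : D p) : lenH p (iD x) = lenD p x :=
  (Classical.choose_spec (exists_lenH p)).1 x
@[simp] lemma lenH_tL : lenH p tL = 1 := (Classical.choose_spec (exists_lenH p)).2.1
@[simp] lemma lenH_tR : lenH p tR = 1 := (Classical.choose_spec (exists_lenH p)).2.2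
@[simp] lemma lenD_a {j : ℕ} (hj : j < p + 3) : lenD p (aD j) = Multiplicative.ofAdd 1 :=
  liftD_a _ hj
@[simp] lemma lenD_b : lenD p bD = Multiplicative.ofAdd 1 := liftD_b _
@[simp] lemma lenD_e : lenD p eD = Multiplicative.ofAdd 1 := liftD_e _

/-- piece DN-S5: `lenH` is invariant under the reflection -/
theorem lenH_sgh (x : Dh p) : lenH p (sgh p x) = lenH p x := by
  have h : (lenH p).comp (sgh p).toMonoidHom = lenH p := by
    apply homDh_ext
    · intro y
      change lenH p (sgh p (iD y)) = _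
      rw [sgh_iD, lenH_iD, lenH_iD]
      exact S5_sg p y
    · change lenH p (sgh p tL) = _
      rw [sgh_tL, lenH_tR, lenH_tL]
    · change lenH p (sgh p tR) = _
      rw [sgh_tR, lenH_tR, lenH_tL]
  exact DFunLike.congr_fun h x

/-- piece DN-S5: the automorphism `cj γ` is the conjugation with `γ` -/
theorem iD_cj (γ : Dh p) (x : D p) : iD (cj p γ x) = γ * iD x * γ⁻¹ := by
  obtain ⟨a, g⟩ := γ
  rw [SemidirectProduct.mk_eq_inl_mul_inr]
  unfold cj
  rw [map_mul, SemidirectProduct.lift_inl, SemidirectProduct.lift_inr, MulAut.mul_apply,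
    MulAut.conj_apply, map_mul, map_mul]
  rw [show (iD (kAct p g x) : Dh p) =
    SemidirectProduct.inr g * SemidirectProduct.inl x * SemidirectProduct.inr g⁻¹ from
      SemidirectProduct.inl_aut g x]
  rw [map_inv, map_inv, mul_inv_rev]
  simp only [mul_assoc]

/-- piece DN-S5: an automorphism of `D p` multiplies the exponent sum with `1` or with `-1`.
Proof. All generators are conjugate (`RelBr.conj_step`, and `bb`, `eb`), so there is a homomorphism
`c` with ... : every homomorphism `D p → Multiplicative ℤ` is a power of `lenD` (`homD_ext`; the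
values at the generators are equal, by the braid relations). Apply it to `lenD ∘ φ` and
`lenD ∘ φ⁻¹`: `lenD ∘ φ = lenD ^ c`, `lenD ∘ φ⁻¹ = lenD ^ c'`, `c c' = 1`. -/
theorem len_aut (φ : MulAut (D p)) :
    (∀ x, lenD p (φ x) = lenD p x) ∨ ∀ x, lenD p (φ x) = (lenD p x)⁻¹ := by
  -- every homomorphism is a power of the exponent sum
  have key : ∀ f : D p →* Multiplicative ℤ, ∃ c : ℤ, ∀ x, f x = (lenD p x) ^ c := by
    intro f
    have br : ∀ x y : Multiplicative ℤ, x * y * x = y * x * y → x = y := by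
      intro x y h
      have h1 : x * (x * y) = y * (x * y) := by
        calc x * (x * y) = x * y * x := by rw [mul_comm x (x * y)]
          _ = y * x * y := h
          _ = y * (x * y) := by rw [mul_assoc]
      exact mul_right_cancel h1
    have hR := relD p
    have ha : ∀ j, j < p + 3 → f (aD j) = f (aD 0) := by
      intro j
      induction j with
      | zero => intro _; rfl
      | succ j ih =>
        intro hj
        rw [← ih (by omega)]
        have h1 := congrArg f (hR.braid j hj)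
        simp only [map_mul] at h1
        exact (br _ _ h1).symm
    have hb : f bD = f (aD 0) := by
      rw [← ha (p + 1) (by omega)]
      have h1 := congrArg f hR.bb
      simp only [map_mul] at h1
      exact br _ _ h1
    have he : f eD = f (aD 0) := by
      rw [← ha 1 (by omega)]
      have h1 := congrArg f hR.eb
      simp only [map_mul] at h1
      exact br _ _ h1
    refine ⟨Multiplicative.toAdd (f (aD 0)), ?_⟩
    have hz : f (aD 0) = (Multiplicative.ofAdd (1 : ℤ)) ^ (Multiplicative.toAdd (f (aD 0))) := by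
      rw [← ofAdd_zsmul, smul_eq_mul, mul_one, ofAdd_toAdd]
    have hf : f = (zpowGroupHom (Multiplicative.toAdd (f (aD 0)))).comp (lenD p) := by
      apply homD_ext
      · intro j hj
        rw [MonoidHom.comp_apply, zpowGroupHom_apply, lenD_a hj, ← hz, ha j hj]
      · rw [MonoidHom.comp_apply, zpowGroupHom_apply, lenD_b, ← hz, hb]
      · rw [MonoidHom.comp_apply, zpowGroupHom_apply, lenD_e, ← hz, he]
    intro x
    conv_lhs => rw [hf]
    rfl
  obtain ⟨c, hc⟩ := key ((lenD p).comp φ.toMonoidHom)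
  obtain ⟨c', hc'⟩ := key ((lenD p).comp (φ⁻¹ : MulAut (D p)).toMonoidHom)
  have h1 : ∀ x, lenD p (φ x) = (lenD p x) ^ c := hc
  have h2 : ∀ x, lenD p (φ⁻¹ x) = (lenD p x) ^ c' := hc'
  have h3 : c' * c = 1 := by
    have h4 := h1 (φ⁻¹ (aD 0))
    rw [MulAut.apply_inv_self, h2, lenD_a (by omega), ← zpow_mul, ← ofAdd_zsmul, smul_eq_mul,
      mul_one] at h4
    exact (Multiplicative.ofAdd.injective h4).symm
  rw [mul_comm] at h3
  rcases Int.eq_one_or_neg_one_of_mul_eq_one h3 with rfl | rfl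
  · left
    intro x
    rw [h1, zpow_one]
  · right
    intro x
    rw [h1, zpow_neg_one]

end

end Pool.Agent.Helper20.DN
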