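import Pool.Agent.Helper38.BN.Rels

/-!
# Project DN: the endomorphisms `T j` of `G k` and the normal subgroup `ML k`

`T j` is the action of the involution `t_j` of the group of type `D` modulo the normal subgroup
`ML k`, the normal closure of all `Fr v (cG j)`; `cG j = [y, x_j y x_j]`.  The lists `v` are read
from right to left: `Fr (j :: v) = Fr v ∘ T j`.

In the proofs we write `u = x_j`, `v = x_{j+1}`, `Y = y`, `M = u Y u`, `N = v Y v`.
-/

namespace Pool.Agent.Helper20.DN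

open Pool.Agent.Helper38.BN

variable {k : ℕ}

/-- the element `x_j y x_j` -/
def yT (j : ℕ) : G k := xG j * yG * xG j

/-- the element `E_j = y (x_j y x_j)⁻¹` -/
def eT (j : ℕ) : G k := yG * (yT j)⁻¹

/-- the images of the `x_i` under `T j` -/
def xT (j i : ℕ) : G k :=
  if i < j then eT j * xG i * (eT j)⁻¹ else if i = j then yG * xG j * yG⁻¹ else xG i

lemma xT_sq (j i : ℕ) : (xT j i : G k) * xT j i = 1 := by
  unfold xT
  split_ifs
  · calc eT j * xG i * (eT j)⁻¹ * (eT j * xG i * (eT j)⁻¹) = eT j * (xG i * xG i) * (eT j)⁻¹ := by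
          group
      _ = 1 := by rw [xG_sq]; group
  · calc yG * xG j * yG⁻¹ * (yG * xG j * yG⁻¹) = yG * (xG j * xG j) * (yG : G k)⁻¹ := by group
      _ = 1 := by rw [xG_sq]; group
  · exact xG_sq i

/-- the endomorphism `T j` -/
def T (j : ℕ) : G k →* G k := liftG (xT j) (fun i _ => xT_sq j i) (yT j)

lemma T_y (j : ℕ) : T j (yG : G k) = yT j := liftG_y _ _ _
lemma T_x (j : ℕ) {i : ℕ} (hi : i ≤ k) : T j (xG i : G k) = xT j i := liftG_x _ _ _ hi

/-- the commutator `[y, x_j y x_j]` -/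
def cG (j : ℕ) : G k := yG * yT j * yG⁻¹ * (yT j)⁻¹

/-- the composition of the `T j`: `Fr (j :: v) = Fr v ∘ T j` -/
def Fr : List ℕ → (G k →* G k)
  | [] => MonoidHom.id _
  | j :: v => (Fr v).comp (T j)

/-- the relators -/
def relL (k : ℕ) : Set (G k) := {g | ∃ (v : List ℕ) (j : ℕ), (∀ i ∈ j :: v, i ≤ k) ∧ g = Fr v (cG j)}

/-- the kernel of `G k → L k` -/
def ML (k : ℕ) : Subgroup (G k) := Subgroup.normalClosure (relL k)

instance (k : ℕ) : (ML k).Normal := Subgroup.normalClosure_normal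

/-- the group `L k` -/
abbrev L (k : ℕ) : Type := G k ⧸ ML k

/-- the projection -/
def mkL (k : ℕ) : G k →* L k := QuotientGroup.mk' (ML k)

lemma mkL_eq_one {g : G k} : mkL k g = 1 ↔ g ∈ ML k := QuotientGroup.eq_one_iff g

lemma mkL_surj (k : ℕ) : Function.Surjective (mkL k) := QuotientGroup.mk'_surjective _

/-- the relators with reduced words -/
def redL (k : ℕ) : Set (G k) :=
  {g | ∃ (v : List ℕ) (j : ℕ), (∀ i ∈ j :: v, i ≤ k) ∧ (j :: v).IsChain (· ≠ ·) ∧ g = Fr v (cG j)}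

/-! ### exact identities -/

/-- piece DN-T1: `α_j T_{j+1} = T_j α_j` exactly. Proof. `homG_ext`; `y`, `x_{j+1}`, `x_j`, `x_i`
(`i > j + 1`, `i < j`): unfold (`gA_x`, `gC`, `gA_y`, `T_x`, `T_y`), `α_j E_{j+1} = E_j`. -/
theorem gA_T_succ {j : ℕ} (hj : j < k) (g : G k) : gA j (T (j + 1) g) = T j (gA j g) := by
  have hu : gA j (xG j : G k) = xG j * xG (j + 1) * xG j := by
    rw [gA_x hj (by omega)]; simp [gC]
  have hv : gA j (xG (j + 1) : G k) = xG j := by
    rw [gA_x hj (by omega)]; simp [gC]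
  have hY : gA j (yT (j + 1) : G k) = yT j := by
    simp only [yT, map_mul, hv, gA_y]
  have hE : gA j (eT (j + 1) : G k) = eT j := by
    simp only [eT, map_mul, map_inv, hY, gA_y]
  have key : (gA j).toMonoidHom.comp (T (j + 1)) = (T j : G k →* G k).comp (gA j).toMonoidHom := by
    apply homG_ext
    · intro i hi
      change gA j (T (j + 1) (xG i)) = T j (gA j (xG i))
      rw [T_x _ hi]
      rcases lt_trichotomy i j with h | h | h
      · have h1 : (gC j i : G k) = xG i := by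
          unfold gC; rw [if_neg (by omega), if_neg (by omega)]
        have h2 : (xT (j + 1) i : G k) = eT (j + 1) * xG i * (eT (j + 1))⁻¹ := by
          unfold xT; rw [if_pos (by omega)]
        have h3 : (xT j i : G k) = eT j * xG i * (eT j)⁻¹ := by
          unfold xT; rw [if_pos h]
        rw [gA_x hj hi, h1, T_x _ hi, h2, h3, map_mul, map_mul, map_inv, hE, gA_x hj hi, h1]
      · subst h
        have h2 : (xT (i + 1) i : G k) = eT (i + 1) * xG i * (eT (i + 1))⁻¹ := by
          unfold xT; rw [if_pos (by omega)]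
        have h3 : (xT i i : G k) = yG * xG i * yG⁻¹ := by
          unfold xT; rw [if_neg (by omega), if_pos rfl]
        have h4 : (xT i (i + 1) : G k) = xG (i + 1) := by
          unfold xT; rw [if_neg (by omega), if_neg (by omega)]
        rw [hu, h2, map_mul, map_mul, map_inv, hE, hu, map_mul, map_mul, T_x _ hi,
          T_x _ (by omega : i + 1 ≤ k), h3, h4]
        have hs : (xG i : G k) * xG i = 1 := xG_sq i
        have hi' : (xG i : G k)⁻¹ = xG i := inv_eq_of_mul_eq_one_left hs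
        unfold eT yT
        simp only [mul_inv_rev, inv_inv, hi']
        calc (yG : G k) * (xG i * (yG⁻¹ * xG i)) * (xG i * xG (i + 1) * xG i) *
              (xG i * yG * xG i * yG⁻¹)
            = yG * xG i * yG⁻¹ * (xG i * xG i) * xG (i + 1) * (xG i * xG i) * yG * xG i *
              yG⁻¹ := by group
          _ = yG * xG i * yG⁻¹ * xG (i + 1) * (yG * xG i * yG⁻¹) := by
              rw [hs]; group
      · by_cases h' : i = j + 1
        · subst h'
          have h2 : (xT (j + 1) (j + 1) : G k) = yG * xG (j + 1) * yG⁻¹ := by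
            unfold xT; rw [if_neg (by omega), if_pos rfl]
          have h3 : (xT j j : G k) = yG * xG j * yG⁻¹ := by
            unfold xT; rw [if_neg (by omega), if_pos rfl]
          rw [hv, T_x _ (by omega : j ≤ k), h2, h3, map_mul, map_mul, map_inv, hv, gA_y]
        · have h1 : (gC j i : G k) = xG i := by
            unfold gC; rw [if_neg (by omega), if_neg (by omega)]
          have h2 : (xT (j + 1) i : G k) = xG i := by
            unfold xT; rw [if_neg (by omega), if_neg (by omega)]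
          have h3 : (xT j i : G k) = xG i := by
            unfold xT; rw [if_neg (by omega), if_neg (by omega)]
          rw [gA_x hj hi, h1, T_x _ hi, h2, h3, gA_x hj hi, h1]
    · change gA j (T (j + 1) yG) = T j (gA j yG)
      rw [T_y, gA_y, T_y, hY]
  exact DFunLike.congr_fun key g

/-- piece DN-T1: `α_j T_i = T_i α_j` exactly, `i ≠ j, j + 1` -/
theorem gA_T_ne {j i : ℕ} (hj : j < k) (hi : i ≤ k) (h1 : i ≠ j) (h2 : i ≠ j + 1) (g : G k) :
    gA j (T i g) = T i (gA j g) := by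
  have hu : gA j (xG j : G k) = xG j * xG (j + 1) * xG j := by
    rw [gA_x hj (by omega)]; simp [gC]
  have hv : gA j (xG (j + 1) : G k) = xG j := by
    rw [gA_x hj (by omega)]; simp [gC]
  have hx : ∀ t, t ≤ k → t ≠ j → t ≠ j + 1 → gA j (xG t : G k) = xG t := by
    intro t ht h3 h4
    rw [gA_x hj ht]
    unfold gC
    rw [if_neg h3, if_neg h4]
  have hY : gA j (yT i : G k) = yT i := by
    simp only [yT, map_mul, hx i hi h1 h2, gA_y]
  have hE : gA j (eT i : G k) = eT i := by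
    simp only [eT, map_mul, map_inv, hY, gA_y]
  have ht1 : ∀ t, t < i → (xT i t : G k) = eT i * xG t * (eT i)⁻¹ := by
    intro t ht
    unfold xT; rw [if_pos ht]
  have ht2 : ∀ t, i < t → (xT i t : G k) = xG t := by
    intro t ht
    unfold xT; rw [if_neg (by omega), if_neg (by omega)]
  have key : (gA j).toMonoidHom.comp (T i) = (T i : G k →* G k).comp (gA j).toMonoidHom := by
    apply homG_ext
    · intro t ht
      change gA j (T i (xG t)) = T i (gA j (xG t))
      rw [T_x _ ht]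
      by_cases e1 : t = j
      · subst e1
        rw [hu, map_mul, map_mul, T_x _ ht, T_x _ (by omega : t + 1 ≤ k)]
        rcases lt_or_gt_of_ne h1 with h3 | h3
        · rw [ht2 _ h3, ht2 _ (by omega : i < t + 1), hu]
        · rw [ht1 _ h3, ht1 _ (by omega : t + 1 < i), map_mul, map_mul, map_inv, hE, hu]
          group
      · by_cases e2 : t = j + 1
        · subst e2
          rw [hv, T_x _ (by omega : j ≤ k)]
          rcases lt_or_gt_of_ne h1 with h3 | h3
          · rw [ht2 _ h3, ht2 _ (by omega : i < j + 1), hv]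
          · rw [ht1 _ h3, ht1 _ (by omega : j + 1 < i), map_mul, map_mul, map_inv, hE, hv]
        · rw [hx t ht e1 e2, T_x _ ht]
          rcases lt_trichotomy t i with h3 | h3 | h3
          · rw [ht1 _ h3, map_mul, map_mul, map_inv, hE, hx t ht e1 e2]
          · subst h3
            have h4 : (xT t t : G k) = yG * xG t * yG⁻¹ := by
              unfold xT; rw [if_neg (by omega), if_pos rfl]
            rw [h4, map_mul, map_mul, map_inv, gA_y, hx t ht e1 e2]
          · rw [ht2 _ h3, hx t ht e1 e2]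
    · change gA j (T i yG) = T i (gA j yG)
      rw [T_y, gA_y, T_y, hY]
  exact DFunLike.congr_fun key g

/-- `y` and `x_j y x_j` commute modulo `c_j` -/
private lemma t2_comm {j : ℕ} (_hj : j ≤ k) :
    Commute (QuotientGroup.mk' (Subgroup.normalClosure {(cG j : G k)}) yG)
      (QuotientGroup.mk' (Subgroup.normalClosure {(cG j : G k)}) (yT j)) := by
  have h : QuotientGroup.mk' (Subgroup.normalClosure {(cG j : G k)}) (cG j) = 1 :=
    (QuotientGroup.eq_one_iff _).2 (Subgroup.subset_normalClosure rfl)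
  unfold cG at h
  rw [map_mul, map_mul, map_mul, map_inv, map_inv, mul_inv_eq_one, mul_inv_eq_iff_eq_mul] at h
  exact h

private lemma t2_alg {K : Type*} [Group K] {Y U : K} (hU : U * U = 1)
    (hc : Commute Y (U * Y * U)) :
    Y * U * Y⁻¹ * (U * Y * U) * (Y * U * Y⁻¹) = Y ∧
      U * Y * U * (Y * U * Y⁻¹) * (U * Y * U)⁻¹ = U := by
  have h1 : Y⁻¹ * (U * Y * U) * Y = U * Y * U := by
    rw [mul_assoc, ← hc.eq, inv_mul_cancel_left]
  have h2 : U * Y * U * Y * U = Y * U * Y := by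
    calc U * Y * U * Y * U = Y * (U * Y * U) * U := by rw [← hc.eq]
      _ = Y * U * Y * (U * U) := by group
      _ = Y * U * Y := by rw [hU, mul_one]
  constructor
  · calc Y * U * Y⁻¹ * (U * Y * U) * (Y * U * Y⁻¹) =
        Y * U * (Y⁻¹ * (U * Y * U) * Y) * U * Y⁻¹ := by group
      _ = Y * (U * U) * Y * (U * U) * Y⁻¹ := by rw [h1]; group
      _ = Y := by rw [hU]; group
  · calc U * Y * U * (Y * U * Y⁻¹) * (U * Y * U)⁻¹ =
        U * Y * U * Y * U * Y⁻¹ * (U * Y * U)⁻¹ := by group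
      _ = Y * U * Y * Y⁻¹ * (U * Y * U)⁻¹ := by rw [h2]
      _ = Y * U * (U * Y * U)⁻¹ := by group
      _ = U * (U * Y * U) * (U * Y * U)⁻¹ := by
          rw [show U * (U * Y * U) = (U * U) * Y * U from by group, hU, one_mul]
      _ = U := by group

private lemma t2_hom {j : ℕ} (hj : j ≤ k) :
    (QuotientGroup.mk' (Subgroup.normalClosure {(cG j : G k)})).comp ((T j).comp (T j)) =
      QuotientGroup.mk' (Subgroup.normalClosure {(cG j : G k)}) := by
  have hc := t2_comm (k := k) hj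
  generalize hφ : QuotientGroup.mk' (Subgroup.normalClosure {(cG j : G k)}) = φ at hc ⊢
  have hU : φ (xG j) * φ (xG j) = 1 := by rw [← map_mul, xG_sq, map_one]
  have hM : φ (yT j) = φ (xG j) * φ yG * φ (xG j) := by
    unfold yT
    rw [map_mul, map_mul]
  rw [hM] at hc
  obtain ⟨a1, a2⟩ := t2_alg hU hc
  have hxj : T j (xG j : G k) = yG * xG j * yG⁻¹ := by
    rw [T_x _ hj]
    unfold xT
    rw [if_neg (lt_irrefl j), if_pos rfl]
  have hyy : φ (T j (T j yG)) = φ yG := by
    have e : (T j (T j yG) : G k) = yG * xG j * yG⁻¹ * (xG j * yG * xG j) * (yG * xG j * yG⁻¹) := by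
      rw [T_y]
      unfold yT
      rw [map_mul, map_mul, T_y, hxj]
      rfl
    rw [e]
    simp only [map_mul, map_inv]
    exact a1
  apply homG_ext
  · intro i hi
    change φ (T j (T j (xG i))) = φ (xG i)
    rcases lt_trichotomy i j with h | h | h
    · have h1 : T j (xG i : G k) = eT j * xG i * (eT j)⁻¹ := by
        rw [T_x _ hi]
        unfold xT
        rw [if_pos h]
      have h2 : φ (T j (eT j)) * φ (eT j) = 1 := by
        have e : (T j (eT j) : G k) = yT j * (T j (T j yG))⁻¹ := by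
          unfold eT
          rw [map_mul, map_inv, T_y]
        have e' : (eT j : G k) = yG * (yT j)⁻¹ := rfl
        rw [e, e', map_mul, map_mul, map_inv, map_inv, hyy]
        group
      have e3 : T j (T j (xG i) : G k) =
          T j (eT j) * (eT j * xG i * (eT j)⁻¹) * (T j (eT j))⁻¹ := by
        conv_lhs => rw [h1]
        rw [map_mul, map_mul, map_inv, h1]
      rw [e3]
      simp only [map_mul, map_inv]
      calc φ (T j (eT j)) * (φ (eT j) * φ (xG i) * (φ (eT j))⁻¹) * (φ (T j (eT j)))⁻¹ =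
          (φ (T j (eT j)) * φ (eT j)) * φ (xG i) * (φ (T j (eT j)) * φ (eT j))⁻¹ := by group
        _ = φ (xG i) := by rw [h2]; group
    · subst h
      have e3 : T i (T i (xG i) : G k) =
          (xG i * yG * xG i) * (yG * xG i * yG⁻¹) * (xG i * yG * xG i)⁻¹ := by
        conv_lhs => rw [hxj]
        rw [map_mul, map_mul, map_inv, T_y, hxj]
        rfl
      rw [e3]
      rw [map_mul, map_mul, map_inv, map_mul, map_mul, map_mul, map_mul, map_inv]
      exact a2
    · have h1 : T j (xG i : G k) = xG i := by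
        rw [T_x _ hi]
        unfold xT
        rw [if_neg (by omega), if_neg (by omega)]
      rw [h1, h1]
  · exact hyy

/-- piece DN-T2: `T_j² = id` modulo `cG j`.
Proof. The set of `g` with this property is closed under products and inverses (the normal closure
is normal); generators: with `u = x_j`, `M = u y u`, `c = [y, M]`: `T_j² y = y M⁻¹ y M y⁻¹`,
`T_j² x_j = (M y) (M y)^(-u)-conjugate...`: `M y x_j y⁻¹ M⁻¹ = M y M⁻¹ y⁻¹ x_j`; `x_i`, `i > j`: fixed;
`x_i`, `i < j`: `T_j (E_j) E_j ∈ ⟨⟨c⟩⟩`. It is convenient to work in the quotient `G k ⧸ ⟨⟨c⟩⟩`, where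
`y` and `M` commute. -/
theorem T_sq_mem {j : ℕ} (hj : j ≤ k) (g : G k) :
    T j (T j g) * g⁻¹ ∈ Subgroup.normalClosure {(cG j : G k)} := by
  have h := DFunLike.congr_fun (t2_hom (k := k) hj) g
  change QuotientGroup.mk' (Subgroup.normalClosure {(cG j : G k)}) (T j (T j g)) =
    QuotientGroup.mk' (Subgroup.normalClosure {(cG j : G k)}) g at h
  rw [← QuotientGroup.eq_one_iff]
  change QuotientGroup.mk' (Subgroup.normalClosure {(cG j : G k)}) (T j (T j g) * g⁻¹) = 1
  rw [map_mul, map_inv, h, mul_inv_cancel]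

/-- piece DN-T2: `T_j c_j = [M, y x_j y⁻¹ M y x_j y⁻¹]`, and `y x_j y⁻¹ M y x_j y⁻¹ = y` modulo `c_j` -/
theorem T_c_mem {j : ℕ} (hj : j ≤ k) : T j (cG j) ∈ Subgroup.normalClosure {(cG j : G k)} := by
  have h := DFunLike.congr_fun (t2_hom (k := k) hj) (yG : G k)
  change QuotientGroup.mk' (Subgroup.normalClosure {(cG j : G k)}) (T j (T j yG)) =
    QuotientGroup.mk' (Subgroup.normalClosure {(cG j : G k)}) yG at h
  rw [T_y] at h
  have h2 := t2_comm (k := k) hj
  rw [← QuotientGroup.eq_one_iff]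
  change QuotientGroup.mk' (Subgroup.normalClosure {(cG j : G k)}) (T j (cG j)) = 1
  have e : (T j (cG j) : G k) = yT j * T j (yT j) * (yT j)⁻¹ * (T j (yT j))⁻¹ := by
    simp only [cG, map_mul, map_inv, T_y]
  rw [e, map_mul, map_mul, map_mul, map_inv, map_inv, h, ← h2.eq]
  group

/-- piece DN-T3 -/
theorem gA_c_ne {j i : ℕ} (hj : j < k) (hi : i ≤ k) (h1 : i ≠ j) (h2 : i ≠ j + 1) :
    gA j (cG i : G k) = cG i := by
  have hx : gA j (xG i : G k) = xG i := by
    rw [gA_x hj hi]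
    unfold gC
    rw [if_neg h1, if_neg h2]
  simp only [cG, yT, map_mul, map_inv, hx, gA_y]

/-- piece DN-T3 -/
theorem gA_c_succ {j : ℕ} (hj : j < k) : gA j (cG (j + 1) : G k) = cG j := by
  have hv : gA j (xG (j + 1) : G k) = xG j := by
    rw [gA_x hj (by omega)]; simp [gC]
  simp only [cG, yT, map_mul, map_inv, hv, gA_y]

private lemma dnt3_aux {K : Type*} [Group K] {Y U V : K} (h1 : U * U = 1) :
    Y * (U * V * U * Y * (U * V * U)) * Y⁻¹ * (U * V * U * Y * (U * V * U))⁻¹ =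
      U * (U * Y * U * (V * (U * Y * U) * V) * (U * Y * U)⁻¹ * (V * (U * Y * U) * V)⁻¹) * U := by
  have hi : U⁻¹ = U := inv_eq_of_mul_eq_one_left h1
  have e1 : U * (U * Y * U * (V * (U * Y * U) * V) * (U * Y * U)⁻¹ * (V * (U * Y * U) * V)⁻¹) * U =
      (U * U) * Y * (U * V * U * Y * (U * V * U⁻¹)) * Y⁻¹ * (U⁻¹ * V⁻¹ * U⁻¹ * Y⁻¹ * U⁻¹ * V⁻¹ * U) := by
    group
  rw [e1, h1]
  have e2 : (U * V * U * Y * (U * V * U))⁻¹ = U⁻¹ * V⁻¹ * U⁻¹ * Y⁻¹ * U⁻¹ * V⁻¹ * U⁻¹ := by group
  rw [e2, hi, one_mul]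

/-- piece DN-T3 -/
theorem gA_c {j : ℕ} (hj : j < k) : gA j (cG j : G k) = xG j * T j (cG (j + 1)) * xG j := by
  have hu : gA j (xG j : G k) = xG j * xG (j + 1) * xG j := by
    rw [gA_x hj (by omega)]; simp [gC]
  have hv : T j (xG (j + 1) : G k) = xG (j + 1) := by
    rw [T_x _ (by omega)]
    unfold xT
    rw [if_neg (by omega), if_neg (by omega)]
  simp only [cG, yT, map_mul, map_inv, hu, gA_y, hv, T_y]
  generalize hU : (xG j : G k) = U
  generalize hV : (xG (j + 1) : G k) = V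
  generalize hYg : (yG : G k) = Y
  have h1 : U * U = 1 := by rw [← hU]; exact xG_sq j
  exact dnt3_aux h1

/-! ### the normal subgroup -/

lemma Fr_append (v w : List ℕ) (g : G k) : Fr (v ++ w) g = Fr w (Fr v g) := by
  induction v generalizing g with
  | nil => rfl
  | cons j v ih => exact ih (T j g)

lemma rel_mem {v : List ℕ} {j : ℕ} (h : ∀ i ∈ j :: v, i ≤ k) : (Fr v (cG j) : G k) ∈ ML k :=
  Subgroup.subset_normalClosure ⟨v, j, h, rfl⟩

/-- the image of a normal closure -/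
lemma map_normalClosure_le {G' : Type*} [Group G'] {s : Set G'} {N : Subgroup G'} (hN : N.Normal)
    (f : G' →* G') (h : ∀ x ∈ s, f x ∈ N) {x : G'} (hx : x ∈ Subgroup.normalClosure s) :
    f x ∈ N := by
  have h1 : Subgroup.normalClosure s ≤ N.comap f := Subgroup.normalClosure_le_normal h
  exact h1 hx

/-- `ML k` is mapped to itself by `T j` -/
lemma T_ML {j : ℕ} (hj : j ≤ k) {g : G k} (hg : g ∈ ML k) : T j g ∈ ML k := by
  refine map_normalClosure_le inferInstance (T j) ?_ hg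
  rintro _ ⟨v, i, h, rfl⟩
  have h1 : T j (Fr v (cG i)) = Fr (v ++ [j]) (cG i : G k) := by
    rw [Fr_append]; rfl
  rw [h1]
  apply rel_mem
  intro t ht
  rw [← List.cons_append, List.mem_append] at ht
  rcases ht with ht | ht
  · exact h t ht
  · rw [List.mem_singleton.1 ht]; exact hj

/-- the endomorphism `T j` of `L k` -/
def TL (j : ℕ) (hj : j ≤ k) : L k →* L k :=
  QuotientGroup.map (ML k) (ML k) (T j) (fun _ hg => T_ML hj hg)

lemma TL_mk {j : ℕ} (hj : j ≤ k) (g : G k) : TL j hj (mkL k g) = mkL k (T j g) := rfl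

/-- modulo `ML k` the element `y` commutes with `x_j y x_j` -/
lemma mk_c {j : ℕ} (hj : j ≤ k) : mkL k (cG j) = 1 :=
  mkL_eq_one.2 (rel_mem (v := []) (by simpa using hj))

lemma TL_sq {j : ℕ} (hj : j ≤ k) (x : L k) : TL j hj (TL j hj x) = x := by
  obtain ⟨g, rfl⟩ := mkL_surj k x
  rw [TL_mk, TL_mk]
  have h1 := T_sq_mem hj g
  have h2 : Subgroup.normalClosure {(cG j : G k)} ≤ ML k := by
    apply Subgroup.normalClosure_le_normal
    rintro _ rfl
    exact mkL_eq_one.1 (mk_c hj)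
  have h3 := mkL_eq_one.2 (h2 h1)
  rw [map_mul, map_inv, mul_inv_eq_one] at h3
  exact h3

private lemma t4_eq {j : ℕ} : (xT j j : G k) = yG * xG j * yG⁻¹ := by
  unfold xT
  rw [if_neg (lt_irrefl j), if_pos rfl]

private lemma t4_lt {j i : ℕ} (h : i < j) : (xT j i : G k) = eT j * xG i * (eT j)⁻¹ := by
  unfold xT
  rw [if_pos h]

private lemma t4_gt {j i : ℕ} (h : j < i) : (xT j i : G k) = xG i := by
  unfold xT
  rw [if_neg (by omega), if_neg (by omega)]

private lemma t4_abs {H : Type*} [Group H] {y u v M n X P : H} (hu : u * u = 1) (hv : v * v = 1)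
    (hM : M = u * y * u) (hn : n = v * M * v) (hX : X = u * n * u)
    (hP : P = M * n⁻¹ * (y * u * y⁻¹) * (M * n⁻¹)⁻¹)
    (r1 : y * M * y⁻¹ * M⁻¹ = 1) (r2 : M * n * M⁻¹ * n⁻¹ = 1)
    (r4 : n * (P * n * P) * n⁻¹ * (P * n * P)⁻¹ = 1) :
    X = P * n * P ∧ u = n * P * n⁻¹ ∧
      y * (u * v * u) * y⁻¹ = n * P * n⁻¹ * (M * v * M⁻¹) * (n * P * n⁻¹) ∧
      y * X⁻¹ = n * (P * n * P)⁻¹ * (M * n⁻¹) * (y * M⁻¹) := by
  have hui : u⁻¹ = u := inv_eq_of_mul_eq_one_left hu
  have cyM : Commute y M := by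
    have h := r1
    rw [mul_inv_eq_one, mul_inv_eq_iff_eq_mul] at h
    exact h
  have cMn : Commute M n := by
    have h := r2
    rw [mul_inv_eq_one, mul_inv_eq_iff_eq_mul] at h
    exact h
  have h1 : u * M = y * u := by rw [hM]; simp only [← mul_assoc, hu, one_mul]
  have h2 : M * u = u * y := by rw [hM, mul_assoc _ u u, hu, mul_one]
  have h3 : u * M * u = y := by rw [h1, mul_assoc, hu, mul_one]
  have h4 : y * u * y⁻¹ = y * M⁻¹ * u := by
    rw [hM, mul_inv_rev, mul_inv_rev, hui]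
    simp only [mul_assoc, hu, mul_one]
  have h5 : y * u * y⁻¹ = u * M * y⁻¹ := by rw [h1]
  have cyX : Commute y X := by
    have h := congrArg (fun t => u * t * u) cMn.eq
    have e1 : u * (M * n) * u = (u * M * u) * (u * n * u) := by
      calc u * (M * n) * u = u * M * 1 * n * u := by group
        _ = u * M * (u * u) * n * u := by rw [hu]
        _ = (u * M * u) * (u * n * u) := by group
    have e2 : u * (n * M) * u = (u * n * u) * (u * M * u) := by
      calc u * (n * M) * u = u * n * 1 * M * u := by group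
        _ = u * n * (u * u) * M * u := by rw [hu]
        _ = (u * n * u) * (u * M * u) := by group
    have e3 : (u * M * u) * (u * n * u) = (u * n * u) * (u * M * u) := by
      rw [← e1, ← e2]
      exact h
    rw [h3, ← hX] at e3
    exact e3
  have h6 : P * n * P = n⁻¹ * X * n := by
    have e1 : M⁻¹ * n * M = n := by rw [mul_assoc, ← cMn.eq, inv_mul_cancel_left]
    have e2 : M * n⁻¹ * M⁻¹ = n⁻¹ := by
      rw [(cMn.inv_right).eq, mul_assoc, mul_inv_cancel, mul_one]
    have e3 : M * n * M⁻¹ = n := by rw [cMn.eq, mul_assoc, mul_inv_cancel, mul_one]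
    have e4 : y * M⁻¹ = M⁻¹ * y := (cyM.inv_right).eq
    have e5 : M * y⁻¹ = y⁻¹ * M := (cyM.inv_left).eq.symm
    have e6 : y * X * y⁻¹ = X := by rw [cyX.eq, mul_assoc, mul_inv_cancel, mul_one]
    calc P * n * P = M * n⁻¹ * (y * u * y⁻¹) * n * (M⁻¹ * n * M) * n⁻¹ * (y * u * y⁻¹) * n * M⁻¹ := by
          rw [hP]; group
      _ = M * n⁻¹ * (y * M⁻¹ * u) * n * (u * M * y⁻¹) * n * M⁻¹ := by
          rw [e1, ← h4, ← h5]; group
      _ = M * n⁻¹ * (y * M⁻¹) * (u * n * u) * (M * y⁻¹) * n * M⁻¹ := by group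
      _ = M * n⁻¹ * (M⁻¹ * y) * X * (y⁻¹ * M) * n * M⁻¹ := by rw [← hX, e4, e5]
      _ = (M * n⁻¹ * M⁻¹) * (y * X * y⁻¹) * (M * n * M⁻¹) := by group
      _ = n⁻¹ * X * n := by rw [e2, e3, e6]
  have cnX : n⁻¹ * X * n = X := by
    rw [mul_inv_eq_one, mul_inv_eq_iff_eq_mul, h6] at r4
    have e : n * (n⁻¹ * X * n) = X * n := by group
    rw [e] at r4
    exact (mul_right_cancel r4).symm
  have h7 : P * n * P = X := h6.trans cnX
  have h8 : n * P * n⁻¹ = u := by
    have e1 : n * M * n⁻¹ = M := by rw [← cMn.eq, mul_assoc, mul_inv_cancel, mul_one]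
    calc n * P * n⁻¹ = (n * M * n⁻¹) * (y * u * y⁻¹) * (n * M * n⁻¹)⁻¹ := by rw [hP]; group
      _ = M * (y * u * y⁻¹) * M⁻¹ := by rw [e1]
      _ = (M * y) * u * (M * y)⁻¹ := by group
      _ = (y * M) * u * (M * y)⁻¹ := by rw [cyM.eq]
      _ = y * (M * u) * (M * y)⁻¹ := by group
      _ = y * (u * y) * (M * y)⁻¹ := by rw [h2]
      _ = y * u * M⁻¹ := by group
      _ = u * M * M⁻¹ := by rw [h1]
      _ = u := by group
  have h9 : M⁻¹ * u = u * y⁻¹ := by
    rw [hM, mul_inv_rev, mul_inv_rev, hui]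
    simp only [mul_assoc, hu, mul_one]
  refine ⟨h7.symm, h8.symm, ?_, ?_⟩
  · rw [h8]
    calc y * (u * v * u) * y⁻¹ = (y * u) * v * (u * y⁻¹) := by group
      _ = (u * M) * v * (M⁻¹ * u) := by rw [h1, h9]
      _ = u * (M * v * M⁻¹) * u := by group
  · have cX : Commute n X := by
      have e : n * (n⁻¹ * X * n) = n * X := by rw [cnX]
      have e2 : n * (n⁻¹ * X * n) = X * n := by group
      exact e.symm.trans e2
    rw [h7, (cX.inv_right).eq]
    calc y * X⁻¹ = X⁻¹ * y := (cyX.inv_right).eq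
      _ = X⁻¹ * (y * M * M⁻¹) := by group
      _ = X⁻¹ * (M * y * M⁻¹) := by rw [cyM.eq]
      _ = X⁻¹ * (M * n * n⁻¹ * y * M⁻¹) := by group
      _ = X⁻¹ * (n * M * n⁻¹ * y * M⁻¹) := by rw [cMn.eq]
      _ = X⁻¹ * n * (M * n⁻¹) * (y * M⁻¹) := by group

private lemma t4_conj {H : Type*} [Group H] {y X X' a b c z : H} (hX : X' = X)
    (h : y * X⁻¹ = a * b * c) :
    y * X'⁻¹ * z * (y * X'⁻¹)⁻¹ = a * (b * (c * z * c⁻¹) * b⁻¹) * a⁻¹ := by
  rw [hX, h]
  group

/-- piece DN-T4: `α_j T_j = T_j T_{j+1} T_j α_j` modulo `ML k`.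
Proof. Both sides (composed with `mkL`) are homomorphisms `G k →* L k`: `homG_ext`. Put `ν = v M v`,
`X = u ν u`. In `L k`: `[y, M] = 1` (`mk_c`), `[ν, M] = 1` (`T_j (c_{j+1}) ∈ ML`), `[y, X] = 1`
(`α_j(c_j) = u T_j(c_{j+1}) u`, `gA_c`), and `[ν, X] = 1`: `T_j T_{j+1} (c_j) = [ν, P ν P]` with
`P = T_j T_{j+1} x_j = M ν⁻¹ y u y⁻¹ ν M⁻¹`, and `P ν P = ν⁻¹ X ν` by the first three relations (note
`y u y⁻¹ = y M⁻¹ u`, so `y u y⁻¹ ν y u y⁻¹ = y M⁻¹ X M y⁻¹ = M⁻¹ X M`).
`y`: left `X`, right `P ν P = ν⁻¹ X ν = X`.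
`x_{j+1}`: left `u`, right `ν P ν⁻¹ = M y u y⁻¹ M⁻¹ = u`.
`x_j`: left `y u v u y⁻¹`, right `u (M v M⁻¹) u = y u v u y⁻¹` (`u M = y u`).
`x_i`, `i > j + 1`: `x_i` on both sides.
`x_i`, `i < j`: conjugates of `x_i`, left with `y X⁻¹`, right with `ν X⁻¹ · M ν⁻¹ · y M⁻¹ = X⁻¹ y`. -/
theorem gA_T_mk {j : ℕ} (hj : j < k) (g : G k) :
    mkL k (gA j (T j g)) = mkL k (T j (T (j + 1) (T j (gA j g)))) := by
  -- the two sides
  have key : ((mkL k).comp ((gA j).toMonoidHom.comp (T j)) : G k →* L k) =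
      (mkL k).comp ((T j).comp ((T (j + 1)).comp ((T j).comp (gA j).toMonoidHom))) := by
    have hj1 : j ≤ k := hj.le
    have hj2 : j + 1 ≤ k := hj
    have e1 : T j (xG j : G k) = yG * xG j * yG⁻¹ := by rw [T_x j hj1, t4_eq]
    have e2 : T j (xG (j + 1) : G k) = xG (j + 1) := by rw [T_x j hj2, t4_gt (by omega)]
    have e3 : T (j + 1) (xG (j + 1) : G k) = yG * xG (j + 1) * yG⁻¹ := by
      rw [T_x (j + 1) hj2, t4_eq]
    have e4 : T (j + 1) (xG j : G k) =
        yG * (xG (j + 1) * yG * xG (j + 1))⁻¹ * xG j *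
          (yG * (xG (j + 1) * yG * xG (j + 1))⁻¹)⁻¹ := by
      rw [T_x (j + 1) hj1, t4_lt (by omega), eT, yT]
    have a1 : gA j (xG j : G k) = xG j * xG (j + 1) * xG j := by
      rw [gA_x hj hj1, gC, if_pos rfl]
    have a2 : gA j (xG (j + 1) : G k) = xG j := by
      rw [gA_x hj hj2, gC, if_neg (by omega), if_pos rfl]
    have y1 : ∀ i, T i (yG : G k) = xG i * yG * xG i := fun i => T_y i
    -- the elements of `L k`
    have c1 : mkL k (cG j) = 1 := mk_c hj1
    have c2 : mkL k (T j (cG (j + 1))) = 1 :=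
      mkL_eq_one.2 (rel_mem (v := [j]) (j := j + 1) (by
        intro i hi
        rcases List.mem_cons.1 hi with h | h
        · rw [h]; exact hj2
        · rw [List.mem_singleton.1 h]; exact hj1))
    have c4 : mkL k (T j (T (j + 1) (cG j))) = 1 :=
      mkL_eq_one.2 (rel_mem (v := [j + 1, j]) (j := j) (by
        intro i hi
        rcases List.mem_cons.1 hi with h | h
        · rw [h]; exact hj1
        rcases List.mem_cons.1 h with h | h
        · rw [h]; exact hj2
        · rw [List.mem_singleton.1 h]; exact hj1))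
    have hu : mkL k (xG j) * mkL k (xG j) = 1 := by rw [← map_mul, xG_sq, map_one]
    have hv : mkL k (xG (j + 1)) * mkL k (xG (j + 1)) = 1 := by rw [← map_mul, xG_sq, map_one]
    simp only [cG, yT, map_mul, map_inv, y1, e1, e2, e4] at c1 c2 c4
    have hA := t4_abs (y := mkL k yG) (u := mkL k (xG j)) (v := mkL k (xG (j + 1))) hu hv
      rfl rfl rfl rfl c1 c2 c4
    obtain ⟨hy, hv1, hu1, hw⟩ := hA
    apply homG_ext
    · intro i hi
      change mkL k (gA j (T j (xG i))) = mkL k (T j (T (j + 1) (T j (gA j (xG i)))))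
      rcases lt_trichotomy i j with h | h | h
      · have b1 : T j (xG i : G k) = yG * (xG j * yG * xG j)⁻¹ * xG i *
            (yG * (xG j * yG * xG j)⁻¹)⁻¹ := by
          rw [T_x j hi, t4_lt h, eT, yT]
        have b2 : T (j + 1) (xG i : G k) =
            yG * (xG (j + 1) * yG * xG (j + 1))⁻¹ * xG i *
              (yG * (xG (j + 1) * yG * xG (j + 1))⁻¹)⁻¹ := by
          rw [T_x (j + 1) hi, t4_lt (by omega), eT, yT]
        have b3 : gA j (xG i : G k) = xG i := by
          rw [gA_x hj hi, gC, if_neg (by omega), if_neg (by omega)]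
        rw [b3]
        simp only [map_mul, map_inv, y1, e1, e2, e4, b1, b2, b3, a1, gA_y]
        exact t4_conj (by simp only [mul_assoc]) hw
      · subst h
        rw [a1]
        simp only [map_mul, map_inv, y1, e1, e2, e3, e4, a1, gA_y]
        exact hu1
      · by_cases h1 : i = j + 1
        · subst h1
          rw [a2, e2, a2]
          simp only [map_mul, map_inv, y1, e1, e2, e4]
          exact hv1
        · have b1 : T j (xG i : G k) = xG i := by rw [T_x j hi, t4_gt h]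
          have b2 : T (j + 1) (xG i : G k) = xG i := by
            rw [T_x (j + 1) hi, t4_gt (by omega)]
          have b3 : gA j (xG i : G k) = xG i := by
            rw [gA_x hj hi, gC, if_neg (by omega), if_neg (by omega)]
          rw [b3, b1, b3, b2, b1]
    · change mkL k (gA j (T j yG)) = mkL k (T j (T (j + 1) (T j (gA j yG))))
      rw [gA_y]
      simp only [map_mul, map_inv, y1, e1, e2, e4, a1, gA_y]
      exact (by simp only [mul_assoc] : _ = _).trans hy
  exact DFunLike.congr_fun key g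

/-- the computation for DN-T5 in an abstract group -/
private lemma t5_rel {K : Type*} [Group K] {u v y N Q Z E P w : K} (hv : v * v = 1)
    (hN : N = v * y * v) (hQ : Q = u * N * u) (hZ : Z = v * Q * v) (hE : E = y * N⁻¹)
    (hP : P = E * u * E⁻¹ * N * (E * u * E⁻¹)) (hw : w = y * v * y⁻¹) (h1 : Commute y N)
    (h2 : Commute N P) (h3 : Commute P (w * P * w)) :
    P = E * Q * E⁻¹ ∧ w * P * w = Z ∧ Commute Q Z ∧ Commute N Q ∧ Commute y Z := by
  have eN : Commute E N := by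
    rw [hE]
    exact h1.mul_left (Commute.refl N).inv_left
  have e1 : E⁻¹ * N * E = N := by rw [mul_assoc, ← eN.eq, inv_mul_cancel_left]
  have p1 : P = E * Q * E⁻¹ := by
    rw [hP, hQ]
    calc E * u * E⁻¹ * N * (E * u * E⁻¹) = E * (u * (E⁻¹ * N * E) * u) * E⁻¹ := by group
      _ = E * (u * N * u) * E⁻¹ := by rw [e1]
  have c2 : Commute N Q := by
    change N * Q = Q * N
    have h4 : N * (E * Q * E⁻¹) = E * Q * E⁻¹ * N := by rw [← p1]; exact h2
    calc N * Q = E⁻¹ * N * E * Q := by rw [e1]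
      _ = E⁻¹ * (N * (E * Q * E⁻¹)) * E := by group
      _ = E⁻¹ * (E * Q * E⁻¹ * N) * E := by rw [h4]
      _ = Q * (E⁻¹ * N * E) := by group
      _ = Q * N := by rw [e1]
  have vv : ∀ x : K, v * (v * x) = x := fun x => by rw [← mul_assoc, hv, one_mul]
  have yN : y = v * N * v := by
    rw [hN]
    simp only [mul_assoc, vv, hv, mul_one]
  have c4 : Commute y Z := by
    change y * Z = Z * y
    have h4 := c2.eq
    calc y * Z = v * N * v * (v * Q * v) := by rw [← yN, hZ]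
      _ = v * (N * Q) * v := by simp only [mul_assoc, vv]
      _ = v * (Q * N) * v := by rw [h4]
      _ = v * Q * v * (v * N * v) := by simp only [mul_assoc, vv]
      _ = Z * y := by rw [← yN, hZ]
  have e2 : N⁻¹ * Q * N = Q := by rw [mul_assoc, ← c2.eq, inv_mul_cancel_left]
  have e3 : y * Z * y⁻¹ = Z := by rw [c4.eq, mul_inv_cancel_right]
  have e4 : y⁻¹ * Z * y = Z := by rw [mul_assoc, ← c4.eq, inv_mul_cancel_left]
  have p2 : w * P * w = Z := by
    calc w * P * w = y * (v * (N⁻¹ * Q * N) * v) * y⁻¹ := by rw [hw, p1, hE]; group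
      _ = Z := by rw [e2, ← hZ, e3]
  have c3 : Commute Q Z := by
    change Q * Z = Z * Q
    have h4 : E * Q * E⁻¹ * Z = Z * (E * Q * E⁻¹) := by rw [← p1, ← p2]; exact h3
    have e5 : E⁻¹ * Z * E = N * Z * N⁻¹ := by
      calc E⁻¹ * Z * E = N * (y⁻¹ * Z * y) * N⁻¹ := by rw [hE]; group
        _ = N * Z * N⁻¹ := by rw [e4]
    have e6 : Q * (N * Z * N⁻¹) = N * Z * N⁻¹ * Q := by
      rw [← e5]
      calc Q * (E⁻¹ * Z * E) = E⁻¹ * (E * Q * E⁻¹ * Z) * E := by group
        _ = E⁻¹ * (Z * (E * Q * E⁻¹)) * E := by rw [h4]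
        _ = E⁻¹ * Z * E * Q := by group
    calc Q * Z = N⁻¹ * Q * N * Z := by rw [e2]
      _ = N⁻¹ * (Q * (N * Z * N⁻¹)) * N := by group
      _ = N⁻¹ * (N * Z * N⁻¹ * Q) * N := by rw [e6]
      _ = Z * (N⁻¹ * Q * N) := by group
      _ = Z * Q := by rw [e2]
  exact ⟨p1, p2, c3, c2, c4⟩

/-- the four identities for DN-T5 -/
private lemma t5_all {K : Type*} [Group K] {u v y N E P w : K} (hv : v * v = 1)
    (hN : N = v * y * v) (hE : E = y * N⁻¹)
    (hP : P = E * u * E⁻¹ * N * (E * u * E⁻¹)) (hw : w = y * v * y⁻¹) (h1 : Commute y N)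
    (h2 : Commute N P) (h3 : Commute P (w * P * w)) :
    w * P * w = v * u * v * y * (v * u * v) ∧
    w * (N * (E * u * E⁻¹) * N⁻¹) * w = y * (v * u * v) * y⁻¹ ∧
    P * w * P⁻¹ = y * (v * u * v * y * (v * u * v))⁻¹ * v *
      (y * (v * u * v * y * (v * u * v))⁻¹)⁻¹ ∧
    P * (w * P * w)⁻¹ * (N * P⁻¹) * E = y * (v * u * v * y * (v * u * v))⁻¹ := by
  obtain ⟨Q, hQ⟩ : ∃ Q, Q = u * N * u := ⟨_, rfl⟩
  obtain ⟨Z, hZ⟩ : ∃ Z, Z = v * Q * v := ⟨_, rfl⟩
  obtain ⟨p1, p2, c3, c2, c4⟩ := t5_rel hv hN hQ hZ hE hP hw h1 h2 h3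
  have hZ' : v * u * v * y * (v * u * v) = Z := by
    rw [hZ, hQ, hN]
    simp only [mul_assoc]
  have hvi : v⁻¹ = v := inv_eq_of_mul_eq_one_left hv
  have e1 : y⁻¹ * N * y = N := by rw [mul_assoc, ← h1.eq, inv_mul_cancel_left]
  have e2 : y⁻¹ * N⁻¹ * y = N⁻¹ := by
    rw [mul_assoc, ← (h1.inv_right).eq, inv_mul_cancel_left]
  have eN : E * N = y := by rw [hE, inv_mul_cancel_right]
  have Zi : Z⁻¹ = v * Q⁻¹ * v := by
    rw [hZ, mul_inv_rev, mul_inv_rev, hvi, mul_assoc]
  rw [hZ']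
  refine ⟨p2, ?_, ?_, ?_⟩
  · calc w * (N * (E * u * E⁻¹) * N⁻¹) * w =
        y * v * ((y⁻¹ * N * y) * N⁻¹) * u * (N * (y⁻¹ * N⁻¹ * y)) * v * y⁻¹ := by
          rw [hw, hE]; group
      _ = y * (v * u * v) * y⁻¹ := by
          rw [e1, e2, mul_inv_cancel]
          simp only [mul_assoc, mul_one]
  · calc P * w * P⁻¹ = (E * (Q * N)) * v * (E * (Q * N))⁻¹ := by
          rw [p1, hw]
          have e5 : E⁻¹ * y = N := by rw [hE]; group
          calc E * Q * E⁻¹ * (y * v * y⁻¹) * (E * Q * E⁻¹)⁻¹ =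
              E * Q * (E⁻¹ * y) * v * (E⁻¹ * y)⁻¹ * Q⁻¹ * E⁻¹ := by group
            _ = (E * (Q * N)) * v * (E * (Q * N))⁻¹ := by rw [e5]; group
      _ = y * (Q * v * Q⁻¹) * y⁻¹ := by
          rw [← c2.eq, ← mul_assoc, eN]
          group
      _ = y * (Z⁻¹ * v * Z) * y⁻¹ := by
          have e6 : Z⁻¹ * v * Z = Q * v * Q⁻¹ := by
            calc Z⁻¹ * v * Z = Z⁻¹ * (v * v) * Q * v := by rw [hZ]; simp only [mul_assoc]
              _ = Z⁻¹ * Q * v := by rw [hv, mul_one]
              _ = Q * Z⁻¹ * v := by rw [(c3.inv_right).eq]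
              _ = Q * v * Q⁻¹ * (v * v) := by rw [Zi]; simp only [mul_assoc]
              _ = Q * v * Q⁻¹ := by rw [hv, mul_one]
          rw [e6]
      _ = y * Z⁻¹ * v * (y * Z⁻¹)⁻¹ := by group
  · rw [p2]
    calc P * Z⁻¹ * (N * P⁻¹) * E = E * Q * (E⁻¹ * Z⁻¹ * N * E) * Q⁻¹ := by rw [p1]; group
      _ = E * Q * (N * Z⁻¹) * Q⁻¹ := by
          have e7 : E⁻¹ * Z⁻¹ * N * E = N * Z⁻¹ := by
            calc E⁻¹ * Z⁻¹ * N * E = N * (y⁻¹ * Z⁻¹) * N * y * N⁻¹ := by rw [hE]; group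
              _ = N * (Z⁻¹ * y⁻¹) * N * y * N⁻¹ := by rw [(c4.inv_inv).eq]
              _ = N * Z⁻¹ * (y⁻¹ * N * y) * N⁻¹ := by group
              _ = N * Z⁻¹ := by rw [e1]; group
          rw [e7]
      _ = E * (Q * N) * Z⁻¹ * Q⁻¹ := by group
      _ = y * (Q * Z⁻¹) * Q⁻¹ := by
          rw [← c2.eq, ← mul_assoc, eN]
          group
      _ = y * Z⁻¹ := by rw [(c3.inv_right).eq]; group

private lemma t5_conj {K : Type*} [Group K] {D F H E x : K} (h : F * H * E = D) :
    D * x * D⁻¹ = F * (H * (E * x * E⁻¹) * H⁻¹) * F⁻¹ := by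
  rw [← h]
  group

/-- the inverse of `gA j` on the generators -/
private lemma t5_symm_x {j i : ℕ} (hj : j < k) (hi : i ≤ k) :
    (gA j).symm (xG i : G k) = gC' j i := by
  rw [MulEquiv.symm_apply_eq]
  unfold gC'
  split_ifs with h1 h2
  · rw [gA_x hj (by omega)]
    simp [gC, h1]
  · rw [map_mul, map_mul, gA_x hj (by omega), gA_x hj (by omega)]
    simp [gC, h2, mul_assoc]
  · rw [gA_x hj hi]
    simp [gC, h1, h2]

private lemma t5_symm_y {j : ℕ} : (gA j).symm (yG : G k) = yG := by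
  rw [MulEquiv.symm_apply_eq, gA_y]

/-- piece DN-T5: `α_j⁻¹ T_{j+1} = T_{j+1} T_j T_{j+1} α_j⁻¹` modulo `ML k`.
Proof. `homG_ext` as in DN-T4; `α_j⁻¹`: `u ↦ v`, `v ↦ v u v`, `y ↦ y`. Put `E = y N⁻¹`, `Q = u N u`,
`Z = v Q v`. In `L k`: `[y, N] = 1`; `T_{j+1} (c_j)` is conjugate to `[N, Q]` (as `E N E⁻¹ = N`), so
`[N, Q] = 1`; `T_{j+1} T_j (c_{j+1}) = [E Q E⁻¹, (y v y⁻¹) E Q E⁻¹ (y v y⁻¹)]` is conjugate to `[Q, Z]`
(`E⁻¹ y = N`), so `[Q, Z] = 1`.
`y`: left `v u v y v u v = Z`, right `y v N⁻¹ u N u N v y⁻¹ = v u N u v = Z` (`v N v = y`).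
`x_{j+1}`: left `y v u v y⁻¹`; right: `T_{j+1} (v u v) = v u v` exactly, `T_j (v u v) = v y u y⁻¹ v`, and
`T_{j+1}` of it is `y v y⁻¹ N E u E⁻¹ N⁻¹ y v y⁻¹ = y v u v y⁻¹` (`N E = y`).
`x_j`: left `y Z⁻¹ v Z y⁻¹`, right `T_{j+1} (M v M⁻¹) = E Q N v N⁻¹ Q⁻¹ E⁻¹ = y Q v Q⁻¹ y⁻¹` (`E N = y`) and
`Z⁻¹ v Z = v Q⁻¹ v Q v = Q v Q⁻¹` by `[Q, Z] = 1`.
`x_i`, `i > j + 1`: fixed. `x_i`, `i < j`: conjugation with `y Z⁻¹` on the left and with
`T_{j+1}(M (v M v)⁻¹ y M⁻¹) E = E Q N (v Q⁻¹ v) Q⁻¹ = y Z⁻¹` on the right. -/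
theorem gA_symm_T_mk {j : ℕ} (hj : j < k) (g : G k) :
    mkL k ((gA j).symm (T (j + 1) g)) =
      mkL k (T (j + 1) (T j (T (j + 1) ((gA j).symm g)))) := by
  let f1 : G k →* L k := (mkL k).comp ((gA j).symm.toMonoidHom.comp (T (j + 1)))
  let f2 : G k →* L k :=
    (mkL k).comp ((T (j + 1)).comp ((T j).comp ((T (j + 1)).comp (gA j).symm.toMonoidHom)))
  suffices h : f1 = f2 from DFunLike.congr_fun h g
  -- images
  have bu : (gA j).symm (xG j : G k) = xG (j + 1) := by
    rw [t5_symm_x hj (by omega)]; simp [gC']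
  have bv : (gA j).symm (xG (j + 1) : G k) = xG (j + 1) * xG j * xG (j + 1) := by
    rw [t5_symm_x hj (by omega)]; simp [gC']
  have bx : ∀ i, i ≤ k → i ≠ j → i ≠ j + 1 → (gA j).symm (xG i : G k) = xG i := by
    intro i h h1 h2
    rw [t5_symm_x hj h]; simp [gC', h1, h2]
  have tu : T (j + 1) (xG j : G k) = eT (j + 1) * xG j * (eT (j + 1))⁻¹ := by
    rw [T_x _ (by omega)]; simp [xT]
  have tv : T (j + 1) (xG (j + 1) : G k) = yG * xG (j + 1) * yG⁻¹ := by
    rw [T_x _ (by omega)]; simp [xT]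
  have ty : T (j + 1) (yG : G k) = xG (j + 1) * yG * xG (j + 1) := T_y _
  have su : T j (xG j : G k) = yG * xG j * yG⁻¹ := by
    rw [T_x _ (by omega)]; simp [xT]
  have sv : T j (xG (j + 1) : G k) = xG (j + 1) := by
    rw [T_x _ (by omega)]; simp [xT]
  have sy : T j (yG : G k) = xG j * yG * xG j := T_y _
  have hE' : (eT (j + 1) : G k) = yG * (xG (j + 1) * yG * xG (j + 1))⁻¹ := rfl
  set u : L k := mkL k (xG j) with hu
  set v : L k := mkL k (xG (j + 1)) with hv
  set y : L k := mkL k yG with hy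
  have hvv : v * v = 1 := by rw [hv, ← map_mul, xG_sq, map_one]
  have r1 := mk_c (k := k) (j := j + 1) hj
  have r2 : mkL k (Fr [j + 1] (cG j)) = 1 :=
    mkL_eq_one.2 (rel_mem (v := [j + 1]) (by
      intro i hi
      simp only [List.mem_cons, List.not_mem_nil, or_false] at hi
      omega))
  have r3 : mkL k (Fr [j, j + 1] (cG (j + 1))) = 1 :=
    mkL_eq_one.2 (rel_mem (v := [j, j + 1]) (by
      intro i hi
      simp only [List.mem_cons, List.not_mem_nil, or_false] at hi
      omega))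
  have c1 : Commute y (v * y * v) := by
    apply commutatorElement_eq_one_iff_commute.1
    simp only [cG, yT, map_mul, map_inv] at r1
    exact r1
  have c2 : Commute (v * y * v) (y * (v * y * v)⁻¹ * u * (y * (v * y * v)⁻¹)⁻¹ * (v * y * v) *
      (y * (v * y * v)⁻¹ * u * (y * (v * y * v)⁻¹)⁻¹)) := by
    apply commutatorElement_eq_one_iff_commute.1
    change mkL k (T (j + 1) (cG j)) = 1 at r2
    simp only [cG, yT, map_mul, map_inv, ty, tu, hE'] at r2
    exact r2
  have c3 : Commute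
      (y * (v * y * v)⁻¹ * u * (y * (v * y * v)⁻¹)⁻¹ * (v * y * v) *
        (y * (v * y * v)⁻¹ * u * (y * (v * y * v)⁻¹)⁻¹))
      (y * v * y⁻¹ * (y * (v * y * v)⁻¹ * u * (y * (v * y * v)⁻¹)⁻¹ * (v * y * v) *
        (y * (v * y * v)⁻¹ * u * (y * (v * y * v)⁻¹)⁻¹)) * (y * v * y⁻¹)) := by
    apply commutatorElement_eq_one_iff_commute.1
    change mkL k (T (j + 1) (T j (cG (j + 1)))) = 1 at r3
    simp only [cG, yT, map_mul, map_inv, ty, tu, tv, sy, sv, hE'] at r3
    exact r3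
  obtain ⟨k1, k2, k3, k4⟩ := t5_all hvv rfl rfl rfl rfl c1 c2 c3
  apply homG_ext
  · intro i hi
    change mkL k ((gA j).symm (T (j + 1) (xG i))) =
      mkL k (T (j + 1) (T j (T (j + 1) ((gA j).symm (xG i)))))
    rcases Nat.lt_trichotomy i j with h | h | h
    · have t1 : T (j + 1) (xG i : G k) = eT (j + 1) * xG i * (eT (j + 1))⁻¹ := by
        rw [T_x _ hi]; simp [xT, show i < j + 1 by omega]
      have s1 : T j (xG i : G k) = eT j * xG i * (eT j)⁻¹ := by
        rw [T_x _ hi]; simp [xT, h]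
      have hF : (eT j : G k) = yG * (xG j * yG * xG j)⁻¹ := rfl
      rw [bx i hi (by omega) (by omega)]
      simp only [t1, s1, hE', hF, map_mul, map_inv, bv, bx i hi (by omega) (by omega),
        t5_symm_y, ty, tu, tv, sy, sv]
      exact t5_conj k4
    · subst h
      rw [bu]
      simp only [hE', map_mul, map_inv, bu, bv, t5_symm_y, ty, tu, tv, sy, sv]
      exact k3.symm
    · rcases Nat.lt_or_ge (j + 1) i with h' | h'
      · have t1 : T (j + 1) (xG i : G k) = xG i := by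
          rw [T_x _ hi]; simp [xT, show ¬ i < j + 1 by omega, show ¬ i = j + 1 by omega]
        have s1 : T j (xG i : G k) = xG i := by
          rw [T_x _ hi]; simp [xT, show ¬ i < j by omega, show ¬ i = j by omega]
        rw [t1, bx i hi (by omega) (by omega), t1, s1, t1]
      · have h2 : i = j + 1 := by omega
        subst h2
        have t2 : T (j + 1) (xG (j + 1) * xG j * xG (j + 1) : G k) =
            xG (j + 1) * xG j * xG (j + 1) := by
          rw [map_mul, map_mul, tv, tu, hE']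
          simp [mul_assoc]
        rw [bv, t2]
        simp only [tv, map_mul, map_inv, bv, t5_symm_y, sv, su, ty, tu, hE']
        exact k2.symm
  · change mkL k ((gA j).symm (T (j + 1) yG)) =
      mkL k (T (j + 1) (T j (T (j + 1) ((gA j).symm yG))))
    rw [t5_symm_y, ty]
    simp only [map_mul, bv, t5_symm_y, sv, sy, ty, tu, tv, hE', map_inv]
    exact k1.symm

private lemma gsymc_aux {K : Type*} [Group K] {Y U V : K} (_hU : U * U = 1) (hV : V * V = 1)
    (h1 : Y * (V * Y * V) * Y⁻¹ * (V * Y * V)⁻¹ = 1)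
    (h2 : V * Y * V * (Y * (V * Y * V)⁻¹ * U * (Y * (V * Y * V)⁻¹)⁻¹ * (V * Y * V) *
      (Y * (V * Y * V)⁻¹ * U * (Y * (V * Y * V)⁻¹)⁻¹)) * (V * Y * V)⁻¹ *
      (Y * (V * Y * V)⁻¹ * U * (Y * (V * Y * V)⁻¹)⁻¹ * (V * Y * V) *
      (Y * (V * Y * V)⁻¹ * U * (Y * (V * Y * V)⁻¹)⁻¹))⁻¹ = 1) :
    Y * (V * U * V * Y * (V * U * V)) * Y⁻¹ * (V * U * V * Y * (V * U * V))⁻¹ = 1 := by
  have hN : Commute Y (V * Y * V) := by
    rw [mul_inv_eq_one, mul_inv_eq_iff_eq_mul] at h1
    exact h1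
  obtain ⟨N, hNd⟩ : ∃ N, N = V * Y * V := ⟨_, rfl⟩
  rw [← hNd] at hN h2
  obtain ⟨E, hEd⟩ : ∃ E, E = Y * N⁻¹ := ⟨_, rfl⟩
  rw [← hEd] at h2
  have hEN : E * N = N * E := by
    rw [hEd]
    exact (hN.mul_left (Commute.refl N).inv_left).eq
  have hX : E * U * E⁻¹ * N * (E * U * E⁻¹) = E * (U * N * U) * E⁻¹ := by
    calc E * U * E⁻¹ * N * (E * U * E⁻¹) = E * U * E⁻¹ * (N * E) * U * E⁻¹ := by
          simp only [mul_assoc]
      _ = E * U * E⁻¹ * (E * N) * U * E⁻¹ := by rw [hEN]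
      _ = E * (U * N * U) * E⁻¹ := by group
  rw [hX, mul_inv_eq_one, mul_inv_eq_iff_eq_mul] at h2
  have hQ : N * (U * N * U) = U * N * U * N := by
    calc N * (U * N * U) = E⁻¹ * (E * N) * (U * N * U) := by group
      _ = E⁻¹ * (N * (E * (U * N * U) * E⁻¹)) * E := by rw [hEN]; group
      _ = E⁻¹ * (E * (U * N * U) * E⁻¹ * N) * E := by rw [h2]
      _ = U * N * U * E⁻¹ * (N * E) := by group
      _ = U * N * U * E⁻¹ * (E * N) := by rw [hEN]
      _ = U * N * U * N := by group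
  have hVi : V⁻¹ = V := inv_eq_of_mul_eq_one_left hV
  have hY : Y = V * N * V⁻¹ := by
    rw [hNd]
    calc Y = (V * V) * Y * (V * V⁻¹) := by rw [hV]; group
      _ = V * (V * Y * V) * V⁻¹ := by group
  have hZ : V * U * V * Y * (V * U * V) = V * (U * N * U) * V⁻¹ := by
    rw [hNd, hVi]
    simp only [mul_assoc]
  rw [hZ, mul_inv_eq_one, mul_inv_eq_iff_eq_mul, hY]
  calc V * N * V⁻¹ * (V * (U * N * U) * V⁻¹) = V * (N * (U * N * U)) * V⁻¹ := by group
    _ = V * (U * N * U * N) * V⁻¹ := by rw [hQ]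
    _ = V * (U * N * U) * V⁻¹ * (V * N * V⁻¹) := by group

/-- piece DN-T6: the base case for the inverse: `α_j⁻¹ (c_{j+1}) = [y, v u v y v u v]` is conjugate
(with `v`) to `[N, Q]`, `Q = u N u`, and `T_{j+1} (c_j) = E [N, Q] E⁻¹` modulo `c_{j+1}` (see DN-T5) -/
theorem gA_symm_c {j : ℕ} (hj : j < k) : (gA j).symm (cG (j + 1) : G k) ∈ ML k := by
  have hv : (gA j).symm (xG (j + 1) : G k) = xG (j + 1) * xG j * xG (j + 1) := by
    rw [MulEquiv.symm_apply_eq, map_mul, map_mul, gA_x hj (by omega), gA_x hj (by omega)]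
    simp [gC, mul_assoc]
  have hy : (gA j).symm (yG : G k) = yG := by
    rw [MulEquiv.symm_apply_eq, gA_y]
  have h1 := mk_c (k := k) (j := j + 1) (by omega)
  have h2 : mkL k (T (j + 1) (cG j)) = 1 :=
    mkL_eq_one.2 (rel_mem (v := [j + 1]) (by
      intro i hi
      rcases List.mem_cons.1 hi with rfl | hi
      · omega
      · rw [List.mem_singleton.1 hi]
        omega))
  have hTx : T (j + 1) (xG j : G k) = eT (j + 1) * xG j * (eT (j + 1))⁻¹ := by
    rw [T_x _ (by omega)]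
    unfold xT
    rw [if_pos (by omega)]
  rw [← mkL_eq_one]
  have hcomm := gsymc_aux (K := L k) (Y := mkL k yG) (U := mkL k (xG j)) (V := mkL k (xG (j + 1)))
    (by rw [← map_mul, xG_sq, map_one]) (by rw [← map_mul, xG_sq, map_one])
    (by
      have e : mkL k (cG (j + 1)) = mkL k yG * (mkL k (xG (j + 1)) * mkL k yG *
          mkL k (xG (j + 1))) * (mkL k yG)⁻¹ * (mkL k (xG (j + 1)) * mkL k yG *
          mkL k (xG (j + 1)))⁻¹ := by
        unfold cG yT
        simp only [map_mul, map_inv]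
      rw [e] at h1
      exact h1)
    (by
      have e : T (j + 1) (cG j : G k) = yT (j + 1) * (eT (j + 1) * xG j * (eT (j + 1))⁻¹ *
          yT (j + 1) * (eT (j + 1) * xG j * (eT (j + 1))⁻¹)) * (yT (j + 1))⁻¹ *
          (eT (j + 1) * xG j * (eT (j + 1))⁻¹ *
          yT (j + 1) * (eT (j + 1) * xG j * (eT (j + 1))⁻¹))⁻¹ := by
        have e1 : (cG j : G k) = yG * (xG j * yG * xG j) * yG⁻¹ * (xG j * yG * xG j)⁻¹ := rfl
        rw [e1]
        simp only [map_mul, map_inv, hTx, T_y]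
      rw [e] at h2
      unfold eT yT at h2
      simp only [map_mul, map_inv] at h2
      exact h2)
  have e3 : (gA j).symm (cG (j + 1) : G k) = yG * (xG (j + 1) * xG j * xG (j + 1) * yG *
      (xG (j + 1) * xG j * xG (j + 1))) * yG⁻¹ * (xG (j + 1) * xG j * xG (j + 1) * yG *
      (xG (j + 1) * xG j * xG (j + 1)))⁻¹ := by
    have e1 : (cG (j + 1) : G k) = yG * (xG (j + 1) * yG * xG (j + 1)) * yG⁻¹ *
      (xG (j + 1) * yG * xG (j + 1))⁻¹ := rfl
    rw [e1]
    simp only [map_mul, map_inv, hv, hy]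
  rw [e3]
  simp only [map_mul, map_inv]
  exact hcomm

private lemma cG_mem {i : ℕ} (hi : i ≤ k) : (cG i : G k) ∈ ML k :=
  mkL_eq_one.1 (mk_c hi)

private lemma gA_Fr_mem {j : ℕ} (hj : j < k) (v : List ℕ) :
    (∀ t ∈ v, t ≤ k) → ∀ i, i ≤ k → (gA j (Fr v (cG i)) : G k) ∈ ML k := by
  induction v using List.reverseRecOn with
  | nil =>
    intro _ i hi
    have h0 : (Fr [] (cG i) : G k) = cG i := rfl
    rw [h0]
    by_cases h1 : i = j
    · subst h1
      rw [gA_c hj]
      have h2 : (xG i * T i (cG (i + 1)) * xG i : G k) =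
          xG i * T i (cG (i + 1)) * (xG i)⁻¹ := by
        rw [inv_eq_of_mul_eq_one_left (xG_sq i)]
      rw [h2]
      exact Subgroup.Normal.conj_mem inferInstance _ (T_ML hi (cG_mem hj)) _
    · by_cases h2 : i = j + 1
      · subst h2
        rw [gA_c_succ hj]
        exact cG_mem hj.le
      · rw [gA_c_ne hj hi h1 h2]
        exact cG_mem hi
  | append_singleton w t ih =>
    intro hv i hi
    have ht : t ≤ k := hv t (by simp)
    have h := ih (fun t' h' => hv t' (by simp [h'])) i hi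
    have h0 : (Fr (w ++ [t]) (cG i) : G k) = T t (Fr w (cG i)) := by
      rw [Fr_append]; rfl
    rw [h0]
    by_cases h1 : t = j
    · subst h1
      rw [← mkL_eq_one, gA_T_mk hj, mkL_eq_one]
      exact T_ML ht (T_ML hj (T_ML ht h))
    · by_cases h2 : t = j + 1
      · subst h2
        rw [gA_T_succ hj]
        exact T_ML hj.le h
      · rw [gA_T_ne hj ht h1 h2]
        exact T_ML ht h

private lemma gA_symm_Fr_mem {j : ℕ} (hj : j < k) (v : List ℕ) :
    (∀ t ∈ v, t ≤ k) → ∀ i, i ≤ k → ((gA j).symm (Fr v (cG i)) : G k) ∈ ML k := by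
  induction v using List.reverseRecOn with
  | nil =>
    intro _ i hi
    have h0 : (Fr [] (cG i) : G k) = cG i := rfl
    rw [h0]
    by_cases h1 : i = j
    · subst h1
      rw [← gA_c_succ hj, MulEquiv.symm_apply_apply]
      exact cG_mem hj
    · by_cases h2 : i = j + 1
      · subst h2
        exact gA_symm_c hj
      · have h3 : (gA j).symm (cG i : G k) = cG i := by
          rw [MulEquiv.symm_apply_eq, gA_c_ne hj hi h1 h2]
        rw [h3]
        exact cG_mem hi
  | append_singleton w t ih =>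
    intro hv i hi
    have ht : t ≤ k := hv t (by simp)
    have h := ih (fun t' h' => hv t' (by simp [h'])) i hi
    have h0 : (Fr (w ++ [t]) (cG i) : G k) = T t (Fr w (cG i)) := by
      rw [Fr_append]; rfl
    rw [h0]
    by_cases h1 : t = j
    · subst h1
      have h3 : (gA t).symm (T t (Fr w (cG i)) : G k) =
          T (t + 1) ((gA t).symm (Fr w (cG i))) := by
        rw [MulEquiv.symm_apply_eq, gA_T_succ hj, MulEquiv.apply_symm_apply]
      rw [h3]
      exact T_ML hj h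
    · by_cases h2 : t = j + 1
      · subst h2
        rw [← mkL_eq_one, gA_symm_T_mk hj, mkL_eq_one]
        exact T_ML ht (T_ML hj.le (T_ML ht h))
      · have h3 : (gA j).symm (T t (Fr w (cG i)) : G k) =
            T t ((gA j).symm (Fr w (cG i))) := by
          rw [MulEquiv.symm_apply_eq, gA_T_ne hj ht h1 h2, MulEquiv.apply_symm_apply]
        rw [h3]
        exact T_ML ht h

/-- piece DN-T7: `ML k` is mapped to itself by `α_j`.
Proof. `map_normalClosure_le`; the relators `Fr v (cG i)` by induction on `v.reverse` (write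
`v = w ++ [t]`, `Fr v (cG i) = T t (Fr w (cG i))`, `Fr_append`): `v = []`: `gA_c_ne`, `gA_c_succ`, `gA_c`
(`T j (cG (j+1)) = Fr [j] (cG (j+1))`). `t = j + 1`: `gA_T_succ` and `T_ML`; `t ≠ j, j + 1`: `gA_T_ne`;
`t = j`: `gA_T_mk`: `mkL` of it is `mkL (T j (T (j+1) (T j (α_j (Fr w (cG i))))))`, which is `1` by the
induction hypothesis and `T_ML`. -/
theorem gA_ML {j : ℕ} (hj : j < k) {g : G k} (hg : g ∈ ML k) : gA j g ∈ ML k := by
  refine map_normalClosure_le inferInstance (gA j).toMonoidHom ?_ hg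
  rintro _ ⟨v, i, h, rfl⟩
  exact gA_Fr_mem hj v (fun t ht => h t (List.mem_cons_of_mem _ ht)) i (h i List.mem_cons_self)

/-- piece DN-T7: the same for the inverse: `α_j⁻¹ T_j = T_{j+1} α_j⁻¹` (from `gA_T_succ`),
`α_j⁻¹ T_i = T_i α_j⁻¹` (`gA_T_ne`), `gA_symm_T_mk`; base: `gA_c_succ`, `gA_c_ne`, `gA_symm_c`. -/
theorem gA_symm_ML {j : ℕ} (hj : j < k) {g : G k} (hg : g ∈ ML k) : (gA j).symm g ∈ ML k := by
  refine map_normalClosure_le inferInstance (gA j).symm.toMonoidHom ?_ hg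
  rintro _ ⟨v, i, h, rfl⟩
  exact gA_symm_Fr_mem hj v (fun t ht => h t (List.mem_cons_of_mem _ ht)) i
    (h i List.mem_cons_self)

/-- piece DN-T8: `gD = T 0` modulo `ML k`: `homG_ext`, `gD_x`, `gD_y`, `T_x`, `T_y`:
`y M_0 y⁻¹ = M_0` modulo `c_0`, `M_0 = x_0 y x_0` -/
theorem gD_mk (g : G k) : mkL k (gD g) = mkL k (T 0 g) := by
  have h : (mkL k).comp (gD : MulAut (G k)).toMonoidHom = (mkL k).comp (T 0) := by
    apply homG_ext
    · intro i hi
      change mkL k (gD (xG i)) = mkL k (T 0 (xG i))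
      rw [gD_x hi, T_x 0 hi]
      unfold gDC xT
      by_cases h0 : i = 0
      · subst h0
        simp
      · simp [h0]
    · change mkL k (gD yG) = mkL k (T 0 yG)
      have h1 : mkL k (cG 0) = 1 := mk_c (Nat.zero_le k)
      rw [gD_y, T_y]
      have h2 : (yG * xG 0 * yG * xG 0 * yG⁻¹ : G k) = cG 0 * yT 0 := by
        unfold cG yT
        group
      rw [h2, map_mul, h1, one_mul]
  exact DFunLike.congr_fun h g

/-- piece DN-T8: `gD_mk` and `T_ML` -/
theorem gD_ML {g : G k} (hg : g ∈ ML k) : gD g ∈ ML k := by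
  rw [← mkL_eq_one, gD_mk, mkL_eq_one]
  exact T_ML (Nat.zero_le k) hg

/-- piece DN-T8: `gD (gD g) = g` modulo `ML` for all `g` (`gD_mk` twice, `T_ML`, `TL_sq`), so with
`g = gD.symm n`, `n ∈ ML`: `gD n = g` modulo `ML` and `gD n ∈ ML`. -/
theorem gD_symm_ML {g : G k} (hg : g ∈ ML k) : gD.symm g ∈ ML k := by
  have h1 : ∀ x : G k, mkL k (gD (gD x)) = mkL k x := by
    intro x
    rw [gD_mk, ← TL_mk (Nat.zero_le k), gD_mk, ← TL_mk (Nat.zero_le k), TL_sq]
  have h2 := h1 (gD.symm g)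
  rw [MulEquiv.apply_symm_apply] at h2
  rw [← mkL_eq_one, ← h2, mkL_eq_one]
  exact gD_ML hg

/-! ### reduced words -/

private lemma t9_chain (v : List ℕ) : ∀ j, ¬ (j :: v).IsChain (· ≠ ·) →
    (∃ v', v = j :: v') ∨ ∃ v₁ i v₂, v = v₁ ++ i :: i :: v₂ := by
  induction v with
  | nil => intro j h; exact absurd (by simp) h
  | cons a v ih =>
    intro j h
    by_cases hja : j = a
    · subst hja
      exact Or.inl ⟨v, rfl⟩
    · have h1 : ¬ (a :: v).IsChain (· ≠ ·) := fun h2 => h (List.isChain_cons_cons.2 ⟨hja, h2⟩)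
      rcases ih a h1 with ⟨v', rfl⟩ | ⟨v₁, i, v₂, rfl⟩
      · exact Or.inr ⟨[], a, v', rfl⟩
      · exact Or.inr ⟨a :: v₁, i, v₂, rfl⟩

private lemma t9_mem (n : ℕ) : ∀ (v : List ℕ) (j : ℕ), v.length = n → (∀ i ∈ j :: v, i ≤ k) →
    (Fr v (cG j) : G k) ∈ Subgroup.normalClosure (redL k) := by
  induction n using Nat.strong_induction_on with
  | _ n ih =>
    intro v j hn h
    by_cases hc : (j :: v).IsChain (· ≠ ·)
    · exact Subgroup.subset_normalClosure ⟨v, j, h, hc, rfl⟩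
    rcases t9_chain v j hc with ⟨v', rfl⟩ | ⟨v₁, i, v₂, rfl⟩
    · have h1 : (Fr (j :: v') (cG j) : G k) = Fr v' (T j (cG j)) := rfl
      rw [h1]
      refine map_normalClosure_le inferInstance (Fr v') ?_ (T_c_mem (h j List.mem_cons_self))
      rintro x rfl
      refine ih v'.length ?_ v' j rfl fun i hi => h i ?_
      · rw [← hn]; simp
      · rcases List.mem_cons.1 hi with rfl | hi
        · exact List.mem_cons_self
        · exact List.mem_cons_of_mem _ (List.mem_cons_of_mem _ hi)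
    · have hi : i ≤ k := h i (by simp)
      have h1 : (Fr (v₁ ++ i :: i :: v₂) (cG j) : G k) = Fr v₂ (T i (T i (Fr v₁ (cG j)))) := by
        rw [Fr_append]; rfl
      have h2 : (Fr v₂ (T i (T i (Fr v₁ (cG j))) * (Fr v₁ (cG j))⁻¹) : G k) ∈
          Subgroup.normalClosure (redL k) := by
        refine map_normalClosure_le inferInstance (Fr v₂) ?_ (T_sq_mem hi _)
        rintro x rfl
        refine ih v₂.length ?_ v₂ i rfl fun t ht => h t ?_
        · rw [← hn]; simp only [List.length_append, List.length_cons]; omega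
        · rcases List.mem_cons.1 ht with rfl | ht
          · simp
          · simp [ht]
      have h3 : (Fr (v₁ ++ v₂) (cG j) : G k) ∈ Subgroup.normalClosure (redL k) := by
        refine ih (v₁ ++ v₂).length ?_ (v₁ ++ v₂) j rfl fun t ht => h t ?_
        · rw [← hn]; simp only [List.length_append, List.length_cons]; omega
        · rcases List.mem_cons.1 ht with rfl | ht
          · exact List.mem_cons_self
          · rcases List.mem_append.1 ht with ht | ht
            · simp [ht]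
            · simp [ht]
      rw [Fr_append] at h3
      rw [h1]
      have h4 : (Fr v₂ (T i (T i (Fr v₁ (cG j)))) : G k) =
          Fr v₂ (T i (T i (Fr v₁ (cG j))) * (Fr v₁ (cG j))⁻¹) * Fr v₂ (Fr v₁ (cG j)) := by
        rw [map_mul, map_inv, inv_mul_cancel_right]
      rw [h4]
      exact mul_mem h2 h3

/-- piece DN-T9: `ML k` is the normal closure of the relators with reduced words.
Proof. Let `N = normalClosure (redL k)`. Claim: for all `n` and all `v` of length `n` and `j` (letters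
`≤ k`): `Fr v (cG j) ∈ N`, by strong induction on `n`. If `(j :: v).IsChain (· ≠ ·)`: clear. Otherwise
either `v = j :: v'`: `Fr v (cG j) = Fr v' (T j (cG j))`, and `T j (cG j) ∈ ⟨⟨cG j⟩⟩` (`T_c_mem`), so it is in
`⟨⟨Fr v' (cG j)⟩⟩ ≤ N`; or `v = v₁ ++ i :: i :: v₂`: `Fr v (cG j) = Fr v₂ (T i (T i (Fr v₁ (cG j))))`
(`Fr_append`), which is `Fr v₂ (Fr v₁ (cG j)) = Fr (v₁ ++ v₂) (cG j)` modulo `⟨⟨Fr v₂ (cG i)⟩⟩`
(`T_sq_mem`), and both `Fr v₂ (cG i)` and `Fr (v₁ ++ v₂) (cG j)` are in `N`. -/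
theorem ML_eq (k : ℕ) : ML k = Subgroup.normalClosure (redL k) := by
  apply le_antisymm
  · refine Subgroup.normalClosure_le_normal ?_
    rintro _ ⟨v, j, h, rfl⟩
    exact t9_mem v.length v j rfl h
  · refine Subgroup.normalClosure_mono ?_
    rintro _ ⟨v, j, h, -, rfl⟩
    exact ⟨v, j, h, rfl⟩

end Pool.Agent.Helper20.DN
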